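import Pool.Agent.MP_3ee8cb_gt.D3OD.Gen

/-! No pinching: statements on the equation in the plane with two times. -/

namespace Pool.Agent.MP_3ee8cb_gt.D3NP

open Matrix Set D3OD

/-- `A s` is the matrix solution that carries the vertical space at time `s`. -/
structure Two (kN hv vv : ℝ → M) (A A' : ℝ → ℝ → M) : Prop where
  sol : ∀ s, MSol kN (A s) (A' s)
  a0 : ∀ s, A s s = hv s
  a1 : ∀ s, A' s s = vv s

/-- The linear form with coefficients `x` and `y`. -/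
noncomputable def lf (x y : ℝ) : ℝ × ℝ →L[ℝ] ℝ :=
  x • ContinuousLinearMap.fst ℝ ℝ ℝ + y • ContinuousLinearMap.snd ℝ ℝ ℝ

/-- Derivatives with respect to the first time. -/
structure Par (A A' D E : ℝ → ℝ → M) : Prop where
  dA : ∀ s t i l, HasFDerivAt (fun p : ℝ × ℝ => A p.1 p.2 i l) (lf (-D s t i l) (A' s t i l)) (s, t)
  dA' : ∀ s t, MD (fun r => A' r t) (-E s t) s
  symp : ∀ s t x e x' e', om (D s t *ᵥ x + A s t *ᵥ e) (E s t *ᵥ x + A' s t *ᵥ e)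
    (D s t *ᵥ x' + A s t *ᵥ e') (E s t *ᵥ x' + A' s t *ᵥ e') = om x e x' e'

/-- A statement about one orbit. -/
def OnO (P : ℝ → (ℝ → M) → (ℝ → ℝ → M) → (ℝ → ℝ → M) → Prop) : Prop :=
  ∀ (a C : ℝ) (kM kN hh hv vh vv : ℝ → M) (A A' : ℝ → ℝ → M), 0 < a →
    OrbA a C kM kN hh hv vh vv → Two kN hv vv A A' → P a kN A A'

/-- The matrix `W`. -/
noncomputable def Wm (Z : M) : M := (Z⁻¹)ᵀ * Z⁻¹

/-- Twice the matrix `(1 - c² B²)⁻¹`. -/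
noncomputable def Gm (c : ℝ) (B : M) : M := (1 + c • B)⁻¹ + (1 - c • B)⁻¹

/-- The defect. -/
noncomputable def pn (u v y : ℝ) : ℝ := 2 / √(u * v) - 4 + 2 * y

def S_TWO : Prop := OnO fun _ _ A A' => ∃ D E, Par A A' D E

def S_DIAA : Prop := OnO fun a _ A A' => ∀ s t, Good (a • A s t) (A' s t)

def S_BS : Prop := OnO fun _ kN A A' => ∀ s t,
  MD (fun r => Bm (A r t) (A' r t)) (-Wm (A' s t)) s ∧
  MD (fun r => Bm (A s r) (A' s r)) (1 - Bm (A s t) (A' s t) * kN t * Bm (A s t) (A' s t)) t ∧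
  HasDerivAt (fun r => Real.log |(A' s r).det|) (kN t * Bm (A s t) (A' s t)).trace t

def S_AL1 : Prop := ∀ (a : ℝ) (A A' κ : M), 0 < a → Good (a • A) A' → κᵀ = κ →
  (∀ x : V, a ^ 2 * (x ⬝ᵥ x) ≤ x ⬝ᵥ κ *ᵥ x) →
  (1 + (a / 2) • Bm A A').det ≠ 0 ∧ (1 - (a / 2) • Bm A A').det ≠ 0 ∧
  (Gm (a / 2) (Bm A A') * (1 - Bm A A' * κ * Bm A A')).trace / 2 ≤ 2 ∧
  |Fm (a / 2) (Bm A A')| ≤ 4 / a ∧ 0 ≤ (κ * Wm A').trace

def S_AL2 : Prop := ∀ (a : ℝ) (A A' : M), 0 < a → Good (a • A) A' →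
  2 / √(|(A' + (a / 2) • A).det| * |(A' + (-(a / 2)) • A).det|) ≤
    (Gm (a / 2) (Bm A A') * Wm A').trace / 2

def S_AL3 : Prop := ∀ (a : ℝ) (A A' : M), 0 < a → Good (a • A) A' →
  (A' + (a / 2) • A).det ≠ 0 ∧ (A' + (-(a / 2)) • A).det ≠ 0 ∧
  0 ≤ pn |(A' + (a / 2) • A).det| |(A' + (-(a / 2)) • A).det| |A'.det| ∧
  (pn |(A' + (a / 2) • A).det| |(A' + (-(a / 2)) • A).det| |A'.det| = 0 → A = 0 ∧ |A'.det| = 1)

/-- An antitone function with differentiable upper supports to the right. -/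
def S_DINI : Prop := ∀ φ k : ℝ → ℝ, Antitone φ → Continuous k →
  (∀ s, ∃ (ψ : ℝ → ℝ) (d : ℝ), HasDerivAt ψ d s ∧ d ≤ k s ∧ ψ s = φ s ∧ ∀ r, s ≤ r → φ r ≤ ψ r) →
  ∀ S, 0 ≤ S → φ S - φ 0 ≤ ∫ s in (0 : ℝ)..S, k s

/-- A monotone choice of minimisers. -/
def S_TOP : Prop := ∀ (Φ : ℝ → ℝ → ℝ) (T : ℝ), 0 ≤ T → (∀ s, Continuous (Φ s)) →
  (∀ s s', s ≤ s' → Antitone fun t => Φ s' t - Φ s t) →
  ∃ τ : ℝ → ℝ, Monotone τ ∧ ∀ s, τ s ∈ Icc (s - T) (s + T) ∧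
    ∀ t ∈ Icc (s - T) (s + T), Φ s (τ s) ≤ Φ s t

/-- The inequality along one orbit. -/
def S_ORB : Prop := OnO fun a _ A A' => ∀ (T : ℝ) (μ q : ℝ → ℝ), 0 ≤ T → Continuous μ →
  Continuous q → (∀ s, ∃ t ∈ Icc (s - T) (s + T), |(A' s t).det| ≤ μ s) →
  (∀ s, ∀ t ∈ Icc (s - T) (s + T), q s ≤
    pn |(A' s t + (a / 2) • A s t).det| |(A' s t + (-(a / 2)) • A s t).det| |(A' s t).det|) →
  ∀ S, 0 ≤ S → -(8 / a + 4 * T) ≤ ∫ s in (0 : ℝ)..S, (2 * (μ s - 1) - q s)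

/-- There is at most one focal time. -/
def S_UNI : Prop := OnO fun _ _ A _ => ∀ s t t', A s t = 0 → A s t' = 0 → t = t'

/-- The focal time moves with unit speed. -/
def S_TAU : Prop := OnO fun _ _ A A' => ∀ τ : ℝ → ℝ, Continuous τ →
  (∀ s, A s (τ s) = 0 ∧ |(A' s (τ s)).det| = 1) → ∀ s, τ s - s = τ 0

def R_TWO : Prop := S_MEX → S_UQ → S_OM → S_TWO
def R_DIAA : Prop := S_DIA → S_DIAA
def R_BS : Prop := S_BDER → S_SCH → S_TWO → S_DIAA → S_BS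
def R_AL1 : Prop := S_EIG → S_AL1
def R_AL2 : Prop := S_EIG → S_AL2
def R_AL3 : Prop := S_EIG → S_AL3
def R_ORB : Prop := S_FDER → S_DIAA → S_BS → S_AL1 → S_AL2 → S_DINI → S_TOP → S_ORB
def R_UNI : Prop := S_OM → S_DIAA → S_UNI
def R_TAU : Prop := S_TWO → S_DIAA → S_TAU

end Pool.Agent.MP_3ee8cb_gt.D3NP
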