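import Pool.Agent.MP_3ee8cb_gt.D3.Spec
import Pool.Agent.MP_3ee8cb_gt.D3NP.OSpec

/-! No pinching: statements in frames. -/

namespace Pool.Agent.MP_3ee8cb_gt.D3NP

open Set D3
open CR (Met UT tm FdP)
open scoped RealInnerProductSpace

noncomputable section

/-- The horizontal derivative of the front at time `t`, on vectors orthogonal to `a`. -/
def At (m : MF) (σ : V → V × V) (t : ℝ) (a : V) : V →L[ℝ] V :=
  ((m.hor (m.Z t (σ a))).comp ((fderiv ℝ (m.Z t) (σ a)).comp (fderiv ℝ σ a))).comp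
    (.id ℝ V - (innerSL ℝ a).smulRight a)

/-- The vertical derivative of the front at time `t`. -/
def At2 (m : MF) (σ : V → V × V) (t : ℝ) (a : V) : V →L[ℝ] V :=
  (m.ver (m.Z t (σ a))).comp ((fderiv ℝ (m.Z t) (σ a)).comp (fderiv ℝ σ a))

theorem At_apply (m : MF) (σ : V → V × V) (t : ℝ) (a e : V) :
    At m σ t a e = m.J (σ a) (fderiv ℝ σ a (e - ⟪a, e⟫ • a)) t := rfl

theorem At2_apply (m : MF) (σ : V → V × V) (t : ℝ) (a e : V) :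
    At2 m σ t a e = m.J' (σ a) (fderiv ℝ σ a e) t := rfl

/-- `|det (A' + c A)|` at time `t`. -/
def Dt (m : MF) (σ : V → V × V) (c t : ℝ) (a : V) : ℝ := |(At2 m σ t a + c • At m σ t a).det|

/-- The fibre inequality, for frames with the property `Reg`. -/
def SFIB (Reg : MF → Prop) : Prop := OnF fun m lg σ T => Reg m → Wid m lg σ T → ∀ lo, 0 < lo →
  m.Up lo → ∀ g : V → ℝ, ContinuousOn g {a | ‖a‖ = 1} →
  (∀ a t, ‖a‖ = 1 → |t| ≤ T → g a ≤ |(At2 m σ t a).det|) → sph g ≤ sph fun _ => 1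

/-- Continuity and invariance. -/
structure Sc2 (m' : MF) (φ : V × V → V × V) (Γ : Type) [Group Γ] [MulAction Γ V]
    (O : Γ → V → V ≃ₗᵢ[ℝ] V) : Prop where
  cD : ∀ c, ContinuousOn (fun p : (V × V) × ℝ => Dt m' (fr φ p.1.1) c p.2 p.1.2) {p | p.1.2 ≠ 0}
  cA : ContinuousOn (fun p : (V × V) × ℝ => At m' (fr φ p.1.1) p.2 p.1.2) {p | p.1.2 ≠ 0}
  iD : ∀ (γ : Γ) (z : V × V) c t, ‖z.2‖ = 1 →
    Dt m' (fr φ (γ • z.1)) c t (O γ z.1 z.2) = Dt m' (fr φ z.1) c t z.2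
  iA : ∀ (γ : Γ) (z : V × V) t, ‖z.2‖ = 1 → At m' (fr φ z.1) t z.2 = 0 →
    At m' (fr φ (γ • z.1)) t (O γ z.1 z.2) = 0

def SSC2 : Prop := ∀ (m m' : MF) (φ : V × V → V × V) (Γ Λ : Type) [Group Γ] [Group Λ]
  [MulAction Γ V] [MulAction Λ V] (ρ : Γ ≃* Λ) O O', m.OK → m'.OK → CF m m' φ → Act m Γ O →
  Act m' Λ O' → Eqv ρ O O' φ → Sc2 m' φ Γ O

/-- The flip, and time zero. -/
def SFL2 : Prop := ∀ (m : MF) (σ : V → V × V), m.OK → m.Jac → m.Front σ → ∀ a, ‖a‖ = 1 →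
  (∀ t, At m σ t a = 0 → At m σ (-t) (-a) = 0) ∧ (At m σ 0 a = 0 → m.A σ a = 0)

/-- The link with the equation in the plane. -/
def Lk2 (m m' : MF) (φ : V × V → V × V) (a : ℝ) : Prop := ∀ z : V × V, ‖z.2‖ = 1 →
  ∃ C kM kN hh hv vh vv A A', D3OD.OrbA a C kM kN hh hv vh vv ∧ Two kN hv vv A A' ∧ ∀ s t,
    (∀ c, Dt m' (fr φ (m.Z s z).1) c (t - s) (m.Z s z).2 = |(A' s t + c • A s t).det|) ∧
    (At m' (fr φ (m.Z s z).1) (t - s) (m.Z s z).2 = 0 ↔ A s t = 0)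

def SLK2 : Prop := OnC fun m m' φ a _ => Sy m m' φ → Lk2 m m' φ a

/-- Averaging over the closed manifold. -/
def SINT2 : Prop := ∀ (m : MF) (Γ : Type) [Group Γ] [MulAction Γ V] O (G q : V × V → ℝ) (K : ℝ),
  m.OK → m.Jac → Act m Γ O → FdP 3 Γ → ContinuousOn G {z | ‖z.2‖ = 1} →
  ContinuousOn q {z | ‖z.2‖ = 1} →
  (∀ (γ : Γ) (z : V × V), ‖z.2‖ = 1 → G (γ • z.1, O γ z.1 z.2) = G z ∧
    q (γ • z.1, O γ z.1 z.2) = q z) →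
  (∀ z : V × V, ‖z.2‖ = 1 → 0 ≤ q z ∧ ∀ S, 0 ≤ S →
    -K ≤ ∫ t in (0 : ℝ)..S, (G (m.Z t z) - q (m.Z t z))) →
  (∀ x, sph (fun a => G (x, a)) ≤ 0) → ∀ z : V × V, ‖z.2‖ = 1 → q z = 0

/-- A continuous invariant function is constant. -/
def SCON : Prop := On2 fun g h _ _ Γ _ _ _ _ _ Φ _ _ _ => ∀ a, 0 < a → TB.CurvLe h a →
  ∀ c : UT g → ℝ, Continuous c → (∀ t p, c (Φ t p) = c p) →
  (∀ (γ : Γ) (p q : UT g), q.1 = tm γ p.1 → c q = c p) → ∀ p q, c p = c q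

/-- The focal time as a function of the vector. -/
def STA2 : Prop := ∀ (m m' : MF) (φ : V × V → V × V) (Γ : Type) [Group Γ] [MulAction Γ V] O
  (a T : ℝ), m.OK → m.Jac → 0 < a → Lk2 m m' φ a → Sc2 m' φ Γ O →
  (∀ x b t, ‖b‖ = 1 → At m' (fr φ x) t b = 0 → At m' (fr φ x) (-t) (-b) = 0) →
  (∀ z : V × V, ‖z.2‖ = 1 → ∃ t ∈ Icc (-T) T, At m' (fr φ z.1) t z.2 = 0 ∧
    Dt m' (fr φ z.1) 0 t z.2 = 1) →
  ∃ τ : V × V → ℝ, ContinuousOn τ {z | ‖z.2‖ = 1} ∧ ∀ z : V × V, ‖z.2‖ = 1 →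
    At m' (fr φ z.1) (τ z) z.2 = 0 ∧ (∀ s, τ (m.Z s z) = τ z) ∧
    (∀ γ : Γ, τ (γ • z.1, O γ z.1 z.2) = τ z) ∧ τ (z.1, -z.2) = -τ z

def R_TA2 : Prop := S_UNI → S_TAU → STA2

/-- From frames to unit vectors: an odd invariant function vanishes. -/
def SZER : Prop := ∀ (g : Met 3) (C : TB.Chr 3) (Γ : Type) [Group Γ] [MulAction Γ V]
  (Φ : ℝ → UT g → UT g) (m : MF) O (τ : V × V → ℝ), m.OK → Lk g C Φ m → Act m Γ O →
  (∀ c : UT g → ℝ, Continuous c → (∀ t p, c (Φ t p) = c p) →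
    (∀ (γ : Γ) (p q : UT g), q.1 = tm γ p.1 → c q = c p) → ∀ p q, c p = c q) →
  ContinuousOn τ {z | ‖z.2‖ = 1} → (∀ z : V × V, ‖z.2‖ = 1 → (∀ s, τ (m.Z s z) = τ z) ∧
    (∀ γ : Γ, τ (γ • z.1, O γ z.1 z.2) = τ z) ∧ τ (z.1, -z.2) = -τ z) →
  ∀ z : V × V, ‖z.2‖ = 1 → τ z = 0

/-- Rigidity under a conjugacy of class `C¹`, without pinching. -/
def MainA2 (Q : Met 3 → Prop) : Prop := On2 fun g h _ C' _ _ _ _ _ _ _ _ ρ F => ∀ a hi, 0 < a →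
  Q h → TB.CurvLe g 0 → Pin h C' (a ^ 2) hi → C1L F → C1L F.symm → Iso g h ρ

end

end Pool.Agent.MP_3ee8cb_gt.D3NP
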