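import Pool.Agent.MP_3ee8cb_gt.D3NP.KSpec
import Pool.Agent.MP_3ee8cb_gt.D3NB.Ph
import Pool.Agent.MP_3ee8cb_gt.D3FL.F3

/-! The fibre inequality without pinching: the geometric statements. -/

namespace Pool.Agent.MP_3ee8cb_gt.D3NP

open Set Filter Topology MeasureTheory Metric D3
open D3MO (S2 Cr)
open D3CT (Gn)
open D3AR (un)
open D3NB (Ph dlt kp XX)
open scoped RealInnerProductSpace

noncomputable section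

def Cc (m : MF) (σ : V → V × V) (a : V) : V := (Ph m σ a).1

def ww (m : MF) (σ : V → V × V) (a : V) : V := (Ph m σ a).2

def th (m : MF) (σ : V → V × V) (a : V) : V :=
  ContinuousLinearMap.adjoint (m.S (Cc m σ a)) (ww m σ a)

/-- The distance from the front at time `-L`, shifted. -/
def be (m : MF) (lg : V × V → V) (σ : V → V × V) (L : ℝ) (x : V × V) : ℝ :=
  ‖lg (x.1, zz m σ (-L) (un x.2))‖ - L

/-- The signs. -/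
structure Sg (m : MF) (σ : V → V × V) (T e s : ℝ) : Prop where
  he : e = 1 ∨ e = -1
  hs : s = 1 ∨ s = -1
  y : ∀ p t, ‖p‖ = 1 → 0 < e * (At2 m σ t p).det
  S : ∀ z, 0 < s * (m.S z).det
  far : ∀ p t, ‖p‖ = 1 → t ≤ -T → 0 < e * dlt m σ t p

def SSGN : Prop := OnF fun m _ σ T => ∀ e : ℝ, e = 1 ∨ e = -1 →
  (∀ p t, ‖p‖ = 1 → 0 < e * (At2 m σ t p).det) → ∃ s, Sg m σ T e s

/-- The sizes. -/
structure Big (m : MF) (lg : V × V → V) (σ : V → V × V) (T ρ L : ℝ) : Prop where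
  r0 : 0 < ρ
  le : T ≤ L
  mid : ∀ a, a ≠ 0 → |Real.log ‖a‖| ≤ T + 1 → ‖Cc m σ a‖ < ρ
  big : ∀ z ∈ ball (0 : V) (ρ + 2), ∀ q, ‖q‖ = 1 → ‖lg (z, (σ q).1)‖ < L

def SBIG : Prop := OnF fun m lg σ T => ∃ ρ L, Big m lg σ T ρ L

/-- A statement about the geometric family. -/
def OnH (P : Set V → (V → V) → (V → V) → (V × V → ℝ) → ℝ → ℝ → Prop) : Prop :=
  OnF fun m lg σ T => ∀ ρ L e s, Big m lg σ T ρ L → Sg m σ T e s →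
    P (ball 0 (ρ + 2)) (Cc m σ) (th m σ) (be m lg σ L) (e * s) T

def SG1 : Prop := OnH fun O C θ β _ _ => ContDiffOn ℝ 1 C {a | a ≠ 0} ∧
  ContDiffOn ℝ 1 θ {a | a ≠ 0} ∧ ContinuousOn β {x | x.2 ≠ 0} ∧
  ContDiffOn ℝ 1 β (O ×ˢ {q | q ≠ 0}) ∧ (∀ z q (r : ℝ), 0 < r → β (z, r • q) = β (z, q)) ∧
  ∀ K, IsCompact K → K ⊆ O → IsCompact {a | a ≠ 0 ∧ C a ∈ K}

def SG2 : Prop := OnH fun O C θ β _ _ =>
  (∀ z ∈ O, ∀ q, ‖q‖ = 1 → (∀ e, fderiv ℝ β (z, q) (0, e) = 0) →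
    C (Real.exp (β (z, q)) • q) = z) ∧
  ∀ a, a ≠ 0 → C a ∈ O → β (C a, a) = Real.log ‖a‖ ∧
    ∀ x e, fderiv ℝ β (C a, un a) (x, e) = ⟪θ a, x⟫

def SG3 : Prop := OnH fun O C _ β ε _ => ∀ a, a ≠ 0 → C a ∈ O → ∀ (p : S2) ι φ, p.1 = un a →
  Gn p ι φ → ∃ H, Cr (fun v => β (C a, φ v)) H ∧
    (0 < ε * jc C a → (∀ v, v ≠ 0 → 0 < H v v) ∨ ∀ v, v ≠ 0 → H v v < 0) ∧
    (ε * jc C a < 0 → ∃ v v', 0 < H v v ∧ H v' v' < 0)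

def SG4 : Prop := OnH fun O C θ β _ T =>
  (∀ p q (s t : ℝ), ‖p‖ = 1 → ‖q‖ = 1 → s ≤ t →
    β (C (Real.exp t • p), q) - t ≤ β (C (Real.exp s • p), q) - s) ∧
  (∀ a q, a ≠ 0 → C a ∈ O → Real.log ‖a‖ ≤ -T → ‖q‖ = 1 → Real.log ‖a‖ ≤ β (C a, q)) ∧
  (∀ a q, a ≠ 0 → C a ∈ O → T ≤ Real.log ‖a‖ → ‖q‖ = 1 → q ≠ un a →
    β (C a, q) < Real.log ‖a‖) ∧
  ∀ a a', a ≠ 0 → a' ≠ 0 → C a = C a' → θ a = θ a' → a = a'

def SG5 : Prop := OnH fun _ C _ _ _ _ => ∀ p, ‖p‖ = 1 →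
  {t : ℝ | jc C (Real.exp t • p) = 0}.Finite

/-- The flux, and continuity. -/
def SFX : Prop := ∀ (m : MF) (σ : V → V × V), m.OK → m.Jac → m.Front σ →
  (∀ p t, ‖p‖ = 1 → fx (Cc m σ) (fun a => XX m (Cc m σ a) (ww m σ a)) (Real.exp t • p) =
    kp m (m.Z t (σ p)) * dlt m σ t p) ∧
  ContinuousOn (fun x : V × ℝ => (At2 m σ x.2 x.1).det) {x | ‖x.1‖ = 1}

/-- Gauss-Bonnet at time `t`. -/
def SGBT : Prop := OnF fun m lg σ T => Wid m lg σ T → ∃ e : ℝ, (e = 1 ∨ e = -1) ∧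
  (∀ p t, ‖p‖ = 1 → 0 < e * (At2 m σ t p).det) ∧ ∀ t,
    sph (fun p => e * ((At2 m σ t p).det - kp m (m.Z t (σ p)) * dlt m σ t p)) ≤ sph fun _ => 1

/-- The fibre inequality in nonpositive curvature. -/
def SFIB0 : Prop := OnF fun m lg σ T => D3FL.Sm3 m → Wid m lg σ T → ∀ g : V → ℝ,
  ContinuousOn g {a | ‖a‖ = 1} → (∀ a t, ‖a‖ = 1 → |t| ≤ T → g a ≤ |(At2 m σ t a).det|) →
    sph g ≤ sph fun _ => 1

def R_FIB : Prop := SSGN → SBIG → SG1 → SG2 → SG3 → SG4 → SG5 → SFX → SGBT → SDV → SBOR →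
  SRAY → SPOS → SCUT → SRAD → SFIB0

end

end Pool.Agent.MP_3ee8cb_gt.D3NP
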