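import Pool.Agent.MP_3ee8cb_gt.D3NP.KSpec
import Pool.Agent.MP_3ee8cb_gt.D3MO.Sph

/-! The set of minima and merging saddles is a Borel set. -/

namespace Pool.Agent.MP_3ee8cb_gt.D3NP

open Set Filter Topology MeasureTheory D3
open D3MO (S2 Low)
open D3AR (un)

namespace XBOR

variable {P : Type} [MetricSpace P] {D L : Set P} {p : P}

theorem clo (hD : Dense D) (hL : IsOpen L) :
    p ∈ closure L ↔ ∀ n : ℕ, ∃ q : D, dist p q < 1 / (n + 1 : ℝ) ∧ q.1 ∈ L := by
  constructor
  · intro h n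
    obtain ⟨q, hq, qD⟩ := hD.inter_open_nonempty _ (Metric.isOpen_ball.inter hL)
      (mem_closure_iff.1 h _ Metric.isOpen_ball (Metric.mem_ball_self Nat.one_div_pos_of_nat))
    exact ⟨⟨q, qD⟩, Metric.mem_ball'.1 hq.1, hq.2⟩
  · intro h
    refine Metric.mem_closure_iff.2 fun ε e0 => ?_
    obtain ⟨n, hn⟩ := exists_nat_one_div_lt e0
    obtain ⟨q, h1, h2⟩ := h n
    exact ⟨q, h2, h1.trans hn⟩

theorem low [LocallyPathConnectedSpace P] (hD : Dense D) (hL : IsOpen L) :
    Low L p ↔ ∃ n : ℕ, ∀ q q' : D, dist p q < 1 / (n + 1 : ℝ) → dist p q' < 1 / (n + 1 : ℝ) →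
      q.1 ∈ L → q'.1 ∈ L → JoinedIn L q.1 q'.1 := by
  constructor
  · rintro ⟨U, hU, h⟩
    obtain ⟨ε, e0, he⟩ := Metric.mem_nhds_iff.1 hU
    obtain ⟨n, hn⟩ := exists_nat_one_div_lt e0
    exact ⟨n, fun q q' h1 h2 h3 h4 => h _ ⟨he (Metric.mem_ball'.2 (h1.trans hn)), h3⟩ _
      ⟨he (Metric.mem_ball'.2 (h2.trans hn)), h4⟩⟩
  · rintro ⟨n, h⟩
    have key : ∀ q ∈ Metric.ball p (1 / (n + 1 : ℝ)) ∩ L, ∃ d : D,
        d.1 ∈ Metric.ball p (1 / (n + 1 : ℝ)) ∩ L ∧ JoinedIn L q d.1 := fun q hq => by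
      obtain ⟨d, hd, dD⟩ := hD.inter_open_nonempty _
        ((Metric.isOpen_ball.inter hL).pathComponentIn q) ⟨q, mem_pathComponentIn_self hq⟩
      have j : JoinedIn _ q d := hd
      exact ⟨⟨d, dD⟩, j.target_mem, j.mono inter_subset_right⟩
    refine ⟨_, Metric.ball_mem_nhds p (Nat.one_div_pos_of_nat (n := n)), fun q hq q' hq' => ?_⟩
    obtain ⟨d, hd, j⟩ := key q hq
    obtain ⟨d', hd', j'⟩ := key q' hq'
    exact (j.trans (h d d' (Metric.mem_ball'.1 hd.1) (Metric.mem_ball'.1 hd'.1) hd.2 hd'.2)).trans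
      j'.symm

theorem meas {X : Type} [TopologicalSpace X] [MeasurableSpace X] [OpensMeasurableSpace X]
    [TopologicalSpace.SeparableSpace P] [LocallyPathConnectedSpace P] (L : X → Set P)
    (hW : IsOpen {z : X × P | z.2 ∈ L z.1}) (π : X → P) (hπ : Continuous π) :
    Measurable fun x => π x ∈ closure (L x) ∧ Low (L x) (π x) := by
  obtain ⟨D, Dc, hD⟩ := TopologicalSpace.exists_countable_dense P
  have := Dc.to_subtype
  have oL : ∀ x, IsOpen (L x) := fun x => hW.preimage (Continuous.prodMk_right x)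
  have mM : ∀ q, Measurable fun x => q ∈ L x := fun q =>
    measurableSet_setOf.1 (hW.preimage (Continuous.prodMk_left q)).measurableSet
  have mD : ∀ (q : P) (r : ℝ), Measurable fun x => dist (π x) q < r := fun q r =>
    measurableSet_setOf.1 (isOpen_lt (hπ.dist continuous_const) continuous_const).measurableSet
  have mJ : ∀ q q', Measurable fun x => JoinedIn (L x) q q' := fun q q' => by
    refine measurableSet_setOf.1 (isOpen_iff_mem_nhds.2 ?_).measurableSet
    rintro x ⟨γ, hγ⟩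
    have := (isCompact_range γ.continuous).eventually_forall_of_forall_eventually (x₀ := x)
      (P := fun x q => q ∈ L x) (by
        rintro _ ⟨t, rfl⟩
        exact hW.mem_nhds (hγ t))
    exact this.mono fun y hy => ⟨γ, fun t => hy _ ⟨t, rfl⟩⟩
  simp only [fun x => clo (p := π x) hD (oL x), fun x => low (p := π x) hD (oL x)]
  exact (Measurable.forall fun n => Measurable.exists fun q => (mD _ _).and (mM _)).and
    (Measurable.exists fun n => Measurable.forall fun q => Measurable.forall fun q' =>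
      (mD _ _).imp ((mD _ _).imp ((mM _).imp ((mM _).imp (mJ _ _)))))

end XBOR

theorem xBOR : SBOR := by
  intro O C θ β ε T hF
  have := D3MO.sSph.2.1
  have hA : IsOpen {a : V | a ≠ 0} := isOpen_ne
  have cC : Continuous fun x : {a : V | a ≠ 0} => C x :=
    continuousOn_iff_continuous_restrict.1 hF.cC.continuousOn
  have n0 : ∀ x : {a : V | a ≠ 0}, ‖x.1‖ ≠ 0 := fun x => norm_ne_zero_iff.2 x.2
  let π : {a : V | a ≠ 0} → S2 := fun x => ⟨un x.1, by simp [un, norm_smul, n0 x]⟩
  have hπ : Continuous π :=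
    ((continuous_subtype_val.norm.inv₀ n0).smul continuous_subtype_val).subtype_mk _
  have hW : IsOpen {z : {a : V | a ≠ 0} × S2 | z.2 ∈ Ls C β z.1.1} := by
    refine isOpen_lt (hF.c0.comp_continuous
      ((cC.comp continuous_fst).prodMk (continuous_subtype_val.comp continuous_snd))
      fun z => ne_zero_of_mem_unit_sphere z.2) ?_
    exact (continuous_subtype_val.comp continuous_fst).norm.log fun z => n0 z.1
  have m3 := XBOR.meas (fun x : {a : V | a ≠ 0} => Ls C β x.1) hW π hπ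
  have m1 : Measurable fun x : {a : V | a ≠ 0} => C x ∈ O :=
    measurableSet_setOf.1 (hF.op.preimage cC).measurableSet
  have mj : Measurable (jc C) :=
    ContinuousLinearMap.continuous_det.measurable.comp (measurable_fderiv ℝ C)
  have m2 : Measurable fun x : {a : V | a ≠ 0} => jc C x ≠ 0 :=
    measurableSet_setOf.1 ((mj.comp measurable_subtype_coe) (measurableSet_singleton 0).compl)
  have h := hA.measurableSet.subtype_image (measurableSet_setOf.2 (m1.and (m2.and m3.not)))
  have e : Rs O C β = Subtype.val '' {x : {a : V | a ≠ 0} | C x ∈ O ∧ jc C x ≠ 0 ∧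
      ¬(π x ∈ closure (Ls C β x.1) ∧ Low (Ls C β x.1) (π x))} := by
    ext a
    constructor
    · rintro ⟨h0, h1, h2, h3⟩
      exact ⟨⟨a, h0⟩, ⟨h1, h2, h3 _ rfl⟩, rfl⟩
    · rintro ⟨x, ⟨h1, h2, h3⟩, rfl⟩
      refine ⟨x.2, h1, h2, fun p hp => ?_⟩
      have : p = π x := Subtype.ext hp
      rw [this]
      exact h3
  rw [e]
  exact h

end Pool.Agent.MP_3ee8cb_gt.D3NP
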