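import Pool.Agent.MP_3ee8cb_gt.D3NP.KSpec
import Pool.Agent.MP_3ee8cb_gt.D3GB.RHOM

/-! Calculus for the divergence of a pulled back field. -/

namespace Pool.Agent.MP_3ee8cb_gt.D3NP

open Set Filter Topology MeasureTheory D3
open D3GB (trip bv ev)
open scoped RealInnerProductSpace

namespace XDV

theorem ctrip {a b c : V → V} {s : Set V} (ha : ContinuousOn a s) (hb : ContinuousOn b s)
    (hc : ContinuousOn c s) : ContinuousOn (fun x => trip (a x) (b x) (c x)) s := by
  have h : Continuous fun q : V × V × V => trip q.1 q.2.1 q.2.2 := by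
    unfold trip
    fun_prop
  exact h.comp_continuousOn (ha.prodMk (hb.prodMk hc))

theorem op : IsOpen {a : V | a ≠ 0} := isOpen_ne

theorem cd {C : V → V} (h : ContDiffOn ℝ 1 C {a | a ≠ 0}) (e : V) :
    ContinuousOn (fun a => fderiv ℝ C a e) {a | a ≠ 0} :=
  (h.continuousOn_fderiv_of_isOpen op le_rfl).clm_apply continuousOn_const

theorem tadd (x y b c : V) (r s : ℝ) :
    trip (r • x + s • y) b c = r * trip x b c + s * trip y b c := by
  simp only [trip, PiLp.add_apply, PiLp.smul_apply, smul_eq_mul]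
  ring

theorem tsmul (x b c : V) (r : ℝ) : trip (r • x) b c = r * trip x b c := by
  simp only [trip, PiLp.smul_apply, smul_eq_mul]
  ring

theorem tzero (b c : V) : trip 0 b c = 0 := by
  simp [trip]

theorem tsum {ι : Type} (s : Finset ι) (x : ι → V) (b c : V) :
    trip (∑ i ∈ s, x i) b c = ∑ i ∈ s, trip (x i) b c := by
  classical
  refine Finset.induction_on s (by simp [tzero]) fun i s hi ih => ?_
  have := tadd (x i) (∑ j ∈ s, x j) b c 1 1
  rw [one_smul, one_smul, one_mul, one_mul] at this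
  rw [Finset.sum_insert hi, Finset.sum_insert hi, this, ih]

theorem lin {F : Type} [NormedAddCommGroup F] [NormedSpace ℝ F] (l : V →L[ℝ] F) (v : V) :
    l v = v 0 • l (bv 0) + v 1 • l (bv 1) + v 2 • l (bv 2) := by
  rw [← map_smul, ← map_smul, ← map_smul, ← map_add, ← map_add, ← D3GB.RHOM.dec v]

theorem cramer (l : V →L[ℝ] ℝ) (ξ a b c : V) :
    l ξ * trip a b c = l a * trip ξ b c + l b * trip ξ c a + l c * trip ξ a b := by
  rw [lin l ξ, lin l a, lin l b, lin l c]
  simp only [trip, smul_eq_mul]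
  ring

theorem dlog {a : V} (ha : a ≠ 0) :
    HasFDerivAt (fun b : V => Real.log ‖b‖) ((‖a‖ ^ 2)⁻¹ • innerSL ℝ a) a := by
  have n : ‖a‖ ^ 2 ≠ 0 := pow_ne_zero 2 (norm_ne_zero_iff.2 ha)
  have h := ((hasStrictFDerivAt_norm_sq a).hasFDerivAt.log n).const_mul (1 / 2 : ℝ)
  have e : (fun b : V => 1 / 2 * Real.log (‖b‖ ^ 2)) = fun b => Real.log ‖b‖ := by
    funext b
    rw [Real.log_pow]
    push_cast
    ring
  rw [e] at h
  refine h.congr_fderiv (ContinuousLinearMap.ext fun v => ?_)
  simp only [_root_.smul_apply, smul_eq_mul, nsmul_eq_mul]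
  push_cast
  ring

theorem ibv (a : V) (i : Fin 3) : innerSL ℝ a (bv i) = a i := by
  simp [bv, EuclideanSpace.inner_single_right]

theorem one {u : V → ℝ} {a : V} (hu : DifferentiableAt ℝ u a) (ξ e : V) :
    fderiv ℝ (fun b => u b • ξ) a e = fderiv ℝ u a e • ξ := by
  rw [(hu.hasFDerivAt.smul_const ξ).fderiv, ContinuousLinearMap.smulRight_apply]

theorem cdv {C f : V → V} (hC : ContDiffOn ℝ 1 C {a | a ≠ 0})
    (hf : ContDiffOn ℝ 1 f {a | a ≠ 0}) : ContinuousOn (dv C f) {a | a ≠ 0} :=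
  ((ctrip (cd hf _) (cd hC _) (cd hC _)).add (ctrip (cd hf _) (cd hC _) (cd hC _))).add
    (ctrip (cd hf _) (cd hC _) (cd hC _))

theorem cfx {C f : V → V} (hC : ContDiffOn ℝ 1 C {a | a ≠ 0})
    (hf : ContDiffOn ℝ 1 f {a | a ≠ 0}) : ContinuousOn (fx C f) {a | a ≠ 0} := by
  have p : ∀ i : Fin 3, ContinuousOn (fun a : V => a i) {a | a ≠ 0} := fun i =>
    Continuous.continuousOn (by fun_prop)
  have t : ∀ e e', ContinuousOn (fun a => trip (f a) (fderiv ℝ C a e) (fderiv ℝ C a e'))
      {a | a ≠ 0} := fun e e' => ctrip hf.continuousOn (cd hC _) (cd hC _)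
  exact continuous_norm.continuousOn.mul
    ((((p 0).mul (t _ _)).add ((p 1).mul (t _ _))).add ((p 2).mul (t _ _)))

theorem off {C f : V → V} {K : Set V} (hK : IsCompact K)
    (h : ∀ a, a ≠ 0 → a ∉ K → f a = 0) {a : V} (ha : a ≠ 0) (hk : a ∉ K) : dv C f a = 0 := by
  have e : f =ᶠ[𝓝 a] fun _ => 0 := by
    filter_upwards [op.mem_nhds ha, hK.isClosed.isOpen_compl.mem_nhds hk] with b hb hb'
    exact h b hb hb'
  have d : fderiv ℝ f a = 0 := by
    rw [e.fderiv_eq]
    exact (hasFDerivAt_const (0 : V) a).fderiv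
  simp only [dv, d, ContinuousLinearMap.zero_apply, tzero, add_zero]

end XDV

open XDV

theorem xDV : SDV where
  cont := fun _ _ hC hf => ⟨cdv hC hf, cfx hC hf⟩
  int := fun C f K hC hf hK h0 h => by
    refine ⟨?_, fun a ha hk => off hK h ha hk⟩
    have s : K ⊆ {a | a ≠ 0} := fun a ha q => h0 (q ▸ ha)
    exact (((cdv hC hf).mono s).integrableOn_compact hK).of_forall_diff_eq_zero
      op.measurableSet fun a ha => off hK h ha.1 ha.2
  sum := fun C ι _ f a hf => by
    simp only [dv, fderiv_fun_sum fun i _ => hf i, ContinuousLinearMap.sum_apply, tsum,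
      Finset.sum_add_distrib]
  add := fun C f g c a hf hg => by
    have d : ∀ e, fderiv ℝ (fun b => f b + c • g b) a e =
        (1 : ℝ) • fderiv ℝ f a e + c • fderiv ℝ g a e := fun e => by
      have := (hf.hasFDerivAt.fun_add (hg.hasFDerivAt.fun_const_smul c)).fderiv
      rw [this, one_smul]
      rfl
    simp only [dv, d, tadd]
    ring
  rad := fun C f ψ a ha hf hψ => by
    have n : ‖a‖ ≠ 0 := norm_ne_zero_iff.2 ha
    have h := (hψ.hasDerivAt.comp_hasFDerivAt a (dlog ha)).fun_smul hf.hasFDerivAt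
    have d : ∀ i, fderiv ℝ (fun b => ψ (Real.log ‖b‖) • f b) a (bv i) =
        ψ (Real.log ‖a‖) • fderiv ℝ f a (bv i) +
          (deriv ψ (Real.log ‖a‖) * ((‖a‖ ^ 2)⁻¹ * a i)) • f a := fun i => by
      have := h.fderiv
      simp only [Function.comp] at this
      rw [this, ← ibv a i]
      rfl
    simp only [dv, fx, ev, d, tadd]
    field_simp
    ring
  det := fun C u ξ lam a hl hC hu => by
    have h := hC.hasFDerivAt.fun_add ((hu.hasFDerivAt.fun_sub
      (lam.hasFDerivAt.comp a hC.hasFDerivAt)).smul_const ξ)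
    have d : ∀ e, fderiv ℝ (fun b => C b + (u b - lam (C b)) • ξ) a e =
        fderiv ℝ C a e + (fderiv ℝ u a e - lam (fderiv ℝ C a e)) • ξ := fun e => by
      have := h.fderiv
      simp only [Function.comp] at this
      rw [this]
      rfl
    have c := cramer lam ξ (fderiv ℝ C a (bv 0)) (fderiv ℝ C a (bv 1)) (fderiv ℝ C a (bv 2))
    rw [hl] at c
    rw [jc, D3GB.rDET3]
    simp only [dv, d, one hu]
    simp only [trip, PiLp.add_apply, PiLp.smul_apply, smul_eq_mul] at c ⊢
    linear_combination c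
  slope := fun C u ξ η a hu h => by
    rw [jc, D3GB.rDET3, lin (fderiv ℝ u a) η]
    simp only [dv, one hu]
    rw [← h, lin (fderiv ℝ C a) η]
    simp only [trip, PiLp.add_apply, PiLp.smul_apply, smul_eq_mul]
    ring

end Pool.Agent.MP_3ee8cb_gt.D3NP
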