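import Pool.Agent.MP_3ee8cb_gt.D3NP.RGOOD

/-! Almost every line and level is generic. -/

namespace Pool.Agent.MP_3ee8cb_gt.D3NP

open D3 Set MeasureTheory Filter Topology
open scoped RealInnerProductSpace

variable {O : Set V} {C θ : V → V} {β : V × V → ℝ} {ε T : ℝ} {α : V → ℝ}

theorem Fam.cus (F : Fam O C θ β ε T) (W : Wg O α) (ξ : V) {a : V} (ha : a ≠ 0) :
    ContDiffAt ℝ 1 (us C θ α ξ) a :=
  (W.c1.contDiffAt.comp a (at_of F.cC ha)).mul ((at_of F.cθ ha).inner ℝ contDiffAt_const)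

theorem us_sup {ξ a : V} (h : us C θ α ξ a ≠ 0) : C a ∈ tsupport α :=
  subset_tsupport _ (left_ne_zero_of_mul h)

/-- The event map. -/
noncomputable def Em (C : V → V) (u : V → ℝ) (ξ : V) (lam : V →L[ℝ] ℝ) (b : V) : V :=
  C b + (u b - lam (C b)) • ξ

theorem Fam.cE (F : Fam O C θ β ε T) (W : Wg O α) (ξ : V) (lam : V →L[ℝ] ℝ) {a : V}
    (ha : a ≠ 0) : ContDiffAt ℝ 1 (Em C (us C θ α ξ) ξ lam) a :=
  (at_of F.cC ha).add (((F.cus W ξ ha).sub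
    (lam.contDiff.contDiffAt.comp a (at_of F.cC ha))).smul contDiffAt_const)

theorem mem_evt {ξ v a : V} {lam : V →L[ℝ] ℝ} (hl : lam ξ = 1) :
    a ∈ Evt C θ α ξ v (lam v) ↔ a ≠ 0 ∧ Em C (us C θ α ξ) ξ lam a = v := by
  unfold Em
  refine and_congr_right fun _ => ⟨?_, ?_⟩
  · rintro ⟨⟨r, e⟩, h⟩
    rw [h, e, map_add, map_smul, hl, smul_eq_mul]
    module
  · rintro rfl
    refine ⟨⟨-(us C θ α ξ a - lam (C a)), by module⟩, ?_⟩
    rw [map_add, map_smul, hl, smul_eq_mul]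
    ring

theorem Fam.jE (F : Fam O C θ β ε T) (D : SDV) (W : Wg O α) {ξ : V} {lam : V →L[ℝ] ℝ}
    (hl : lam ξ = 1) {a : V} (ha : a ≠ 0) :
    jc (Em C (us C θ α ξ) ξ lam) a = dv C (fun b => us C θ α ξ b • ξ) a :=
  D.det C _ ξ lam a hl ((at_of F.cC ha).differentiableAt one_ne_zero)
    ((F.cus W ξ ha).differentiableAt one_ne_zero)

theorem rEvt : R_EVT := by
  intro D G O C θ β ε T F α ξ lam W hl
  have g := ae_iff.1 (G O C θ β ε T F)
  have dE : ∀ a : V, a ≠ 0 → DifferentiableAt ℝ (Em C (us C θ α ξ) ξ lam) a := fun a ha =>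
    (F.cE W ξ lam ha).differentiableAt one_ne_zero
  have n1 : volume {v : V | lam v = 0} = 0 :=
    Measure.addHaar_submodule volume (LinearMap.ker (lam : V →ₗ[ℝ] ℝ)) fun e => by
      have : ξ ∈ LinearMap.ker (lam : V →ₗ[ℝ] ℝ) := e ▸ Submodule.mem_top
      exact one_ne_zero (hl.symm.trans this)
  have n2 := nul_crit (U := {a | a ≠ 0}) dE
  have n3 : volume {a : V | jc C a = 0} = 0 := nul_ray
    (measurableSet_eq_fun (ContinuousLinearMap.continuous_det.measurable.comp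
      (measurable_fderiv ℝ C)) measurable_const) fun p hp => (F.zer p hp).measure_zero _
  have n4 := nul (U := {a | a ≠ 0}) (fun a ha => at_of F.cC ha) fun a ha => F.cus W ξ ha
  have n5 := nul_pre (U := {a | a ≠ 0}) (fun a ha => at_of F.cC ha) (measure_union_null g n4)
  have n6 := nul_img (S := {a | a ≠ 0} ∩ _) (fun a ha => dE a ha.1)
    (measure_mono_null inter_subset_right (measure_union_null n3 n5))
  filter_upwards [measure_eq_zero_iff_ae_notMem.1 n1, measure_eq_zero_iff_ae_notMem.1 n2,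
    measure_eq_zero_iff_ae_notMem.1 n6, nul_line g ξ] with v v1 v2 v3 v4
  have sp : ∀ a ∈ Evt C θ α ξ v (lam v), C a ∈ tsupport α := fun a ha =>
    us_sup (ξ := ξ) (θ := θ) fun e => v1 (ha.2.2.symm.trans e)
  have j1 : ∀ a ∈ Evt C θ α ξ v (lam v), jc C a ≠ 0 := fun a ha e =>
    v3 ⟨a, ⟨ha.1, Or.inl e⟩, ((mem_evt hl).1 ha).2⟩
  have j2 : ∀ a ∈ Evt C θ α ξ v (lam v), jc (Em C (us C θ α ξ) ξ lam) a ≠ 0 := fun a ha e =>
    v2 ⟨a, ha.1, ((mem_evt hl).1 ha).2, e⟩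
  have j3 : ∀ a ∈ Evt C θ α ξ v (lam v), ∀ η, fderiv ℝ C a η = ξ → fderiv ℝ (us C θ α ξ) a η =
      dv C (fun b => us C θ α ξ b • ξ) a / jc C a := fun a ha η e => by
    rw [D.slope C _ ξ η a ((F.cus W ξ ha.1).differentiableAt one_ne_zero) e,
      mul_div_cancel_left₀ _ (j1 a ha)]
  refine ⟨v1, ?_, fun a ha => ?_, fun a ha => ⟨div_ne_zero (F.jE D W hl ha.1 ▸ j2 a ha) (j1 a ha),
    (surj_of (j1 a ha) ξ).imp fun η e => ⟨e, j3 a ha η e⟩⟩, fun a ha b hb e => ?_,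
    v4.mono fun r hr => not_not.1 hr⟩
  · have k := F.cpt _ W.cs W.sub
    refine fin_of (y := v) (k.of_isClosed_subset ?_ fun a ha => ⟨ha.1, sp a ha⟩)
      fun a ha => ⟨dE a ha.1, j2 a ha, ((mem_evt hl).1 ha).2⟩
    have := ContinuousOn.preimage_isClosed_of_isClosed (f := Em C (us C θ α ξ) ξ lam)
      (fun a ha => (dE a ha.1).continuousAt.continuousWithinAt) k.isClosed
      (isClosed_singleton (x := v))
    refine (congrArg IsClosed (Set.ext fun a => ?_)).mp this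
    exact ⟨fun h => (mem_evt hl).2 ⟨h.1.1, h.2⟩, fun h => ⟨⟨h.1, sp a h⟩, ((mem_evt hl).1 h).2⟩⟩
  · by_contra h
    exact v3 ⟨a, ⟨ha.1, Or.inr ⟨ha.1, j1 a ha, Or.inl fun k => h (k (W.sub (sp a ha)))⟩⟩,
      ((mem_evt hl).1 ha).2⟩
  · obtain ⟨η, e1⟩ := surj_of (j1 a ha) ξ
    obtain ⟨η', e2⟩ := surj_of (j1 b hb) ξ
    rw [← j3 a ha η e1, ← j3 b hb η' e2]
    by_contra h
    exact v3 ⟨a, ⟨ha.1, Or.inr ⟨ha.1, j1 a ha, Or.inr ⟨a, ha.1, b, hb.1, rfl, e.symm, j1 a ha,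
      j1 b hb, ha.2.2.trans hb.2.2.symm, η, η', e1.trans e2.symm, h⟩⟩⟩, ((mem_evt hl).1 ha).2⟩

end Pool.Agent.MP_3ee8cb_gt.D3NP
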