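import Pool.Agent.MP_3ee8cb_gt.D3.Defs

/-! A positive definite field is a positive combination of constant rank one forms. -/

namespace Pool.Agent.MP_3ee8cb_gt.D3NP

open D3 Set Metric Filter Topology
open scoped RealInnerProductSpace Manifold ContDiff

theorem pos_alg (b : OrthonormalBasis (Fin 3) ℝ V) (A : V →L[ℝ] V)
    (hs : ∀ x y, ⟪A x, y⟫ = ⟪x, A y⟫) (ε : ℝ) (x : V) :
    A x = ∑ i : Fin 9,
      ((![⟪b 0, A (b 0)⟫ - 2 * ε, ⟪b 1, A (b 1)⟫ - 2 * ε, ⟪b 2, A (b 2)⟫ - 2 * ε,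
        (ε + ⟪b 0, A (b 1)⟫) / 2, (ε - ⟪b 0, A (b 1)⟫) / 2, (ε + ⟪b 0, A (b 2)⟫) / 2,
        (ε - ⟪b 0, A (b 2)⟫) / 2, (ε + ⟪b 1, A (b 2)⟫) / 2, (ε - ⟪b 1, A (b 2)⟫) / 2] :
          Fin 9 → ℝ) i *
      ⟪(![b 0, b 1, b 2, b 0 + b 1, b 0 - b 1, b 0 + b 2, b 0 - b 2, b 1 + b 2, b 1 - b 2] :
        Fin 9 → V) i, x⟫) •
      (![b 0, b 1, b 2, b 0 + b 1, b 0 - b 1, b 0 + b 2, b 0 - b 2, b 1 + b 2, b 1 - b 2] :
        Fin 9 → V) i := by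
  have h1 : ∀ y, y = ⟪b 0, y⟫ • b 0 + ⟪b 1, y⟫ • b 1 + ⟪b 2, y⟫ • b 2 := fun y => by
    simpa only [Fin.sum_univ_three] using (b.sum_repr' y).symm
  have h2 : ∀ i, ⟪b i, A x⟫ = ⟪b 0, x⟫ * ⟪b i, A (b 0)⟫ + ⟪b 1, x⟫ * ⟪b i, A (b 1)⟫ +
      ⟪b 2, x⟫ * ⟪b i, A (b 2)⟫ := fun i => by
    conv_lhs => rw [h1 x]
    simp only [map_add, map_smul, inner_add_right, real_inner_smul_right]
  have h3 : ∀ i j, ⟪b i, A (b j)⟫ = ⟪b j, A (b i)⟫ := fun i j => by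
    rw [← hs, real_inner_comm]
  rw [h1 (A x), h2, h2, h2, h3 1 0, h3 2 0, h3 2 1]
  simp only [Fin.sum_univ_succ, Matrix.cons_val_zero, Matrix.cons_val_succ, Fin.sum_univ_zero,
    inner_add_left, inner_sub_left]
  module

theorem pos_loc {G : V → V →L[ℝ] V} (c : ContDiff ℝ 1 G) (hs : ∀ z x y, ⟪G z x, y⟫ = ⟪x, G z y⟫)
    {z : V} (hp : ∀ x, x ≠ 0 → 0 < ⟪G z x, x⟫) : ∃ (ξ : Fin 9 → V) (a : Fin 9 → V → ℝ),
      (∀ i, ContDiff ℝ 1 (a i)) ∧ (∀ᶠ y in 𝓝 z, ∀ i, 0 ≤ a i y) ∧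
      ∀ y x, G y x = ∑ i, (a i y * ⟪ξ i, x⟫) • ξ i := by
  have hT : (G z : V →ₗ[ℝ] V).IsSymmetric := hs z
  have hn : Module.finrank ℝ V = 3 := by simp
  set b := hT.eigenvectorBasis hn
  have e1 : ∀ i j, i ≠ j → ⟪b i, G z (b j)⟫ = 0 := fun i j h => by
    have : G z (b j) = _ := hT.apply_eigenvectorBasis hn j
    rw [this, real_inner_smul_right, b.orthonormal.2 h, mul_zero]
  have e2 : ∀ i, 0 < ⟪b i, G z (b i)⟫ := fun i => by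
    rw [real_inner_comm]
    exact hp _ (b.orthonormal.ne_zero i)
  have cc : ∀ i j, ContDiff ℝ 1 fun y => ⟪b i, G y (b j)⟫ := fun i j =>
    contDiff_const.inner ℝ (c.clm_apply contDiff_const)
  obtain ⟨ε, ε0, hε⟩ : ∃ ε : ℝ, 0 < ε ∧ ∀ i, 2 * ε < ⟪b i, G z (b i)⟫ := by
    obtain ⟨i, -, hi⟩ := Finset.univ.exists_min_image (fun i => ⟪b i, G z (b i)⟫)
      Finset.univ_nonempty
    exact ⟨⟪b i, G z (b i)⟫ / 4, by linarith [e2 i], fun j => by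
      linarith [e2 i, hi j (Finset.mem_univ _)]⟩
  have d : ∀ i, ∀ᶠ y in 𝓝 z, 2 * ε < ⟪b i, G y (b i)⟫ := fun i =>
    (cc i i).continuous.continuousAt.eventually (lt_mem_nhds (hε i))
  have o : ∀ i j, i ≠ j → ∀ᶠ y in 𝓝 z, -ε < ⟪b i, G y (b j)⟫ ∧ ⟪b i, G y (b j)⟫ < ε :=
    fun i j h => (cc i j).continuous.continuousAt.eventually (p := fun t => -ε < t ∧ t < ε)
      (Ioo_mem_nhds (by simp only [e1 i j h]; linarith) (by simp only [e1 i j h]; exact ε0))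
  refine ⟨_, fun i y => _, fun i => ?_, ?_, fun y x => pos_alg b (G y) (hs y) ε x⟩
  · fin_cases i <;> simp only [Fin.zero_eta, Fin.mk_one, Fin.reduceFinMk, Matrix.cons_val] <;>
      first
        | exact (cc _ _).sub contDiff_const
        | exact (contDiff_const.add (cc _ _)).div_const _
        | exact (contDiff_const.sub (cc _ _)).div_const _
  · filter_upwards [d 0, d 1, d 2, o 0 1 (by decide), o 0 2 (by decide), o 1 2 (by decide)] with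
      y d0 d1 d2 o1 o2 o3 i
    fin_cases i <;> simp only [Fin.zero_eta, Fin.mk_one, Fin.reduceFinMk, Matrix.cons_val] <;>
      linarith [o1.1, o1.2, o2.1, o2.2, o3.1, o3.2]

/-- The decomposition, with supports in small balls. -/
theorem pos_dec {G : V → V →L[ℝ] V} {O : Set V} {ζ : V → ℝ} (c : ContDiff ℝ 1 G)
    (hs : ∀ z x y, ⟪G z x, y⟫ = ⟪x, G z y⟫) (hp : ∀ z ∈ O, ∀ x, x ≠ 0 → 0 < ⟪G z x, x⟫)
    (hO : IsOpen O) (cζ : ContDiff ℝ 1 ζ) (ζ0 : ∀ z, 0 ≤ ζ z) (k : HasCompactSupport ζ)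
    (sζ : tsupport ζ ⊆ O) : ∃ (ι : Type) (_ : Fintype ι) (ξ : ι → V) (φ : ι → V → ℝ) (o : ι → V)
      (r : ι → ℝ), (∀ i, ContDiff ℝ 1 (φ i) ∧ (∀ z, 0 ≤ φ i z) ∧ 0 < r i ∧
        tsupport (φ i) ⊆ ball (o i) (r i) ∧ closedBall (o i) (4 * r i) ⊆ O) ∧
      ∀ z x, ζ z • G z x = ∑ i, (φ i z * ⟪ξ i, x⟫) • ξ i := by
  have h1 : ∀ z ∈ tsupport ζ, ∃ (ξ : Fin 9 → V) (a : Fin 9 → V → ℝ) (r : ℝ), 0 < r ∧
      closedBall z (4 * r) ⊆ O ∧ (∀ i, ContDiff ℝ 1 (a i)) ∧ (∀ y ∈ ball z r, ∀ i, 0 ≤ a i y) ∧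
      ∀ y x, G y x = ∑ i, (a i y * ⟪ξ i, x⟫) • ξ i := fun z hz => by
    obtain ⟨ξ, a, a1, a2, a3⟩ := pos_loc c hs (hp z (sζ hz))
    obtain ⟨r, r0, hr⟩ := nhds_basis_closedBall.mem_iff.1 (inter_mem (hO.mem_nhds (sζ hz)) a2)
    refine ⟨ξ, a, r / 4, by positivity,
      fun y hy => (hr (by rwa [mul_div_cancel₀] at hy; norm_num)).1, a1,
      fun y hy => (hr (ball_subset_closedBall (ball_subset_ball (by linarith) hy))).2, a3⟩
  choose! ξ a r r0 h2 h3 h4 h5 using h1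
  obtain ⟨t, t1, t2⟩ := k.elim_nhds_subcover (fun z => ball z (r z))
    fun z hz => ball_mem_nhds z (r0 z hz)
  obtain ⟨ρ, hρ⟩ := SmoothPartitionOfUnity.exists_isSubordinate 𝓘(ℝ, V) (isClosed_tsupport ζ)
    (fun z : t => ball z.1 (r z)) (fun _ => isOpen_ball) (by
      intro y hy
      obtain ⟨z, hz, hy⟩ := mem_iUnion₂.1 (t2 hy)
      exact mem_iUnion.2 ⟨⟨z, hz⟩, hy⟩)
  refine ⟨t × Fin 9, inferInstance, fun i => ξ i.1 i.2, fun i y => ζ y * ρ i.1 y * a i.1 i.2 y,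
    fun i => i.1, fun i => r i.1, fun i => ⟨?_, fun y => ?_, r0 _ (t1 _ i.1.2), ?_,
      h2 _ (t1 _ i.1.2)⟩, fun y x => ?_⟩
  · exact (cζ.mul ((ρ i.1).contMDiff.contDiff.of_le (by simp))).mul (h3 _ (t1 _ i.1.2) _)
  · by_cases e : ρ i.1 y = 0
    · simp [e]
    · exact mul_nonneg (mul_nonneg (ζ0 y) (ρ.nonneg _ _))
        (h4 _ (t1 _ i.1.2) y (hρ i.1 (subset_tsupport _ e)) _)
  · refine Subset.trans (closure_mono (s := Function.support _) (t := Function.support (ρ i.1))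
      fun y hy e => hy ?_) (hρ i.1)
    simp [e]
  · by_cases hy : y ∈ tsupport ζ
    · have s1 := ρ.sum_eq_one hy
      rw [finsum_eq_sum_of_fintype] at s1
      rw [Fintype.sum_prod_type, ← mul_one (ζ y), ← s1, Finset.mul_sum, Finset.sum_smul]
      refine Finset.sum_congr rfl fun z _ => ?_
      rw [h5 _ (t1 _ z.2), Finset.smul_sum]
      refine Finset.sum_congr rfl fun i _ => ?_
      rw [smul_smul]
      congr 1
      ring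
    · simp [image_eq_zero_of_notMem_tsupport hy]

end Pool.Agent.MP_3ee8cb_gt.D3NP
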