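import Pool.Agent.MP_3ee8cb_gt.D3NP.GSpec
import Pool.Agent.MP_3ee8cb_gt.D3WI.Base

/-! The signs of the determinants of a front. -/

namespace Pool.Agent.MP_3ee8cb_gt.D3NP

open Set Filter Topology D3
open D3NB (dlt)
open D3GB (trip)
open scoped RealInnerProductSpace

namespace XSGN

variable {m : MF} {σ : V → V × V}

theorem dflip (ho : m.OK) (hj : m.Jac) (hf : m.Front σ) {a : V} (ha : a ≠ 0) (t : ℝ) (e : V) :
    fderiv ℝ (m.Z t) (σ (-a)) (fderiv ℝ σ (-a) (-e)) =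
      ((fderiv ℝ (m.Z (-t)) (σ a) (fderiv ℝ σ a e)).1,
        -(fderiv ℝ (m.Z (-t)) (σ a) (fderiv ℝ σ a e)).2) := by
  have h1 := (D3WI.Z_diff ho (-t) (σ a)).hasFDerivAt.comp a (D3WI.front_diff hf ha).hasFDerivAt
  have h2 := h1.fst.prodMk h1.snd.neg
  have h3 := ((D3WI.Z_diff ho t (σ (-a))).hasFDerivAt.comp (-a)
    (D3WI.front_diff hf (neg_ne_zero.2 ha)).hasFDerivAt).comp a (hasFDerivAt_id a).neg
  have h4 := h3.unique (h2.congr_of_eventuallyEq (by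
    filter_upwards [isOpen_ne.mem_nhds ha] with b hb
    exact D3WI.Z_neg hj hf hb t))
  exact congrArg (fun L : V →L[ℝ] V × V => L e) h4

theorem J_flip (ho : m.OK) (hj : m.Jac) (hf : m.Front σ) {a : V} (ha : a ≠ 0) (t : ℝ) (e : V) :
    m.J (σ (-a)) (fderiv ℝ σ (-a) (-e)) t = m.J (σ a) (fderiv ℝ σ a e) (-t) := by
  rw [MF.J, MF.J, dflip ho hj hf ha, D3WI.Z_neg hj hf ha]
  rfl

theorem J'_flip (ho : m.OK) (hj : m.Jac) (hf : m.Front σ) {a : V} (ha : a ≠ 0) (t : ℝ) (e : V) :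
    m.J' (σ (-a)) (fderiv ℝ σ (-a) (-e)) t = -m.J' (σ a) (fderiv ℝ σ a e) (-t) := by
  rw [MF.J', MF.J', dflip ho hj hf ha, D3WI.Z_neg hj hf ha]
  simp only [MF.ver, add_apply, ContinuousLinearMap.comp_apply,
    ContinuousLinearMap.coe_snd', ContinuousLinearMap.coe_fst', ContinuousLinearMap.flip_apply,
    map_neg, neg_add, neg_apply]

theorem neg {T : ℝ} (ho : m.OK) (hj : m.Jac) (hf : m.Front σ) (hg : m.Good σ T) {p e : V} {t : ℝ}
    (hp : ‖p‖ = 1) (he : ⟪p, e⟫ = 0) (h0 : e ≠ 0) (ht : t ≤ -T) :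
    ⟪m.J (σ p) (fderiv ℝ σ p e) t, m.J' (σ p) (fderiv ℝ σ p e) t⟫ < 0 := by
  have h := hg.pos (-p) (-e) (-t) (by rw [norm_neg, hp]) (by rw [inner_neg_neg, he])
    (neg_ne_zero.2 h0) (by linarith)
  rw [J_flip ho hj hf (D3WI.ne_of_norm hp), J'_flip ho hj hf (D3WI.ne_of_norm hp), neg_neg,
    inner_neg_right] at h
  linarith

theorem gram (w x y x' y' : V) (h : ⟪w, w⟫ = 1) (h1 : ⟪w, x'⟫ = 0) (h2 : ⟪w, y'⟫ = 0) :
    trip w x y * trip w x' y' = ⟪x, x'⟫ * ⟪y, y'⟫ - ⟪x, y'⟫ * ⟪y, x'⟫ := by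
  have e : trip w x y * trip w x' y' = ⟪w, w⟫ * (⟪x, x'⟫ * ⟪y, y'⟫ - ⟪x, y'⟫ * ⟪y, x'⟫) -
      ⟪w, x'⟫ * (⟪x, w⟫ * ⟪y, y'⟫ - ⟪x, y'⟫ * ⟪y, w⟫) +
      ⟪w, y'⟫ * (⟪x, w⟫ * ⟪y, x'⟫ - ⟪x, x'⟫ * ⟪y, w⟫) := by
    simp only [D3GB.RP2.inner3, trip]
    ring
  rw [e, h, h1, h2]
  ring

theorem prod_pos {T : ℝ} (ho : m.OK) (hj : m.Jac) (hf : m.Front σ) (hg : m.Good σ T) {p : V}
    {t : ℝ} (hp : ‖p‖ = 1) (ht : t ≤ -T) : 0 < dlt m σ t p * (At2 m σ t p).det := by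
  have p0 := D3WI.ne_of_norm hp
  obtain ⟨e, f, he, hf', h1⟩ := D3NB.exists_perp hp
  have n : ⟪p, p⟫ = 1 := by rw [real_inner_self_eq_norm_sq, hp, one_pow]
  have Ap : At m σ t p p = 0 := by
    rw [At_apply, n, one_smul, sub_self, map_zero, MF.J, map_zero, map_zero]
  have Ae : ∀ x, ⟪p, x⟫ = 0 → At m σ t p x = m.J (σ p) (fderiv ℝ σ p x) t := fun x hx => by
    rw [At_apply, hx, zero_smul, sub_zero]
  have wn : ⟪(m.Z t (σ p)).2, (m.Z t (σ p)).2⟫ = 1 := by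
    rw [real_inner_self_eq_norm_sq, D3NB.w_unit hj hf hp, one_pow]
  have e1 : dlt m σ t p = trip (m.Z t (σ p)).2 (At m σ t p e) (At m σ t p f) := by
    rw [← one_mul (dlt m σ t p), ← h1, dlt, D3NB.det_basis]
    simp only [add_apply, ContinuousLinearMap.smulRight_apply,
      innerSL_apply_apply, n, he, hf', Ap, one_smul, zero_smul, zero_add, add_zero]
  have e2 : (At2 m σ t p).det = trip (m.Z t (σ p)).2 (At2 m σ t p e) (At2 m σ t p f) := by
    rw [← one_mul (At2 m σ t p).det, ← h1, D3NB.det_basis, D3NB.At2_rad ho hj hf p0]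
  rw [e1, e2, gram _ _ _ _ _ wn (by rw [D3NB.At2_perp ho hj hf hp, he])
    (by rw [D3NB.At2_perp ho hj hf hp, hf'])]
  have sy : ⟪At m σ t p f, At2 m σ t p e⟫ = ⟪At m σ t p e, At2 m σ t p f⟫ := by
    rw [Ae e he, Ae f hf', At2_apply, At2_apply, hg.sym p e f t hp he hf', real_inner_comm]
  have ng : ∀ x, ⟪p, x⟫ = 0 → x ≠ 0 → ⟪At m σ t p x, At2 m σ t p x⟫ < 0 := fun x hx h0 => by
    rw [Ae x hx, At2_apply]
    exact neg ho hj hf hg hp hx h0 ht
  have ha := ng e he (fun h => by simp [h, trip] at h1)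
  set a := ⟪At m σ t p e, At2 m σ t p e⟫ with ea
  set b := ⟪At m σ t p e, At2 m σ t p f⟫ with eb
  set c := ⟪At m σ t p f, At2 m σ t p f⟫ with ec
  have hx := ng ((-b) • e + a • f) (by
    rw [inner_add_right, inner_smul_right, inner_smul_right, he, hf']
    ring) (fun h => by
      have h2 : trip p e ((-b) • e + a • f) = a * trip p e f := by
        simp only [trip, PiLp.add_apply, PiLp.smul_apply, smul_eq_mul]
        ring
      rw [h, h1] at h2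
      simp only [trip, PiLp.zero_apply] at h2
      linarith)
  simp only [map_add, map_smul, inner_add_left, inner_add_right, real_inner_smul_left,
    real_inner_smul_right, sy, ← ea, ← eb, ← ec] at hx
  rw [sy]
  nlinarith

theorem sgnS (ho : m.OK) : ∃ s : ℝ, (s = 1 ∨ s = -1) ∧ ∀ z, 0 < s * (m.S z).det := by
  have c : Continuous fun z => (m.S z).det :=
    ContinuousLinearMap.continuous_det.comp ho.cS.continuous
  have key : ∀ z z', (m.S z).det < 0 → 0 < (m.S z').det → False := fun z z' h h' => by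
    obtain ⟨y, hy⟩ := intermediate_value_univ z z' c ⟨h.le, h'.le⟩
    exact D3NB.detS_ne ho y hy
  rcases lt_or_gt_of_ne (D3NB.detS_ne ho 0) with h | h
  · refine ⟨-1, Or.inr rfl, fun z => ?_⟩
    rcases lt_or_gt_of_ne (D3NB.detS_ne ho z) with h' | h'
    · linarith
    · exact (key 0 z h h').elim
  · refine ⟨1, Or.inl rfl, fun z => ?_⟩
    rcases lt_or_gt_of_ne (D3NB.detS_ne ho z) with h' | h'
    · exact (key z 0 h' h).elim
    · linarith

end XSGN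

theorem xSGN : SSGN := by
  intro m lg σ T ho hj _ _ hf hg _ e he hy
  obtain ⟨s, hs, hS⟩ := XSGN.sgnS ho
  refine ⟨s, he, hs, hy, hS, fun p t hp ht => ?_⟩
  have h1 := XSGN.prod_pos ho hj hf hg hp ht
  have h2 := hy p t hp
  rcases he with rfl | rfl
  · rw [one_mul] at h2 ⊢
    exact (pos_iff_pos_of_mul_pos h1).2 h2
  · nlinarith

end Pool.Agent.MP_3ee8cb_gt.D3NP
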