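import Pool.Agent.MP_3ee8cb_gt.D3NP.Spec
import Pool.Agent.MP_3ee8cb_gt.D3OD.Link

/-! No pinching: the link with the equation in the plane, with two times. -/

namespace Pool.Agent.MP_3ee8cb_gt.D3NP

open Matrix Filter Topology D3 D3.LK
open D3OD (OB co pv mat Sol OrbA co_pv pv_perp pv_co inner_co mat_mulVec)
open scoped RealInnerProductSpace

noncomputable section

namespace RLK2

variable {m m' : MF} {z y : V × V} {β β' : ℝ → OB} {φ : V × V → V × V}

theorem orbA (uq : D3OD.S_UQ) (o : m.OK) (j : m.Jac) (o' : m'.OK) (j' : m'.Jac) (cf : CF m m' φ)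
    (sy : Sy m m' φ) {a : ℝ} (u : m.Up 0) (u' : m'.Up (a ^ 2)) (hz : ‖z.2‖ = 1)
    (F : Fr m z β) (F' : Fr m' (φ z) β') : ∃ C kM hh vh, OrbA a C kM (kk m' (φ z) β') hh
      (fun t => bV (β t) (β' t) (dH m' φ (m.Z t z))) vh
      fun t => bV (β t) (β' t) (dV m' φ (m.Z t z)) := by
  obtain ⟨C, hC⟩ := cf.bdd
  have n1 : ∀ t, ‖(m.Z t z).2‖ = 1 := fun t => (j.norm t z).trans hz
  have z0 : z.2 ≠ 0 := fun e => by simp [e] at hz
  have n0 : ∀ t, (m.Z t z).2 ≠ 0 := fun t e => by simpa [e] using n1 t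
  have p0 : ∀ t x e, ⟪β' t 0, dH m' φ (m.Z t z) (tv m (m.Z t z) (pv (β t) x) (pv (β t) e))⟫ = 0 ∧
      ⟪β' t 0, dV m' φ (m.Z t z) (tv m (m.Z t z) (pv (β t) x) (pv (β t) e))⟫ = 0 := fun t x e => by
    rw [F'.b0, ← cf.flow t z z0]
    exact pp_phi o o' cf sy (n0 t) (pp_tv o (F.b0 t) x e)
  refine ⟨2 * C ^ 2, _, fun t => bH m (m.Z t z) (β t) (β' t) (dH m' φ (m.Z t z)),
    fun t => bH m (m.Z t z) (β t) (β' t) (dV m' φ (m.Z t z)), cur o j F u, cur o' j' F' u',
    fun i i' h => ?_, fun t x e x' e' => ?_, fun t x e => ?_⟩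
  · have p := pp_tv o ((F.b0 0).trans (by rw [o.zero])) (y := z) (i 0) (i' 0)
    have e := uq _ (cur o j F u).cont _ _ _ _ 0 h (sol o j F p)
      (by rw [J0 o, hor_tv o, co_pv]) (by rw [J0' o, ver_tv, co_pv])
    have e1 : ∀ t, fderiv ℝ φ (m.Z t z) (tv m (m.Z t z) (pv (β t) (i t)) (pv (β t) (i' t))) =
        fderiv ℝ (m'.Z t) (φ z) (fderiv ℝ φ z (tv m z (pv (β 0) (i 0)) (pv (β 0) (i' 0)))) :=
      fun t => by
        rw [← chain o j o' cf z0, (e t).1, (e t).2, pv_co (perp o j F p t).1,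
          pv_co (perp o j F p t).2, MF.J, MF.J', tv_eq o]
    simp only [blk, dH, dV, ContinuousLinearMap.comp_apply, e1, cf.flow _ z z0]
    exact sol o' j' F' (pp_phi o o' cf sy z0 p)
  · simp only [blk, D3OD.om]
    rw [← inner_co (p0 t x e).1, ← inner_co (p0 t x e).2]
    refine (sy.om _ _ _ (n0 t)).trans ?_
    rw [hor_tv o, hor_tv o, ver_tv, ver_tv, inner_pv, inner_pv]
  · have h := (hC _ (tv m (m.Z t z) (pv (β t) x) (pv (β t) e)) (n1 t)).1
    rw [hor_tv o, ver_tv] at h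
    simp only [blk, D3OD.n2]
    rw [← inner_co (p0 t x e).1, ← inner_co (p0 t x e).2, ← inner_pv (β t) x, ← inner_pv (β t) e]
    simp only [real_inner_self_eq_norm_sq]
    have h2 := pow_le_pow_left₀ (by positivity) h 2
    refine le_trans ?_ (h2.trans ?_)
    · rw [add_sq, add_assoc]
      exact add_le_add le_rfl (le_add_of_nonneg_left (by positivity))
    · nlinarith [mul_nonneg (sq_nonneg C) (sq_nonneg (‖pv (β t) x‖ - ‖pv (β t) e‖))]

theorem shift (o : m.OK) (F : Fr m z β) (s : ℝ) : Fr m (m.Z s z) fun u => β (u + s) :=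
  ⟨fun t => by rw [F.b0, o.add], fun i t => by
    have := (F.der i (t + s)).comp_add_const t s
    rwa [MF.w, o.add] at this⟩

theorem sols {k : ℝ → D3OD.M} {i i' : ℝ → D3OD.V} (h : Sol k i i') (s : ℝ) :
    Sol (fun t => k (t - s)) (fun t => i (t - s)) fun t => i' (t - s) :=
  ⟨fun t => (h.d1 (t - s)).comp_sub_const t s, fun t => (h.d2 (t - s)).comp_sub_const t s⟩

theorem radJ (o : m.OK) (j : m.Jac) (w : V × V) (t : ℝ) : m.J' w (0, w.2) t = (m.Z t w).2 := by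
  have d0 : HasDerivAt (fun r : ℝ => (w.1, r • w.2)) (0, w.2) 1 := by
    simpa using (hasDerivAt_const (1 : ℝ) w.1).prodMk ((hasDerivAt_id (1 : ℝ)).smul_const w.2)
  have dz : DifferentiableAt ℝ (m.Z t) w :=
    ((o.cZ.comp (contDiff_const.prodMk contDiff_id)).differentiable one_ne_zero) w
  have d1 := HasFDerivAt.comp_hasDerivAt_of_eq (1 : ℝ) dz.hasFDerivAt d0 (by simp)
  have l : HasDerivAt (fun r : ℝ => m.Z (r * t) w) (t • m.vf (m.Z t w)) 1 := by
    have := (o.ode w (1 * t)).scomp (1 : ℝ) ((hasDerivAt_id (1 : ℝ)).mul_const t)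
    rw [one_mul] at this
    exact this
  have l1 : HasDerivAt (fun r : ℝ => (m.Z (r * t) w).1) (t • m.vf (m.Z t w)).1 1 := l.fst
  have l2 : HasDerivAt (fun r : ℝ => (m.Z (r * t) w).2) (t • m.vf (m.Z t w)).2 1 := l.snd
  have d2 := l1.prodMk ((hasDerivAt_id (1 : ℝ)).smul l2)
  have e := d1.unique (d2.congr_of_eventuallyEq
    (Eventually.of_forall fun r => j.scale t r w.1 w.2))
  rw [MF.J', e]
  simp [MF.ver, MF.vf]

theorem at1 (cf : CF m m' φ) (y0 : y.2 ≠ 0) (u : ℝ) {v : V} (h : ⟪y.2, v⟫ = 0) :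
    At m' (fr φ y.1) u y.2 v = m'.J (φ y) (fderiv ℝ φ y (0, v)) u := by
  rw [At_apply, h, zero_smul, sub_zero, (SC.fr_der cf.c1 y0).fderiv]
  rfl

theorem at2 (cf : CF m m' φ) (y0 : y.2 ≠ 0) (u : ℝ) (v : V) :
    At2 m' (fr φ y.1) u y.2 v = m'.J' (φ y) (fderiv ℝ φ y (0, v)) u := by
  rw [At2_apply, (SC.fr_der cf.c1 y0).fderiv]
  rfl

theorem at0 (σ : V → V × V) (u : ℝ) {a : V} (h : ‖a‖ = 1) : At m σ u a a = 0 := by
  rw [At_apply, real_inner_self_eq_norm_sq, h, one_pow, one_smul, sub_self, map_zero, MF.J,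
    map_zero, map_zero]

theorem ppv {v : V} (h : ⟪y.2, v⟫ = 0) : Pp m y (0, v) := by
  constructor
  · simp [MF.hor]
  · simpa [MF.ver] using h

end RLK2

open RLK2 in
theorem sLK2 (uq : D3OD.S_UQ) : SLK2 := by
  intro m m' φ a hi o j o' j' cf ha u u' _ sy z hz
  have z0 : z.2 ≠ 0 := fun e => by simp [e] at hz
  have n1 : ∀ t, ‖(m.Z t z).2‖ = 1 := fun t => (j.norm t z).trans hz
  have n0 : ∀ t, (m.Z t z).2 ≠ 0 := fun t e => by simpa [e] using n1 t
  obtain ⟨β, F⟩ := exists_fr j hz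
  obtain ⟨β', F'⟩ := exists_fr (z := φ z) j' ((cf.norm z z0).trans hz)
  obtain ⟨C, kM, hh, vh, O⟩ := orbA uq o j o' j' cf sy u u' hz F F'
  have p : ∀ s e, ⟪(m.Z s z).2, pv (β s) e⟫ = 0 := fun s e => by rw [← F.b0, pv_perp]
  have G : ∀ s, Fr m' (φ (m.Z s z)) fun u => β' (u + s) := fun s => by
    rw [cf.flow s z z0]
    exact shift o' F' s
  have q := fun s e => pp_phi o o' cf sy (n0 s) (ppv (m := m) (p s e))
  refine ⟨C, kM, _, hh, _, vh, _,
    fun s t => mat (β s) (β' t) (At m' (fr φ (m.Z s z).1) (t - s) (m.Z s z).2),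
    fun s t => mat (β s) (β' t) (At2 m' (fr φ (m.Z s z).1) (t - s) (m.Z s z).2), O,
    ⟨fun s e => ?_, fun s => ?_, fun s => ?_⟩, fun s t => ⟨fun c => ?_, fun h => ?_, fun h => ?_⟩⟩
  · have h := sols (sol o' j' (G s) (q s e)) s
    have k : (fun t => kk m' (φ (m.Z s z)) (fun u => β' (u + s)) (t - s)) = kk m' (φ z) β' := by
      funext t
      simp only [kk, cf.flow s z z0, ← o'.add, sub_add_cancel]
    rw [k] at h
    simp only [sub_add_cancel] at h
    simp only [mat_mulVec, at1 cf (n0 s) _ (p s e), at2 cf (n0 s)]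
    exact h
  · refine Matrix.toLin'.injective (LinearMap.ext fun e => ?_)
    simp only [toLin'_apply, bV, mat_mulVec, at1 cf (n0 s) _ (p s e), sub_self, J0 o']
    rfl
  · refine Matrix.toLin'.injective (LinearMap.ext fun e => ?_)
    simp only [toLin'_apply, bV, mat_mulVec, at2 cf (n0 s), sub_self, J0' o']
    rfl
  · obtain ⟨ε, h1, h2⟩ := D3OD.det_mat (β s) (β' t)
    rw [Dt, h2 _ (by
      rw [F.b0, F'.b0, _root_.add_apply, _root_.smul_apply, at0 _ _ (n1 s), smul_zero, add_zero,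
        at2 cf (n0 s), radial cf (n0 s), radJ o' j', cf.flow s z z0, ← o'.add, sub_add_cancel]),
      abs_mul, h1, one_mul]
    congr 2
    ext i l
    simp [mat, inner_add_right, inner_smul_right]
  · ext i l
    simp [mat, h]
  · ext1 v
    have e : v = ⟪β s 0, v⟫ • (m.Z s z).2 + pv (β s) (co (β s) v) := by
      rw [← F.b0]
      exact ((β s).sum_repr' v).symm.trans (Fin.sum_univ_succ _)
    have h1 := mat_mulVec (β := β s) (β' := β' t)
      (At m' (fr φ (m.Z s z).1) (t - s) (m.Z s z).2) (co (β s) v)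
    have h2 := (perp o' j' (G s) (q s (co (β s) v)) (t - s)).1
    simp only [sub_add_cancel] at h2
    rw [← at1 cf (n0 s) _ (p s _)] at h2
    rw [show mat (β s) (β' t) (At m' (fr φ (m.Z s z).1) (t - s) (m.Z s z).2) = 0 from h,
      zero_mulVec] at h1
    have h3 := (congrArg (pv (β' t)) h1).trans (pv_co h2)
    rw [e, map_add, map_smul, at0 _ _ (n1 s), smul_zero, zero_add, ← h3]
    simp [pv]

end

end Pool.Agent.MP_3ee8cb_gt.D3NP
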