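import Pool.Agent.MP_3ee8cb_gt.D3CT.Spec
import Pool.Agent.MP_3ee8cb_gt.D3MO.Half
import Pool.Agent.MP_3ee8cb_gt.D3GB.Spec
import Pool.Agent.MP_3ee8cb_gt.D3AR.Spec

/-! The fibre inequality without pinching: the abstract statements. -/

namespace Pool.Agent.MP_3ee8cb_gt.D3NP

open Set Filter Topology MeasureTheory D3
open D3MO (S2 Cr Low)
open D3CT (Gn)
open D3AR (un)
open D3GB (trip bv ev)
open scoped RealInnerProductSpace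

noncomputable section

/-- The determinant of the derivative. -/
def jc (C : V → V) (a : V) : ℝ := (fderiv ℝ C a).det

/-- The exterior derivative of the pull back of `i_f dx`. -/
def dv (C f : V → V) (a : V) : ℝ :=
  trip (fderiv ℝ f a (bv 0)) (fderiv ℝ C a (bv 1)) (fderiv ℝ C a (bv 2)) +
  trip (fderiv ℝ f a (bv 1)) (fderiv ℝ C a (bv 2)) (fderiv ℝ C a (bv 0)) +
  trip (fderiv ℝ f a (bv 2)) (fderiv ℝ C a (bv 0)) (fderiv ℝ C a (bv 1))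

/-- The flux of `f` through the sphere through `a`. -/
def fx (C f : V → V) (a : V) : ℝ :=
  ev a fun u v => trip (f a) (fderiv ℝ C a u) (fderiv ℝ C a v)

/-- A family of functions `β (z, ·)` on the sphere whose critical points are the solutions of
`C a = z`, with critical value `log ‖a‖`. -/
structure Fam (O : Set V) (C θ : V → V) (β : V × V → ℝ) (ε T : ℝ) : Prop where
  op : IsOpen O
  cvx : Convex ℝ O
  eps : ε = 1 ∨ ε = -1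
  pos : 0 < T
  cC : ContDiffOn ℝ 1 C {a | a ≠ 0}
  cθ : ContDiffOn ℝ 1 θ {a | a ≠ 0}
  c0 : ContinuousOn β {x | x.2 ≠ 0}
  cβ : ContDiffOn ℝ 1 β (O ×ˢ {q | q ≠ 0})
  hom : ∀ z q (r : ℝ), 0 < r → β (z, r • q) = β (z, q)
  crit : ∀ z ∈ O, ∀ q, ‖q‖ = 1 → (∀ e, fderiv ℝ β (z, q) (0, e) = 0) →
    C (Real.exp (β (z, q)) • q) = z
  val : ∀ a, a ≠ 0 → C a ∈ O → β (C a, a) = Real.log ‖a‖ ∧
    ∀ x e, fderiv ℝ β (C a, un a) (x, e) = ⟪θ a, x⟫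
  hess : ∀ a, a ≠ 0 → C a ∈ O → ∀ (p : S2) ι φ, p.1 = un a → Gn p ι φ →
    ∃ H, Cr (fun v => β (C a, φ v)) H ∧
      (0 < ε * jc C a → (∀ v, v ≠ 0 → 0 < H v v) ∨ ∀ v, v ≠ 0 → H v v < 0) ∧
      (ε * jc C a < 0 → ∃ v v', 0 < H v v ∧ H v' v' < 0)
  mono : ∀ p q (s t : ℝ), ‖p‖ = 1 → ‖q‖ = 1 → s ≤ t →
    β (C (Real.exp t • p), q) - t ≤ β (C (Real.exp s • p), q) - s
  lo : ∀ a q, a ≠ 0 → C a ∈ O → Real.log ‖a‖ ≤ -T → ‖q‖ = 1 → Real.log ‖a‖ ≤ β (C a, q)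
  hi : ∀ a q, a ≠ 0 → C a ∈ O → T ≤ Real.log ‖a‖ → ‖q‖ = 1 → q ≠ un a → β (C a, q) < Real.log ‖a‖
  sep : ∀ a a', a ≠ 0 → a' ≠ 0 → C a = C a' → θ a = θ a' → a = a'
  zer : ∀ p, ‖p‖ = 1 → {t : ℝ | jc C (Real.exp t • p) = 0}.Finite
  cpt : ∀ K, IsCompact K → K ⊆ O → IsCompact {a | a ≠ 0 ∧ C a ∈ K}
  mid : ∀ a, a ≠ 0 → |Real.log ‖a‖| ≤ T + 1 → C a ∈ O

/-- A statement about a family. -/
def OnK (P : Set V → (V → V) → (V → V) → (V × V → ℝ) → ℝ → ℝ → Prop) : Prop :=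
  ∀ O C θ β ε T, Fam O C θ β ε T → P O C θ β ε T

/-- The sublevel set at `a`. -/
def Ls (C : V → V) (β : V × V → ℝ) (a : V) : Set S2 := {q | β (C a, q.1) < Real.log ‖a‖}

/-- Minima and saddles that merge two components. -/
def Rr (C : V → V) (β : V × V → ℝ) (a : V) : Prop :=
  ∀ p : S2, p.1 = un a → ¬(p ∈ closure (Ls C β a) ∧ Low (Ls C β a) p)

def Rs (O : Set V) (C : V → V) (β : V × V → ℝ) : Set V :=
  {a | a ≠ 0 ∧ C a ∈ O ∧ jc C a ≠ 0 ∧ Rr C β a}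

/-- A Morse function with distinct critical values. -/
def Gd (C : V → V) (z : V) : Prop := {a | a ≠ 0 ∧ C a = z}.Finite ∧
  (∀ a, a ≠ 0 → C a = z → jc C a ≠ 0) ∧
    ∀ a a', a ≠ 0 → a' ≠ 0 → C a = z → C a' = z → ‖a‖ = ‖a'‖ → a = a'

/-- The slope function. -/
def us (C θ : V → V) (α : V → ℝ) (ξ a : V) : ℝ := α (C a) * ⟪θ a, ξ⟫

/-- A weight. -/
structure Wg (O : Set V) (α : V → ℝ) : Prop where
  c1 : ContDiff ℝ 1 α
  nn : ∀ z, 0 ≤ α z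
  cs : HasCompactSupport α
  sub : tsupport α ⊆ O

/-- The events on the line `x + r ξ` at the level `l`. -/
def Evt (C θ : V → V) (α : V → ℝ) (ξ x : V) (l : ℝ) : Set V :=
  {a | a ≠ 0 ∧ (∃ r : ℝ, C a = x + r • ξ) ∧ us C θ α ξ a = l}

/-- The line and the level are generic; `γ` is the derivative of the slope along the line. -/
structure Gl (O : Set V) (C θ : V → V) (α : V → ℝ) (ξ x : V) (l : ℝ) (γ : V → ℝ) : Prop where
  ne : l ≠ 0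
  fin : (Evt C θ α ξ x l).Finite
  gd : ∀ a ∈ Evt C θ α ξ x l, Gd C (C a)
  der : ∀ a ∈ Evt C θ α ξ x l, γ a ≠ 0 ∧
    ∃ η, fderiv ℝ C a η = ξ ∧ fderiv ℝ (us C θ α ξ) a η = γ a
  same : ∀ a ∈ Evt C θ α ξ x l, ∀ a' ∈ Evt C θ α ξ x l, C a = C a' → γ a = γ a'
  ae : ∀ᵐ r : ℝ, x + r • ξ ∈ O → Gd C (x + r • ξ)

/-! ### Topology -/

def SLINE : Prop := OnK fun O C θ β ε _ => ∀ α ξ x l γ, Wg O α → Gl O C θ α ξ x l γ →
  {a ∈ Evt C θ α ξ x l | Rr C β a ∧ 0 < ε * jc C a * γ a}.ncard ≤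
    {a ∈ Evt C θ α ξ x l | Rr C β a ∧ ε * jc C a * γ a < 0}.ncard

def SBOR : Prop := OnK fun O C _ β _ _ => MeasurableSet (Rs O C β)

def SDOWN : Prop := OnK fun O C _ β _ _ => ∀ p (s t : ℝ), ‖p‖ = 1 → s ≤ t →
  C (Real.exp s • p) ∈ O → jc C (Real.exp s • p) ≠ 0 → Real.exp t • p ∈ Rs O C β →
    Real.exp s • p ∈ Rs O C β

def SFAR : Prop := OnK fun O C _ β _ T => ∀ a, a ≠ 0 → C a ∈ O →
  (Real.log ‖a‖ ≤ -T → Rr C β a) ∧ (T ≤ Real.log ‖a‖ → ¬Rr C β a)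

/-- The trace on every ray is an interval. -/
def RayP (R : Set V) (T : ℝ) : Prop := ∀ p : V, ‖p‖ = 1 → ∃ τ ∈ Icc (-T) T,
  ∀ᵐ t : ℝ, -T - 1 ≤ t → (Real.exp t • p ∈ R ↔ t < τ)

def SRAY : Prop := OnK fun O C _ β _ T => RayP (Rs O C β) T

def R_RAY : Prop := SDOWN → SFAR → SRAY

/-! ### Calculus -/

structure DvP : Prop where
  cont : ∀ C f : V → V, ContDiffOn ℝ 1 C {a | a ≠ 0} → ContDiffOn ℝ 1 f {a | a ≠ 0} →
    ContinuousOn (dv C f) {a | a ≠ 0} ∧ ContinuousOn (fx C f) {a | a ≠ 0}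
  int : ∀ (C f : V → V) (K : Set V), ContDiffOn ℝ 1 C {a | a ≠ 0} → ContDiffOn ℝ 1 f {a | a ≠ 0} →
    IsCompact K → 0 ∉ K → (∀ a, a ≠ 0 → a ∉ K → f a = 0) →
      IntegrableOn (dv C f) {a | a ≠ 0} ∧ ∀ a, a ≠ 0 → a ∉ K → dv C f a = 0
  sum : ∀ (C : V → V) (ι : Type) [Fintype ι] (f : ι → V → V) (a : V),
    (∀ i, DifferentiableAt ℝ (f i) a) → dv C (fun b => ∑ i, f i b) a = ∑ i, dv C (f i) a
  add : ∀ (C f g : V → V) (c : ℝ) (a : V), DifferentiableAt ℝ f a → DifferentiableAt ℝ g a →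
    dv C (fun b => f b + c • g b) a = dv C f a + c * dv C g a
  rad : ∀ (C f : V → V) (ψ : ℝ → ℝ) (a : V), a ≠ 0 → DifferentiableAt ℝ f a →
    DifferentiableAt ℝ ψ (Real.log ‖a‖) → dv C (fun b => ψ (Real.log ‖b‖) • f b) a =
      ψ (Real.log ‖a‖) * dv C f a + deriv ψ (Real.log ‖a‖) * (‖a‖ ^ 3)⁻¹ * fx C f a
  det : ∀ (C : V → V) (u : V → ℝ) (ξ : V) (lam : V →L[ℝ] ℝ) (a : V), lam ξ = 1 →
    DifferentiableAt ℝ C a → DifferentiableAt ℝ u a →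
      jc (fun b => C b + (u b - lam (C b)) • ξ) a = dv C (fun b => u b • ξ) a
  slope : ∀ (C : V → V) (u : V → ℝ) (ξ η a : V), DifferentiableAt ℝ u a → fderiv ℝ C a η = ξ →
    dv C (fun b => u b • ξ) a = jc C a * fderiv ℝ u a η

def SDV : Prop := DvP

/-- A null Lagrangian. -/
def SNL2 : Prop := ∀ (C f : V → V) (K : Set V), ContDiffOn ℝ 1 C {a | a ≠ 0} →
  ContDiffOn ℝ 1 f {a | a ≠ 0} → IsCompact K → 0 ∉ K → (∀ a, a ≠ 0 → a ∉ K → f a = 0) →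
    ∫ a in {a | a ≠ 0}, dv C f a = 0

def R_NL2 : Prop := SDV → SNL2

/-! ### Measure theory -/

/-- The area formula with signs. -/
def SARE : Prop := ∀ (E : V → V) (s : Set V) (ε : ℝ), MeasurableSet s →
  (∀ a ∈ s, ContDiffAt ℝ 1 E a) → IntegrableOn (jc E) s →
  (∀ᵐ v : V, {a ∈ s | E a = v ∧ 0 < ε * jc E a}.encard ≤
    {a ∈ s | E a = v ∧ ε * jc E a < 0}.encard) → ∫ a in s, ε * jc E a ≤ 0

def SGOOD : Prop := OnK fun O C _ _ _ _ => ∀ᵐ z : V, z ∈ O → Gd C z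

/-- Almost every line and level is generic. -/
def SEVT : Prop := OnK fun O C θ _ _ _ => ∀ α ξ (lam : V →L[ℝ] ℝ), Wg O α → lam ξ = 1 →
  ∀ᵐ v : V, Gl O C θ α ξ v (lam v) fun a => dv C (fun b => us C θ α ξ b • ξ) a / jc C a

def R_EVT : Prop := SDV → SGOOD → SEVT

/-- The slice inequality. -/
def SSLI : Prop := OnK fun O C θ β ε _ => ∀ α ξ, Wg O α →
  ∫ a in Rs O C β, ε * dv C (fun b => us C θ α ξ b • ξ) a ≤ 0

def R_SLI : Prop := SDV → SARE → SEVT → SLINE → SBOR → SSLI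

/-- The inequality for a field of nonnegative forms. -/
def SPOS : Prop := OnK fun O C θ β ε _ => ∀ (G : V → V →L[ℝ] V) χ, ContDiff ℝ 1 G →
  (∀ z x y, ⟪G z x, y⟫ = ⟪x, G z y⟫) → (∀ z x, 0 ≤ ⟪G z x, x⟫) → Wg O χ →
    ∫ a in Rs O C β, ε * dv C (fun b => χ (C b) • G (C b) (θ b)) a ≤ 0

def R_POS : Prop := SDV → SBOR → SSLI → SPOS

/-- A monotone step. -/
structure Stp (ψ : ℝ → ℝ) (T : ℝ) : Prop where
  c1 : ContDiff ℝ 1 ψ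
  mono : Monotone ψ
  zero : ∀ t, t ≤ -T - 1 → ψ t = 0
  one : ∀ t, -T ≤ t → ψ t = 1

/-- Removal of the cut-off. -/
def SCUT : Prop := OnK fun O C _ β _ T => ∀ (f : V → V) χ ψ, ContDiffOn ℝ 1 f {a | a ≠ 0} →
  Wg O χ → (∀ a, a ≠ 0 → |Real.log ‖a‖| ≤ T + 1 → ∀ᶠ z in 𝓝 (C a), χ z = 1) → Stp ψ T →
    ∫ a in Rs O C β, dv C (fun b => χ (C b) • f b) a =
      (∫ a in Rs O C β, ψ (Real.log ‖a‖) * dv C f a) +
        ∫ a in {a | a ≠ 0}, deriv ψ (Real.log ‖a‖) * (‖a‖ ^ 3)⁻¹ * fx C f a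

def R_CUT : Prop := SDV → SNL2 → SBOR → SFAR → SCUT

/-- Integration along the rays. -/
def SRAD : Prop := ∀ (R : Set V) (D Fl g : V → ℝ) (y : V → ℝ → ℝ) (ψ : ℝ → ℝ) (T c : ℝ), 0 < T →
  MeasurableSet R → RayP R T → ContinuousOn D {a | a ≠ 0} → ContinuousOn Fl {a | a ≠ 0} →
  ContinuousOn (fun x : V × ℝ => y x.1 x.2) {x | ‖x.1‖ = 1} → ContinuousOn g {a | ‖a‖ = 1} →
  Stp ψ T → (∀ p t, ‖p‖ = 1 → HasDerivAt (y p) (Real.exp (3 * t) * D (Real.exp t • p)) t) →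
  (∀ p t, ‖p‖ = 1 → |t| ≤ T → g p ≤ y p t) →
  (∀ t, sph (fun p => y p t - Fl (Real.exp t • p)) ≤ c) →
  (∫ a in R, ψ (Real.log ‖a‖) * D a) +
    ∫ a in {a | a ≠ 0}, deriv ψ (Real.log ‖a‖) * (‖a‖ ^ 3)⁻¹ * Fl a ≤ 0 → sph g ≤ c

/-- Polar coordinates for integrable functions. -/
def SPOLR : Prop := ∀ F : V → ℝ, Integrable F →
  Integrable (fun x : S2 × ℝ => Real.exp (3 * x.2) * F (Real.exp x.2 • x.1.1))
    ((volume : Measure V).toSphere.prod volume) ∧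
  ∫ a, F a = ∫ x : S2 × ℝ, Real.exp (3 * x.2) * F (Real.exp x.2 • x.1.1)
    ∂((volume : Measure V).toSphere.prod volume)

def R_RAD : Prop := SPOLR → SRAD

end

end Pool.Agent.MP_3ee8cb_gt.D3NP
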