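import Pool.Agent.MP_3ee8cb_gt.D3NP.KSpec
import Pool.Agent.MP_3ee8cb_gt.D3GB.RNL

/-! The exterior derivative of a form with compact support has integral zero. -/

namespace Pool.Agent.MP_3ee8cb_gt.D3NP

open Set Filter Topology MeasureTheory D3 Metric
open D3GB (bv)

namespace XNL2

theorem cut {K : Set V} (hK : IsCompact K) (h0 : (0 : V) ∉ K) : ∃ χ : V → ℝ, ContDiff ℝ 1 χ ∧
    HasCompactSupport χ ∧ (∀ᶠ a in 𝓝 (0 : V), χ a = 0) ∧ ∀ a ∈ K, ∀ᶠ b in 𝓝 a, χ b = 1 := by
  obtain ⟨r, hr, hb⟩ := Metric.isOpen_iff.1 hK.isClosed.isOpen_compl 0 h0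
  obtain ⟨R, hR, hB⟩ := hK.isBounded.exists_pos_norm_le
  let b1 : ContDiffBump (0 : V) := ⟨R + 1, R + 2, by linarith, by linarith⟩
  let b2 : ContDiffBump (0 : V) := ⟨r / 4, r / 2, by linarith, by linarith⟩
  refine ⟨fun a => b1 a - b2 a, b1.contDiff.sub b2.contDiff,
    b1.hasCompactSupport.sub b2.hasCompactSupport, ?_, fun a ha => ?_⟩
  · filter_upwards [b1.eventuallyEq_one, b2.eventuallyEq_one] with a h1 h2
    rw [h1, h2, sub_self]
  · have h1 : a ∈ ball (0 : V) b1.rIn := by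
      have := hB a ha
      rw [mem_ball_zero_iff]
      change ‖a‖ < R + 1
      linarith
    have h2 : r / 2 < ‖a‖ := by
      have : ¬‖a‖ < r := fun h => hb (mem_ball_zero_iff.2 h) ha
      linarith [not_lt.1 this]
    filter_upwards [b1.eventuallyEq_one_of_mem_ball h1,
      (isOpen_lt continuous_const continuous_norm).mem_nhds h2] with b e1 e2
    rw [e1, b2.zero_of_le_dist (by rw [dist_zero_right]; exact le_of_lt e2)]
    simp

theorem sm {χ : V → ℝ} (c : ContDiff ℝ 1 χ) (z : ∀ᶠ a in 𝓝 (0 : V), χ a = 0) {g : V → V}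
    (hg : ContDiffOn ℝ 1 g {a | a ≠ 0}) : ContDiff ℝ 1 fun a => χ a • g a := by
  refine contDiff_iff_contDiffAt.2 fun a => ?_
  by_cases h : a = 0
  · subst h
    refine (contDiffAt_const (c := (0 : V))).congr_of_eventuallyEq ?_
    filter_upwards [z] with b hb
    rw [hb, zero_smul]
  · exact c.contDiffAt.smul (hg.contDiffAt (isOpen_ne.mem_nhds h))

theorem bas (v : V) : ∑ i, v i • bv i = v := by
  ext j
  fin_cases j <;> simp [bv, Fin.sum_univ_three]

theorem glob (d : DvP) (C f : V → V) (K : Set V) (hC : ContDiff ℝ 1 C) (hf : ContDiff ℝ 1 f)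
    (sC : HasCompactSupport C) (sf : HasCompactSupport f) (hK : IsCompact K) (h0 : (0 : V) ∉ K)
    (hz : ∀ a, a ≠ 0 → a ∉ K → f a = 0) : ∫ a in {a | a ≠ 0}, dv C f a = 0 := by
  have cu : ∀ i, ContDiff ℝ 1 fun b => f b i := fun i =>
    (EuclideanSpace.proj i : V →L[ℝ] ℝ).contDiff.comp hf
  have cg : ∀ i, ContDiff ℝ 1 fun b => f b i • bv i := fun i => (cu i).smul contDiff_const
  have e : ∀ a, dv C f a = ∑ i, dv C (fun b => f b i • bv i) a := fun a => by
    rw [← d.sum C (Fin 3) _ a fun i => (cg i).differentiable one_ne_zero a]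
    simp only [bas]
  simp only [e]
  rw [integral_finsetSum _ fun i _ => (d.int C _ K hC.contDiffOn (cg i).contDiffOn hK h0
    fun a h1 h2 => by simp [hz a h1 h2]).1]
  refine Finset.sum_eq_zero fun i _ => ?_
  have l : (EuclideanSpace.proj i : V →L[ℝ] ℝ) (bv i) = 1 := by simp [bv]
  have r := restrict_compl_singleton (μ := (volume : Measure V)) 0
  change (volume : Measure V).restrict {a | a ≠ 0} = volume at r
  rw [r, ← funext fun a => d.det C (fun b => f b i) (bv i) _ a l
    (hC.differentiable one_ne_zero a) ((cu i).differentiable one_ne_zero a)]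
  refine D3GB.rNL _ (hC.add (((cu i).sub
    ((EuclideanSpace.proj i : V →L[ℝ] ℝ).contDiff.comp hC)).smul contDiff_const)) ?_
  refine (sC.union sf).of_isClosed_subset (isClosed_tsupport _) (closure_minimal ?_
    ((isClosed_tsupport _).union (isClosed_tsupport _)))
  intro b hb
  by_contra hn
  rw [mem_union, not_or] at hn
  exact hb (by simp [image_eq_zero_of_notMem_tsupport hn.1, image_eq_zero_of_notMem_tsupport hn.2])

end XNL2

theorem xNL2 : R_NL2 := by
  intro d C f K hC hf hK h0 hz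
  obtain ⟨χ, c, s, z, o⟩ := XNL2.cut hK h0
  have hz' : ∀ a, a ≠ 0 → a ∉ K → χ a • f a = 0 := fun a h1 h2 => by rw [hz a h1 h2, smul_zero]
  rw [← XNL2.glob d _ _ K (XNL2.sm c z hC) (XNL2.sm c z hf) s.smul_right s.smul_right hK h0 hz']
  refine setIntegral_congr_fun isOpen_ne.measurableSet fun a ha => ?_
  by_cases h : a ∈ K
  · have e : ∀ g : V → V, fderiv ℝ (fun a => χ a • g a) a = fderiv ℝ g a := fun g => by
      refine Filter.EventuallyEq.fderiv_eq ?_
      filter_upwards [o a h] with b hb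
      rw [hb, one_smul]
    simp only [dv, e]
  · rw [(d.int C f K hC hf hK h0 hz).2 a ha h,
      (d.int _ _ K (XNL2.sm c z hC).contDiffOn (XNL2.sm c z hf).contDiffOn hK h0 hz').2 a ha h]

end Pool.Agent.MP_3ee8cb_gt.D3NP
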