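import Pool.Agent.MP_3ee8cb_gt.D3NP.T2
import Pool.Agent.MP_3ee8cb_gt.D3MO.Def

/-! Local types and crossing signs. -/

namespace Pool.Agent.MP_3ee8cb_gt.D3NP

open Set Filter Topology Metric D3MO Asymptotics

variable {P W : Type} [MetricSpace P] [NormedAddCommGroup W] [NormedSpace ℝ W]

theorem low_dec {ψ : W → P} {w v : W} {g : P → ℝ} {r : ℝ} (r0 : 0 < r)
    (hc : ∀ z ∈ ball w r, ContinuousAt ψ z) (ho : ∀ U ∈ 𝓝 w, ψ '' U ∈ 𝓝 (ψ w))
    (cg : ∀ z ∈ ball w r, ContinuousAt (fun z => g (ψ z)) z)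
    (de : ∀ z ∈ ball w r, ∀ l : ℝ, 0 < l → z + l • v ∈ ball w r → g (ψ (z + l • v)) < g (ψ z)) :
    Lw g (ψ w) := by
  have n0 := norm_nonneg v
  set s := r / (2 * (‖v‖ + 1)) with hs
  have s0 : 0 < s := by positivity
  have sv : s * ‖v‖ < r / 2 := by
    rw [hs, div_mul_eq_mul_div, div_lt_div_iff₀ (by positivity) (by norm_num)]
    nlinarith
  have mem : ∀ z ∈ ball w (r / 2), ∀ l ∈ Icc 0 s, z + l • v ∈ ball w r := by
    intro z hz l hl
    rw [mem_ball, dist_eq_norm] at hz ⊢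
    have := norm_add_le (z - w) (l • v)
    rw [norm_smul, Real.norm_eq_abs, abs_of_nonneg hl.1] at this
    rw [add_sub_right_comm]
    nlinarith [hl.2]
  have hf : ball w (r / 2) ⊆ ball w r := ball_subset_ball (half_le_self r0.le)
  have z0 : w ∈ ball w (r / 2) := mem_ball_self (by positivity)
  have ax : ∀ l ∈ Ioc 0 s, g (ψ (w + l • v)) < g (ψ w) := fun l hl =>
    de w (hf z0) l hl.1 (mem w z0 l ⟨hl.1.le, hl.2⟩)
  constructor
  · have h1 : Tendsto (fun l : ℝ => w + l • v) (𝓝[>] 0) (𝓝 w) := by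
      have : Continuous fun l : ℝ => w + l • v := by fun_prop
      simpa using (this.tendsto 0).mono_left nhdsWithin_le_nhds
    refine mem_closure_of_tendsto ((hc w (hf z0)).tendsto.comp h1) ?_
    filter_upwards [Ioc_mem_nhdsGT s0] with l hl using ax l hl
  have b1 : w + s • v ∈ ball w r := mem w z0 s ⟨s0.le, le_rfl⟩
  have e1 : ∀ᶠ z in 𝓝 (w + s • v), g (ψ z) < g (ψ w) ∧ z ∈ ball w r :=
    ((cg _ b1).eventually_lt continuousAt_const (ax s ⟨s0, le_rfl⟩)).and (isOpen_ball.mem_nhds b1)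
  obtain ⟨ρ, ρ0, hρ⟩ := Metric.eventually_nhds_iff_ball.1 e1
  have key : ∀ z ∈ ball w (min ρ (r / 2)), g (ψ z) < g (ψ w) →
      JoinedIn {q | g q < g (ψ w)} (ψ z) (ψ (w + s • v)) := by
    intro z hz hg
    have hz' := ball_subset_ball (min_le_right _ _) hz
    refine (jn_line s0.le fun l hl => ⟨hc _ (mem z hz' l hl), ?_⟩).trans
      (jn (S := ball (w + s • v) ρ) (JoinedIn.of_segment_subset ((convex_ball _ _).segment_subset
        ?_ (mem_ball_self ρ0))) fun y hy => ⟨hc _ (hρ y hy).2, (hρ y hy).1⟩)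
    · rcases hl.1.eq_or_lt with e | e
      · simpa [← e] using hg
      · exact (de z (hf hz') l e (mem z hz' l hl)).trans hg
    · simpa using ball_subset_ball (min_le_left _ _) hz
  refine ⟨_, ho _ (ball_mem_nhds w (lt_min ρ0 (half_pos r0))), ?_⟩
  rintro _ ⟨⟨z, hz, rfl⟩, hg⟩ _ ⟨⟨z', hz', rfl⟩, hg'⟩
  exact (key z hz hg).trans (key z' hz' hg').symm

theorem typ [FiniteDimensional ℝ W] (hW : Module.finrank ℝ W = 2) {f : P → ℝ} {φ : W → P} {p : P}
    {H : W →L[ℝ] W →L[ℝ] ℝ} (h : Ch φ p) (hC : Cr (fun z => f (φ z)) H) :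
    (((∀ v, v ≠ 0 → 0 < H v v) ∨ ∀ v, v ≠ 0 → H v v < 0) → Mi f p ∨ Lw f p) ∧
      ((∃ v v', 0 < H v v ∧ H v' v' < 0) → L2 f p) := by
  have e : {q | f q - f p < 0} = {q | f q < f p} := by simp only [sub_neg]
  refine ⟨fun d => d.imp (sDef P W f φ p H h hC).1 fun d => ?_, fun ⟨v, v', a, b⟩ => ?_⟩
  · have := low_max (g := fun q => f q - f p) hW h (sub_self _)
      (((sDef P W f φ p H h hC).2 d).mono fun q hq => sub_neg.2 hq)
    rwa [e] at this
  · obtain ⟨D, h1, h2, h3⟩ := hC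
    have := (sad_low (g := fun q => f q - f p) hW h (sub_self _)
      ⟨H, v, v', ⟨D, h1.mono fun z hz => hz.sub_const _, h2, h3⟩, a, b⟩).1
    rwa [e] at this

theorem crs [FiniteDimensional ℝ W] {C : W → W} {u : W → ℝ} {a η ξ : W}
    (hC : DifferentiableAt ℝ C a) (hd : (fderiv ℝ C a).det ≠ 0) (hu : DifferentiableAt ℝ u a)
    (hη : fderiv ℝ C a η = ξ) (hγ : fderiv ℝ u a η ≠ 0) : ∀ᶠ b in 𝓝 a, ∀ s : ℝ, s ≠ 0 →
      C b - C a = s • ξ → 0 < fderiv ℝ u a η * ((u b - u a) * s) := by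
  set L := (fderiv ℝ C a).toContinuousLinearEquivOfDetNeZero hd with hL
  have h1 : HasFDerivAt C (L : W →L[ℝ] W) a := by
    rw [hL, ContinuousLinearMap.coe_toContinuousLinearEquivOfDetNeZero]
    exact hC.hasFDerivAt
  have h2 : L.symm ξ = η := by
    rw [ContinuousLinearEquiv.symm_apply_eq, hL,
      ContinuousLinearMap.toContinuousLinearEquivOfDetNeZero_apply, hη]
  set Λ : W →L[ℝ] ℝ := (fderiv ℝ u a).comp (L.symm : W →L[ℝ] W) with hΛ
  have h3 : HasFDerivAt (fun b => u b - Λ (C b)) (0 : W →L[ℝ] ℝ) a := by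
    have := hu.hasFDerivAt.sub (Λ.hasFDerivAt.comp a h1)
    rwa [show fderiv ℝ u a - Λ.comp (L : W →L[ℝ] W) = 0 by ext y; simp [hΛ]] at this
  have h4 : (fun b => u b - Λ (C b) - (u a - Λ (C a))) =o[𝓝 a] fun b => C b - C a :=
    (by simpa using h3.isLittleO : (fun b => u b - Λ (C b) - (u a - Λ (C a))) =o[𝓝 a]
      fun b => b - a).trans_isBigO (h1.isTheta_sub L.toHomeomorph.isInducing).symm.isBigO
  set γ := fderiv ℝ u a η with hγ'
  have g0 := abs_pos.2 hγ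
  have n0 := norm_nonneg ξ
  filter_upwards [h4.def (c := |γ| / (‖ξ‖ + 1)) (by positivity)] with b hb s s0 e
  have e2 : u b - Λ (C b) - (u a - Λ (C a)) = u b - u a - s * γ := by
    have : Λ (C b) - Λ (C a) = s * γ := by
      rw [← map_sub, e, map_smul, hΛ, ContinuousLinearMap.comp_apply,
        ContinuousLinearEquiv.coe_coe, h2, smul_eq_mul]
    linarith
  rw [e2, e, norm_smul, Real.norm_eq_abs, Real.norm_eq_abs] at hb
  have s1 := abs_pos.2 s0
  have h5 : |u b - u a - s * γ| < |s * γ| := by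
    refine hb.trans_lt ?_
    rw [abs_mul, div_mul_eq_mul_div, div_lt_iff₀ (by positivity)]
    nlinarith [mul_pos s1 g0]
  have h6 := sq_lt_sq.2 h5
  nlinarith [sq_nonneg (u b - u a)]

end Pool.Agent.MP_3ee8cb_gt.D3NP
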