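import Pool.Agent.MP_3ee8cb_gt.D3NP.KSpec
import Pool.Agent.MP_3ee8cb_gt.D3AR.RPOL

/-! Polar coordinates for integrable functions. -/

namespace Pool.Agent.MP_3ee8cb_gt.D3NP

open Set MeasureTheory D3
open D3MO (S2)
open scoped NNReal ENNReal

namespace XPOLR

theorem mP : Measurable fun x : S2 × ℝ => Real.exp x.2 • x.1.1 :=
  (by fun_prop : Continuous fun x : S2 × ℝ => Real.exp x.2 • x.1.1).measurable

theorem mw : Measurable fun x : S2 × ℝ => Real.toNNReal (Real.exp (3 * x.2)) :=
  (by fun_prop : Continuous fun x : S2 × ℝ => Real.exp (3 * x.2)).measurable.real_toNNReal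

theorem map_eq : Measure.map (fun x : S2 × ℝ => Real.exp x.2 • x.1.1)
    (((volume : Measure V).toSphere.prod volume).withDensity
      fun x => (Real.toNNReal (Real.exp (3 * x.2)) : ℝ≥0∞)) = volume := by
  ext s hs
  have m1 : Measurable (s.indicator (1 : V → ℝ≥0∞)) := measurable_one.indicator hs
  rw [← lintegral_indicator_one hs, ← lintegral_indicator_one hs, lintegral_map m1 mP,
    D3AR.pol _ m1]
  exact (lintegral_withDensity_eq_lintegral_mul _ mw.coe_nnreal_ennreal (m1.comp mP)).trans
    (lintegral_prod _ (mw.coe_nnreal_ennreal.mul (m1.comp mP)).aemeasurable)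

end XPOLR

theorem xPOLR : SPOLR := by
  intro F hF
  have e : ∀ x : S2 × ℝ, Real.toNNReal (Real.exp (3 * x.2)) • F (Real.exp x.2 • x.1.1) =
      Real.exp (3 * x.2) * F (Real.exp x.2 • x.1.1) := fun x => by
    rw [NNReal.smul_def, Real.coe_toNNReal _ (Real.exp_pos _).le, smul_eq_mul]
  rw [← XPOLR.map_eq] at hF
  have h1 := (integrable_map_measure hF.aestronglyMeasurable XPOLR.mP.aemeasurable).1 hF
  have h2 := (integrable_withDensity_iff_integrable_smul XPOLR.mw).1 h1
  have h3 := integral_map XPOLR.mP.aemeasurable hF.aestronglyMeasurable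
  rw [XPOLR.map_eq, integral_withDensity_eq_integral_smul XPOLR.mw] at h3
  simp only [Function.comp_apply, e] at h2 h3
  exact ⟨h2, h3⟩

end Pool.Agent.MP_3ee8cb_gt.D3NP
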