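import Pool.Agent.MP_3ee8cb_gt.D3NP.Spec
import Pool.Agent.MP_3ee8cb_gt.D3SC.Sc

/-! No pinching: the moving fronts are continuous and invariant. -/

namespace Pool.Agent.MP_3ee8cb_gt.D3NP

open Set Filter Topology D3 D3.SC
open scoped RealInnerProductSpace

noncomputable section

namespace RSC2

variable {m : MF} {φ : V × V → V × V}

theorem dZ (o : m.OK) (t : ℝ) (z : V × V) : HasFDerivAt (m.Z t)
    ((fderiv ℝ (fun q : ℝ × V × V => m.Z q.1 q.2) (t, z)).comp (.inr ℝ ℝ (V × V))) z :=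
  ((o.cZ.differentiable one_ne_zero) (t, z)).hasFDerivAt.comp z (hasFDerivAt_prodMk_right t z)

theorem c_dZ (o : m.OK) : Continuous fun q : ℝ × V × V => fderiv ℝ (m.Z q.1) q.2 :=
  ((o.cZ.continuous_fderiv one_ne_zero).clm_comp continuous_const).congr
    fun q => ((dZ o q.1 q.2).fderiv).symm

theorem c_pt (h : ContDiffOn ℝ 1 φ {z | z.2 ≠ 0}) :
    ContinuousOn (fun p : (V × V) × ℝ => (p.2, φ p.1)) {p | p.1.2 ≠ 0} :=
  continuousOn_snd.prodMk (h.continuousOn.comp continuousOn_fst fun _ hp => hp)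

theorem c_mid (o : m.OK) (h : ContDiffOn ℝ 1 φ {z | z.2 ≠ 0}) :
    ContinuousOn (fun p : (V × V) × ℝ => (fderiv ℝ (m.Z p.2) (φ p.1)).comp
      (fderiv ℝ (fr φ p.1.1) p.1.2)) {p | p.1.2 ≠ 0} :=
  ((c_dZ o).comp_continuousOn (c_pt h)).clm_comp
    ((c_der h).comp continuousOn_fst fun _ hp => hp)

theorem c_At (o : m.OK) (h : ContDiffOn ℝ 1 φ {z | z.2 ≠ 0}) :
    ContinuousOn (fun p : (V × V) × ℝ => At m (fr φ p.1.1) p.2 p.1.2) {p | p.1.2 ≠ 0} := by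
  have h1 : Continuous fun p : (V × V) × ℝ =>
      (ContinuousLinearMap.id ℝ V - (innerSL ℝ p.1.2).smulRight p.1.2) :=
    continuous_const.sub ((((ContinuousLinearMap.smulRightL ℝ V V).continuous.comp
      ((innerSL ℝ).continuous.comp continuous_fst.snd))).clm_apply continuous_fst.snd)
  exact ((((c_hor o).comp o.cZ.continuous).comp_continuousOn (c_pt h)).clm_comp
    (c_mid o h)).clm_comp h1.continuousOn

theorem c_At2 (o : m.OK) (h : ContDiffOn ℝ 1 φ {z | z.2 ≠ 0}) :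
    ContinuousOn (fun p : (V × V) × ℝ => At2 m (fr φ p.1.1) p.2 p.1.2) {p | p.1.2 ≠ 0} :=
  (((c_ver o).comp o.cZ.continuous).comp_continuousOn (c_pt h)).clm_comp (c_mid o h)

variable {Γ Λ : Type} [Group Γ] [Group Λ] [MulAction Γ V] [MulAction Λ V] {ρ : Γ ≃* Λ}
  {O : Γ → V → V ≃ₗᵢ[ℝ] V} {O' : Λ → V → V ≃ₗᵢ[ℝ] V}

theorem chain (o : m.OK) (ha : Act m Λ O') (l : Λ) (t : ℝ) (w ξ : V × V) :
    fderiv ℝ (m.Z t) (l • w.1, O' l w.1 w.2)
      (fderiv ℝ (fun w : V × V => (l • w.1, O' l w.1 w.2)) w ξ) =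
    fderiv ℝ (fun w : V × V => (l • w.1, O' l w.1 w.2)) (m.Z t w) (fderiv ℝ (m.Z t) w ξ) := by
  have dg := (ha.c1 l).differentiable one_ne_zero
  have d1 := (dZ o t (l • w.1, O' l w.1 w.2)).differentiableAt.hasFDerivAt.comp w
    (dg w).hasFDerivAt
  have d2 := ((dg (m.Z t w)).hasFDerivAt.comp w
    (dZ o t w).differentiableAt.hasFDerivAt).congr_of_eventuallyEq
      (f₁ := m.Z t ∘ fun w : V × V => (l • w.1, O' l w.1 w.2))
      (Eventually.of_forall fun w => ha.flow l t w)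
  exact DFunLike.congr_fun (d1.unique d2) ξ

theorem eqv (o : m.OK) (h : ContDiffOn ℝ 1 φ {z | z.2 ≠ 0}) (ha : Act m Λ O')
    (he : Eqv ρ O O' φ) (γ : Γ) {z : V × V} (hz : z.2 ≠ 0) (t : ℝ) (v : V) :
    At m (fr φ (γ • z.1)) t (O γ z.1 z.2) (O γ z.1 v) =
      O' (ρ γ) (m.Z t (φ z)).1 (At m (fr φ z.1) t z.2 v) ∧
    At2 m (fr φ (γ • z.1)) t (O γ z.1 z.2) (O γ z.1 v) =
      O' (ρ γ) (m.Z t (φ z)).1 (At2 m (fr φ z.1) t z.2 v) := by
  have e0 : fr φ (γ • z.1) (O γ z.1 z.2) = (ρ γ • (φ z).1, O' (ρ γ) (φ z).1 (φ z).2) := he γ z hz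
  constructor
  · rw [At_apply, At_apply, LinearIsometryEquiv.inner_map_map, ← map_smul, ← map_sub,
      der_eqv h ha he γ hz, e0, MF.J, chain o ha, ha.flow]
    exact ha.hor _ _ _
  · rw [At2_apply, At2_apply, der_eqv h ha he γ hz, e0, MF.J', chain o ha, ha.flow]
    exact ha.ver _ _ _

end RSC2

open RSC2 in
theorem sSC2 : SSC2 := by
  intro m m' φ Γ Λ _ _ _ _ ρ O O' _ hm' hc _ ha he
  refine ⟨fun c => (ContinuousLinearMap.continuous_det.comp_continuousOn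
    ((c_At2 hm' hc.c1).add ((c_At hm' hc.c1).const_smul c))).abs, c_At hm' hc.c1,
    fun γ z c t hz => ?_, fun γ z t hz h0 => ?_⟩
  · have h0 : z.2 ≠ 0 := fun e => by simp [e] at hz
    obtain ⟨e, h1, h2⟩ := det_conj (O γ z.1) (O' (ρ γ) (m'.Z t (φ z)).1)
    rw [Dt, Dt, h2 (At2 m' (fr φ z.1) t z.2 + c • At m' (fr φ z.1) t z.2), abs_mul, h1, one_mul]
    intro v
    simp only [add_apply, smul_apply, (eqv hm' hc.c1 ha he γ h0 t v).1,
      (eqv hm' hc.c1 ha he γ h0 t v).2, map_add, map_smul]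
  · have h1 : z.2 ≠ 0 := fun e => by simp [e] at hz
    ext1 v
    have h2 := (eqv hm' hc.c1 ha he γ h1 t ((O γ z.1).symm v)).1
    rw [LinearIsometryEquiv.apply_symm_apply, h0] at h2
    rw [h2]
    simp

end

end Pool.Agent.MP_3ee8cb_gt.D3NP
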