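import Pool.Agent.MP_3ee8cb_gt.D3NP.OSpec

/-! The first algebraic step of the argument with two times. -/

namespace Pool.Agent.MP_3ee8cb_gt.D3NP

open Matrix D3OD

namespace RAL1

theorem lg {x : ℝ} (h1 : 1 / 2 < x) (h2 : x < 3 / 2) : |Real.log x| ≤ 1 := by
  have x0 : 0 < x := by linarith
  have u := Real.log_le_sub_one_of_pos x0
  have l := Real.one_sub_inv_le_log_of_pos x0
  have i : x⁻¹ ≤ 2 := by
    rw [inv_le_comm₀ x0 two_pos]
    linarith
  exact abs_le.2 ⟨by linarith, by linarith⟩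

theorem one (a b k : ℝ) (hb : |a * b| < 1) (hk : a ^ 2 ≤ k) :
    (1 / 2 < 1 + a / 2 * b ∧ 1 + a / 2 * b < 3 / 2) ∧
      (1 / 2 < 1 - a / 2 * b ∧ 1 - a / 2 * b < 3 / 2) ∧
      ((1 + a / 2 * b)⁻¹ + (1 - a / 2 * b)⁻¹) * (1 - b * k * b) ≤ 2 := by
  obtain ⟨h1, h2⟩ := abs_lt.1 hb
  have p1 : 1 / 2 < 1 + a / 2 * b := by linarith
  have p2 : 1 / 2 < 1 - a / 2 * b := by linarith
  refine ⟨⟨p1, by linarith⟩, ⟨p2, by linarith⟩, ?_⟩
  have q1 : 0 < 1 + a / 2 * b := by linarith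
  have q2 : 0 < 1 - a / 2 * b := by linarith
  have e : (1 + a / 2 * b)⁻¹ + (1 - a / 2 * b)⁻¹ = 2 / ((1 + a / 2 * b) * (1 - a / 2 * b)) := by
    rw [inv_add_inv q1.ne' q2.ne']
    congr 1
    ring
  rw [e, div_mul_eq_mul_div, div_le_iff₀ (mul_pos q1 q2)]
  nlinarith [mul_nonneg (sq_nonneg b) (sub_nonneg.2 hk), sq_nonneg (a * b)]

theorem trw (κ Z : M) : (κ * (Zᵀ * Z)).trace = Z 0 ⬝ᵥ κ *ᵥ Z 0 + Z 1 ⬝ᵥ κ *ᵥ Z 1 := by
  simp [trace_fin_two, Matrix.mul_apply, Fin.sum_univ_two, dotProduct, mulVec]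
  ring

end RAL1

theorem rAL1 : R_AL1 := by
  intro hE a A A' κ ha hg _ hκ
  set B := Bm A A' with hBd
  have hB : Bᵀ = B := by
    have := hg.symm
    rw [Gen.bsm, transpose_smul] at this
    exact smul_right_injective _ ha.ne' this
  obtain ⟨R, b, hR1, hR2, hBe⟩ := hE B hB
  have quad : ∀ (X : M) (i : Fin 2), (R *ᵥ Pi.single i 1) ⬝ᵥ X *ᵥ (R *ᵥ Pi.single i 1) =
      (Rᵀ * X * R) i i := fun X i => by
    fin_cases i <;>
      simp [dotProduct, mulVec, Matrix.mul_apply, Fin.sum_univ_two] <;> ring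
  have unit : ∀ i : Fin 2, (R *ᵥ Pi.single i 1) ⬝ᵥ (R *ᵥ Pi.single i 1) = 1 := fun i => by
    have := quad 1 i
    rw [one_mulVec, Matrix.mul_one, hR2, one_apply_eq] at this
    exact this
  have hD : Rᵀ * B * R = diagonal b := by
    rw [hBe]
    calc Rᵀ * (R * diagonal b * Rᵀ) * R = (Rᵀ * R) * diagonal b * (Rᵀ * R) := by
          simp only [Matrix.mul_assoc]
      _ = diagonal b := by rw [hR2, Matrix.one_mul, Matrix.mul_one]
  have hb : ∀ i, |a * b i| < 1 := fun i => by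
    have := hg.lt (R *ᵥ Pi.single i 1) (fun h => by
      have h1 := unit i
      rw [h, dotProduct_zero] at h1
      exact zero_ne_one h1)
    rwa [Gen.bsm, ← hBd, smul_mulVec, dotProduct_smul, quad, unit, hD, diagonal_apply_eq,
      smul_eq_mul] at this
  have hk : ∀ i, a ^ 2 ≤ (Rᵀ * κ * R) i i := fun i => by
    have := hκ (R *ᵥ Pi.single i 1)
    rwa [quad, unit, mul_one] at this
  have dR : R.det * R.det = 1 := by
    have := congrArg Matrix.det hR1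
    rwa [det_mul, det_transpose, det_one] at this
  have cj : ∀ v : V, (R * diagonal v * Rᵀ).det = v 0 * v 1 := fun v => by
    rw [det_mul, det_mul, det_transpose, det_diagonal, Fin.prod_univ_two]
    linear_combination (v 0 * v 1) * dR
  have sh : ∀ s : ℝ, 1 + s • B = R * diagonal (fun i => 1 + s * b i) * Rᵀ := fun s => by
    have : (diagonal fun i => 1 + s * b i) = 1 + s • diagonal b := by
      ext i l
      fin_cases i <;> fin_cases l <;> simp
    rw [this, Matrix.mul_add, Matrix.add_mul, Matrix.mul_one, hR1, hBe, Matrix.mul_smul,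
      Matrix.smul_mul]
  have sh' : 1 - (a / 2) • B = R * diagonal (fun i => 1 - a / 2 * b i) * Rᵀ := by
    have := sh (-(a / 2))
    simpa only [neg_smul, neg_mul, ← sub_eq_add_neg] using this
  have iv : ∀ v : V, (∀ i, v i ≠ 0) →
      (R * diagonal v * Rᵀ)⁻¹ = R * diagonal (fun i => (v i)⁻¹) * Rᵀ := fun v hv => by
    refine inv_eq_right_inv ?_
    calc R * diagonal v * Rᵀ * (R * diagonal (fun i => (v i)⁻¹) * Rᵀ)
        = R * (diagonal v * (Rᵀ * R) * diagonal (fun i => (v i)⁻¹)) * Rᵀ := by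
          simp only [Matrix.mul_assoc]
      _ = 1 := by
          rw [hR2, Matrix.mul_one, diagonal_mul_diagonal]
          simp only [mul_inv_cancel₀ (hv _), diagonal_one, Matrix.mul_one, hR1]
  obtain ⟨⟨p0, p0'⟩, ⟨q0, q0'⟩, t0⟩ := RAL1.one a (b 0) _ (hb 0) (hk 0)
  obtain ⟨⟨p1, p1'⟩, ⟨q1, q1'⟩, t1⟩ := RAL1.one a (b 1) _ (hb 1) (hk 1)
  have n0 : 1 + a / 2 * b 0 ≠ 0 := by linarith
  have n1 : 1 + a / 2 * b 1 ≠ 0 := by linarith
  have m0 : 1 - a / 2 * b 0 ≠ 0 := by linarith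
  have m1 : 1 - a / 2 * b 1 ≠ 0 := by linarith
  refine ⟨by rw [sh, cj]; exact mul_ne_zero n0 n1, by rw [sh', cj]; exact mul_ne_zero m0 m1,
    ?_, ?_, ?_⟩
  · set K : M := Rᵀ * κ * R with hK
    have hG : Gm (a / 2) B =
        R * diagonal (fun i => (1 + a / 2 * b i)⁻¹ + (1 - a / 2 * b i)⁻¹) * Rᵀ := by
      rw [Gm, sh, sh', iv _ (Fin.forall_fin_two.2 ⟨n0, n1⟩), iv _ (Fin.forall_fin_two.2 ⟨m0, m1⟩),
        ← Matrix.add_mul, ← Matrix.mul_add, diagonal_add]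
    have hT : Rᵀ * (1 - B * κ * B) * R = 1 - diagonal b * K * diagonal b := by
      rw [Matrix.mul_sub, Matrix.sub_mul, Matrix.mul_one, hR2, ← hD, hK]
      have : Rᵀ * B * R * (Rᵀ * κ * R) * (Rᵀ * B * R) =
          Rᵀ * B * (R * Rᵀ) * κ * (R * Rᵀ) * B * R := by simp only [Matrix.mul_assoc]
      rw [this, hR1]
      simp only [Matrix.mul_assoc, Matrix.one_mul]
    have hTr : (Gm (a / 2) B * (1 - B * κ * B)).trace =
        ((1 + a / 2 * b 0)⁻¹ + (1 - a / 2 * b 0)⁻¹) * (1 - b 0 * K 0 0 * b 0) +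
        ((1 + a / 2 * b 1)⁻¹ + (1 - a / 2 * b 1)⁻¹) * (1 - b 1 * K 1 1 * b 1) := by
      rw [hG, Matrix.mul_assoc, Matrix.mul_assoc, trace_mul_comm, Matrix.mul_assoc, hT]
      simp [trace_fin_two, Matrix.mul_apply, diagonal_apply]
    rw [hTr]
    linarith
  · rw [Fm, sh, sh', cj, cj, Real.log_mul n0 n1, Real.log_mul m0 m1, mul_div_cancel₀ a two_ne_zero,
      abs_div, abs_of_pos ha]
    refine div_le_div_of_nonneg_right ?_ ha.le
    have a0 := abs_le.1 (RAL1.lg p0 p0')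
    have a1 := abs_le.1 (RAL1.lg p1 p1')
    have b0 := abs_le.1 (RAL1.lg q0 q0')
    have b1 := abs_le.1 (RAL1.lg q1 q1')
    exact abs_le.2 ⟨by linarith [a0.1, a1.1, b0.2, b1.2], by linarith [a0.2, a1.2, b0.1, b1.1]⟩
  · rw [Wm, RAL1.trw]
    exact add_nonneg ((mul_nonneg (sq_nonneg a) (Gen.dnn _)).trans (hκ _))
      ((mul_nonneg (sq_nonneg a) (Gen.dnn _)).trans (hκ _))

end Pool.Agent.MP_3ee8cb_gt.D3NP
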