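import Pool.Agent.MP_3ee8cb_gt.D3NP.OSpec
import Pool.Agent.MP_3ee8cb_gt.D3OD.RALG

/-! The lower bound for the trace of `G W`. -/

namespace Pool.Agent.MP_3ee8cb_gt.D3NP

open Matrix D3OD

namespace RAL2

theorem sc (P y g0 g1 W0 W1 d : ℝ) (hP : g0 * g1 * P = 1) (p0 : 0 < g0) (p1 : 0 < g1)
    (w0 : 0 ≤ W0) (w1 : 0 ≤ W1) (hd : d ^ 2 ≤ W0 * W1) (hy : y ^ 2 * d ^ 2 = 1) :
    2 / √(P * y ^ 2) ≤ g0 * W0 + g1 * W1 := by
  have gg : 0 < g0 * g1 := mul_pos p0 p1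
  have P0 : 0 < P := pos_of_mul_pos_left (by rw [mul_comm, hP]; exact one_pos) gg.le
  have y0 : 0 < y ^ 2 := pos_of_mul_pos_left (by rw [mul_comm, mul_comm (d ^ 2), hy]; exact one_pos)
    (sq_nonneg d)
  have q0 : 0 < P * y ^ 2 := mul_pos P0 y0
  have X0 : 0 ≤ g0 * W0 + g1 * W1 := add_nonneg (mul_nonneg p0.le w0) (mul_nonneg p1.le w1)
  have k4 : 4 * (g0 * g1 * d ^ 2) ≤ (g0 * W0 + g1 * W1) ^ 2 := by
    have := mul_le_mul_of_nonneg_left hd gg.le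
    nlinarith [sq_nonneg (g0 * W0 - g1 * W1)]
  rw [div_le_iff₀ (Real.sqrt_pos.2 q0)]
  refine le_of_sq_le_sq ?_ (mul_nonneg X0 (Real.sqrt_nonneg _))
  rw [mul_pow, Real.sq_sqrt q0.le]
  have k5 := mul_le_mul_of_nonneg_right k4 q0.le
  have e : 4 * (g0 * g1 * d ^ 2) * (P * y ^ 2) = 4 * (g0 * g1 * P) * (y ^ 2 * d ^ 2) := by ring
  rw [e, hP, hy] at k5
  linarith

theorem core (hE : S_EIG) (B Z : M) (c : ℝ) (hB : Bᵀ = B)
    (hlt : ∀ x : V, x ≠ 0 → |x ⬝ᵥ B *ᵥ x| < x ⬝ᵥ x) (hZ : Z.det ≠ 0) (hc0 : 0 < c) (hc1 : c < 1) :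
    2 / √(|(1 + c • B).det * Z.det| * |(1 - c • B).det * Z.det|) ≤
      (((1 + c • B)⁻¹ + (1 - c • B)⁻¹) * ((Z⁻¹)ᵀ * Z⁻¹)).trace / 2 := by
  obtain ⟨R, b, hR1, hR2, hBe⟩ := hE B hB
  have quad : ∀ (X : M) (i : Fin 2), (R *ᵥ Pi.single i 1) ⬝ᵥ X *ᵥ (R *ᵥ Pi.single i 1) =
      (Rᵀ * X * R) i i := fun X i => by
    fin_cases i <;>
      simp [dotProduct, mulVec, Matrix.mul_apply, Fin.sum_univ_two] <;> ring
  have unit : ∀ i : Fin 2, (R *ᵥ Pi.single i 1) ⬝ᵥ (R *ᵥ Pi.single i 1) = 1 := fun i => by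
    have := quad 1 i
    rw [one_mulVec, Matrix.mul_one, hR2, one_apply_eq] at this
    exact this
  have hD : Rᵀ * B * R = diagonal b := by
    rw [hBe]
    calc Rᵀ * (R * diagonal b * Rᵀ) * R = (Rᵀ * R) * diagonal b * (Rᵀ * R) := by
          simp only [Matrix.mul_assoc]
      _ = diagonal b := by rw [hR2, Matrix.one_mul, Matrix.mul_one]
  have hb : ∀ i, |b i| < 1 := fun i => by
    have := hlt (R *ᵥ Pi.single i 1) (fun h => by
      have h1 := unit i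
      rw [h, dotProduct_zero] at h1
      exact zero_ne_one h1)
    rwa [quad, unit, hD, diagonal_apply_eq] at this
  have dR : R.det * R.det = 1 := by
    have := congrArg Matrix.det hR1
    rwa [det_mul, det_transpose, det_one] at this
  have cj : ∀ v : V, (R * diagonal v * Rᵀ).det = v 0 * v 1 := fun v => by
    rw [det_mul, det_mul, det_transpose, det_diagonal, Fin.prod_univ_two]
    linear_combination (v 0 * v 1) * dR
  have sh : ∀ s : ℝ, 1 + s • B = R * diagonal (fun i => 1 + s * b i) * Rᵀ := fun s => by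
    have : (diagonal fun i => 1 + s * b i) = 1 + s • diagonal b := by
      ext i l
      fin_cases i <;> fin_cases l <;> simp
    rw [this, Matrix.mul_add, Matrix.add_mul, Matrix.mul_one, hR1, hBe, Matrix.mul_smul,
      Matrix.smul_mul]
  have sh' : 1 - c • B = R * diagonal (fun i => 1 - c * b i) * Rᵀ := by
    have := sh (-c)
    simpa only [neg_smul, neg_mul, ← sub_eq_add_neg] using this
  have iv : ∀ v : V, (∀ i, v i ≠ 0) →
      (R * diagonal v * Rᵀ)⁻¹ = R * diagonal (fun i => (v i)⁻¹) * Rᵀ := fun v hv => by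
    refine inv_eq_right_inv ?_
    calc R * diagonal v * Rᵀ * (R * diagonal (fun i => (v i)⁻¹) * Rᵀ)
        = R * (diagonal v * (Rᵀ * R) * diagonal (fun i => (v i)⁻¹)) * Rᵀ := by
          simp only [Matrix.mul_assoc]
      _ = 1 := by
          rw [hR2, Matrix.mul_one, diagonal_mul_diagonal]
          simp only [mul_inv_cancel₀ (hv _), diagonal_one, Matrix.mul_one, hR1]
  obtain ⟨p0, q0, g0, g00, e0, s0, -⟩ := RALG.one c (b 0) 1 hc0 hc1 (hb 0) le_rfl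
  obtain ⟨p1, q1, g1, g10, e1, s1, -⟩ := RALG.one c (b 1) 1 hc0 hc1 (hb 1) le_rfl
  set Y : M := Z⁻¹ * R with hY
  have hG : (1 + c • B)⁻¹ + (1 - c • B)⁻¹ = R * diagonal ![2 * g0, 2 * g1] * Rᵀ := by
    rw [sh, sh', iv _ (Fin.forall_fin_two.2 ⟨p0.ne', p1.ne'⟩),
      iv _ (Fin.forall_fin_two.2 ⟨q0.ne', q1.ne'⟩), ← Matrix.add_mul, ← Matrix.mul_add,
      diagonal_add]
    have : (fun i => (1 + c * b i)⁻¹ + (1 - c * b i)⁻¹) = ![2 * g0, 2 * g1] := by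
      funext i
      fin_cases i
      · exact s0
      · exact s1
    rw [this]
  have hT : Rᵀ * ((Z⁻¹)ᵀ * Z⁻¹) * R = Yᵀ * Y := by
    rw [hY, transpose_mul]
    simp only [Matrix.mul_assoc]
  have hTr : (((1 + c • B)⁻¹ + (1 - c • B)⁻¹) * ((Z⁻¹)ᵀ * Z⁻¹)).trace / 2 =
      g0 * (Y 0 0 ^ 2 + Y 1 0 ^ 2) + g1 * (Y 0 1 ^ 2 + Y 1 1 ^ 2) := by
    rw [hG, Matrix.mul_assoc, Matrix.mul_assoc, trace_mul_comm, Matrix.mul_assoc, hT]
    simp [trace_fin_two, Matrix.mul_apply, Fin.sum_univ_two, diagonal_apply]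
    ring
  have hy : Z.det ^ 2 * Y.det ^ 2 = 1 := by
    rw [hY, det_mul, det_nonsing_inv, Ring.inverse_eq_inv', mul_pow, sq R.det, dR]
    field_simp
  have hq : |(1 + c • B).det * Z.det| * |(1 - c • B).det * Z.det| =
      (1 - c ^ 2 * b 0 ^ 2) * (1 - c ^ 2 * b 1 ^ 2) * Z.det ^ 2 := by
    rw [sh, sh', cj, cj, abs_mul, abs_mul _ Z.det, abs_of_pos (mul_pos p0 p1),
      abs_of_pos (mul_pos q0 q1), ← sq_abs Z.det]
    ring
  rw [hq, hTr]
  exact sc _ _ _ _ _ _ Y.det (by linear_combination (g1 * (1 - c ^ 2 * b 1 ^ 2)) * e0 + e1)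
    g00 g10 (by positivity) (by positivity)
    (by rw [det_fin_two]; nlinarith [sq_nonneg (Y 0 0 * Y 0 1 + Y 1 0 * Y 1 1)]) hy

end RAL2

theorem rAL2 : R_AL2 := by
  intro hE a A A' _ g
  have h := RAL2.core hE _ A' (1 / 2) g.symm g.lt g.det (by norm_num) (by norm_num)
  have e : (1 / 2 : ℝ) • Bm (a • A) A' = (a / 2) • Bm A A' := by
    rw [Gen.bsm, smul_smul]
    exact congrArg (· • Bm A A') (by ring)
  rw [e] at h
  rw [Gen.fac _ _ g.det, Gen.fac _ _ g.det, neg_smul, ← sub_eq_add_neg]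
  exact h

end Pool.Agent.MP_3ee8cb_gt.D3NP
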