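import Pool.Agent.MP_3ee8cb_gt.D3NP.OSpec

/-! No pinching: the defect is nonnegative, with its equality case. -/

namespace Pool.Agent.MP_3ee8cb_gt.D3NP

open Matrix Set D3OD

namespace RAL3

theorem key (B : M) (hs : Bᵀ = B) (h : ∀ x : V, x ≠ 0 → |x ⬝ᵥ B *ᵥ x| < x ⬝ᵥ x) :
    |(1 + (1 / 2 : ℝ) • B).det * (1 + (-(1 / 2) : ℝ) • B).det| ≤ 1 ∧
    (|(1 + (1 / 2 : ℝ) • B).det * (1 + (-(1 / 2) : ℝ) • B).det| = 1 → B = 0) := by
  have s : B 1 0 = B 0 1 := by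
    have := congrFun (congrFun hs 0) 1
    simpa using this
  have h1 := abs_lt.1 (h ![1, 0] (by simp))
  have h2 := abs_lt.1 (h ![0, 1] (by simp))
  have h3 := abs_lt.1 (h ![1, 1] (by simp))
  have h4 := abs_lt.1 (h ![1, -1] (by simp))
  simp only [dotProduct, mulVec, Fin.sum_univ_two, cons_val_zero, cons_val_one, s] at h1 h2 h3 h4
  have e : (1 + (1 / 2 : ℝ) • B).det * (1 + (-(1 / 2) : ℝ) • B).det =
      (1 + (B 0 0 * B 1 1 - B 0 1 ^ 2) / 4) ^ 2 - (B 0 0 + B 1 1) ^ 2 / 4 := by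
    simp [det_fin_two, s]
    ring
  rw [e]
  have z : B 0 0 = 0 → B 1 1 = 0 → B 0 1 = 0 → B = 0 := fun a b c => by
    ext i j
    fin_cases i <;> fin_cases j <;> simp [a, b, c, s]
  generalize B 0 0 = p at *
  generalize B 1 1 = r at *
  generalize B 0 1 = q at *
  have p2 : p ^ 2 < 1 := by nlinarith [h1.1, h1.2]
  have r2 : r ^ 2 < 1 := by nlinarith [h2.1, h2.2]
  have q2 : q ^ 2 < 1 := by nlinarith [h3.1, h3.2, h4.1, h4.2]
  have d1 : p * r - q ^ 2 ≤ 2 := by nlinarith [sq_nonneg (p - r), sq_nonneg q]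
  have d2 : -2 ≤ p * r - q ^ 2 := by nlinarith [sq_nonneg (p + r)]
  have n1 : 2 * (p * r - q ^ 2) ≤ p ^ 2 + r ^ 2 + 2 * q ^ 2 := by
    nlinarith [sq_nonneg (p - r), sq_nonneg q]
  have n2 : -(2 * (p * r - q ^ 2)) ≤ p ^ 2 + r ^ 2 + 2 * q ^ 2 := by nlinarith [sq_nonneg (p + r)]
  have dd : (p * r - q ^ 2) ^ 2 ≤ p ^ 2 + r ^ 2 + 2 * q ^ 2 := by
    rcases le_total 0 (p * r - q ^ 2) with c | c <;> nlinarith
  have up : (1 + (p * r - q ^ 2) / 4) ^ 2 - (p + r) ^ 2 / 4 ≤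
      1 - 3 / 16 * (p ^ 2 + r ^ 2 + 2 * q ^ 2) := by nlinarith
  have lo : -1 < (1 + (p * r - q ^ 2) / 4) ^ 2 - (p + r) ^ 2 / 4 := by
    nlinarith [sq_nonneg (1 + (p * r - q ^ 2) / 4), sq_nonneg (p - r)]
  have nn : 0 ≤ p ^ 2 + r ^ 2 + 2 * q ^ 2 := by positivity
  refine ⟨abs_le.2 ⟨lo.le, by linarith⟩, fun h0 => ?_⟩
  have n0 : p ^ 2 + r ^ 2 + 2 * q ^ 2 ≤ 0 := by
    rcases abs_cases ((1 + (p * r - q ^ 2) / 4) ^ 2 - (p + r) ^ 2 / 4) with ⟨c, -⟩ | ⟨c, -⟩ <;>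
      linarith
  exact z (pow_eq_zero_iff two_ne_zero |>.1 (by nlinarith [sq_nonneg p, sq_nonneg r, sq_nonneg q]))
    (pow_eq_zero_iff two_ne_zero |>.1 (by nlinarith [sq_nonneg p, sq_nonneg r, sq_nonneg q]))
    (pow_eq_zero_iff two_ne_zero |>.1 (by nlinarith [sq_nonneg p, sq_nonneg r, sq_nonneg q]))

theorem num (w y : ℝ) (w0 : 0 < w) (w1 : w ≤ 1) (y0 : 0 < y) :
    0 ≤ 2 / √(w * y ^ 2) - 4 + 2 * y ∧ (2 / √(w * y ^ 2) - 4 + 2 * y = 0 → w = 1 ∧ y = 1) := by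
  have e : √(w * y ^ 2) = √w * y := by rw [Real.sqrt_mul w0.le, Real.sqrt_sq y0.le]
  have s0 : 0 < √w := Real.sqrt_pos.2 w0
  have s1 : √w ≤ 1 := Real.sqrt_le_one.2 w1
  have a : 2 / y ≤ 2 / (√w * y) :=
    div_le_div_of_nonneg_left (by norm_num) (by positivity) (by nlinarith)
  have b : 2 / y - 4 + 2 * y = 2 * (1 - y) ^ 2 / y := by
    field_simp
    ring
  have c : 0 ≤ 2 * (1 - y) ^ 2 / y := by positivity
  rw [e]
  refine ⟨by linarith, fun h => ?_⟩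
  have d : 2 * (1 - y) ^ 2 / y = 0 := by linarith
  have y1 : y = 1 := by
    rcases div_eq_zero_iff.1 d with d | d
    · have : (1 - y) ^ 2 = 0 := by linarith
      linarith [pow_eq_zero_iff two_ne_zero |>.1 this]
    · exact absurd d y0.ne'
  refine ⟨?_, y1⟩
  rw [y1, mul_one] at h
  have f : 2 / √w = 2 := by linarith
  rw [div_eq_iff s0.ne'] at f
  have g : √w = 1 := by linarith
  exact Real.sqrt_eq_one.1 g

end RAL3

theorem rAL3 : R_AL3 := by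
  intro _ a A A' ha g
  have f : ∀ s : ℝ, (A' + (s * a) • A).det = (1 + s • Bm (a • A) A').det * A'.det := fun s => by
    rw [← Gen.fac _ _ g.det, smul_smul]
  have f1 : (A' + (a / 2) • A).det = (1 + (1 / 2 : ℝ) • Bm (a • A) A').det * A'.det := by
    rw [← f, show (1 / 2 : ℝ) * a = a / 2 by ring]
  have f2 : (A' + (-(a / 2)) • A).det = (1 + (-(1 / 2) : ℝ) • Bm (a • A) A').det * A'.det := by
    rw [← f, show (-(1 / 2) : ℝ) * a = -(a / 2) by ring]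
  have n1 := Gen.nz _ g.lt (1 / 2) (by rw [abs_of_pos] <;> norm_num)
  have n2 := Gen.nz _ g.lt (-(1 / 2)) (by rw [abs_neg, abs_of_pos] <;> norm_num)
  obtain ⟨k1, k2⟩ := RAL3.key _ g.symm g.lt
  have e : |(A' + (a / 2) • A).det| * |(A' + (-(a / 2)) • A).det| =
      |(1 + (1 / 2 : ℝ) • Bm (a • A) A').det * (1 + (-(1 / 2) : ℝ) • Bm (a • A) A').det| *
        |A'.det| ^ 2 := by
    rw [f1, f2, abs_mul, abs_mul, abs_mul]
    ring
  obtain ⟨m1, m2⟩ := RAL3.num _ _ (abs_pos.2 (mul_ne_zero n1 n2)) k1 (abs_pos.2 g.det)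
  refine ⟨by rw [f1]; exact mul_ne_zero n1 g.det, by rw [f2]; exact mul_ne_zero n2 g.det, ?_,
    fun h => ?_⟩
  · rw [pn, e]
    exact m1
  · rw [pn, e] at h
    obtain ⟨w1, y1⟩ := m2 h
    refine ⟨?_, y1⟩
    have b := k2 w1
    have c : a • A = Bm (a • A) A' * A' := by
      rw [Bm, nonsing_inv_mul_cancel_right _ _ (isUnit_iff_ne_zero.2 g.det)]
    rw [b, Matrix.zero_mul] at c
    exact (smul_eq_zero.1 c).resolve_left ha.ne'

end Pool.Agent.MP_3ee8cb_gt.D3NP
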