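import Pool.Agent.MP_3ee8cb_gt.D3NP.OSpec
import Pool.Agent.MP_3ee8cb_gt.D3OD.RBDER

/-! Derivatives of `B` with respect to the two times. -/

namespace Pool.Agent.MP_3ee8cb_gt.D3NP

open Matrix Set D3OD

namespace RBS

theorem msol {k A A' : ℝ → M} (h : MSol k A A') (t : ℝ) :
    MD A (A' t) t ∧ MD A' (k t * A t) t := by
  refine ⟨fun i l => ?_, fun i l => ?_⟩
  · have := hasDerivAt_pi.1 ((h (Pi.single l 1)).d1 t) i
    simpa using this
  · have := hasDerivAt_pi.1 ((h (Pi.single l 1)).d2 t) i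
    rw [Matrix.mulVec_mulVec] at this
    simpa using this

end RBS

theorem rBS : R_BS := by
  intro hB hS hT hD a C kM kN hh hv vh vv A A' ha o tw s t
  obtain ⟨D, E, p⟩ := hT a C kM kN hh hv vh vv A A' ha o tw
  have hd := (hD a C kM kN hh hv vh vv A A' ha o tw s t).det
  have hu : IsUnit (A' s t).det := isUnit_iff_ne_zero.2 hd
  obtain ⟨m1, m2⟩ := RBS.msol (tw.sol s) t
  refine ⟨?_, ?_, ?_⟩
  · have d1 : MD (fun r => A r t) (-D s t) s := fun i l => by
      have h := (p.dA s t i l).comp_hasDerivAt s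
        ((hasDerivAt_id s).prodMk (hasDerivAt_const s t))
      exact h.congr_deriv (by simp [lf])
    have h := hB _ _ _ _ s d1 (p.dA' s t) hd
    have e := hS _ _ _ _ (p.symp s t) hd
    have e2 : -D s t * (A' s t)⁻¹ - Bm (A s t) (A' s t) * -E s t * (A' s t)⁻¹ =
        -Wm (A' s t) := by
      rw [Wm, ← e]
      simp only [Matrix.mul_neg, Matrix.neg_mul, Matrix.sub_mul]
      abel
    rwa [e2] at h
  · have h := hB _ _ _ _ t m1 m2 hd
    have e : A' s t * (A' s t)⁻¹ - Bm (A s t) (A' s t) * (kN t * A s t) * (A' s t)⁻¹ =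
        1 - Bm (A s t) (A' s t) * kN t * Bm (A s t) (A' s t) := by
      rw [Matrix.mul_nonsing_inv _ hu]
      simp only [Bm, Matrix.mul_assoc]
    rwa [e] at h
  · simp only [Real.log_abs]
    refine (RBDER.d_log m2 hd).congr_deriv ?_
    rw [Matrix.trace_mul_comm, Bm, Matrix.mul_assoc]

end Pool.Agent.MP_3ee8cb_gt.D3NP
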