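import Pool.Agent.MP_3ee8cb_gt.D3NP.OSpec

/-! Two lemmas on real functions. -/

namespace Pool.Agent.MP_3ee8cb_gt.D3NP

open Set Filter Topology

namespace RDINI

theorem step {f : ℝ → ℝ} {d c S : ℝ} (hf : HasDerivAt f d c) (hd : d < 0) (hc : c < S) :
    ∃ r, c < r ∧ r ≤ S ∧ f r < f c := by
  have h1 : ∀ᶠ r in 𝓝[≠] c, slope f c r < 0 :=
    (hasDerivAt_iff_tendsto_slope.1 hf).eventually (gt_mem_nhds hd)
  have h2 : ∀ᶠ r in 𝓝[>] c, slope f c r < 0 :=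
    h1.filter_mono (nhdsWithin_mono c fun r hr => ne_of_gt hr)
  have h3 : ∀ᶠ r in 𝓝[>] c, r ∈ Ioc c S := Ioc_mem_nhdsGT hc
  obtain ⟨r, hr, hr2⟩ := (h2.and h3).exists
  refine ⟨r, hr2.1, hr2.2, ?_⟩
  rw [slope_def_field] at hr
  have h4 : 0 < r - c := sub_pos.2 hr2.1
  have h5 := (div_neg_iff.1 hr)
  rcases h5 with h | h
  · linarith [h.2]
  · linarith [h.1]

theorem eps {φ k : ℝ → ℝ} (hφ : Antitone φ) (hk : Continuous k)
    (hs : ∀ s, ∃ (ψ : ℝ → ℝ) (d : ℝ), HasDerivAt ψ d s ∧ d ≤ k s ∧ ψ s = φ s ∧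
      ∀ r, s ≤ r → φ r ≤ ψ r) {S ε : ℝ} (hS : 0 ≤ S) (hε : 0 < ε) :
    φ S ≤ φ 0 + (∫ s in (0 : ℝ)..S, k s) + ε * S := by
  set h : ℝ → ℝ := fun s => φ 0 + (∫ u in (0 : ℝ)..s, k u) + ε * s with hh
  have hd : ∀ s, HasDerivAt h (k s + ε) s := by
    intro s
    have h1 : HasDerivAt (fun s => ∫ u in (0 : ℝ)..s, k u) (k s) s :=
      (hk.integral_hasStrictDerivAt 0 s).hasDerivAt
    have h2 : HasDerivAt (fun s : ℝ => ε * s) (ε * 1) s := (hasDerivAt_id s).const_mul ε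
    rw [mul_one] at h2
    exact (h1.const_add (φ 0)).add h2
  have hc : Continuous h := continuous_iff_continuousAt.2 fun s => (hd s).continuousAt
  set E : Set ℝ := {s | s ∈ Icc 0 S ∧ φ s ≤ h s} with hE
  have h0 : (0 : ℝ) ∈ E := ⟨⟨le_rfl, hS⟩, by simp [hh]⟩
  have hb : BddAbove E := ⟨S, fun s hs => hs.1.2⟩
  have hcl : sSup E ∈ closure E := csSup_mem_closure ⟨0, h0⟩ hb
  have hc0 : 0 ≤ sSup E := le_csSup hb h0
  have hcS : sSup E ≤ S := csSup_le ⟨0, h0⟩ fun s hs => hs.1.2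
  have hsub : E ⊆ {e | φ (sSup E) ≤ h e} := fun e he =>
    le_trans (hφ (le_csSup hb he)) he.2
  have hin : φ (sSup E) ≤ h (sSup E) :=
    closure_minimal hsub (isClosed_le continuous_const hc) hcl
  rcases hcS.eq_or_lt with heq | hlt
  · rw [heq] at hin
    exact hin
  · exfalso
    obtain ⟨ψ, d, hψ, hdk, he, hr⟩ := hs (sSup E)
    obtain ⟨r, hr1, hr2, hr3⟩ := step (hψ.sub (hd (sSup E))) (by linarith) hlt
    have hr4 : ψ r - h r < ψ (sSup E) - h (sSup E) := hr3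
    have hrE : r ∈ E := ⟨⟨hc0.trans hr1.le, hr2⟩, by linarith [hr r hr1.le]⟩
    exact absurd (le_csSup hb hrE) (not_le.2 hr1)

theorem least {f : ℝ → ℝ} (hf : Continuous f) {a b : ℝ} (hab : a ≤ b) :
    ∃ t, t ∈ Icc a b ∧ (∀ u ∈ Icc a b, f t ≤ f u) ∧ ∀ u ∈ Icc a b, u < t → f t < f u := by
  obtain ⟨m, hm, hmin⟩ := isCompact_Icc.exists_isMinOn (nonempty_Icc.2 hab) hf.continuousOn
  have hK : IsCompact (Icc a b ∩ {t | f t ≤ f m}) :=
    isCompact_Icc.inter_right (isClosed_le hf continuous_const)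
  obtain ⟨t, ht, hl⟩ := hK.exists_isLeast ⟨m, hm, le_refl (f m)⟩
  have htm : f t ≤ f m := ht.2
  refine ⟨t, ht.1, fun u hu => htm.trans (hmin hu), fun u hu hut => ?_⟩
  by_contra hcon
  have : t ≤ u := hl ⟨hu, (not_lt.1 hcon).trans htm⟩
  exact absurd this (not_le.2 hut)

end RDINI

theorem rDINI : S_DINI := by
  intro φ k hφ hk hs S hS
  have h : φ S ≤ φ 0 + ∫ s in (0 : ℝ)..S, k s := by
    refine le_of_forall_pos_le_add fun ε hε => ?_
    have h1 := RDINI.eps hφ hk hs hS (div_pos hε (by linarith : 0 < S + 1))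
    have h2 : ε / (S + 1) * S ≤ ε := by
      rw [div_mul_eq_mul_div, div_le_iff₀ (by linarith)]
      nlinarith
    linarith
  linarith

theorem rTOP : S_TOP := by
  intro Φ T hT hc ha
  have h := fun s : ℝ => RDINI.least (hc s) (show s - T ≤ s + T by linarith)
  choose τ h1 h2 h3 using h
  refine ⟨τ, fun s s' hss => ?_, fun s => ⟨h1 s, h2 s⟩⟩
  by_contra hcon
  have hlt : τ s' < τ s := not_le.1 hcon
  have i1 : τ s' ∈ Icc (s - T) (s + T) :=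
    ⟨by linarith [(h1 s').1], by linarith [(h1 s).2]⟩
  have i2 : τ s ∈ Icc (s' - T) (s' + T) :=
    ⟨by linarith [(h1 s').1], by linarith [(h1 s).2]⟩
  have e1 := h3 s _ i1 hlt
  have e2 := h2 s' _ i2
  have e3 : Φ s' (τ s) - Φ s (τ s) ≤ Φ s' (τ s') - Φ s (τ s') := ha s s' hss hlt.le
  linarith

end Pool.Agent.MP_3ee8cb_gt.D3NP
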