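import Pool.Agent.MP_3ee8cb_gt.D3NP.OSpec

/-! The inequality along one orbit. -/

namespace Pool.Agent.MP_3ee8cb_gt.D3NP

open Matrix Set D3OD

namespace RORB

theorem trD {B : ℝ → M} {X : M} {s : ℝ} (k : M) (h : MD B X s) :
    HasDerivAt (fun r => (k * B r).trace) (k * X).trace s := by
  simp only [trace_fin_two, Matrix.mul_apply, Fin.sum_univ_two]
  exact (((h 0 0).const_mul _).add ((h 1 0).const_mul _)).add
    (((h 0 1).const_mul _).add ((h 1 1).const_mul _))

end RORB

theorem rORB : R_ORB := by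
  intro fd dia bs al1 al2 dini top a C kM kN hh hv vh vv A A' ha O W T μ q hT cμ cq hμ hq S hS
  have G := dia a C kM kN hh hv vh vv A A' ha O W
  have Bd := bs a C kM kN hh hv vh vv A A' ha O W
  have L1 := fun s t => al1 a (A s t) (A' s t) (kN t) ha (G s t) (O.cN.symm t) (O.cN.low t)
  have L2 := fun s t => al2 a (A s t) (A' s t) ha (G s t)
  have c0 : a / 2 ≠ 0 := by positivity
  have m1 : ∀ t, Antitone fun r => (kN t * Bm (A r t) (A' r t)).trace := fun t =>
    antitone_of_hasDerivAt_nonpos (fun r => RORB.trD (kN t) (Bd r t).1) fun r => by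
      have := (L1 r t).2.2.2.2
      rw [Matrix.mul_neg, trace_neg]
      exact neg_nonpos.2 this
  obtain ⟨τ, mτ, hτ⟩ := top (fun s t => Real.log |(A' s t).det|) T hT
    (fun s => continuous_iff_continuousAt.2 fun t => (Bd s t).2.2.continuousAt)
    fun s s' h => antitone_of_hasDerivAt_nonpos (fun t => (Bd s' t).2.2.sub (Bd s t).2.2)
      fun t => sub_nonpos.2 (m1 t h)
  have Fs := fun s t => fd (fun r => Bm (A r t) (A' r t)) _ (a / 2) s (Bd s t).1 c0 (L1 s t).1
    (L1 s t).2.1
  have Ft := fun s t => fd (fun r => Bm (A s r) (A' s r)) _ (a / 2) t (Bd s t).2.1 c0 (L1 s t).1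
    (L1 s t).2.1
  have d1 : ∀ s t, (((1 + (a / 2) • Bm (A s t) (A' s t))⁻¹ +
      (1 - (a / 2) • Bm (A s t) (A' s t))⁻¹) * -Wm (A' s t)).trace / 2 ≤
      -(2 / √(|(A' s t + (a / 2) • A s t).det| * |(A' s t + (-(a / 2)) • A s t).det|)) :=
    fun s t => by
      have := L2 s t
      rw [Gm] at this
      rw [Matrix.mul_neg, trace_neg, neg_div]
      exact neg_le_neg this
  have m2 : ∀ t, Antitone fun r => Fm (a / 2) (Bm (A r t) (A' r t)) := fun t =>
    antitone_of_hasDerivAt_nonpos (fun r => Fs r t) fun r =>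
      (d1 r t).trans (neg_nonpos.2 (by positivity))
  have m3 : ∀ s, Antitone fun t => Fm (a / 2) (Bm (A s t) (A' s t)) - 2 * t := fun s =>
    antitone_of_hasDerivAt_nonpos (fun t => (Ft s t).sub ((hasDerivAt_id t).const_mul 2))
      fun t => by
        have := (L1 s t).2.2.1
        rw [Gm] at this
        simpa using this
  have ck : Continuous fun s => 2 * (μ s - 1) - q s := by fun_prop
  have k := dini (fun s => Fm (a / 2) (Bm (A s (τ s)) (A' s (τ s))) - 2 * τ s)
    (fun s => 2 * (μ s - 1) - q s - 2)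
    (fun s r h => (m3 r (mτ h)).trans (sub_le_sub_right (m2 (τ s) h) _)) (by fun_prop)
    (fun s => ⟨fun r => Fm (a / 2) (Bm (A r (τ s)) (A' r (τ s))) - 2 * τ s, _,
      (Fs s (τ s)).sub_const _, (d1 s (τ s)).trans (by
        obtain ⟨t, ht, h1⟩ := hμ s
        have h2 := (Real.log_le_log_iff (abs_pos.2 (G s (τ s)).det) (abs_pos.2 (G s t).det)).1
          ((hτ s).2 t ht)
        have h3 := hq s _ (hτ s).1
        rw [pn] at h3
        linarith), rfl, fun r h => m3 r (mτ h)⟩) S hS
  rw [intervalIntegral.integral_sub (ck.intervalIntegrable _ _) intervalIntegrable_const,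
    intervalIntegral.integral_const, smul_eq_mul] at k
  have b1 := abs_le.1 (L1 S (τ S)).2.2.2.1
  have b2 := abs_le.1 (L1 0 (τ 0)).2.2.2.1
  have b3 := (hτ S).1.2
  have b4 := (hτ 0).1.1
  have e : 8 / a = 4 / a + 4 / a := by ring
  linarith

end Pool.Agent.MP_3ee8cb_gt.D3NP
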