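import Pool.Agent.MP_3ee8cb_gt.D3NP.Spec
import Pool.Agent.MP_3ee8cb_gt.D3FL.HFLP

/-! A continuous function invariant under the flow and the deck group is constant. -/

namespace Pool.Agent.MP_3ee8cb_gt.D3NP

open Set Filter Topology
open CR (E Met UT tm)
open LV (QP CJ)

namespace RCON

variable {n : ℕ} {g h : Met n} {Γ Λ : Type} [Group Γ] [Group Λ] [MulAction Γ (E n)]
  [MulAction Λ (E n)] {Φ : ℝ → UT g → UT g} {Ψ : ℝ → UT h → UT h}

/-- The conjugacy moved by an invariant time. -/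
def sh (qh : QP h Λ Ψ) (F : UT g ≃ₜ UT h) (fF : ∀ t p, F (Φ t p) = Ψ t (F p)) (c : UT g → ℝ)
    (hc : Continuous c) (inv : ∀ t p, c (Φ t p) = c p) : UT g ≃ₜ UT h where
  toFun p := Ψ (c p) (F p)
  invFun q := F.symm (Ψ (-c (F.symm q)) q)
  left_inv p := by
    show F.symm (Ψ (-c (F.symm (Ψ (c p) (F p)))) (Ψ (c p) (F p))) = p
    have e : F.symm (Ψ (c p) (F p)) = Φ (c p) p := by rw [← fF, F.symm_apply_apply]
    rw [e, inv, ← qh.add, neg_add_cancel, qh.rp.flow.zero, F.symm_apply_apply]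
  right_inv q := by
    show Ψ (c (F.symm (Ψ (-c (F.symm q)) q))) (F (F.symm (Ψ (-c (F.symm q)) q))) = q
    have e : F.symm (Ψ (-c (F.symm q)) q) = Φ (-c (F.symm q)) (F.symm q) := by
      apply F.injective
      rw [fF, F.apply_symm_apply, F.apply_symm_apply]
    rw [F.apply_symm_apply, e, inv, ← qh.add, add_neg_cancel, qh.rp.flow.zero]
  continuous_toFun := qh.jc.comp (hc.prodMk F.continuous)
  continuous_invFun := F.symm.continuous.comp
    (qh.jc.comp ((hc.comp F.symm.continuous).neg.prodMk continuous_id))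

theorem con (hn : 3 ≤ n) (qg : QP g Γ Φ) (qh : QP h Λ Ψ) {ρ : Γ ≃* Λ} {F : UT g ≃ₜ UT h}
    (cj : CJ g h Φ Ψ ρ F) {a : ℝ} (ha : 0 < a) (hk : TB.CurvLe h a) {c : UT g → ℝ}
    (hcc : Continuous c) (inv : ∀ t p, c (Φ t p) = c p)
    (hγ : ∀ (γ : Γ) (p q : UT g), q.1 = tm γ p.1 → c q = c p) (p q : UT g) : c p = c q := by
  have hi : LV.Hinge h Ψ a := fun p q e s t hs ht => by
    have := TB.hinge n h Λ Ψ a qh.rp ha hk p q e s t hs ht
    rwa [mul_assoc] at this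
  obtain ⟨mh, i2⟩ := LV.hm n h Λ Ψ qh a ha hi
  have th := LV.th n h Λ Ψ qh a ha mh i2
  have eh := LV.eqv n h Λ Ψ qh mh
  have mo := LV.morse n h Λ Ψ qh a ha mh th
  have lp := LV.lps n h Λ Ψ qh a ha mh th (LV.lp1 n h Λ Ψ qh a ha mh i2)
  have uF := LV.uq n g h Γ Λ Φ Ψ ρ F qg qh cj eh
  obtain ⟨mg, -⟩ := LV.min2 n g h Γ Λ Φ Ψ ρ F qg qh cj uF mo
  have eg := LV.eqv n g Γ Φ qg mg
  obtain ⟨G, hc⟩ : ∃ G : UT g ≃ₜ UT h, ∀ p, G p = Ψ (c p) (F p) :=
    ⟨sh qh F cj.flow c hcc inv, fun _ => rfl⟩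
  have cG : CJ g h Φ Ψ ρ G := ⟨fun t p => by
    rw [hc, hc, inv, cj.flow, ← qh.add, ← qh.add, add_comm], fun γ p q e => by
    rw [hc, hc, hγ γ p q e]
    exact eh (ρ γ) _ _ (cj.equi γ p q e) _⟩
  have sG := D3FL.HFLP.cj_symm qg.rp.deck cG
  have uG := LV.uq n h g Λ Γ Ψ Φ ρ.symm G.symm qh qg sG eg
  have lc : IsLocallyConstant c := (IsLocallyConstant.iff_eventually_eq c).2 fun p₀ => by
    obtain ⟨U, hU, H⟩ := lp (F p₀) 1 one_pos
    filter_upwards [F.continuous.continuousAt hU] with p hp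
    obtain ⟨u, t₀, -, hb, ht⟩ := H (F p) hp (F p₀) (mem_of_mem_nhds hU)
    obtain ⟨v, rfl⟩ := F.surjective u
    rw [← cj.flow] at ht
    have b1 := D3FL.HFLP.asym qg qh mh cj.flow sG.flow uF uG atBot (fun P hP => by
      obtain ⟨T, hT⟩ := eventually_atBot.1 hP
      exact eventually_atBot.2 ⟨T - 1, fun t ht τ hτ => hT _ (by linarith [hτ.2])⟩)
      (fun c => tendsto_atBot_add_const_right _ c tendsto_id) (hc v) (hc p) hb
    have b2 := D3FL.HFLP.asym qg qh mh cj.flow sG.flow uF uG atTop (fun P hP => by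
      obtain ⟨T, hT⟩ := eventually_atTop.1 hP
      exact eventually_atTop.2 ⟨T, fun t ht τ hτ => hT _ (by linarith [hτ.1])⟩)
      (fun c => tendsto_atTop_add_const_right _ c tendsto_id) (hc _) (hc p₀) ht
    rw [← b1, ← b2, inv]
  obtain ⟨-, pc, -⟩ := CR.lift_ut hn qg.rp.riem
  exact lc.apply_eq_of_preconnectedSpace p q

end RCON

theorem sCON : SCON := fun _ _ _ _ _ _ _ _ _ _ _ _ _ _ qg qh _ _ _ _ cj _ ha hk _ hcc inv hγ =>
  RCON.con le_rfl qg qh cj ha hk hcc inv hγ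

end Pool.Agent.MP_3ee8cb_gt.D3NP
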