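import Pool.Agent.MP_3ee8cb_gt.D3NP.OSpec

/-! The diamond with two times for a general curvature bound. -/

namespace Pool.Agent.MP_3ee8cb_gt.D3NP

open Matrix D3OD

theorem rDIAA : R_DIAA := by
  intro dia a C kM kN hh hv vh vv A A' ha h w s t
  have := (dia _ _ _ _ _ _ _ (Gen.orb h ha) (a * s) (fun r => a • A s (a⁻¹ * r))
    (fun r => A' s (a⁻¹ * r)) (fun e => ?_) ?_ ?_ (a * t)).1
  · rwa [inv_mul_cancel_left₀ ha.ne'] at this
  · have k := Gen.sol (w.sol s (a • e)) a⁻¹
    simp only [mulVec_smul, smul_smul, inv_mul_cancel₀ ha.ne', one_smul] at k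
    simpa only [smul_mulVec] using k
  · simp only [inv_mul_cancel_left₀ ha.ne', w.a0]
  · simp only [inv_mul_cancel_left₀ ha.ne', w.a1]

end Pool.Agent.MP_3ee8cb_gt.D3NP
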