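import Pool.Agent.MP_3ee8cb_gt.D3NP.Spec

/-! The flip of a front, time zero, and odd invariant functions. -/

namespace Pool.Agent.MP_3ee8cb_gt.D3NP

open Set D3 Filter Topology
open CR (Met UT tm FdP)
open scoped RealInnerProductSpace

namespace RFL2

variable {m : MF} {σ : V → V × V} {a : V}

theorem dσ (f : m.Front σ) (ha : a ≠ 0) : HasFDerivAt σ (fderiv ℝ σ a) a :=
  ((f.c1.contDiffAt (isOpen_ne.mem_nhds ha)).differentiableAt (by norm_num)).hasFDerivAt

/-- The derivative of the foot of the front at time `t`. -/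
noncomputable def L (m : MF) (σ : V → V × V) (t : ℝ) (a : V) : V →L[ℝ] V :=
  (ContinuousLinearMap.fst ℝ V V).comp ((fderiv ℝ (m.Z t) (σ a)).comp (fderiv ℝ σ a))

theorem chain (o : m.OK) (f : m.Front σ) (ha : a ≠ 0) (t : ℝ) :
    HasFDerivAt (fun b => (m.Z t (σ b)).1) (L m σ t a) a := by
  have z : ContDiff ℝ 1 (m.Z t) := o.cZ.comp (contDiff_const.prodMk contDiff_id)
  exact (ContinuousLinearMap.fst ℝ V V).hasFDerivAt.comp a
    ((z.differentiable (by norm_num) (σ a)).hasFDerivAt.comp a (dσ f ha))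

theorem flip (o : m.OK) (j : m.Jac) (f : m.Front σ) (ha : a ≠ 0) (t : ℝ) (v : V) :
    L m σ (-t) (-a) v = -L m σ t a v := by
  have h1 : HasFDerivAt (fun b => (m.Z t (σ b)).1) (L m σ t a) (- -a) := by
    rw [neg_neg]
    exact chain o f ha t
  have h2 := h1.comp (-a) (hasFDerivAt_id (-a)).neg
  have h3 : (fun b => (m.Z (-t) (σ b)).1) =ᶠ[𝓝 (-a)] fun b => (m.Z t (σ (-b))).1 := by
    filter_upwards [isOpen_ne.mem_nhds (neg_ne_zero.2 ha)] with b hb
    rw [← neg_one_smul ℝ b, f.hom (-1) b (by norm_num) hb, j.scale, neg_one_mul]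
  have h4 := (chain o f (neg_ne_zero.2 ha) (-t)).unique (h2.congr_of_eventuallyEq h3)
  rw [h4]
  simp

theorem rad (f : m.Front σ) (ha : a ≠ 0) : (fderiv ℝ σ a a).1 = 0 := by
  have h0 : HasDerivAt (fun r : ℝ => r • a) a 1 := by
    simpa using (hasDerivAt_id (1 : ℝ)).smul_const a
  have h1 : HasFDerivAt σ (fderiv ℝ σ a) ((1 : ℝ) • a) := by
    rw [one_smul]
    exact dσ f ha
  have h2 : HasDerivAt (fun r : ℝ => (σ (r • a)).1) (fderiv ℝ σ a a).1 1 :=
    (ContinuousLinearMap.fst ℝ V V).hasFDerivAt.comp_hasDerivAt 1 (h1.comp_hasDerivAt 1 h0)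
  have h3 : (fun _ : ℝ => (σ a).1) =ᶠ[𝓝 1] fun r : ℝ => (σ (r • a)).1 := by
    filter_upwards [isOpen_ne.mem_nhds (one_ne_zero : (1 : ℝ) ≠ 0)] with r hr
    rw [f.hom r a hr ha]
  exact (h2.congr_of_eventuallyEq h3).unique (hasDerivAt_const _ _)

end RFL2

theorem sFL2 : SFL2 := by
  intro m σ o j f a ha
  have a0 : a ≠ 0 := by
    rintro rfl
    simp at ha
  refine ⟨fun t h => ?_, fun h => ?_⟩
  · ext1 e
    have h1 : m.S (m.Z t (σ a)).1 (RFL2.L m σ t a (e - ⟪a, e⟫ • a)) = 0 :=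
      congrArg (fun X : V →L[ℝ] V => X e) h
    have h2 : RFL2.L m σ t a (e - ⟪a, e⟫ • a) = 0 := by
      rw [← o.RS (m.Z t (σ a)).1 (RFL2.L m σ t a _), h1, map_zero]
    change m.S (m.Z (-t) (σ (-a))).1 (RFL2.L m σ (-t) (-a) (e - ⟪-a, e⟫ • -a)) = 0
    rw [RFL2.flip o j f a0, inner_neg_left, neg_smul_neg, h2, neg_zero, map_zero]
  · ext1 e
    have z : m.Z 0 = id := funext o.zero
    have h1 : m.hor (m.Z 0 (σ a))
        (fderiv ℝ (m.Z 0) (σ a) (fderiv ℝ σ a (e - ⟪a, e⟫ • a))) = 0 :=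
      congrArg (fun X : V →L[ℝ] V => X e) h
    rw [z, fderiv_id] at h1
    change m.S (σ a).1 (fderiv ℝ σ a (e - ⟪a, e⟫ • a)).1 = 0 at h1
    rw [map_sub, map_smul, Prod.fst_sub, Prod.smul_fst, RFL2.rad f a0, smul_zero,
      sub_zero] at h1
    exact h1

theorem sZER : SZER := by
  intro g C Γ _ _ Φ m O τ o k act con cτ inv z hz
  have un : ∀ p : UT g, ‖m.S p.1.1 p.1.2‖ = 1 := fun p => by
    have h := k.orth p.1.1 (m.S p.1.1 p.1.2) (m.S p.1.1 p.1.2)
    rw [o.RS, p.2, real_inner_self_eq_norm_sq] at h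
    have := norm_nonneg (m.S p.1.1 p.1.2)
    nlinarith
  have c1 : Continuous fun p : UT g => (p.1.1, m.S p.1.1 p.1.2) :=
    continuous_subtype_val.fst.prodMk
      ((o.cS.continuous.comp continuous_subtype_val.fst).clm_apply continuous_subtype_val.snd)
  have key := con (fun p => τ (p.1.1, m.S p.1.1 p.1.2)) (cτ.comp_continuous c1 un)
    (fun t p => by
      have h := (inv (p.1.1, m.S p.1.1 p.1.2) (un p)).1 t
      rwa [k.flow] at h)
    (fun γ p q e => by
      have h := (inv (p.1.1, m.S p.1.1 p.1.2) (un p)).2.1 γ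
      simp only [e, tm, act.der]
      exact h)
    ⟨(z.1, m.R z.1 z.2), by rw [k.orth, real_inner_self_eq_norm_sq, hz, one_pow]⟩
    ⟨(z.1, m.R z.1 (-z.2)), by rw [k.orth, real_inner_self_eq_norm_sq, norm_neg, hz, one_pow]⟩
  simp only [o.SR] at key
  have h := (inv z hz).2.2
  linarith

end Pool.Agent.MP_3ee8cb_gt.D3NP
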