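import Pool.Agent.MP_3ee8cb_gt.D3NP.Spec

/-! The focal time as a function of the vector. -/

namespace Pool.Agent.MP_3ee8cb_gt.D3NP

open Set D3

namespace RTA2

theorem cont {X Y : Type} [TopologicalSpace X] [TopologicalSpace Y] [T1Space Y] {τ : X → ℝ}
    {K : Set ℝ} (hK : IsCompact K) {F : X × ℝ → Y} (hF : Continuous F) {y : Y}
    (h1 : ∀ x, τ x ∈ K) (h2 : ∀ x t, F (x, t) = y ↔ t = τ x) : Continuous τ := by
  have : CompactSpace K := isCompact_iff_compactSpace.1 hK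
  refine continuous_iff_isClosed.2 fun C hC => ?_
  have h3 : IsClosed {p : X × K | F (p.1, p.2) = y ∧ (p.2 : ℝ) ∈ C} :=
    (isClosed_singleton.preimage (hF.comp (by fun_prop))).inter (hC.preimage (by fun_prop))
  refine Eq.subst (motive := IsClosed) ?_ (isClosedMap_fst_of_compactSpace _ h3)
  ext x
  refine ⟨?_, fun hx => ⟨(x, ⟨τ x, h1 x⟩), ⟨(h2 x _).2 rfl, hx⟩, rfl⟩⟩
  rintro ⟨⟨x, t⟩, ⟨a, b⟩, rfl⟩
  exact mem_preimage.2 ((h2 x t).1 a ▸ b)

end RTA2

theorem rTA2 : R_TA2 := by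
  intro hU hT m m' φ Γ _ _ O a T ok jac ha lk sc fl ex
  choose! τ h1 h2 h3 using ex
  have uq : ∀ z : V × V, ‖z.2‖ = 1 → ∀ t, At m' (fr φ z.1) t z.2 = 0 → t = τ z := by
    intro z hz t ht
    obtain ⟨C, kM, kN, hh, hv, vh, vv, A, A', o, tw, e⟩ := lk z hz
    have e0 := fun t => (e 0 t).2
    simp only [ok.zero, sub_zero] at e0
    exact hU a C kM kN hh hv vh vv A A' ha o tw 0 _ _ ((e0 _).1 ht) ((e0 _).1 (h2 z hz))
  have hc : ContinuousOn τ {z | ‖z.2‖ = 1} := by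
    refine continuousOn_iff_continuous_domRestrict.2 (RTA2.cont
      (isCompact_Icc (a := -T) (b := T))
      (F := fun p : {z : V × V | ‖z.2‖ = 1} × ℝ => At m' (fr φ p.1.1.1) p.2 p.1.1.2) (y := 0) ?_
      (fun x => h1 x.1 x.2) fun x t => ⟨uq x.1 x.2 t, fun e => e ▸ h2 x.1 x.2⟩)
    refine sc.cA.comp_continuous (f := fun p : {z : V × V | ‖z.2‖ = 1} × ℝ => (p.1.1, p.2))
      (by fun_prop) fun p e => ?_
    have : ‖p.1.1.2‖ = 1 := p.1.2
    rw [show p.1.1.2 = 0 from e, norm_zero] at this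
    exact zero_ne_one this
  refine ⟨τ, hc, fun z hz => ⟨h2 z hz, fun s => ?_, fun γ => ?_, ?_⟩⟩
  · obtain ⟨C, kM, kN, hh, hv, vh, vv, A, A', o, tw, e⟩ := lk z hz
    have hn : ∀ s, ‖(m.Z s z).2‖ = 1 := fun s => (jac.norm s z).trans hz
    have := hT a C kM kN hh hv vh vv A A' ha o tw (fun s => s + τ (m.Z s z))
      (continuous_id.add (hc.comp_continuous
        (ok.cZ.continuous.comp (continuous_id.prodMk continuous_const)) hn)) (fun s => by
        obtain ⟨e1, e2⟩ := e s (s + τ (m.Z s z))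
        rw [add_sub_cancel_left] at e1 e2
        refine ⟨e2.1 (h2 _ (hn s)), ?_⟩
        have := e1 0
        rwa [h3 _ (hn s), zero_smul, add_zero, eq_comm] at this) s
    simpa [ok.zero] using this
  · exact (uq (γ • z.1, O γ z.1 z.2) (((O γ z.1).norm_map _).trans hz) _
      (sc.iA γ z _ hz (h2 z hz))).symm
  · exact (uq (z.1, -z.2) ((norm_neg _).trans hz) _ (fl _ _ _ hz (h2 z hz))).symm

end Pool.Agent.MP_3ee8cb_gt.D3NP
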