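import Pool.Agent.MP_3ee8cb_gt.D3NP.OSpec

/-! Row TWO: the derivative with respect to the first time. -/

namespace Pool.Agent.MP_3ee8cb_gt.D3NP

open Matrix Set D3OD

namespace RTWO

theorem comb {k P P2 Q Q2 : ℝ → M} (hP : MSol k P P2) (hQ : MSol k Q Q2) (X Y : V) :
    Sol k (fun t => P t *ᵥ X + Q t *ᵥ Y) (fun t => P2 t *ᵥ X + Q2 t *ᵥ Y) := by
  refine ⟨fun t => ((hP X).d1 t).add ((hQ Y).d1 t), fun t => ?_⟩
  rw [mulVec_add]
  exact ((hP X).d2 t).add ((hQ Y).d2 t)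

theorem md {k P P2 : ℝ → M} (hP : MSol k P P2) (t : ℝ) : MD P (P2 t) t := fun i l => by
  have h := hasDerivAt_pi.1 ((hP (Pi.single l 1)).d1 t) i
  simpa only [mulVec_single_one, col_apply] using h

theorem ext_dot {a b : V} (h : ∀ y, a ⬝ᵥ y = b ⬝ᵥ y) : a = b := by
  funext i
  simpa only [dotProduct_single_one] using h (Pi.single i 1)

theorem ext_mv {A B : M} (h : ∀ e : V, A *ᵥ e = B *ᵥ e) : A = B := by
  funext i l
  simpa only [mulVec_single_one, col_apply] using congrFun (h (Pi.single l 1)) i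

theorem inv (h1 : S_MEX) (h2 : S_UQ) (h3 : S_OM) {k P P2 Q Q2 : ℝ → M} (hk : Cur 0 k)
    (hP : MSol k P P2) (hQ : MSol k Q Q2) (p0 : P 0 = 1) (p1 : P2 0 = 0) (q0 : Q 0 = 0)
    (q1 : Q2 0 = 1) (s : ℝ) (x e : V) :
    P s *ᵥ ((Q2 s)ᵀ *ᵥ x - (Q s)ᵀ *ᵥ e) + Q s *ᵥ ((P s)ᵀ *ᵥ e - (P2 s)ᵀ *ᵥ x) = x ∧
    P2 s *ᵥ ((Q2 s)ᵀ *ᵥ x - (Q s)ᵀ *ᵥ e) + Q2 s *ᵥ ((P s)ᵀ *ᵥ e - (P2 s)ᵀ *ᵥ x) = e := by
  obtain ⟨U, U2, hU, u0, u1⟩ := h1 k hk.cont s 1 0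
  obtain ⟨W, W2, hW, w0, w1⟩ := h1 k hk.cont s 0 1
  have hj := comb hU hW x e
  generalize hj0 : (fun t => U t *ᵥ x + W t *ᵥ e) = j at hj
  generalize hj1 : (fun t => U2 t *ᵥ x + W2 t *ᵥ e) = j' at hj
  have a0 : j s = x := by simp only [← hj0, u0, w0, one_mulVec, zero_mulVec, add_zero]
  have a1 : j' s = e := by simp only [← hj1, u1, w1, one_mulVec, zero_mulVec, zero_add]
  have eX : j 0 = (Q2 s)ᵀ *ᵥ x - (Q s)ᵀ *ᵥ e := ext_dot fun y => by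
    have h := (h3 k hk.symm _ _ _ _ hj (hQ y)).1 0 s
    simp only [om, q0, q1, a0, a1, zero_mulVec, one_mulVec, dotProduct_zero, sub_zero] at h
    rw [h, sub_dotProduct, mulVec_transpose, mulVec_transpose, dotProduct_mulVec,
      dotProduct_mulVec]
  have eY : j' 0 = (P s)ᵀ *ᵥ e - (P2 s)ᵀ *ᵥ x := ext_dot fun y => by
    have h := (h3 k hk.symm _ _ _ _ hj (hP y)).1 0 s
    simp only [om, p0, p1, a0, a1, zero_mulVec, one_mulVec, dotProduct_zero] at h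
    rw [sub_dotProduct, mulVec_transpose, mulVec_transpose, ← dotProduct_mulVec,
      ← dotProduct_mulVec]
    linarith
  have h := h2 k hk.cont _ _ _ _ 0 (comb hP hQ (j 0) (j' 0)) hj (by simp [p0, q0])
    (by simp [p1, q1]) s
  rw [← eX, ← eY, ← a0, ← a1]
  simpa only [a0, a1] using h

theorem prod {f g : ℝ → ℝ} {f' g' s t : ℝ} (hf : HasDerivAt f f' t) (hg : HasDerivAt g g' s) :
    HasFDerivAt (fun p : ℝ × ℝ => f p.2 * g p.1) (lf (f t * g') (f' * g s)) (s, t) := by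
  have h1 : HasFDerivAt (fun p : ℝ × ℝ => f p.2) _ (s, t) :=
    HasDerivAt.comp_hasFDerivAt (h₂ := f) (s, t) hf (hasFDerivAt_snd (𝕜 := ℝ))
  have h2 : HasFDerivAt (fun p : ℝ × ℝ => g p.1) _ (s, t) :=
    HasDerivAt.comp_hasFDerivAt (h₂ := g) (s, t) hg (hasFDerivAt_fst (𝕜 := ℝ))
  refine (h1.mul h2).congr_fderiv ?_
  ext <;> simp [lf, mul_comm]

theorem two {F G H K : ℝ → M} {F' G' H' K' : M} {s t : ℝ} (hF : MD F F' t) (hG : MD G G' s)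
    (hH : MD H H' t) (hK : MD K K' s) (i l : Fin 2) :
    HasFDerivAt (fun p : ℝ × ℝ => (F p.2 * (G p.1)ᵀ - H p.2 * (K p.1)ᵀ) i l)
      (lf ((F t * G'ᵀ - H t * K'ᵀ) i l) ((F' * (G s)ᵀ - H' * (K s)ᵀ) i l)) (s, t) := by
  simp only [Matrix.sub_apply, Matrix.mul_apply, Fin.sum_univ_two, transpose_apply]
  refine (((prod (hF i 0) (hG l 0)).add (prod (hF i 1) (hG l 1))).sub
    ((prod (hH i 0) (hK l 0)).add (prod (hH i 1) (hK l 1)))).congr_fderiv ?_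
  ext <;> simp [lf]

theorem one {F H : M} {G K : ℝ → M} {G' K' : M} {s : ℝ} (hG : MD G G' s) (hK : MD K K' s) :
    MD (fun r => F * (G r)ᵀ - H * (K r)ᵀ) (F * G'ᵀ - H * K'ᵀ) s := fun i l => by
  simp only [Matrix.sub_apply, Matrix.mul_apply, Fin.sum_univ_two, transpose_apply]
  exact (((hG l 0).const_mul _).add ((hG l 1).const_mul _)).sub
    (((hK l 0).const_mul _).add ((hK l 1).const_mul _))

theorem split (a b P P2 Q Q2 S S2 T T2 : M) (x e : V) :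
    ((a * P + b * P2) * T2 - (a * Q + b * Q2) * S2) *ᵥ x +
      ((a * Q + b * Q2) * S - (a * P + b * P2) * T) *ᵥ e =
    a *ᵥ (P *ᵥ (T2 *ᵥ x - T *ᵥ e) + Q *ᵥ (S *ᵥ e - S2 *ᵥ x)) +
      b *ᵥ (P2 *ᵥ (T2 *ᵥ x - T *ᵥ e) + Q2 *ᵥ (S *ᵥ e - S2 *ᵥ x)) := by
  simp only [sub_mulVec, add_mulVec, mulVec_add, mulVec_sub, ← mulVec_mulVec]
  abel

end RTWO

open RTWO in
theorem rTWO : R_TWO := by
  intro h1 h2 h3 a C kM kN hh hv vh vv A A' _ ho ht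
  obtain ⟨P, P2, hP, p0, p1⟩ := h1 kM ho.cM.cont 0 1 0
  obtain ⟨Q, Q2, hQ, q0, q1⟩ := h1 kM ho.cM.cont 0 0 1
  have hi := inv h1 h2 h3 ho.cM hP hQ p0 p1 q0 q1
  have hL : ∀ {R R2 : ℝ → M}, MSol kM R R2 → MSol kN (fun t => hh t * R t + hv t * R2 t)
      (fun t => vh t * R t + vv t * R2 t) := fun hR e => by
    simp only [add_mulVec, ← mulVec_mulVec]
    exact ho.map _ _ (hR e)
  have hJ := fun (s : ℝ) (x e : V) => ho.map _ _ (comb hP hQ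
    ((Q2 s)ᵀ *ᵥ x - (Q s)ᵀ *ᵥ e) ((P s)ᵀ *ᵥ e - (P2 s)ᵀ *ᵥ x))
  have hA := fun (s : ℝ) (e : V) => h2 kN ho.cN.cont _ _ _ _ s (ht.sol s e) (hJ s 0 e)
    (by rw [(hi s 0 e).1, (hi s 0 e).2, ht.a0, mulVec_zero, zero_add])
    (by rw [(hi s 0 e).1, (hi s 0 e).2, ht.a1, mulVec_zero, zero_add])
  have eA : ∀ s t, A s t = (hh t * Q t + hv t * Q2 t) * (P s)ᵀ -
      (hh t * P t + hv t * P2 t) * (Q s)ᵀ := fun s t => ext_mv fun e => by
    rw [(hA s e t).1, ← split, mulVec_zero, zero_add]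
  have eA' : ∀ s t, A' s t = (vh t * Q t + vv t * Q2 t) * (P s)ᵀ -
      (vh t * P t + vv t * P2 t) * (Q s)ᵀ := fun s t => ext_mv fun e => by
    rw [(hA s e t).2, ← split, mulVec_zero, zero_add]
  refine ⟨fun s t => (hh t * P t + hv t * P2 t) * (Q2 s)ᵀ - (hh t * Q t + hv t * Q2 t) * (P2 s)ᵀ,
    fun s t => (vh t * P t + vv t * P2 t) * (Q2 s)ᵀ - (vh t * Q t + vv t * Q2 t) * (P2 s)ᵀ,
    fun s t i l => ?_, fun s t => ?_, fun s t x e x' e' => ?_⟩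
  · have h := two (md (hL hQ) t) (md hP s) (md (hL hP) t) (md hQ s) i l
    simp only [eA, eA', Matrix.sub_apply, neg_sub] at h ⊢
    exact h
  · simp only [eA', neg_sub]
    exact one (md hP s) (md hQ s)
  · rw [eA, eA', split, split, split, split]
    have h := (h3 kN ho.cN.symm _ _ _ _ (hJ s x e) (hJ s x' e')).1 t s
    simp only [(hi s _ _).1, (hi s _ _).2] at h
    rw [h, ho.symp]

end Pool.Agent.MP_3ee8cb_gt.D3NP
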