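import Pool.Agent.MP_3ee8cb_gt.D3NP.Top2
import Pool.Agent.MP_3ee8cb_gt.D3NP.RTWO
import Pool.Agent.MP_3ee8cb_gt.D3NP.RDIAA
import Pool.Agent.MP_3ee8cb_gt.D3NP.RBS
import Pool.Agent.MP_3ee8cb_gt.D3NP.RAL1
import Pool.Agent.MP_3ee8cb_gt.D3NP.RAL2
import Pool.Agent.MP_3ee8cb_gt.D3NP.RAL3
import Pool.Agent.MP_3ee8cb_gt.D3NP.RDINI
import Pool.Agent.MP_3ee8cb_gt.D3NP.RORB
import Pool.Agent.MP_3ee8cb_gt.D3NP.RTAU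
import Pool.Agent.MP_3ee8cb_gt.D3NP.RSC2
import Pool.Agent.MP_3ee8cb_gt.D3NP.RFL2
import Pool.Agent.MP_3ee8cb_gt.D3NP.RLK2
import Pool.Agent.MP_3ee8cb_gt.D3NP.RINT2
import Pool.Agent.MP_3ee8cb_gt.D3NP.RCON
import Pool.Agent.MP_3ee8cb_gt.D3NP.RTA2
import Pool.Agent.MP_3ee8cb_gt.D3JC.Out
import Pool.Agent.MP_3ee8cb_gt.D3FL.RFM
import Pool.Agent.MP_3ee8cb_gt.D3FL.RCN
import Pool.Agent.MP_3ee8cb_gt.D3FL.RCV
import Pool.Agent.MP_3ee8cb_gt.D3FL.RGL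
import Pool.Agent.MP_3ee8cb_gt.D3FL.RFC
import Pool.Agent.MP_3ee8cb_gt.D3FL.F3
import Pool.Agent.MP_3ee8cb_gt.TB.RGAM
import Pool.Agent.MP_3ee8cb_gt.TB.RODE
import Pool.Agent.MP_3ee8cb_gt.D3FL.HHAD
import Pool.Agent.MP_3ee8cb_gt.D3FL.HFLP
import Pool.Agent.MP_3ee8cb_gt.D3AC.Act
import Pool.Agent.MP_3ee8cb_gt.D3SC.C1
import Pool.Agent.MP_3ee8cb_gt.D3SC.Cf
import Pool.Agent.MP_3ee8cb_gt.D3LN.Al
import Pool.Agent.MP_3ee8cb_gt.D3OD.SodFin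
import Pool.Agent.MP_3ee8cb_gt.D3WI.Wid
import Pool.Agent.MP_3ee8cb_gt.D3EN.End

/-! Rigidity in dimension three without pinching, given the fibre inequality. -/

namespace Pool.Agent.MP_3ee8cb_gt.D3NP

open D3 D3OD

theorem sFRM2 : SFRM := D3FL.frm_of TB.gam TB.ode D3FL.fm D3FL.cn D3FL.cv D3FL.gl D3FL.fc
theorem sTWO : S_TWO := rTWO (rMEX sEX) rUQ rOM
theorem sDIAA : S_DIAA := rDIAA sDIA
theorem sORB : S_ORB :=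
  rORB rFDER sDIAA (rBS rBDER rSCH sTWO sDIAA) (rAL1 rEIG) (rAL2 rEIG) rDINI rTOP
theorem sTA2 : STA2 := rTA2 (rUNI rOM sDIAA) (rTAU sTWO sDIAA)

/-- For any regularity `Reg` of frames that metrics with the property `Q` admit. -/
theorem mainA2_reg (Reg : MF → Prop) (Q : CR.Met 3 → Prop)
    (frm' : On1 fun h C _ _ _ Ψ => Q h → ∃ m : MF, m.OK ∧ Lk h C Ψ m ∧ Reg m) (fib : SFIB Reg) :
    MainA2 Q :=
  mainA2 Reg Q sJAC sFRM2 frm' D3FL.had sACT D3FL.flp (sC1_of sFRM2) sCF LN.ssy sOD D3WI.swid sEND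
    fib sSC2 sFL2 (sLK2 rUQ) sINT2 sCON sTA2 sZER sORB (rAL3 rEIG) sDIAA

theorem allA2 (fib : SFIB D3FL.Sm3) : MainA2 fun h => ContDiff ℝ 3 h :=
  mainA2_reg _ _ (D3FL.frm3_of TB.ode D3FL.cn D3FL.cv D3FL.gl D3FL.fc) fib

theorem mainA2_all (fib : SFIB fun _ => True) : MainA2 fun _ => True :=
  mainA2_reg _ _ (fun h C Λ _ _ Ψ q c _ => (sFRM2 h C Λ Ψ q c).imp fun _ p => ⟨p.1, p.2, trivial⟩)
    fib

end Pool.Agent.MP_3ee8cb_gt.D3NP
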