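import Pool.Agent.MP_3ee8cb_gt.D3NP.Fib
import Pool.Agent.MP_3ee8cb_gt.D3NP.AllO

/-! Rigidity in dimension three under a conjugacy of class `C¹`, without pinching. -/

namespace Pool.Agent.MP_3ee8cb_gt.D3NP

theorem mainNP : MainA2 fun h => ContDiff ℝ 3 h := allA2 sFIB

end Pool.Agent.MP_3ee8cb_gt.D3NP
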