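import Pool.Agent.MP_3ee8cb_gt.D3NP.GSpec

/-! The sizes exist, by compactness. -/

namespace Pool.Agent.MP_3ee8cb_gt.D3NP

open Set Filter Topology Metric D3
open D3NB (Ph Ph_c1 ne_of_unit)

namespace XBIG

/-- A compact annulus. -/
theorem ann (R : ℝ) : IsCompact {a : V | a ≠ 0 ∧ |Real.log ‖a‖| ≤ R} := by
  have e : {a : V | a ≠ 0 ∧ |Real.log ‖a‖| ≤ R} =
      closedBall 0 (Real.exp R) \ ball 0 (Real.exp (-R)) := by
    ext a
    simp only [mem_ofPred_eq, Set.mem_sdiff, mem_closedBall_zero_iff, mem_ball_zero_iff, not_lt,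
      abs_le]
    constructor
    · rintro ⟨h0, h1, h2⟩
      have hp := norm_pos_iff.2 h0
      exact ⟨(Real.log_le_iff_le_exp hp).1 h2, (Real.le_log_iff_exp_le hp).1 h1⟩
    · rintro ⟨h1, h2⟩
      have hp : 0 < ‖a‖ := (Real.exp_pos _).trans_le h2
      exact ⟨norm_pos_iff.1 hp, (Real.le_log_iff_exp_le hp).2 h2, (Real.log_le_iff_le_exp hp).2 h1⟩
  rw [e]
  exact (isCompact_closedBall _ _).diff isOpen_ball

theorem Cc_c1 {m : MF} {σ : V → V × V} (hm : m.OK) (hσ : m.Front σ) {a : V} (ha : a ≠ 0) :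
    ContDiffAt ℝ 1 (Cc m σ) a := (Ph_c1 hm hσ ha).fst

end XBIG

theorem xBIG : SBIG := by
  intro m lg σ T ho _ _ hl hf _ hT
  obtain ⟨r, hr⟩ := (XBIG.ann (T + 1)).exists_bound_of_continuousOn (f := Cc m σ)
    fun a ha => (XBIG.Cc_c1 ho hf ha.1).continuousAt.continuousWithinAt
  have hK : IsCompact (closedBall (0 : V) (|r| + 1 + 2) ×ˢ sphere (0 : V) 1) :=
    (isCompact_closedBall _ _).prod (isCompact_sphere _ _)
  have hc : ContinuousOn (fun x : V × V => lg (x.1, (σ x.2).1))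
      (closedBall (0 : V) (|r| + 1 + 2) ×ˢ sphere (0 : V) 1) := by
    refine hl.c1.continuous.comp_continuousOn (continuousOn_fst.prodMk ?_)
    exact (hf.c1.continuousOn.comp continuousOn_snd fun x hx =>
      ne_of_unit (mem_sphere_zero_iff_norm.1 hx.2)).fst
  obtain ⟨L, hL⟩ := hK.exists_bound_of_continuousOn hc
  refine ⟨|r| + 1, max T (L + 1), by positivity, le_max_left _ _, fun a ha h => ?_,
    fun z hz q hq => ?_⟩
  · have h1 := hr a ⟨ha, h⟩
    have h2 := le_abs_self r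
    linarith
  · have h1 : ‖lg (z, (σ q).1)‖ ≤ L :=
      hL (z, q) ⟨ball_subset_closedBall hz, mem_sphere_zero_iff_norm.2 hq⟩
    have h2 := le_max_right T (L + 1)
    linarith

end Pool.Agent.MP_3ee8cb_gt.D3NP
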