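import Pool.Agent.MP_3ee8cb_gt.D3NP.XBIG
import Pool.Agent.MP_3ee8cb_gt.D3WI.Base

/-! Regularity and properness of the geometric family. -/

namespace Pool.Agent.MP_3ee8cb_gt.D3NP

open Set Filter Topology Metric D3
open D3AR (un)
open D3NB (Ph Ph_c1 ne_of_unit polar)
open scoped RealInnerProductSpace

namespace XG1

variable {m : MF} {lg : V × V → V} {σ : V → V × V}

theorem th_c1 (hm : m.OK) (hσ : m.Front σ) {a : V} (ha : a ≠ 0) :
    ContDiffAt ℝ 1 (th m σ) a := by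
  refine contDiffAt_euclidean.2 fun i => ?_
  have e : (fun x => th m σ x i) =
      fun x => ⟪(Ph m σ x).2, m.S (Cc m σ x) (EuclideanSpace.single i (1 : ℝ))⟫ := by
    funext x
    rw [← ContinuousLinearMap.adjoint_inner_left, EuclideanSpace.inner_single_right]
    simp [th, ww]
  rw [e]
  have h1 : ContDiffAt ℝ 1 (fun x => m.S (Cc m σ x)) a :=
    (hm.cS.of_le (by norm_num)).contDiffAt.comp a (XBIG.Cc_c1 hm hσ ha)
  exact (Ph_c1 hm hσ ha).snd.inner ℝ (h1.clm_apply contDiffAt_const)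

theorem lg_c1 (hm : m.OK) (hl : m.Had lg) (hσ : m.Front σ) (t : ℝ) {x : V × V} (hx : x.2 ≠ 0) :
    ContDiffAt ℝ 1 (fun x : V × V => lg (x.1, zz m σ t (un x.2))) x := by
  have hn : ContDiffAt ℝ 1 (fun y : V => ‖y‖) x.2 := contDiffAt_norm ℝ hx
  have hu : ContDiffAt ℝ 1 un x.2 := (hn.inv (norm_pos_iff.2 hx).ne').smul contDiffAt_id
  have hs : ContDiffAt ℝ 1 σ (un x.2) :=
    hσ.c1.contDiffAt (isOpen_ne.mem_nhds (ne_of_unit (polar hx).1))
  have h1 : ContDiffAt ℝ 1 (fun y : V => zz m σ t (un y)) x.2 :=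
    ((D3WI.Z_c1 hm t).contDiffAt.comp x.2 (hs.comp x.2 hu)).fst
  exact hl.c1.contDiffAt.comp x (contDiffAt_fst.prodMk (h1.comp x contDiffAt_snd))

theorem dist0 (hm : m.OK) (hj : m.Jac) (hl : m.Had lg) (hσ : m.Front σ) {q : V} (hq : ‖q‖ = 1)
    (t : ℝ) : ‖lg ((m.Z t (σ q)).1, (σ q).1)‖ = |t| := by
  have h := D3WI.dist_geo hm hj hl (σ q) t 0
  rwa [hm.zero, hσ.norm q (ne_of_unit hq), hq, mul_one, zero_sub, abs_neg] at h

theorem un_smul (q : V) {r : ℝ} (hr : 0 < r) : un (r • q) = un q := by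
  rw [un, un, norm_smul, Real.norm_of_nonneg hr.le, smul_smul, mul_inv, mul_right_comm,
    inv_mul_cancel₀ hr.ne', one_mul]

end XG1

theorem xG1 : SG1 := by
  intro m lg σ T ho hj _ hl hf _ hT ρ L e s hb _
  refine ⟨fun a ha => (XBIG.Cc_c1 ho hf ha).contDiffWithinAt,
    fun a ha => (XG1.th_c1 ho hf ha).contDiffWithinAt, fun x hx => ?_, fun x hx => ?_,
    fun z q r hr => ?_, fun K hK hKO => ?_⟩
  · exact ((XG1.lg_c1 ho hl hf (-L) hx).continuousAt.norm.sub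
      continuousAt_const).continuousWithinAt
  · refine (((XG1.lg_c1 ho hl hf (-L) hx.2).norm ℝ fun h0 => ?_).sub
      contDiffAt_const).contDiffWithinAt
    have hq : ‖un x.2‖ = 1 := (polar hx.2).1
    have h1 := XG1.dist0 ho hj hl hf hq (-L)
    have h2 := hl.tri (zz m σ (-L) (un x.2)) x.1 (σ (un x.2)).1
    have h3 := hb.big x.1 hx.1 _ hq
    rw [D3WI.lg_symm hj hl x.1, h0, norm_zero, zz, h1, abs_neg] at h2
    have h4 := le_abs_self L
    linarith
  · rw [be, be, XG1.un_smul q hr]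
  · have e1 : {a | a ≠ 0 ∧ Cc m σ a ∈ K} =
        {a : V | a ≠ 0 ∧ |Real.log ‖a‖| ≤ L} ∩ Cc m σ ⁻¹' K := by
      refine Subset.antisymm (fun a ha => ⟨⟨ha.1, ?_⟩, ha.2⟩) fun a ha => ⟨ha.1.1, ha.2⟩
      have hq : ‖un a‖ = 1 := (polar ha.1).1
      have h1 := XG1.dist0 ho hj hl hf hq (Real.log ‖a‖)
      exact (h1.symm.trans_lt (hb.big _ (hKO ha.2) _ hq)).le
    rw [e1]
    refine (XBIG.ann L).of_isClosed_subset ?_ inter_subset_left
    exact ContinuousOn.preimage_isClosed_of_isClosed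
      (fun a ha => (XBIG.Cc_c1 ho hf ha.1).continuousAt.continuousWithinAt)
      (XBIG.ann L).isClosed hK.isClosed

end Pool.Agent.MP_3ee8cb_gt.D3NP
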