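import Pool.Agent.MP_3ee8cb_gt.D3NP.GSpec
import Pool.Agent.MP_3ee8cb_gt.D3WI.Wid

/-! The geometric family: critical points and critical values. -/

namespace Pool.Agent.MP_3ee8cb_gt.D3NP

open Set Metric D3 D3WI
open D3AR (un)
open D3NB (Ph Ph_exp polar dnorm' w_unit dlt)
open scoped RealInnerProductSpace

namespace XG2

variable {m : MF} {lg : V × V → V} {σ : V → V × V}

theorem un_unit {p : V} (hp : ‖p‖ = 1) : un p = p := by simp [un, hp]

theorem dun {p : V} (hp : ‖p‖ = 1) :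
    HasFDerivAt un (ContinuousLinearMap.id ℝ V - (innerSL ℝ p).smulRight p) p := by
  have ha := ne_of_norm hp
  have h0 := (norm_pos_iff.2 ha).ne'
  have hu := ((hasFDerivAt_inv h0).comp _ (dnorm' ha)).fun_smul (hasFDerivAt_id p)
  refine HasFDerivAt.congr_fderiv hu ?_
  ext1 e
  simp [hp, sub_eq_add_neg]

theorem At_perp (ho : m.OK) (hj : m.Jac) (hf : m.Front σ) {p : V} (hp : ‖p‖ = 1) (t : ℝ) (e : V) :
    ⟪(m.Z t (σ p)).2, At m σ t p e⟫ = 0 := by
  rw [real_inner_comm, At_apply, J_front ho hj hf (ne_of_norm hp), inner_sub_right,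
    inner_smul_right, real_inner_self_eq_norm_sq, hp]
  ring

theorem der (ho : m.OK) (hl : m.Had lg) (hf : m.Front σ) (L : ℝ) (z : V) {p : V} (hp : ‖p‖ = 1)
    (h0 : lg (z, (m.Z (-L) (σ p)).1) ≠ 0) (x e : V) :
    fderiv ℝ (be m lg σ L) (z, p) (x, e) = ‖lg (z, (m.Z (-L) (σ p)).1)‖⁻¹ *
      (-⟪lg (z, (m.Z (-L) (σ p)).1), m.S z x⟫ -
        ⟪lg ((m.Z (-L) (σ p)).1, z), At m σ (-L) p e⟫) := by
  have hY0 : HasFDerivAt (fun b => (m.Z (-L) (σ b)).1)
      ((m.R (m.Z (-L) (σ p)).1).comp (JL m σ p (-L))) (un p) := by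
    rw [un_unit hp]
    exact front_fderiv ho hf (ne_of_norm hp) (-L)
  have hY := hY0.comp p (dun hp)
  have hg := (hasFDerivAt_fst (𝕜 := ℝ) (p := (z, p))).prodMk
    (HasFDerivAt.comp (f := Prod.snd) (z, p) hY (hasFDerivAt_snd (𝕜 := ℝ) (p := (z, p))))
  have hd : Differentiable ℝ fun q : V × V => ‖lg q‖ ^ 2 / 2 :=
    ((hl.c1.norm_sq ℝ).div_const 2).differentiable one_ne_zero
  have hF : HasFDerivAt (fun q : V × V => ‖lg q‖ ^ 2 / 2)
      (fderiv ℝ (fun q : V × V => ‖lg q‖ ^ 2 / 2) (z, (m.Z (-L) (σ p)).1))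
      (z, (m.Z (-L) (σ (un p))).1) := by
    rw [un_unit hp]
    exact (hd _).hasFDerivAt
  have h1 := (HasFDerivAt.comp (f := fun x : V × V => (x.1, (m.Z (-L) (σ (un x.2))).1)) (z, p)
    hF hg).const_mul 2
  have n0 : 0 < ‖lg (z, (m.Z (-L) (σ p)).1)‖ := norm_pos_iff.2 h0
  have h2 := (h1.sqrt (by
    simp only [Function.comp, un_unit hp]
    positivity)).sub_const L
  have e1 : be m lg σ L = fun x : V × V =>
      √(2 * (‖lg (x.1, (m.Z (-L) (σ (un x.2))).1)‖ ^ 2 / 2)) - L := funext fun x => by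
    rw [mul_div_cancel₀ _ two_ne_zero, Real.sqrt_sq (norm_nonneg _)]
    rfl
  have h3 := HasFDerivAt.fderiv (f := be m lg σ L) (e1 ▸ h2)
  rw [h3]
  simp only [Function.comp, un_unit hp, smul_apply, ContinuousLinearMap.comp_apply,
    ContinuousLinearMap.prod_apply, hl.grad, smul_eq_mul, ContinuousLinearMap.coe_fst',
    ContinuousLinearMap.coe_snd', Prod.swap, ho.SR, sub_apply, ContinuousLinearMap.id_apply,
    ContinuousLinearMap.smulRight_apply, innerSL_apply_apply, JL_apply, At_apply]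
  rw [mul_div_cancel₀ _ two_ne_zero, Real.sqrt_sq n0.le]
  field_simp

theorem geo (ho : m.OK) (hj : m.Jac) (hl : m.Had lg) (hf : m.Front σ) {p : V} (hp : ‖p‖ = 1)
    (s t : ℝ) : ‖lg ((m.Z s (σ p)).1, (m.Z t (σ p)).1)‖ = |t - s| := by
  rw [dist_geo ho hj hl, hf.norm p (ne_of_norm hp), hp, mul_one]

end XG2

open XG2 in
theorem xG2 : SG2 := by
  intro m lg σ T ho hj hu hl hf hg hT ρ L e s hb hs
  have hL : 0 < L := hT.trans_le hb.le
  refine ⟨fun z hz q hq hc => ?_, fun a ha hO => ?_⟩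
  · have h0 := hb.big z hz q hq
    have h1 := hl.tri (m.Z 0 (σ q)).1 z (m.Z (-L) (σ q)).1
    rw [geo ho hj hl hf hq, ho.zero, sub_zero, abs_neg, abs_of_pos hL, lg_symm hj hl z] at h1
    have n0 : 0 < ‖lg (z, (m.Z (-L) (σ q)).1)‖ := by linarith
    have h2 : ∀ e, ⟪lg ((m.Z (-L) (σ q)).1, z), At m σ (-L) q e⟫ = 0 := fun e => by
      have h := hc e
      rw [der ho hl hf L z hq (norm_pos_iff.1 n0), map_zero, inner_zero_right, neg_zero, zero_sub,
        mul_eq_zero] at h
      exact neg_eq_zero.1 (h.resolve_left (inv_pos.2 n0).ne')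
    have hd : dlt m σ (-L) q ≠ 0 := fun h => by
      have := hs.far q (-L) hq (neg_le_neg hb.le)
      rw [h, mul_zero] at this
      exact lt_irrefl _ this
    have hsur : Function.Surjective
        (At m σ (-L) q + (innerSL ℝ q).smulRight (m.Z (-L) (σ q)).2) :=
      (ContinuousLinearMap.toContinuousLinearEquivOfDetNeZero _ hd).surjective
    set r := ⟪lg ((m.Z (-L) (σ q)).1, z), (m.Z (-L) (σ q)).2⟫ with hr
    have h3 : lg ((m.Z (-L) (σ q)).1, z) = r • (m.Z (-L) (σ q)).2 := ext_inner_right ℝ fun v => by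
      obtain ⟨e, rfl⟩ := hsur v
      simp only [add_apply, ContinuousLinearMap.smulRight_apply, inner_add_right,
        inner_smul_right, h2, inner_smul_left, At_perp ho hj hf hq, real_inner_self_eq_norm_sq,
        w_unit hj hf hq, ← hr, conj_trivial]
      ring
    have h4 : z = (m.Z (r - L) (σ q)).1 := by
      have h := hl.ex (m.Z (-L) (σ q)).1 z
      rw [h3, one_smul' hj, ← ho.add] at h
      exact h.symm
    have h5 := geo ho hj hl hf hq (r - L) 0
    rw [ho.zero, ← h4] at h5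
    have h6 : 0 < r := by
      rw [h5, abs_lt] at h0
      linarith [h0.2]
    have h7 : be m lg σ L (z, q) = r - L := by
      have h := geo ho hj hl hf hq (r - L) (-L)
      rw [← h4, show -L - (r - L) = -r by ring, abs_neg, abs_of_pos h6] at h
      simp only [be, zz, un_unit hq, h]
    rw [h7, Cc, Ph_exp hq]
    exact h4.symm
  · have hp : ‖un a‖ = 1 := (polar ha).1
    have hC : Cc m σ a = (m.Z (Real.log ‖a‖) (σ (un a))).1 := rfl
    have hw : ww m σ a = (m.Z (Real.log ‖a‖) (σ (un a))).2 := rfl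
    have h0 := hb.big _ hO _ hp
    have h1 := geo ho hj hl hf hp (Real.log ‖a‖) 0
    rw [ho.zero, ← hC] at h1
    rw [h1, abs_lt] at h0
    have hn := geo ho hj hl hf hp (Real.log ‖a‖) (-L)
    rw [abs_of_neg (by linarith [h0.2])] at hn
    refine ⟨?_, fun x e => ?_⟩
    · simp only [be, zz, hC, hn]
      ring
    · rw [hC, der ho hl hf L _ hp (norm_pos_iff.1 (by rw [hn]; linarith [h0.2])), hn,
        lg_geo ho hj hl, lg_geo ho hj hl, inner_smul_left, inner_smul_left, At_perp ho hj hf hp,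
        th, ContinuousLinearMap.adjoint_inner_left, hw, hC]
      have : -(-L - Real.log ‖a‖) ≠ 0 := by linarith [h0.2]
      simp only [conj_trivial]
      rw [mul_zero, sub_zero, ← neg_mul, ← mul_assoc, inv_mul_cancel₀ this, one_mul]

end Pool.Agent.MP_3ee8cb_gt.D3NP
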