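import Pool.Agent.MP_3ee8cb_gt.D3NP.GSpec
import Pool.Agent.MP_3ee8cb_gt.D3CT.RHs
import Pool.Agent.MP_3ee8cb_gt.D3CT.RFr
import Pool.Agent.MP_3ee8cb_gt.D3CT.RBs

/-! The Hessian of the distance from the far front at a point of a ray. -/

namespace Pool.Agent.MP_3ee8cb_gt.D3NP

open Set Filter Topology D3
open D3MO (S2 Cr)
open D3CT (Gn zh Mm W)
open D3CT.RFr (nr)
open D3AR (un)
open D3NB (dlt)
open scoped RealInnerProductSpace

namespace XG3b

variable {m : MF} {σ : V → V × V}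

theorem zc (hm : m.OK) (hf : m.Front σ) (s : ℝ) {b : V} (hb : b ≠ 0) :
    ContDiffAt ℝ 1 (zh m σ s) b :=
  (D3CT.RFr.cZ hm s).contDiffAt.comp b ((hf.c1.contDiffAt
    (isOpen_ne.mem_nhds (D3CT.RFr.nr_ne hb))).comp b (D3CT.RFr.nr_cd hb))

theorem perp (hm : m.OK) (hj : m.Jac) (hf : m.Front σ) (s : ℝ) {b : V} (hb : b ≠ 0) (e : V) :
    ⟪(zh m σ s b).2, m.S (zh m σ s b).1 (fderiv ℝ (zh m σ s) b e).1⟫ = 0 := by
  have := (D3CT.RFr.in_PQ hm hj hf (D3CT.RFr.nr_ne hb) s (fderiv ℝ nr b e)).2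
  rw [D3CT.RFr.nr_perp hb, mul_zero] at this
  rw [D3CT.RFr.zh_der hm hf s hb]
  exact this

theorem der (hm : m.OK) (hf : m.Front σ) (s : ℝ) {a : V} (ha : ‖a‖ = 1) (e : V) :
    m.S (zz m σ s a) (fderiv ℝ (zh m σ s) a e).1 = At m σ s a e := by
  rw [D3CT.RFr.zh_der hm hf s (D3NB.ne_of_unit ha), D3CT.RFr.nr_der ha, D3CT.RFr.nr_one ha]
  rfl

theorem hess {lg : V × V → V} (ok : m.OK) (jac : m.Jac) (had : m.Had lg) (front : m.Front σ)
    (p : S2) (ι : W →L[ℝ] V) (φ : W → S2) (gn : Gn p ι φ) (t L : ℝ) (hL : 0 < t + L) :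
    ∃ (H : W →L[ℝ] W →L[ℝ] ℝ) (κ : ℝ), 0 < κ ∧
      Cr (fun v : W => ‖lg (zz m σ t p, zz m σ (-L) (φ v))‖ - L) H ∧
      (0 < κ * dlt m σ t p * dlt m σ (-L) p → (∀ v, v ≠ 0 → 0 < H v v) ∨ ∀ v, v ≠ 0 → H v v < 0) ∧
      (κ * dlt m σ t p * dlt m σ (-L) p < 0 → ∃ v v', 0 < H v v ∧ H v' v' < 0) := by
  have bs := D3CT.rowBs m lg ok jac had
  set a : V := p.1 with hadef
  have ha : ‖a‖ = 1 := mem_sphere_zero_iff_norm.1 p.2
  have a0 : a ≠ 0 := D3NB.ne_of_unit ha
  set q := zz m σ t a with hq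
  have bne : ∀ v, a + ι v ≠ 0 := fun v h => by
    have := congrArg (fun x => ⟪a, x⟫) h
    simp only [inner_add_right, inner_zero_right, real_inner_self_eq_norm_sq, ha] at this
    rw [gn.perp v] at this
    norm_num at this
  have hb : ∀ v, HasFDerivAt (fun v => a + ι v) ι v := fun v => ι.hasFDerivAt.const_add a
  have hz : ∀ s v, HasFDerivAt (fun v => (zh m σ s (a + ι v)).1)
      ((ContinuousLinearMap.fst ℝ V V).comp ((fderiv ℝ (zh m σ s) (a + ι v)).comp ι)) v :=
    fun s v => ((((zc ok front s (bne v)).differentiableAt one_ne_zero).hasFDerivAt).comp v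
      (hb v)).fst
  have za : ∀ s, zh m σ s a = m.Z s (σ a) := fun s => by simp [zh, ha]
  have ld : ∀ x, HasFDerivAt lg (fderiv ℝ lg x) x := fun x =>
    (had.c1.differentiable one_ne_zero x).hasFDerivAt
  set X : W → V := fun v => (zh m σ (-L) (a + ι v)).1 with hX
  set N : W → V := fun v => lg (X v, q) - lg (X v, (zh m σ t (a + ι v)).1) with hN
  set B : W → W →L[ℝ] V := fun v => (m.S (X v)).comp
    ((ContinuousLinearMap.fst ℝ V V).comp ((fderiv ℝ (zh m σ (-L)) (a + ι v)).comp ι)) with hB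
  have X0 : X 0 = zz m σ (-L) a := by simp [hX, za, zz]
  have Y0 : (zh m σ t (a + ι 0)).1 = q := by simp [hq, za, zz]
  have hl : ∀ v, lg (X v, (zh m σ t (a + ι v)).1) = (t - -L) • (zh m σ (-L) (a + ι v)).2 :=
    fun v => bs.geo (σ (‖a + ι v‖⁻¹ • (a + ι v))) (-L) t
  set β : V →L[ℝ] (W →L[ℝ] V) →L[ℝ] W →L[ℝ] ℝ :=
    (ContinuousLinearMap.compL ℝ W V ℝ).comp (-innerSL ℝ) with hβ
  have βa : ∀ k L e, β k L e = -⟪k, L e⟫ := fun k L e => rfl
  have hg : ∀ v, HasFDerivAt (fun z : W => ‖lg (q, X z)‖ ^ 2 / 2) (β (N v) (B v)) v := fun v => by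
    have d1 : DifferentiableAt ℝ (fun x => ‖lg x‖ ^ 2 / 2) (q, X v) := by
      simp only [div_eq_mul_inv]
      exact ((ld _).differentiableAt.norm_sq ℝ).mul_const _
    have d2 := d1.hasFDerivAt.comp v ((hasFDerivAt_const q v).prodMk (hz (-L) v))
    refine d2.congr_fderiv ?_
    ext1 e
    have pp := perp ok jac front (-L) (bne v) (ι e)
    rw [βa, ContinuousLinearMap.comp_apply, had.grad]
    have e1 : ⟪lg (X v, (zh m σ t (a + ι v)).1), B v e⟫ = 0 := by
      rw [hl, inner_smul_left]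
      exact mul_eq_zero_of_right _ pp
    rw [show N v = lg (X v, q) - lg (X v, (zh m σ t (a + ι v)).1) from rfl, inner_sub_left, e1]
    simp [hB]
  set d : W → ℝ := fun v => ‖lg (q, X v)‖ with hd
  have d0 : d 0 = t + L := by
    have h := bs.geo (σ a) t (-L)
    simp only [hd, X0, hq, zz]
    rw [h, norm_smul, D3NB.w_unit jac front ha, mul_one, Real.norm_of_nonpos (by linarith)]
    ring
  have dc : ContinuousAt d 0 :=
    (had.c1.continuous.continuousAt.comp (continuousAt_const.prodMk (hz (-L) 0).continuousAt)).norm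
  have hf : ∀ᶠ v in 𝓝 (0 : W), HasFDerivAt (fun v : W => ‖lg (q, zz m σ (-L) (φ v))‖ - L)
      (β (N v) ((d v)⁻¹ • B v)) v := by
    filter_upwards [dc.eventually (lt_mem_nhds (d0 ▸ hL : 0 < d 0))] with v hv
    have h1 := (((hg v).const_mul 2).sqrt (by positivity)).sub_const L
    have e : (fun v : W => ‖lg (q, zz m σ (-L) (φ v))‖ - L) =
        fun z => √(2 * (‖lg (q, X z)‖ ^ 2 / 2)) - L := by
      funext z
      rw [gn.eq z, mul_div_cancel₀ _ two_ne_zero, Real.sqrt_sq (norm_nonneg _)]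
      rfl
    rw [e]
    refine h1.congr_fderiv ?_
    rw [mul_div_cancel₀ _ two_ne_zero, Real.sqrt_sq (norm_nonneg _), map_smul, smul_smul]
    congr 1
    have : ‖lg (q, X v)‖ ≠ 0 := hv.ne'
    simp only [hd]
    field_simp
  set N' : W →L[ℝ] V := -((Mm m lg (zz m σ (-L) a) q).comp ((At m σ t a).comp ι)) with hN'
  have hNd : HasFDerivAt N N' 0 := by
    have h1 := (ld (X 0, q)).comp 0 ((hz (-L) 0).prodMk (hasFDerivAt_const q 0))
    have h2 := (ld (X 0, (zh m σ t (a + ι 0)).1)).comp 0 ((hz (-L) 0).prodMk (hz t 0))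
    refine (h1.sub h2).congr_fderiv ?_
    ext1 e
    rw [Y0]
    simp only [map_zero, add_zero, X0, hN', Mm, _root_.sub_apply,
      ContinuousLinearMap.comp_apply, ContinuousLinearMap.prod_apply,
      _root_.neg_apply, ContinuousLinearMap.coe_fst', ContinuousLinearMap.inr_apply,
      ← der ok front t ha, ← hq, ok.RS, _root_.zero_apply]
    rw [← map_sub, ← map_neg]
    simp
  have hBc : ContinuousAt (fun v => (d v)⁻¹ • B v) 0 := by
    have c1 : ContinuousAt (fun v => m.S (X v)) 0 :=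
      ok.cS.continuous.continuousAt.comp (hz (-L) 0).continuousAt
    have c2 : ContinuousAt (fun v => fderiv ℝ (zh m σ (-L)) (a + ι v)) 0 :=
      ContinuousAt.comp (f := fun v => a + ι v)
        ((zc ok front (-L) (bne 0)).continuousAt_fderiv one_ne_zero) (hb 0).continuousAt
    exact (dc.inv₀ (by rw [d0]; exact hL.ne')).smul
      (c1.clm_comp (continuousAt_const.clm_comp (c2.clm_comp continuousAt_const)))
  have N0 : N 0 = 0 := by simp only [hN, Y0, sub_self]
  have hD := D3CT.RHs.prod0 β N N' _ 0 hNd N0 hBc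
  have dM := bs.det (zz m σ (-L) a) q
  have c0 : 0 < (d 0)⁻¹ := inv_pos.2 (d0 ▸ hL)
  refine ⟨_, (Mm m lg (zz m σ (-L) a) q).det * (d 0)⁻¹ ^ 3, by positivity,
    ⟨fun v => β (N v) ((d v)⁻¹ • B v), hf, by simp only [N0, map_zero, _root_.zero_apply], hD⟩, ?_⟩
  have n : ⟪a, a⟫ = 1 := by rw [real_inner_self_eq_norm_sq, ha, one_pow]
  have Ap : ∀ s, At m σ s a a = 0 := fun s => by
    rw [At_apply, n, one_smul, sub_self, map_zero, MF.J, map_zero, map_zero]
  set P : V →L[ℝ] V := At m σ t a + (innerSL ℝ a).smulRight (m.Z t (σ a)).2 with hP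
  set Q : V →L[ℝ] V := At m σ (-L) a + (innerSL ℝ a).smulRight (m.Z (-L) (σ a)).2 with hQ
  have Pa : ((Mm m lg (zz m σ (-L) a) q).comp P) a = (m.Z (-L) (σ a)).2 := by
    simp only [hP, ContinuousLinearMap.comp_apply, _root_.add_apply, Ap,
      ContinuousLinearMap.smulRight_apply, innerSL_apply_apply, n, zero_add, one_smul]
    exact bs.rad (σ a) (-L) t
  have n1 := D3NB.w_unit jac front ha (-L)
  have key := D3CT.RHs.la ((Mm m lg (zz m σ (-L) a) q).comp P) ((d 0)⁻¹ • Q) a (d 0)⁻¹ ι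
    ((β.flip ((d 0)⁻¹ • B 0)).comp N') ha c0
    (by
      rw [Pa]
      simp only [hQ, _root_.smul_apply, _root_.add_apply, Ap, ContinuousLinearMap.smulRight_apply,
        innerSL_apply_apply, n, zero_add, one_smul, inner_smul_right, real_inner_self_eq_norm_sq,
        n1, one_pow, mul_one])
    (fun e he => by
      have h := perp ok jac front (-L) a0 e
      rw [za, show (m.Z (-L) (σ a)).1 = zz m σ (-L) a from rfl, der ok front (-L) ha] at h
      rw [Pa]
      simp only [hQ, _root_.smul_apply, _root_.add_apply, ContinuousLinearMap.smulRight_apply,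
        innerSL_apply_apply, he, zero_smul, add_zero, inner_smul_right, h, mul_zero])
    gn.inj gn.perp gn.onto
    (fun v v' => by
      have pv : ⟪a, ι v⟫ = 0 := gn.perp v
      have pv' : ⟪a, ι v'⟫ = 0 := gn.perp v'
      simp only [ContinuousLinearMap.comp_apply, ContinuousLinearMap.flip_apply, βa, hB, X0,
        map_zero, add_zero, ContinuousLinearMap.coe_fst', der ok front (-L) ha, hN', hP, hQ,
        _root_.neg_apply, inner_neg_left, neg_neg, _root_.add_apply, _root_.smul_apply,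
        ContinuousLinearMap.smulRight_apply, innerSL_apply_apply, pv, pv', zero_smul])
    (second_derivative_symmetric_of_eventually_of_real hf hD)
  have dP : ((Mm m lg (zz m σ (-L) a) q).comp P).det =
      (Mm m lg (zz m σ (-L) a) q).det * dlt m σ t a := LinearMap.det_comp _ _
  have dQ : ((d 0)⁻¹ • Q).det = (d 0)⁻¹ ^ 3 * dlt m σ (-L) a := by
    have := LinearMap.det_smul (d 0)⁻¹ (Q : V →ₗ[ℝ] V)
    rw [finrank_euclideanSpace_fin] at this
    exact this
  rw [dP, dQ] at key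
  exact ⟨fun h => key.1 (by linarith), fun h => key.2 (by linarith)⟩

end XG3b

theorem xG3b : SG3 := by
  intro m lg σ T ok jac _ had front _ _ ρ L e s big sg a a0 ha p ι φ hp gn
  obtain ⟨hu, ea⟩ := D3NB.polar a0
  set t := Real.log ‖a‖ with ht
  have hp' : (p : V) = ‖a‖⁻¹ • a := hp
  rw [← hp'] at hu ea
  have Ca : Cc m σ a = zz m σ t p := by
    rw [hp']
    rfl
  have hL : 0 < t + L := by
    have h1 := big.big _ ha p hu
    have h2 := (D3CT.rowBs m lg ok jac had).geo (σ p) t 0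
    rw [ok.zero] at h2
    rw [Ca, zz, h2, norm_smul, D3NB.w_unit jac front hu, mul_one, Real.norm_eq_abs] at h1
    linarith [(abs_lt.1 h1).2]
  obtain ⟨H, κ, hκ, hc, h1, h2⟩ := XG3b.hess ok jac had front p ι φ gn t L hL
  have e1 : (fun v => be m lg σ L (Cc m σ a, φ v)) =
      fun v : W => ‖lg (zz m σ t p, zz m σ (-L) (φ v))‖ - L := by
    funext v
    have : un (φ v : V) = φ v := by
      rw [un, mem_sphere_zero_iff_norm.1 (φ v).2, inv_one, one_smul]
    rw [be, Ca, this]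
  have dj := D3NB.det_Psi ok front hu t
  rw [← ea] at dj
  replace dj : (m.S (m.Z t (σ p)).1).det * jc (Cc m σ) a = _ := dj
  have s1 := sg.S (m.Z t (σ p)).1
  have s2 := sg.far p (-L) hu (by linarith [big.le])
  have r0 := Real.exp_pos t
  have e2 : κ * dlt m σ t p * dlt m σ (-L) p = κ * Real.exp t ^ 3 *
      (s * (m.S (m.Z t (σ p)).1).det) * (e * dlt m σ (-L) p) * (e * s * jc (Cc m σ) a) := by
    have d : dlt m σ t p = Real.exp t ^ 3 * ((m.S (m.Z t (σ p)).1).det * jc (Cc m σ) a) := by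
      rw [dj]
      field_simp
    rw [d]
    rcases sg.he with rfl | rfl <;> rcases sg.hs with rfl | rfl <;> ring
  have cp : 0 < κ * Real.exp t ^ 3 * (s * (m.S (m.Z t (σ p)).1).det) * (e * dlt m σ (-L) p) := by
    positivity
  rw [e2] at h1 h2
  exact ⟨H, e1 ▸ hc, fun h => h1 (mul_pos cp h), fun h => h2 (mul_neg_of_pos_of_neg cp h)⟩

end Pool.Agent.MP_3ee8cb_gt.D3NP
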