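import Pool.Agent.MP_3ee8cb_gt.D3NP.GSpec
import Pool.Agent.MP_3ee8cb_gt.D3WI.Wid

/-! The geometric family: monotonicity, the two ends, and separation. -/

namespace Pool.Agent.MP_3ee8cb_gt.D3NP

open Set Metric D3 D3WI
open D3AR (un)
open D3NB (Ph Ph_exp polar)
open scoped RealInnerProductSpace

namespace XG4

variable {m : MF} {lg : V × V → V} {σ : V → V × V} {T t : ℝ}

theorem good (hg : m.Good σ T) (h : T ≤ t) : m.Good σ t :=
  ⟨hg.inj, hg.sym, fun a e s h1 h2 h3 h4 => hg.pos a e s h1 h2 h3 (h.trans h4)⟩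

theorem be_eq (L : ℝ) (z : V) {q : V} (hq : ‖q‖ = 1) :
    be m lg σ L (z, q) = ‖lg (z, (m.Z (-L) (σ q)).1)‖ - L := by
  simp [be, un, hq, zz]

theorem geo (ho : m.OK) (hj : m.Jac) (hl : m.Had lg) (hf : m.Front σ) {p : V} (hp : ‖p‖ = 1)
    (s t : ℝ) : ‖lg ((m.Z s (σ p)).1, (m.Z t (σ p)).1)‖ = |t - s| := by
  rw [dist_geo ho hj hl, hf.norm p (ne_of_norm hp), hp, mul_one]

end XG4

open XG4 in
theorem xG4 : SG4 := by
  intro m lg σ T ho hj hu hl hf hg hT ρ L e s hb _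
  have hC : ∀ a, Cc m σ a = (m.Z (Real.log ‖a‖) (σ (un a))).1 := fun _ => rfl
  refine ⟨fun p q s t hp hq hst => ?_, fun a q ha _ ht hq => ?_, fun a q ha hO ht hq hne => ?_,
    fun a a' ha ha' h1 h2 => ?_⟩
  · rw [be_eq L _ hq, be_eq L _ hq, Cc, Cc, Ph_exp hp, Ph_exp hp]
    have h1 := hl.tri (m.Z t (σ p)).1 (m.Z s (σ p)).1 (m.Z (-L) (σ q)).1
    rw [geo ho hj hl hf hp, abs_of_nonpos (by linarith)] at h1
    linarith
  · have hp : ‖un a‖ = 1 := (polar ha).1
    rw [be_eq L _ hq, hC]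
    set t := Real.log ‖a‖
    have hL := hb.le
    have h1 := hl.tri (m.Z (-t) (σ q)).1 (m.Z t (σ (un a))).1 (m.Z (-L) (σ q)).1
    have h2 := diam ho hj hl hf (good hg (show T ≤ -t by linarith)) (by linarith) q (-un a) hq
      (by rw [norm_neg, hp])
    rw [zz_neg hj hf (ne_of_norm hp), neg_neg, zz] at h2
    rw [geo ho hj hl hf hq, abs_of_nonpos (by linarith)] at h1
    linarith
  · have hp : ‖un a‖ = 1 := (polar ha).1
    have h0 := hb.big _ hO _ hp
    rw [be_eq L _ hq, hC]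
    rw [hC] at h0
    set t := Real.log ‖a‖
    have h3 := geo ho hj hl hf hp t 0
    rw [ho.zero, zero_sub, abs_neg, abs_of_pos (by linarith)] at h3
    have h1 := hl.tri (m.Z t (σ (un a))).1 (m.Z (-t) (σ q)).1 (m.Z (-L) (σ q)).1
    have hw := swid m lg σ t ho hj hu hl hf (good hg ht) (by linarith)
    have hq' : ‖-q‖ = 1 := by rw [norm_neg, hq]
    have h2 := lt_of_le_of_ne (hw.diam _ _ hp hq') fun h => hne (neg_injective (hw.eq _ _ hp hq' h))
    rw [zz_neg hj hf (ne_of_norm hq), zz] at h2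
    rw [geo ho hj hl hf hq, abs_of_nonpos (by linarith)] at h1
    linarith
  · have hp : ‖un a‖ = 1 := (polar ha).1
    have hp' : ‖un a'‖ = 1 := (polar ha').1
    have h3 : ww m σ a = ww m σ a' := ext_inner_right ℝ fun x => by
      have h := congrArg (fun y => ⟪y, m.R (Cc m σ a') x⟫) h2
      simpa only [th, h1, ContinuousLinearMap.adjoint_inner_left, ho.SR] using h
    have h4 : m.Z (Real.log ‖a‖) (σ (un a)) = m.Z (Real.log ‖a'‖) (σ (un a')) := Prod.ext h1 h3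
    have h5 : un a' = un a := hf.sep _ _ (-Real.log ‖a'‖ + Real.log ‖a‖) hp hp' (by
      rw [ho.add, h4, ← ho.add, neg_add_cancel, ho.zero])
    have h6 := geo ho hj hl hf hp (Real.log ‖a‖) (Real.log ‖a'‖)
    rw [h4, h5, lg_self ho hj hl, norm_zero] at h6
    have h7 : Real.log ‖a'‖ = Real.log ‖a‖ := sub_eq_zero.1 (abs_eq_zero.1 h6.symm)
    calc a = Real.exp (Real.log ‖a‖) • un a := (polar ha).2
      _ = Real.exp (Real.log ‖a'‖) • un a' := by rw [h5, h7]
      _ = a' := (polar ha').2.symm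

end Pool.Agent.MP_3ee8cb_gt.D3NP
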