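import Pool.Agent.MP_3ee8cb_gt.D3NP.GSpec
import Pool.Agent.MP_3ee8cb_gt.D3WI.Base

/-! At most two focal times on every ray. -/

namespace Pool.Agent.MP_3ee8cb_gt.D3NP

open Set D3
open D3NB (Ph dlt)
open scoped RealInnerProductSpace

namespace XG5

variable {m : MF} {σ : V → V × V} {T : ℝ}

theorem der (ho : m.OK) (hj : m.Jac) (z ξ : V × V) (t : ℝ) :
    HasDerivAt (fun s => ⟪m.J z ξ s, m.J' z ξ s⟫) (‖m.J' z ξ t‖ ^ 2 +
      -⟪m.K (m.Z t z).1 (m.J z ξ t) (m.Z t z).2 (m.Z t z).2, m.J z ξ t⟫) t := by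
  refine ((hj.d1 z ξ t).inner ℝ (hj.d2 z ξ t)).congr_deriv ?_
  have h := ho.skew (m.Z t z).1 (m.R (m.Z t z).1 (m.Z t z).2) (m.J z ξ t) (m.J' z ξ t)
  rw [inner_sub_right, inner_sub_left, inner_neg_right, real_inner_self_eq_norm_sq,
    real_inner_comm (m.K _ _ _ _) (m.J z ξ t)]
  unfold MF.w
  linarith

theorem mono (ho : m.OK) (hj : m.Jac) (hu : m.Up 0) (hg : m.Good σ T) {p e : V} (hp : ‖p‖ = 1)
    (he : ⟪p, e⟫ = 0) (h0 : e ≠ 0) :
    StrictMono fun s => ⟪m.J (σ p) (fderiv ℝ σ p e) s, m.J' (σ p) (fderiv ℝ σ p e) s⟫ := by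
  refine strictMono_of_deriv_pos fun t => ?_
  rw [(der ho hj _ _ t).deriv]
  have h1 := hu (m.Z t (σ p)).1 (m.J (σ p) (fderiv ℝ σ p e) t) (m.Z t (σ p)).2
  have h2 : m.J' (σ p) (fderiv ℝ σ p e) t ≠ 0 := fun h => h0 (hg.inj p e t hp he h)
  have h3 := pow_pos (norm_pos_iff.2 h2) 2
  linarith

theorem ker (ho : m.OK) (hj : m.Jac) (hf : m.Front σ) {p : V} (hp : ‖p‖ = 1) {t : ℝ}
    (h : jc (Cc m σ) (Real.exp t • p) = 0) :
    ∃ e, e ≠ 0 ∧ ⟪p, e⟫ = 0 ∧ m.J (σ p) (fderiv ℝ σ p e) t = 0 := by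
  have h1 := D3NB.det_Psi ho hf hp t
  have h2 : (fderiv ℝ (fun x => (Ph m σ x).1) (Real.exp t • p)).det = 0 := h
  rw [h2, mul_zero] at h1
  have h3 : dlt m σ t p = 0 :=
    (mul_eq_zero.1 h1.symm).resolve_left (pow_ne_zero _ (inv_ne_zero (Real.exp_pos t).ne'))
  rw [dlt, ContinuousLinearMap.det, LinearMap.det_eq_zero_iff_ker_ne_bot,
    Submodule.ne_bot_iff] at h3
  obtain ⟨v, hv, v0⟩ := h3
  have h4 : m.J (σ p) (fderiv ℝ σ p (v - ⟪p, v⟫ • p)) t + ⟪p, v⟫ • (m.Z t (σ p)).2 = 0 := hv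
  have n : ⟪p, p⟫ = 1 := by rw [real_inner_self_eq_norm_sq, hp, one_pow]
  have h5 := D3WI.J_front ho hj hf (D3NB.ne_of_unit hp) (v - ⟪p, v⟫ • p) t
  rw [inner_sub_right, inner_smul_right, n, mul_one, sub_self, mul_zero] at h5
  have h6 := congrArg (fun x => ⟪x, (m.Z t (σ p)).2⟫) h4
  simp only [inner_add_left, h5, real_inner_smul_left, real_inner_self_eq_norm_sq,
    D3NB.w_unit hj hf hp, inner_zero_left, one_pow, mul_one, zero_add] at h6
  rw [h6, zero_smul, zero_smul, sub_zero, add_zero] at h4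
  exact ⟨v, v0, h6, h4⟩

theorem dep {p a b c : V} (hp : ‖p‖ = 1) (ha : ⟪p, a⟫ = 0) (hb : ⟪p, b⟫ = 0) (hc : ⟪p, c⟫ = 0) :
    ∃ x y z : ℝ, x • a = y • b + z • c ∧ ¬(x = 0 ∧ y = 0 ∧ z = 0) := by
  have h : ¬LinearIndependent ℝ ![p, a, b, c] := fun h => by
    have := h.fintype_card_le_finrank
    simp at this
  obtain ⟨g, hg, i, hi⟩ := Fintype.not_linearIndependent_iff.1 h
  simp only [Fin.sum_univ_four, Matrix.cons_val_zero, Matrix.cons_val_one, Matrix.cons_val] at hg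
  have n : ⟪p, p⟫ = 1 := by rw [real_inner_self_eq_norm_sq, hp, one_pow]
  have h0 := congrArg (fun x => ⟪p, x⟫) hg
  simp only [inner_add_right, inner_smul_right, n, ha, hb, hc, inner_zero_right, mul_zero,
    add_zero, mul_one] at h0
  rw [h0, zero_smul, zero_add] at hg
  refine ⟨g 1, -g 2, -g 3, ?_, fun ⟨h1, h2, h3⟩ => hi ?_⟩
  · rw [neg_smul, neg_smul, ← neg_add, eq_neg_iff_add_eq_zero, ← add_assoc, hg]
  · fin_cases i
    · exact h0
    · exact h1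
    · exact neg_eq_zero.1 h2
    · exact neg_eq_zero.1 h3

theorem J_lin (z : V × V) (L : V →L[ℝ] V × V) (t x y : ℝ) (a b : V) :
    m.J z (L (x • a + y • b)) t = x • m.J z (L a) t + y • m.J z (L b) t ∧
      m.J' z (L (x • a + y • b)) t = x • m.J' z (L a) t + y • m.J' z (L b) t := by
  simp only [MF.J, MF.J', map_add, map_smul, and_self]

theorem J_smul (z : V × V) (L : V →L[ℝ] V × V) (t x : ℝ) (a : V) :
    m.J z (L (x • a)) t = x • m.J z (L a) t ∧ m.J' z (L (x • a)) t = x • m.J' z (L a) t := by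
  simp only [MF.J, MF.J', map_smul, and_self]

end XG5

open XG5 in
theorem xG5 : SG5 := by
  intro m lg σ T ho hj hu hl hf hg hT ρ L e s _ _ p hp
  by_contra hinf
  obtain ⟨F, hF, hc⟩ := (show Set.Infinite _ from hinf).exists_subset_card_eq 3
  have hm := fun i : Fin 3 => hF (F.orderEmbOfFin_mem hc i)
  have h01 := (F.orderEmbOfFin hc).strictMono (show (0 : Fin 3) < 1 by decide)
  have h12 := (F.orderEmbOfFin hc).strictMono (show (1 : Fin 3) < 2 by decide)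
  obtain ⟨a, a0, pa, ja⟩ := ker ho hj hf hp (hm 0)
  obtain ⟨b, b0, pb, jb⟩ := ker ho hj hf hp (hm 1)
  obtain ⟨c, c0, pc, jc'⟩ := ker ho hj hf hp (hm 2)
  generalize F.orderEmbOfFin hc 0 = t0 at h01 ja
  generalize F.orderEmbOfFin hc 2 = t2 at h12 jc'
  generalize F.orderEmbOfFin hc 1 = t1 at h01 h12 jb
  have q0 := mono ho hj hu hg hp pa a0 h01
  have q2 := mono ho hj hu hg hp pc c0 h12
  simp only [ja, jc', inner_zero_left] at q0 q2
  obtain ⟨x, y, z, hx, hn⟩ := dep hp pa pb pc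
  have s1 := hg.sym p b c t1 hp pb pc
  rw [jb, inner_zero_left, real_inner_comm] at s1
  have e1 := J_smul (m := m) (σ p) (fderiv ℝ σ p) t1 x a
  have e2 := J_lin (m := m) (σ p) (fderiv ℝ σ p) t1 y z b c
  rw [← hx, e1.1, e1.2, jb, smul_zero, zero_add] at e2
  have e3 : ⟪x • m.J (σ p) (fderiv ℝ σ p a) t1, x • m.J' (σ p) (fderiv ℝ σ p a) t1⟫ =
      ⟪z • m.J (σ p) (fderiv ℝ σ p c) t1, y • m.J' (σ p) (fderiv ℝ σ p b) t1 +
        z • m.J' (σ p) (fderiv ℝ σ p c) t1⟫ := by rw [e2.1, e2.2]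
  rw [inner_add_right] at e3
  simp only [real_inner_smul_left, real_inner_smul_right, ← s1, mul_zero, zero_add] at e3
  have x0 : x = 0 := by
    by_contra h
    nlinarith [mul_pos (mul_self_pos.2 h) q0, mul_nonneg (mul_self_nonneg z) (neg_pos.2 q2).le]
  have z0 : z = 0 := by
    by_contra h
    nlinarith [mul_pos (mul_self_pos.2 h) (neg_pos.2 q2), mul_nonneg (mul_self_nonneg x) q0.le]
  rw [x0, z0, zero_smul, zero_smul, add_zero] at hx
  exact hn ⟨x0, (smul_eq_zero.1 hx.symm).resolve_right b0, z0⟩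

end Pool.Agent.MP_3ee8cb_gt.D3NP
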