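import Pool.Agent.MP_3ee8cb_gt.D3NP.FibK
import Pool.Agent.MP_3ee8cb_gt.D3NP.XSGN
import Pool.Agent.MP_3ee8cb_gt.D3NP.XBIG
import Pool.Agent.MP_3ee8cb_gt.D3NP.XG1
import Pool.Agent.MP_3ee8cb_gt.D3NP.XG2
import Pool.Agent.MP_3ee8cb_gt.D3NP.XG3b
import Pool.Agent.MP_3ee8cb_gt.D3NP.XG4
import Pool.Agent.MP_3ee8cb_gt.D3NP.XG5
import Pool.Agent.MP_3ee8cb_gt.D3NB.End

/-! The fibre inequality. -/

namespace Pool.Agent.MP_3ee8cb_gt.D3NP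

theorem sFIB0 : SFIB0 :=
  D3NB.fib0 xSGN xBIG xG1 xG2 xG3b xG4 xG5 xDV xBOR kRAY kPOS kCUT kRAD

theorem sFIB : SFIB D3FL.Sm3 := D3NB.fib_of_fib0 sFIB0

end Pool.Agent.MP_3ee8cb_gt.D3NP
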