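import Pool.Agent.MP_3ee8cb_gt.D3NP.Nul30
import Pool.Agent.MP_3ee8cb_gt.D3AR.RPOL

/-! Null sets along lines and rays. -/

namespace Pool.Agent.MP_3ee8cb_gt.D3NP

open D3 Set MeasureTheory Metric Filter Topology

/-- Almost every line in a fixed direction meets a null set in a null set. -/
theorem nul_line {Z : Set V} (hZ : volume Z = 0) (ξ : V) :
    ∀ᵐ y : V, ∀ᵐ r : ℝ, y + r • ξ ∉ Z := by
  obtain ⟨Y, s, m, h0⟩ := exists_measurable_superset_of_null hZ
  have hm : MeasurableSet {q : V × ℝ | q.1 + q.2 • ξ ∉ Y} :=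
    (m.preimage (f := fun q : V × ℝ => q.1 + q.2 • ξ) (by fun_prop)).compl
  have h1 : ∀ᵐ r : ℝ, ∀ᵐ y : V, y + r • ξ ∉ Y := Eventually.of_forall fun r =>
    (measurePreserving_add_right volume (r • ξ)).quasiMeasurePreserving.ae
      (measure_eq_zero_iff_ae_notMem.1 h0)
  filter_upwards [(Measure.ae_ae_comm (p := fun (y : V) (r : ℝ) => y + r • ξ ∉ Y) hm).2 h1]
    with y hy
  exact hy.mono fun r hr e => hr (s e)

/-- A measurable set that is null on every ray is null. -/
theorem nul_ray {S : Set V} (m : MeasurableSet S)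
    (h : ∀ p : V, ‖p‖ = 1 → volume {t : ℝ | Real.exp t • p ∈ S} = 0) : volume S = 0 := by
  rw [← lintegral_indicator_one m, D3AR.pol _ (measurable_one.indicator m)]
  refine (lintegral_congr fun p => ?_).trans lintegral_zero
  refine (lintegral_congr_ae ?_).trans lintegral_zero
  filter_upwards [measure_eq_zero_iff_ae_notMem.1 (h p.1 (by simp))] with t ht
  rw [indicator_of_notMem ht, mul_zero]

/-- The image of a null set under a differentiable map is null. -/
theorem nul_img {E : V → V} {S : Set V} (c : ∀ a ∈ S, DifferentiableAt ℝ E a)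
    (h : volume S = 0) : volume (E '' S) = 0 :=
  addHaar_image_eq_zero_of_differentiableOn_of_addHaar_eq_zero volume
    (fun a ha => (c a ha).differentiableWithinAt) h

end Pool.Agent.MP_3ee8cb_gt.D3NP
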