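import Pool.Agent.MP_3ee8cb_gt.D3NP.KSpec
import Pool.Agent.MP_3ee8cb_gt.D3NP.Nul30b

/-! Almost every point is good. -/

namespace Pool.Agent.MP_3ee8cb_gt.D3NP

open D3 Set MeasureTheory Filter Topology
open D3AR (un)
open scoped RealInnerProductSpace

theorem at_of {F : Type} [NormedAddCommGroup F] [NormedSpace ℝ F] {f : V → F}
    (h : ContDiffOn ℝ 1 f {a | a ≠ 0}) {a : V} (ha : a ≠ 0) : ContDiffAt ℝ 1 f a :=
  h.contDiffAt (isOpen_ne.mem_nhds ha)

theorem surj_of {C : V → V} {a : V} (h : jc C a ≠ 0) (x : V) : ∃ v, fderiv ℝ C a v = x :=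
  (ContinuousLinearMap.toContinuousLinearEquivOfDetNeZero _ h).surjective x

/-- A compact set of regular solutions is finite. -/
theorem fin_of {E : V → V} {S : Set V} {y : V} (k : IsCompact S)
    (h : ∀ a ∈ S, DifferentiableAt ℝ E a ∧ jc E a ≠ 0 ∧ E a = y) : S.Finite := by
  refine k.finite (isDiscrete_iff_nhdsNE.2 fun a ha => inf_principal_eq_bot.2 ?_)
  obtain ⟨h1, h2, -⟩ := h a ha
  exact (h1.hasFDerivAt.eventually_ne (c := y)
    ⟨_, (ContinuousLinearMap.toContinuousLinearEquivOfDetNeZero _ h2).antilipschitz⟩).mono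
      fun b hb hS => hb (h b hS).2.2

theorem cd_log {a : V} (ha : a ≠ 0) : ContDiffAt ℝ 1 (fun b : V => Real.log ‖b‖) a :=
  (contDiffAt_norm ℝ ha).log (norm_ne_zero_iff.2 ha)

variable {O : Set V} {C θ : V → V} {β : V × V → ℝ} {ε T : ℝ}

/-- The Gauss lemma. -/
theorem Fam.gauss (F : Fam O C θ β ε T) {a : V} (ha : a ≠ 0) (hO : C a ∈ O) (v : V) :
    fderiv ℝ (fun b : V => Real.log ‖b‖) a v = ⟪θ a, fderiv ℝ C a v⟫ := by
  have n0 : 0 < ‖a‖⁻¹ := inv_pos.2 (norm_pos_iff.2 ha)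
  have c := at_of F.cC ha
  have d1 : HasFDerivAt (fun b : V => (C b, ‖a‖⁻¹ • b))
      ((fderiv ℝ C a).prod (‖a‖⁻¹ • ContinuousLinearMap.id ℝ V)) a :=
    (c.differentiableAt one_ne_zero).hasFDerivAt.prodMk ((hasFDerivAt_id a).const_smul ‖a‖⁻¹)
  have d2 : DifferentiableAt ℝ β (C a, un a) :=
    (F.cβ.contDiffAt ((F.op.prod isOpen_ne).mem_nhds (x := (C a, un a))
      ⟨hO, smul_ne_zero n0.ne' ha⟩)).differentiableAt one_ne_zero
  have d3 := (HasFDerivAt.comp (g := β) a d2.hasFDerivAt d1).congr_of_eventuallyEq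
    (f₁ := fun b : V => Real.log ‖b‖) (by
      filter_upwards [isOpen_ne.mem_nhds ha, c.continuousAt (F.op.mem_nhds hO)] with b b1 b2
      exact (F.val b b1 b2).1.symm.trans (F.hom _ _ _ n0).symm)
  rw [d3.fderiv]
  exact (F.val a ha hO).2 _ _

theorem sGood : SGOOD := by
  intro O C θ β ε T F
  have n1 := nul_crit (Ψ := C) (U := {a | a ≠ 0})
    fun a ha => (at_of F.cC ha).differentiableAt one_ne_zero
  have n2 := nul (Ψ := C) (u := fun b => Real.log ‖b‖) (U := {a | a ≠ 0})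
    (fun a ha => at_of F.cC ha) fun a ha => cd_log ha
  filter_upwards [measure_eq_zero_iff_ae_notMem.1 n1, measure_eq_zero_iff_ae_notMem.1 n2]
    with z z1 z2 hz
  have r : ∀ a, a ≠ 0 → C a = z → jc C a ≠ 0 := fun a ha e h => z1 ⟨a, ha, e, h⟩
  refine ⟨fin_of (E := C) (y := z) (F.cpt {z} isCompact_singleton (by simpa using hz))
    fun a ha => ⟨(at_of F.cC ha.1).differentiableAt one_ne_zero, r a ha.1 ha.2, ha.2⟩, r,
    fun a b ha hb e e' n => F.sep a b ha hb (e.trans e'.symm) (ext_inner_right ℝ fun x => ?_)⟩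
  obtain ⟨v, hv⟩ := surj_of (r a ha e) x
  obtain ⟨w, hw⟩ := surj_of (r b hb e') x
  by_contra h
  refine z2 ⟨a, ha, b, hb, e, e', r a ha e, r b hb e', by rw [n], v, w, hv.trans hw.symm, ?_⟩
  rwa [F.gauss ha (e ▸ hz), F.gauss hb (e' ▸ hz), hv, hw]

end Pool.Agent.MP_3ee8cb_gt.D3NP
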