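import Pool.Agent.MP_3ee8cb_gt.D3NP.REVT

/-! The slice inequality. -/

namespace Pool.Agent.MP_3ee8cb_gt.D3NP

open D3 Set MeasureTheory Filter Topology
open scoped RealInnerProductSpace

variable {O : Set V} {C θ : V → V} {β : V × V → ℝ} {ε T : ℝ} {α : V → ℝ}

theorem Fam.intg (F : Fam O C θ β ε T) (D : SDV) (W : Wg O α) {f : V → V}
    (c : ∀ a, a ≠ 0 → ContDiffAt ℝ 1 f a) (h : ∀ a, α (C a) = 0 → f a = 0) :
    IntegrableOn (dv C f) (Rs O C β) :=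
  (D.int C f _ F.cC (fun a ha => (c a ha).contDiffWithinAt) (F.cpt _ W.cs W.sub)
    (fun k => k.1 rfl) fun a ha k => h a (image_eq_zero_of_notMem_tsupport
      fun e => k ⟨ha, e⟩)).1.mono_set fun _ ha => ha.1

theorem Fam.ints (F : Fam O C θ β ε T) (D : SDV) (W : Wg O α) (ξ : V) :
    IntegrableOn (dv C fun b => us C θ α ξ b • ξ) (Rs O C β) :=
  F.intg D W (fun _ ha => (F.cus W ξ ha).smul contDiffAt_const) fun a e => by simp [us, e]

theorem rSli : R_SLI := by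
  intro D A E L B O C θ β ε T F α ξ W
  have m := B O C θ β ε T F
  rcases eq_or_ne ξ 0 with rfl | h0
  · refine (setIntegral_eq_zero_of_forall_eq_zero fun a ha => ?_).le
    rw [D.slope C _ 0 0 a ((F.cus W 0 ha.1).differentiableAt one_ne_zero) (map_zero _), map_zero,
      mul_zero, mul_zero]
  obtain ⟨lam, hl⟩ : ∃ lam : V →L[ℝ] ℝ, lam ξ = 1 :=
    ⟨⟪ξ, ξ⟫⁻¹ • innerSL ℝ ξ, inv_mul_cancel₀ (inner_self_ne_zero.2 h0)⟩
  have j : ∀ a ∈ Rs O C β, _ := fun a ha => F.jE D W hl ha.1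
  have := A (Em C (us C θ α ξ) ξ lam) _ ε m (fun a ha => F.cE W ξ lam ha.1)
    ((F.ints D W ξ).congr_fun (fun a ha => (j a ha).symm) m) ?_
  · rwa [setIntegral_congr_fun m fun a ha => congrArg (ε * ·) (j a ha)] at this
  filter_upwards [E O C θ β ε T F α ξ lam W hl] with v g
  have key : ∀ P : ℝ → Prop, {a ∈ Rs O C β | Em C (us C θ α ξ) ξ lam a = v ∧
      P (ε * jc (Em C (us C θ α ξ) ξ lam) a)}.encard = ({a ∈ Evt C θ α ξ v (lam v) | Rr C β a ∧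
        P (ε * jc C a * (dv C (fun b => us C θ α ξ b • ξ) a / jc C a))}.ncard : ℕ∞) := fun P => by
    rw [(g.fin.subset (sep_subset _ _)).cast_ncard_eq]
    congr 1
    ext a
    have k : a ≠ 0 → jc C a ≠ 0 → ε * jc C a * (dv C (fun b => us C θ α ξ b • ξ) a / jc C a) =
        ε * jc (Em C (us C θ α ξ) ξ lam) a := fun h1 h2 => by
      rw [F.jE D W hl h1, mul_assoc, mul_div_cancel₀ _ h2]
    refine ⟨fun h => ⟨(mem_evt hl).2 ⟨h.1.1, h.2.1⟩, h.1.2.2.2, ?_⟩, fun h => ?_⟩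
    · rw [k h.1.1 h.1.2.2.1]
      exact h.2.2
    · have j1 := (g.gd a h.1).2.1 a h.1.1 rfl
      exact ⟨⟨h.1.1, W.sub (us_sup (ξ := ξ) (θ := θ) fun e => g.ne (h.1.2.2.symm.trans e)), j1,
        h.2.1⟩, ((mem_evt hl).1 h.1).2, k h.1.1 j1 ▸ h.2.2⟩
  rw [key (0 < ·), key (· < 0)]
  exact Nat.cast_le.2 (L O C θ β ε T F α ξ v _ _ W g)

end Pool.Agent.MP_3ee8cb_gt.D3NP
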