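import Pool.Agent.MP_3ee8cb_gt.D3NP.KSpec
import Pool.Agent.MP_3ee8cb_gt.D3NP.Nul30b

/-! Removal of the cut-off. -/

namespace Pool.Agent.MP_3ee8cb_gt.D3NP

open Set Filter Topology MeasureTheory D3

theorem xCUT : R_CUT := by
  intro dvp nl bor far O C θ β ε T F f χ ψ cf W h1 S
  have mR := bor O C θ β ε T F
  have far := far O C θ β ε T F
  have oU : IsOpen {a : V | a ≠ 0} := isOpen_ne
  have cK := F.cpt _ W.cs W.sub
  have k0 : (0 : V) ∉ {a | a ≠ 0 ∧ C a ∈ tsupport χ} := fun h => h.1 rfl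
  have cg : ContDiffOn ℝ 1 (fun b => χ (C b) • f b) {a | a ≠ 0} :=
    (W.c1.comp_contDiffOn F.cC).smul cf
  have zg : ∀ a, a ≠ 0 → a ∉ {a | a ≠ 0 ∧ C a ∈ tsupport χ} → χ (C a) • f a = 0 := fun a ha h => by
    rw [image_eq_zero_of_notMem_tsupport fun h' => h ⟨ha, h'⟩, zero_smul]
  obtain ⟨iD, zD⟩ := dvp.int C _ _ F.cC cg cK k0 zg
  have cL : ContDiffOn ℝ 1 (fun b : V => Real.log ‖b‖) {a | a ≠ 0} :=
    (contDiffOn_id.norm ℝ fun _ ha => ha).log fun _ ha => norm_ne_zero_iff.2 ha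
  have c2 : ContDiffOn ℝ 1 (fun b => (1 - ψ (Real.log ‖b‖)) • χ (C b) • f b) {a | a ≠ 0} :=
    (contDiffOn_const.sub (S.c1.comp_contDiffOn cL)).smul cg
  have z2 : ∀ a, a ≠ 0 → a ∉ {a | a ≠ 0 ∧ C a ∈ tsupport χ} →
      (1 - ψ (Real.log ‖a‖)) • χ (C a) • f a = 0 := fun a ha h => by rw [zg a ha h, smul_zero]
  have i2 := (dvp.int C _ _ F.cC c2 cK k0 z2).1
  have n2 := nl C _ _ F.cC c2 cK k0 z2
  have dψ := S.c1.differentiable one_ne_zero
  have e2 : EqOn (dv C fun b => (1 - ψ (Real.log ‖b‖)) • χ (C b) • f b)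
      (fun a => (1 - ψ (Real.log ‖a‖)) * dv C (fun b => χ (C b) • f b) a -
        deriv ψ (Real.log ‖a‖) * (‖a‖ ^ 3)⁻¹ * fx C f a) {a | a ≠ 0} := fun a ha => by
    refine (dvp.rad C _ (fun t => 1 - ψ t) a ha
      ((cg.contDiffAt (oU.mem_nhds ha)).differentiableAt one_ne_zero)
      ((dψ _).const_sub 1)).trans ?_
    rw [deriv_const_sub, neg_mul, neg_mul, ← sub_eq_add_neg]
    by_cases hd : deriv ψ (Real.log ‖a‖) = 0
    · simp only [hd, zero_mul]
    have l1 : -T - 1 ≤ Real.log ‖a‖ := not_lt.1 fun h => hd <| by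
      rw [EventuallyEq.deriv_eq (f := fun _ => 0)
        (eventually_of_mem (Iio_mem_nhds h) fun t ht => S.zero t (le_of_lt ht)), deriv_const]
    have l2 : Real.log ‖a‖ ≤ -T := not_lt.1 fun h => hd <| by
      rw [EventuallyEq.deriv_eq (f := fun _ => 1)
        (eventually_of_mem (Ioi_mem_nhds h) fun t ht => S.one t (le_of_lt ht)), deriv_const]
    have := (h1 a ha (abs_le.2 ⟨by linarith, by linarith [F.pos]⟩)).self_of_nhds
    simp only [fx, this, one_smul]
  have p0 : ∀ t, 0 ≤ ψ t := fun t => by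
    rw [← S.zero (min t (-T - 1)) (min_le_right _ _)]
    exact S.mono (min_le_left _ _)
  have p1 : ∀ t, ψ t ≤ 1 := fun t => by
    rw [← S.one (max t (-T)) (le_max_right _ _)]
    exact S.mono (le_max_left _ _)
  have mψ : Measurable fun a : V => ψ (Real.log ‖a‖) :=
    S.c1.continuous.measurable.comp measurable_norm.log
  have i3 : IntegrableOn (fun a => (1 - ψ (Real.log ‖a‖)) * dv C (fun b => χ (C b) • f b) a)
      {a | a ≠ 0} := Integrable.bdd_mul (c := 1) iD
    (measurable_const.sub mψ).aestronglyMeasurable (.of_forall fun a => by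
      rw [Real.norm_of_nonneg (sub_nonneg.2 (p1 _))]
      linarith [p0 (Real.log ‖a‖)])
  have i4 : IntegrableOn (fun a => deriv ψ (Real.log ‖a‖) * (‖a‖ ^ 3)⁻¹ * fx C f a) {a | a ≠ 0} :=
    IntegrableOn.congr_fun (i3.sub i2) (fun a ha => by
      simp only [Pi.sub_apply, e2 ha, sub_sub_cancel]) oU.measurableSet
  rw [setIntegral_congr_fun oU.measurableSet e2, integral_sub i3 i4, sub_eq_zero] at n2
  have sub : Rs O C β ⊆ {a | a ≠ 0} := fun _ h => h.1
  have nz : ∀ᵐ a : V, jc C a ≠ 0 := measure_eq_zero_iff_ae_notMem.1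
    (nul_ray (S := {a | jc C a = 0}) ((ContinuousLinearMap.continuous_det.measurable.comp
      (measurable_fderiv ℝ C)) (measurableSet_singleton 0)) fun p hp =>
        (F.zer p hp).measure_zero _)
  rw [← n2, setIntegral_eq_of_subset_of_ae_sdiff_eq_zero oU.measurableSet.nullMeasurableSet sub
    (nz.mono fun a ha h => ?_)]
  · have i5 := iD.mono_set sub
    have i6 := i3.mono_set sub
    rw [← sub_eq_iff_eq_add, ← integral_sub i5 i6]
    refine setIntegral_congr_fun mR fun a ha => ?_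
    have e : dv C (fun b => χ (C b) • f b) a - (1 - ψ (Real.log ‖a‖)) *
        dv C (fun b => χ (C b) • f b) a = ψ (Real.log ‖a‖) * dv C (fun b => χ (C b) • f b) a := by
      ring
    refine e.trans ?_
    by_cases hp : ψ (Real.log ‖a‖) = 0
    · simp only [hp, zero_mul]
    have l1 : -T - 1 < Real.log ‖a‖ := not_le.1 fun h => hp (S.zero _ h)
    have l2 : Real.log ‖a‖ < T := not_le.1 fun h => (far a ha.1 ha.2.1).2 h ha.2.2.2
    have ev : (fun b => χ (C b) • f b) =ᶠ[𝓝 a] f :=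
      ((F.cC.contDiffAt (oU.mem_nhds ha.1)).continuousAt.eventually
        (h1 a ha.1 (abs_le.2 ⟨by linarith, by linarith⟩))).mono fun b hb => by
          simp only [hb, one_smul]
    simp only [dv, ev.fderiv_eq]
  · by_cases hO : C a ∈ O
    · have l : -T ≤ Real.log ‖a‖ := not_lt.1 fun l => h.2 ⟨h.1, hO, ha, (far a h.1 hO).1 l.le⟩
      rw [S.one _ l, sub_self, zero_mul]
    · rw [zD a h.1 fun hK => hO (W.sub hK.2), mul_zero]

end Pool.Agent.MP_3ee8cb_gt.D3NP
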