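import Pool.Agent.MP_3ee8cb_gt.D3NP.KSpec
import Pool.Agent.MP_3ee8cb_gt.D3MO.Fin
import Pool.Agent.MP_3ee8cb_gt.D3MO.Def
import Pool.Agent.MP_3ee8cb_gt.D3MO.Sph
import Pool.Agent.MP_3ee8cb_gt.D3CT.RGn

/-! The set of minima and merging saddles is closed downwards along rays. -/

namespace Pool.Agent.MP_3ee8cb_gt.D3NP

open Set Filter Topology Metric
open D3MO (S2 Cr Low Ch Sa NF)

namespace XDOWN

variable {P V : Type} [MetricSpace P] [NormedAddCommGroup V] [NormedSpace ℝ V]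

theorem shift {f : V → ℝ} {H : V →L[ℝ] V →L[ℝ] ℝ} (h : Cr f H) (c : ℝ) :
    Cr (fun z => f z - c) H := by
  obtain ⟨D, h1, h2, h3⟩ := h
  exact ⟨D, h1.mono fun z hz => hz.sub_const c, h2, h3⟩

theorem line {f : V → ℝ} {H : V →L[ℝ] V →L[ℝ] ℝ} (h : Cr f H) {v : V} (hv : H v v < 0) :
    ∀ᶠ l in 𝓝[>] (0 : ℝ), f (l • v) < f 0 := by
  obtain ⟨D, h1, h2, h3⟩ := h
  have t : ∀ m : ℝ, HasDerivAt (fun l : ℝ => l • v) v m := fun m => by
    simpa using (hasDerivAt_id m).smul_const v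
  have k0 : HasDerivAt (fun l : ℝ => D (l • v)) (H v) 0 :=
    HasFDerivAt.comp_hasDerivAt (l := D) (f := fun l : ℝ => l • v) 0
      (by simpa using h3) (t 0)
  have k : HasDerivAt (fun l : ℝ => D (l • v) v) (H v v) 0 := by
    simpa using k0.clm_apply (hasDerivAt_const (0 : ℝ) v)
  have e1 : ∀ᶠ l in 𝓝[>] (0 : ℝ), D (l • v) v < 0 := by
    filter_upwards [k.tendsto_slope_zero_right.eventually_lt_const hv, self_mem_nhdsWithin]
      with l hl l0
    simp only [zero_add, zero_smul, h2, zero_apply, sub_zero, smul_eq_mul] at hl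
    exact neg_of_mul_neg_right hl (inv_pos.2 l0).le
  have t0 : Tendsto (fun l : ℝ => l • v) (𝓝 0) (𝓝 0) := by
    simpa using (t 0).continuousAt.tendsto
  obtain ⟨r, r0, hr⟩ := Metric.eventually_nhds_iff.1
    ((t0.eventually h1).and (eventually_nhdsWithin_iff.1 e1))
  filter_upwards [Ioo_mem_nhdsGT r0] with l hl
  have := D3MO.dec (h := fun l : ℝ => f (l • v)) hl.1 fun m hm => by
    have hm' := hr (y := m) (by
      rw [Real.dist_eq, sub_zero, abs_of_nonneg hm.1]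
      exact hm.2.trans_lt hl.2)
    exact ⟨_, HasFDerivAt.comp_hasDerivAt (l := f) (f := fun l : ℝ => l • v) m hm'.1 (t m),
      fun e => hm'.2 e⟩
  simpa using this

theorem core {g g' : P → ℝ} {φ : V → P} {p : P} (hV : Module.finrank ℝ V = 2) (c : Ch φ p)
    (h0 : g p = 0) (h0' : g' p = 0) (sub : ∀ q, g q < 0 → g' q < 0)
    {H H' : V →L[ℝ] V →L[ℝ] ℝ} (hH : Cr (fun z => g (φ z)) H) (hH' : Cr (fun z => g' (φ z)) H')
    (k : (∀ v, v ≠ 0 → 0 < H v v) ∨ ∃ v, H v v < 0)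
    (k' : ((∀ v, v ≠ 0 → 0 < H' v v) ∨ ∀ v, v ≠ 0 → H' v v < 0) ∨
      ∃ v v', 0 < H' v v ∧ H' v' v' < 0)
    (hc : p ∈ closure {q | g q < 0}) (hl : Low {q | g q < 0} p) :
    p ∈ closure {q | g' q < 0} ∧ Low {q | g' q < 0} p := by
  have : FiniteDimensional ℝ V := Module.finite_of_finrank_pos (by omega)
  have hc' : p ∈ closure {q | g' q < 0} := closure_mono sub hc
  refine ⟨hc', ?_⟩
  rcases k' with (k' | k') | ⟨u, u', k1, k2⟩
  · exact absurd hc' (D3MO.not_clos h0' (h0' ▸ (D3MO.sDef P V g' φ p H' c hH').1 k'))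
  · exact (D3MO.low_max hV c h0' (h0' ▸ (D3MO.sDef P V g' φ p H' c hH').2 k')).2
  obtain ⟨v, hv⟩ := k.resolve_left fun k =>
    D3MO.not_clos h0 (h0 ▸ (D3MO.sDef P V g φ p H c hH).1 k) hc
  have hs : Sa fun z => g' (φ z) := ⟨H', u, u', hH', k1, k2⟩
  obtain ⟨T, r1, r0, hn⟩ := hs.nf hV (by rw [c.zero, h0'])
  have c1 := c.comp T
  obtain ⟨r2, r3, hr⟩ := Metric.eventually_nhds_iff_ball.1 c1.cont
  have r4 := lt_min r0 r3
  obtain ⟨-, -, a3⟩ := D3MO.sect (g := g') c1 r4 (fun w hw => hr w (mem_ball_zero_iff.2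
    (hw.trans_le (min_le_right _ _)))) ⟨hn.1, fun w hw => hn.2 w (hw.trans_le (min_le_left _ _))⟩
  refine (D3MO.low2 c1 r4 fun x y hw hq => (a3 x y hw hq).imp And.right And.right).2 ?_
  obtain ⟨U, hU, hj⟩ := hl
  have t : ∀ v : V, Tendsto (fun l : ℝ => l • v) (𝓝[>] 0) (𝓝 0) := fun v => by
    have : Continuous fun l : ℝ => l • v := by fun_prop
    simpa using (this.tendsto 0).mono_left nhdsWithin_le_nhds
  have eU : ∀ᶠ z in 𝓝 (0 : V), φ z ∈ U := c.cont.self_of_nhds.tendsto.eventually (c.zero ▸ hU)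
  have eT : ∀ᶠ z in 𝓝 (0 : V), ‖T.symm z‖ < min r1 r2 :=
    T.symm.continuous.norm.continuousAt.eventually_lt continuousAt_const (by simpa using r4)
  have l1 := line hH hv
  have l2 := line hH (v := -v) (by simpa using hv)
  simp only [c.zero, h0] at l1 l2
  obtain ⟨l, ⟨b1, b2⟩, ⟨b3, b4⟩, b5⟩ := ((l1.and l2).and ((((t v).eventually eU).and
    ((t (-v)).eventually eU)).and ((t v).eventually eT))).exists
  have j := (hj _ ⟨b3, b1⟩ _ ⟨b4, b2⟩).mono (show {q | g q < 0} ⊆ {q | g' q < 0} from sub)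
  rcases hw : T.symm (l • v) with ⟨x, y⟩
  have e1 : T (x, y) = l • v := by rw [← hw, T.apply_symm_apply]
  have e2 : T (-x, -y) = l • -v := by rw [← Prod.neg_mk, map_neg, e1, smul_neg]
  rw [hw] at b5
  have d1 := a3 x y b5 (by rw [e1]; exact sub _ b1)
  have d2 := a3 (-x) (-y) (by rwa [← Prod.neg_mk, norm_neg]) (by rw [e2]; exact sub _ b2)
  rw [e1] at d1
  rw [e2] at d2
  rcases d1 with ⟨y1, j1⟩ | ⟨y1, j1⟩ <;> rcases d2 with ⟨y2, j2⟩ | ⟨y2, j2⟩
  · linarith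
  · exact (j1.symm.trans j).trans j2
  · exact (j2.symm.trans j.symm).trans j1
  · linarith

end XDOWN

theorem xDOWN : SDOWN := by
  intro O C θ β ε T F p s t hp hst hO hj ⟨t0, tO, tj, tR⟩
  have nn : ∀ u : ℝ, ‖Real.exp u • p‖ = Real.exp u := fun u => by
    rw [norm_smul, hp, mul_one, Real.norm_eq_abs, abs_of_pos (Real.exp_pos u)]
  have n0 : ∀ u : ℝ, Real.exp u • p ≠ 0 := fun u =>
    norm_pos_iff.1 ((Real.exp_pos u).trans_eq (nn u).symm)
  have hu : ∀ u : ℝ, D3AR.un (Real.exp u • p) = p := fun u => by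
    rw [D3AR.un, nn, smul_smul, inv_mul_cancel₀ (Real.exp_pos u).ne', one_smul]
  refine ⟨n0 s, hO, hj, fun q hq h => tR q (by rw [hq, hu, hu]) ?_⟩
  rw [hu] at hq
  obtain ⟨ι, φ, G⟩ := D3CT.rowGn D3MO.sGno q
  have hL : ∀ u : ℝ, Ls C β (Real.exp u • p) =
      {x : S2 | β (C (Real.exp u • p), x.1) - u < 0} := fun u => by
    ext x
    simp only [Ls, nn, Real.log_exp, mem_ofPred_eq, sub_neg]
  have z : ∀ u : ℝ, C (Real.exp u • p) ∈ O → β (C (Real.exp u • p), q.1) - u = 0 := fun u h => by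
    have := (F.val _ (n0 u) h).1
    rw [F.hom _ _ _ (Real.exp_pos u), nn, Real.log_exp] at this
    rw [hq, this, sub_self]
  have ne : ∀ a, jc C a ≠ 0 → 0 < ε * jc C a ∨ ε * jc C a < 0 := fun a h =>
    (mul_ne_zero (by rcases F.eps with e | e <;> simp [e]) h).lt_or_gt.symm
  obtain ⟨H, c1, c2, c3⟩ := F.hess _ (n0 s) hO q ι φ (by rw [hu, hq]) G
  obtain ⟨H', d1, d2, d3⟩ := F.hess _ (n0 t) tO q ι φ (by rw [hu, hq]) G
  rw [hL] at h ⊢
  refine XDOWN.core (g := fun x : S2 => β (C (Real.exp s • p), x.1) - s)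
    (g' := fun x : S2 => β (C (Real.exp t • p), x.1) - t) (by simp) G.ch (z s hO) (z t tO)
    (fun x hx => (F.mono p x.1 s t hp (by simp) hst).trans_lt hx) (XDOWN.shift c1 s)
    (XDOWN.shift d1 t) ?_ ((ne _ tj).imp d2 d3) h.1 h.2
  rcases ne _ hj with e | e
  · refine (c2 e).imp id fun k => ?_
    obtain ⟨v, hv⟩ := exists_ne (0 : D3CT.W)
    exact ⟨v, k v hv⟩
  · obtain ⟨-, v, -, k⟩ := c3 e
    exact Or.inr ⟨v, k⟩

end Pool.Agent.MP_3ee8cb_gt.D3NP
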