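import Pool.Agent.MP_3ee8cb_gt.D3NP.KSpec
import Pool.Agent.MP_3ee8cb_gt.D3CT.RGn
import Pool.Agent.MP_3ee8cb_gt.D3MO.Loc
import Pool.Agent.MP_3ee8cb_gt.D3MO.Sph

/-! Far from the front the critical points are the minimum and the maximum. -/

namespace Pool.Agent.MP_3ee8cb_gt.D3NP

open Set Filter Topology D3
open D3MO (S2)
open D3AR (un)

theorem xFAR : SFAR := by
  intro O C θ β ε T F a ha hO
  refine ⟨fun h p _ hp => ?_, fun h hr => ?_⟩
  · obtain ⟨q, hq⟩ := closure_nonempty_iff.1 ⟨p, hp.1⟩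
    exact (F.lo a q ha hO h (by simp)).not_gt hq
  · have hn : 0 < ‖a‖⁻¹ := inv_pos.2 (norm_pos_iff.2 ha)
    let p : S2 := ⟨un a, mem_sphere_zero_iff_norm.2 (norm_smul_inv_norm (𝕜 := ℝ) ha)⟩
    obtain ⟨ι, φ, g⟩ := D3CT.rowGn D3MO.sGno p
    have := D3MO.low_max (g := fun q : S2 => β (C a, q.1) - Real.log ‖a‖) (by simp) g.ch
      (sub_eq_zero.2 ((F.hom _ a _ hn).trans (F.val a ha hO).1))
      (eventually_nhdsWithin_of_forall fun q hq =>
        sub_neg.2 (F.hi a q ha hO h (by simp) fun e => hq (Subtype.ext e)))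
    simp only [sub_neg] at this
    exact hr p rfl this

end Pool.Agent.MP_3ee8cb_gt.D3NP
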