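import Pool.Agent.MP_3ee8cb_gt.D3NP.KSpec
import Pool.Agent.MP_3ee8cb_gt.D3NP.Pos30

/-! The slice inequality for a field of nonnegative forms. -/

namespace Pool.Agent.MP_3ee8cb_gt.D3NP

open Set Filter Topology MeasureTheory D3 Metric
open scoped RealInnerProductSpace

namespace XPOS

variable {O : Set V} {C θ : V → V} {β : V × V → ℝ} {ε T : ℝ}

theorem dif {E : Type} [NormedAddCommGroup E] [NormedSpace ℝ E] {g : V → E}
    (h : ContDiffOn ℝ 1 g {a | a ≠ 0}) {a : V} (ha : a ≠ 0) : DifferentiableAt ℝ g a :=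
  (h.contDiffAt (isOpen_ne.mem_nhds ha)).differentiableAt one_ne_zero

theorem intg (d : DvP) (F : Fam O C θ β ε T) {α : V → ℝ} (w : Wg O α) {g : V → V}
    (cg : ContDiffOn ℝ 1 g {a | a ≠ 0}) (z : ∀ a, α (C a) = 0 → g a = 0) :
    IntegrableOn (fun a => ε * dv C g a) (Rs O C β) := by
  have h := (d.int C g {a | a ≠ 0 ∧ C a ∈ tsupport α} F.cC cg (F.cpt _ w.cs w.sub)
    (fun h => h.1 rfl) (fun a ha hk => z a (image_eq_zero_of_notMem_tsupport
      fun h => hk ⟨ha, h⟩))).1
  exact (h.mono_set fun a ha => ha.1).const_mul ε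

theorem cus (F : Fam O C θ β ε T) {α : V → ℝ} (w : ContDiff ℝ 1 α) (ξ : V) :
    ContDiffOn ℝ 1 (fun b => us C θ α ξ b • ξ) {a | a ≠ 0} :=
  ((w.comp_contDiffOn F.cC).mul (F.cθ.inner ℝ contDiffOn_const)).smul contDiffOn_const

theorem strict (d : DvP) (bor : SBOR) (sl : SSLI) (F : Fam O C θ β ε T)
    {G : V → V →L[ℝ] V} {χ : V → ℝ} (c : ContDiff ℝ 1 G)
    (hs : ∀ z x y, ⟪G z x, y⟫ = ⟪x, G z y⟫) (hp : ∀ z x, x ≠ 0 → 0 < ⟪G z x, x⟫)
    (w : Wg O χ) : ∫ a in Rs O C β, ε * dv C (fun b => χ (C b) • G (C b) (θ b)) a ≤ 0 := by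
  obtain ⟨ι, _, ξ, φ, o, r, h1, h2⟩ :=
    pos_dec c hs (fun z _ => hp z) F.op w.c1 w.nn w.cs w.sub
  have W : ∀ i, Wg O (φ i) := fun i => by
    obtain ⟨a1, a2, a3, a4, a5⟩ := h1 i
    refine ⟨a1, a2, ?_, a4.trans (ball_subset_closedBall.trans
      ((closedBall_subset_closedBall (by linarith)).trans a5))⟩
    exact (isCompact_closedBall (o i) (r i)).of_isClosed_subset (isClosed_tsupport _)
      (a4.trans ball_subset_closedBall)
  have e : (fun b => χ (C b) • G (C b) (θ b)) = fun b => ∑ i, us C θ (φ i) (ξ i) b • ξ i := by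
    funext b
    rw [h2]
    refine Finset.sum_congr rfl fun i _ => ?_
    rw [us, real_inner_comm]
  have m := bor O C θ β ε T F
  have e2 : ∫ a in Rs O C β, ε * dv C (fun b => ∑ i, us C θ (φ i) (ξ i) b • ξ i) a =
      ∫ a in Rs O C β, ∑ i, ε * dv C (fun b => us C θ (φ i) (ξ i) b • ξ i) a := by
    refine setIntegral_congr_fun m fun a ha => ?_
    have := d.sum C ι (fun i b => us C θ (φ i) (ξ i) b • ξ i) a
      fun i => dif (cus F (W i).c1 (ξ i)) ha.1
    simp only [this, Finset.mul_sum]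
  rw [e, e2, integral_finsetSum _ fun i _ => intg d F (W i) (cus F (W i).c1 (ξ i))
    fun a ha => by simp [us, ha]]
  exact Finset.sum_nonpos fun i _ => sl O C θ β ε T F (φ i) (ξ i) (W i)

end XPOS

theorem xPOS : R_POS := by
  intro d bor sl O C θ β ε T F G χ c hs hp w
  have m := bor O C θ β ε T F
  have cχ : ContDiffOn ℝ 1 (fun b => χ (C b)) {a | a ≠ 0} := w.c1.comp_contDiffOn F.cC
  have c1 : ContDiffOn ℝ 1 (fun b => χ (C b) • G (C b) (θ b)) {a | a ≠ 0} :=
    cχ.smul ((c.comp_contDiffOn F.cC).clm_apply F.cθ)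
  have c2 : ContDiffOn ℝ 1 (fun b => χ (C b) • θ b) {a | a ≠ 0} := cχ.smul F.cθ
  have i1 := XPOS.intg d F w c1 fun a ha => by simp [ha]
  have i2 := XPOS.intg d F w c2 fun a ha => by simp [ha]
  have key : ∀ δ : ℝ, 0 < δ →
      (∫ a in Rs O C β, ε * dv C (fun b => χ (C b) • G (C b) (θ b)) a) +
        δ * ∫ a in Rs O C β, ε * dv C (fun b => χ (C b) • θ b) a ≤ 0 := by
    intro δ hδ
    have h := XPOS.strict d bor sl F (G := fun z => G z + δ • ContinuousLinearMap.id ℝ V)
      (c.add contDiff_const) (fun z x y => by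
        simp [inner_add_left, inner_add_right, inner_smul_left, inner_smul_right, hs])
      (fun z x hx => by
        have h1 := hp z x
        have h2 : 0 < ⟪x, x⟫ := real_inner_self_pos.2 hx
        have h3 : ⟪(G z + δ • ContinuousLinearMap.id ℝ V) x, x⟫ = ⟪G z x, x⟫ + δ * ⟪x, x⟫ := by
          rw [add_apply, inner_add_left, smul_apply,
            real_inner_smul_left, ContinuousLinearMap.id_apply]
        rw [h3]
        positivity) w
    have e : (fun b => χ (C b) • (G (C b) + δ • ContinuousLinearMap.id ℝ V) (θ b)) =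
        fun b => χ (C b) • G (C b) (θ b) + δ • (χ (C b) • θ b) := by
      funext b
      rw [add_apply, smul_apply,
        ContinuousLinearMap.id_apply, smul_add, smul_comm]
    rw [e] at h
    rw [← integral_const_mul, ← integral_add i1 (i2.const_mul δ)]
    refine le_of_eq_of_le (setIntegral_congr_fun m fun a ha => ?_) h
    have := d.add C _ _ δ a (XPOS.dif c1 ha.1) (XPOS.dif c2 ha.1)
    simp only [this]
    ring
  set I := ∫ a in Rs O C β, ε * dv C (fun b => χ (C b) • G (C b) (θ b)) a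
  set J := ∫ a in Rs O C β, ε * dv C (fun b => χ (C b) • θ b) a
  by_contra hI
  have hI' : 0 < I := not_le.1 hI
  have hJ : 0 < |J| + 1 := by positivity
  have h := key (I / (|J| + 1)) (by positivity)
  have h2 : I / (|J| + 1) * (|J| + 1) = I := div_mul_cancel₀ _ hJ.ne'
  have h3 : 0 < I / (|J| + 1) := by positivity
  nlinarith [neg_abs_le J]

end Pool.Agent.MP_3ee8cb_gt.D3NP
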