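import Pool.Agent.MP_3ee8cb_gt.D3NP.KSpec
import Pool.Agent.MP_3ee8cb_gt.D3NP.Nul30b

/-! Integration along the rays. -/

namespace Pool.Agent.MP_3ee8cb_gt.D3NP

open Set Filter Topology MeasureTheory D3 Metric
open D3MO (S2)

namespace XRAD

variable {ψ : ℝ → ℝ} {T : ℝ}

theorem dz (h : Stp ψ T) {t : ℝ} (ht : deriv ψ t ≠ 0) : t ∈ Icc (-T - 1) (-T) := by
  by_contra hc
  rw [mem_Icc, not_and_or, not_le, not_le] at hc
  apply ht
  rcases hc with hc | hc
  · have : ψ =ᶠ[𝓝 t] fun _ => 0 := by
      filter_upwards [Iio_mem_nhds hc] with s hs using h.zero s (le_of_lt hs)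
    rw [this.deriv_eq, deriv_const]
  · have : ψ =ᶠ[𝓝 t] fun _ => 1 := by
      filter_upwards [Ioi_mem_nhds hc] with s hs using h.one s (le_of_lt hs)
    rw [this.deriv_eq, deriv_const]

theorem cd (h : Stp ψ T) : Continuous (deriv ψ) := h.c1.continuous_deriv le_rfl

theorem hd (h : Stp ψ T) (t : ℝ) : HasDerivAt ψ (deriv ψ t) t :=
  (h.c1.differentiable one_ne_zero t).hasDerivAt

theorem parts (h : Stp ψ T) {y y' : ℝ → ℝ} (hy : ∀ t, HasDerivAt y (y' t) t) (hc : Continuous y')
    {τ : ℝ} (hτ : -T ≤ τ) :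
    ∫ t, (Ioo (-T - 2) τ).indicator (fun t => ψ t * y' t) t = y τ - ∫ t, deriv ψ t * y t := by
  have hle : -T - 2 ≤ τ := by linarith
  rw [integral_indicator measurableSet_Ioo, ← integral_Ioc_eq_integral_Ioo,
    ← intervalIntegral.integral_of_le hle,
    intervalIntegral.integral_mul_deriv_eq_deriv_mul (fun t _ => hd h t) (fun t _ => hy t)
      ((cd h).intervalIntegrable _ _) (hc.intervalIntegrable _ _), h.one τ hτ,
    h.zero _ (by linarith), intervalIntegral.integral_eq_integral_of_support_subset]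
  · ring
  · intro t ht
    have := dz h (left_ne_zero_of_mul ht)
    exact ⟨by linarith [this.1], this.2.trans hτ⟩

theorem one (h : Stp ψ T) : ∫ t, deriv ψ t = 1 := by
  rw [← intervalIntegral.integral_eq_integral_of_support_subset (a := -T - 2) (b := -T),
    intervalIntegral.integral_eq_sub_of_hasDerivAt (fun t _ => hd h t)
      ((cd h).intervalIntegrable _ _), h.one _ le_rfl, h.zero _ (by linarith), sub_zero]
  intro t ht
  have := dz h ht
  exact ⟨by linarith [this.1], this.2⟩

theorem nrm {p : V} (hp : ‖p‖ = 1) (t : ℝ) : ‖Real.exp t • p‖ = Real.exp t := by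
  rw [norm_smul, hp, mul_one, Real.norm_of_nonneg (Real.exp_pos t).le]

theorem ne0 {p : V} (hp : ‖p‖ = 1) (t : ℝ) : Real.exp t • p ≠ 0 := by
  rw [← norm_ne_zero_iff, nrm hp]
  exact (Real.exp_pos t).ne'

theorem un (p : S2) : ‖p.1‖ = 1 := mem_sphere_zero_iff_norm.1 p.2

/-- The annulus. -/
def An (T : ℝ) : Set V := closedBall 0 (Real.exp (T + 1)) \ ball 0 (Real.exp (-T - 1))

theorem an_c (T : ℝ) : IsCompact (An T) := (isCompact_closedBall _ _).diff isOpen_ball

theorem an_ne {a : V} (ha : a ∈ An T) : a ≠ 0 := fun e =>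
  ha.2 (by rw [e]; exact mem_ball_self (Real.exp_pos _))

theorem an_out {a : V} (h0 : a ≠ 0) (ha : a ∉ An T) :
    Real.log ‖a‖ < -T - 1 ∨ T + 1 < Real.log ‖a‖ := by
  have hp : 0 < ‖a‖ := norm_pos_iff.2 h0
  by_contra hc
  rw [not_or, not_lt, not_lt, Real.le_log_iff_exp_le hp, Real.log_le_iff_le_exp hp] at hc
  exact ha ⟨mem_closedBall_zero_iff.2 hc.2, fun h => absurd (mem_ball_zero_iff.1 h) (not_lt.2 hc.1)⟩

theorem clog : ContinuousOn (fun a : V => Real.log ‖a‖) {a | a ≠ 0} :=
  continuous_norm.continuousOn.log fun _ ha => norm_ne_zero_iff.2 ha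

theorem int1 {R : Set V} {D : V → ℝ} (hT : 0 < T) (mR : MeasurableSet R) (hR : RayP R T)
    (cD : ContinuousOn D {a | a ≠ 0}) (h : Stp ψ T) :
    IntegrableOn (fun a => ψ (Real.log ‖a‖) * D a) R := by
  have h1 : IntegrableOn (fun a => ψ (Real.log ‖a‖) * D a) (An T) :=
    (((h.c1.continuous.comp_continuousOn clog).mul cD).mono fun _ => an_ne).integrableOn_compact
      (an_c T)
  have hn : volume (R ∩ {a : V | T + 1 < Real.log ‖a‖}) = 0 := by
    refine nul_ray (mR.inter (measurableSet_lt measurable_const measurable_norm.log)) fun p hp => ?_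
    obtain ⟨τ, hτ, hae⟩ := hR p hp
    refine measure_mono_null (fun t ht => ?_) (ae_iff.1 hae)
    intro hc
    have h2 : T + 1 < Real.log ‖Real.exp t • p‖ := ht.2
    rw [nrm hp, Real.log_exp] at h2
    have := (hc (by linarith)).1 ht.1
    linarith [hτ.2]
  refine (h1.mono_set (inter_subset_right (s := R))).of_ae_sdiff_eq_zero mR.nullMeasurableSet ?_
  filter_upwards [compl_mem_ae_iff.2 hn, compl_mem_ae_iff.2 (measure_singleton (0 : V))]
    with a h2 h3 ha
  rcases an_out (T := T) h3 fun hc => ha.2 ⟨ha.1, hc⟩ with h4 | h4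
  · rw [h.zero _ h4.le, zero_mul]
  · exact absurd ⟨ha.1, h4⟩ h2

theorem int2 {Fl : V → ℝ} (hT : 0 < T) (cF : ContinuousOn Fl {a | a ≠ 0}) (h : Stp ψ T) :
    IntegrableOn (fun a => deriv ψ (Real.log ‖a‖) * (‖a‖ ^ 3)⁻¹ * Fl a) {a | a ≠ 0} := by
  have h0 : ContinuousOn (fun a : V => (‖a‖ ^ 3)⁻¹) {a | a ≠ 0} :=
    (continuous_norm.pow 3).continuousOn.inv₀ fun _ ha => pow_ne_zero _ (norm_ne_zero_iff.2 ha)
  have h1 : IntegrableOn (fun a => deriv ψ (Real.log ‖a‖) * (‖a‖ ^ 3)⁻¹ * Fl a) (An T) :=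
    (((((cd h).comp_continuousOn clog).mul h0).mul cF).mono fun _ => an_ne).integrableOn_compact
      (an_c T)
  refine h1.of_forall_sdiff_eq_zero isOpen_ne.measurableSet fun a ha => ?_
  have : deriv ψ (Real.log ‖a‖) = 0 := by
    by_contra hc
    have h2 := dz h hc
    rcases an_out (T := T) ha.1 ha.2 with h4 | h4 <;> linarith [h2.1, h2.2]
  rw [this, zero_mul, zero_mul]

theorem int3 (h : Stp ψ T) {u : S2 × ℝ → ℝ} (hu : Continuous u) :
    Integrable (fun x : S2 × ℝ => deriv ψ x.2 * u x) ((volume : Measure V).toSphere.prod volume) := by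
  refine (((cd h).comp continuous_snd).mul hu).integrable_of_hasCompactSupport
    (HasCompactSupport.intro (isCompact_univ.prod (isCompact_Icc (a := -T - 1) (b := -T)))
      fun x hx => ?_)
  by_contra hc
  exact hx ⟨trivial, dz h (left_ne_zero_of_mul hc)⟩

end XRAD

open XRAD in
theorem xRAD : R_RAD := by
  intro P R D Fl g y ψ T c hT mR hR cD cF cy cg h hy hg hc hle
  have cray : Continuous fun x : S2 × ℝ => Real.exp x.2 • x.1.1 := by fun_prop
  have c1 : Continuous fun x : S2 × ℝ => y x.1 x.2 :=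
    cy.comp_continuous (f := fun x : S2 × ℝ => (x.1.1, x.2)) (by fun_prop) fun x => un x.1
  have c2 : Continuous fun x : S2 × ℝ => Fl (Real.exp x.2 • x.1.1) :=
    cF.comp_continuous cray fun x => ne0 (un x.1) x.2
  have i1 := int3 h c1
  have i2 := int3 h c2
  obtain ⟨j1, e1⟩ := P _ ((integrable_indicator_iff mR).2 (int1 hT mR hR cD h))
  obtain ⟨-, e2⟩ := P _ ((integrable_indicator_iff isOpen_ne.measurableSet).2 (int2 hT cF h))
  rw [integral_indicator mR, integral_prod _ j1] at e1
  rw [integral_indicator isOpen_ne.measurableSet] at e2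
  have e3 : ∫ a in {a : V | a ≠ 0}, deriv ψ (Real.log ‖a‖) * (‖a‖ ^ 3)⁻¹ * Fl a =
      ∫ x : S2 × ℝ, deriv ψ x.2 * Fl (Real.exp x.2 • x.1.1)
        ∂((volume : Measure V).toSphere.prod volume) := by
    refine e2.trans (integral_congr_ae (.of_forall fun x => ?_))
    have h0 : Real.exp x.2 • x.1.1 ∈ {a : V | a ≠ 0} := ne0 (un x.1) x.2
    have h1 : Real.exp (3 * x.2) = Real.exp x.2 ^ 3 := by
      rw [← Real.exp_nat_mul]; norm_num
    have h2 := (Real.exp_pos x.2).ne'
    simp only [indicator_of_mem h0, nrm (un x.1), Real.log_exp, h1]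
    field_simp
  have key : ∀ p : S2, g p ≤ (∫ t : ℝ, Real.exp (3 * t) *
      R.indicator (fun a => ψ (Real.log ‖a‖) * D a) (Real.exp t • p.1)) +
        ∫ t : ℝ, deriv ψ t * y p t := by
    intro p
    obtain ⟨τ, hτ, hae⟩ := hR p (un p)
    have cc : Continuous fun t : ℝ => Real.exp (3 * t) * D (Real.exp t • p.1) :=
      (by fun_prop : Continuous fun t : ℝ => Real.exp (3 * t)).mul
        (cD.comp_continuous (by fun_prop) fun t => ne0 (un p) t)
    have h1 := parts h (fun t => hy p t (un p)) cc hτ.1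
    have h2 : ∫ t : ℝ, Real.exp (3 * t) *
        R.indicator (fun a => ψ (Real.log ‖a‖) * D a) (Real.exp t • p.1) =
        ∫ t, (Ioo (-T - 2) τ).indicator
          (fun t => ψ t * (Real.exp (3 * t) * D (Real.exp t • p.1))) t := by
      refine integral_congr_ae ?_
      filter_upwards [hae] with t ht
      by_cases h3 : -T - 1 ≤ t
      · by_cases h4 : t < τ
        · rw [indicator_of_mem ((ht h3).2 h4), indicator_of_mem (mem_Ioo.2 ⟨by linarith, h4⟩),
            nrm (un p), Real.log_exp]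
          ring
        · rw [indicator_of_notMem (mt (ht h3).1 h4), indicator_of_notMem fun h5 => h4 h5.2,
            mul_zero]
      · have h5 := h.zero t (not_le.1 h3).le
        simp only [indicator, nrm (un p), Real.log_exp, h5, zero_mul, ite_self, mul_zero]
    have h3 := hg p τ (un p) (abs_le.2 hτ)
    rw [h2, h1]
    linarith
  have ig : Integrable (fun p : S2 => g p) (volume : Measure V).toSphere :=
    (cg.comp_continuous continuous_subtype_val un).integrable_of_hasCompactSupport
      (.of_compactSpace _)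
  have h1 := integral_mono ig (j1.integral_prod_left.add i1.integral_prod_left) key
  simp only [Pi.add_apply] at h1
  rw [integral_add j1.integral_prod_left i1.integral_prod_left, ← e1, ← integral_prod _ i1] at h1
  have i3 := int3 h (u := fun x => y x.1 x.2 - Fl (Real.exp x.2 • x.1.1)) (c1.sub c2)
  have h2 := integral_prod_symm _ i3
  simp only [integral_const_mul] at h2
  have h3 : ∫ t : ℝ, deriv ψ t * ∫ p : S2, (y p t - Fl (Real.exp t • p.1))
      ∂(volume : Measure V).toSphere ≤ ∫ t : ℝ, deriv ψ t * c := by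
    have i4 := i3.integral_prod_right
    simp only [integral_const_mul] at i4
    refine integral_mono i4 ?_ fun t => mul_le_mul_of_nonneg_left (hc t) h.mono.deriv_nonneg
    refine ((cd h).integrable_of_hasCompactSupport
      (HasCompactSupport.intro (isCompact_Icc (a := -T - 1) (b := -T)) fun t ht => ?_)).mul_const c
    by_contra h4
    exact ht (dz h h4)
  rw [integral_mul_const, one h, one_mul, ← h2] at h3
  simp only [mul_sub] at h3
  rw [integral_sub i1 i2, ← e3] at h3
  unfold sph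
  linarith

end Pool.Agent.MP_3ee8cb_gt.D3NP
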