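import Pool.Agent.MP_3ee8cb_gt.D3NP.KSpec

/-! The trace on every ray is an interval. -/

namespace Pool.Agent.MP_3ee8cb_gt.D3NP

open Set Filter Topology MeasureTheory D3

theorem xRAY : R_RAY := by
  intro hD hF O C θ β ε T F p hp
  have hT := F.pos
  have h0 : ∀ t : ℝ, Real.exp t • p ≠ 0 := fun t =>
    smul_ne_zero (Real.exp_ne_zero t) (norm_pos_iff.1 (hp ▸ one_pos))
  have hl : ∀ t : ℝ, Real.log ‖Real.exp t • p‖ = t := fun t => by
    rw [norm_smul, hp, mul_one, Real.norm_of_nonneg (Real.exp_pos t).le, Real.log_exp]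
  set S : Set ℝ := insert (-T) {t | t ≤ T ∧ Real.exp t • p ∈ Rs O C β} with hS
  have hb : T ∈ upperBounds S := by
    rintro t (rfl | h)
    · linarith
    · exact h.1
  have h1 : -T ≤ sSup S := le_csSup ⟨T, hb⟩ (mem_insert _ _)
  have h2 : sSup S ≤ T := csSup_le (insert_nonempty _ _) hb
  refine ⟨sSup S, ⟨h1, h2⟩, ?_⟩
  have hz := ((F.zer p hp).insert (sSup S)).countable.ae_notMem (volume : Measure ℝ)
  filter_upwards [hz] with t ht h3
  rw [mem_insert_iff, not_or] at ht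
  refine ⟨fun h => lt_of_le_of_ne (le_csSup ⟨T, hb⟩ (Or.inr ⟨?_, h⟩)) ht.1, fun h => ?_⟩
  · by_contra h4
    exact (hF O C θ β ε T F _ (h0 t) h.2.1).2 (by rw [hl]; linarith) h.2.2.2
  · have hO := F.mid _ (h0 t) (by rw [hl, abs_le]; constructor <;> linarith)
    obtain ⟨s, rfl | hs, h4⟩ := exists_lt_of_lt_csSup (insert_nonempty _ _) h
    · exact ⟨h0 t, hO, ht.2, (hF O C θ β ε T F _ (h0 t) hO).1 (by rw [hl]; exact h4.le)⟩
    · exact hD O C θ β ε T F p t s hp h4.le hO ht.2 hs.2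

end Pool.Agent.MP_3ee8cb_gt.D3NP
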