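import Pool.Agent.MP_3ee8cb_gt.D3NP.RARE
import Pool.Agent.MP_3ee8cb_gt.D3NP.REVT
import Pool.Agent.MP_3ee8cb_gt.D3NP.RGOOD
import Pool.Agent.MP_3ee8cb_gt.D3NP.RSLI
import Pool.Agent.MP_3ee8cb_gt.D3NP.XBOR
import Pool.Agent.MP_3ee8cb_gt.D3NP.XCUT
import Pool.Agent.MP_3ee8cb_gt.D3NP.XDOWN
import Pool.Agent.MP_3ee8cb_gt.D3NP.XDV
import Pool.Agent.MP_3ee8cb_gt.D3NP.XFAR
import Pool.Agent.MP_3ee8cb_gt.D3NP.XLINE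
import Pool.Agent.MP_3ee8cb_gt.D3NP.XNL2
import Pool.Agent.MP_3ee8cb_gt.D3NP.XPOLR
import Pool.Agent.MP_3ee8cb_gt.D3NP.XPOS
import Pool.Agent.MP_3ee8cb_gt.D3NP.XRAD
import Pool.Agent.MP_3ee8cb_gt.D3NP.XRAY

/-! The abstract rows together. -/

namespace Pool.Agent.MP_3ee8cb_gt.D3NP

theorem kSLI : SSLI := rSli xDV sAre (rEvt xDV sGood) xLINE xBOR

theorem kPOS : SPOS := xPOS xDV xBOR kSLI

theorem kRAY : SRAY := xRAY xDOWN xFAR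

theorem kCUT : SCUT := xCUT xDV (xNL2 xDV) xBOR xFAR

theorem kRAD : SRAD := xRAD xPOLR

end Pool.Agent.MP_3ee8cb_gt.D3NP
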