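import Pool.Agent.MP_3ee8cb_gt.D3AR.RDBL

/-! Two regular branches with equal values and different gradients meet over a null set. -/

namespace Pool.Agent.MP_3ee8cb_gt.D3NP

open D3 Set MeasureTheory Metric Filter Topology

theorem nul_br {Ψ : V → V} {u : V → ℝ} {a : V} (c : ContDiffAt ℝ 1 Ψ a) (cu : ContDiffAt ℝ 1 u a)
    (hd : (fderiv ℝ Ψ a).det ≠ 0) : ∃ G : V → ℝ, ContDiffAt ℝ 1 G (Ψ a) ∧
      (∀ᶠ x in 𝓝 a, G (Ψ x) = u x) ∧ ∀ v, fderiv ℝ G (Ψ a) (fderiv ℝ Ψ a v) = fderiv ℝ u a v := by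
  let D := ContinuousLinearMap.toContinuousLinearEquivOfDetNeZero _ hd
  have d1 : HasFDerivAt Ψ (D : V →L[ℝ] V) a := (c.differentiableAt one_ne_zero).hasFDerivAt
  have c2 := c.to_localInverse d1 one_ne_zero
  have l2 := (c.hasStrictFDerivAt' d1 one_ne_zero).eventually_left_inverse
  change ∀ᶠ x in 𝓝 a, c.localInverse d1 one_ne_zero _ = x at l2
  generalize c.localInverse d1 one_ne_zero = g at c2 l2
  have c3 : ContDiffAt ℝ 1 (fun y => u (g y)) (Ψ a) :=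
    ContDiffAt.comp (g := u) _ (by rw [l2.self_of_nhds]; exact cu) c2
  have e : ∀ᶠ x in 𝓝 a, u (g (Ψ x)) = u x := l2.mono fun x hx => by rw [hx]
  refine ⟨_, c3, e, fun v => ?_⟩
  have d3 := ((c3.differentiableAt one_ne_zero).hasFDerivAt.comp a
    (c.differentiableAt one_ne_zero).hasFDerivAt).congr_of_eventuallyEq (f₁ := u)
      (e.mono fun x hx => hx.symm)
  rw [d3.fderiv]
  rfl

/-- The points over which two regular branches have equal values and different gradients. -/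
theorem nul {Ψ : V → V} {u : V → ℝ} {U : Set V} (c : ∀ a ∈ U, ContDiffAt ℝ 1 Ψ a)
    (cu : ∀ a ∈ U, ContDiffAt ℝ 1 u a) :
    volume {z | ∃ a ∈ U, ∃ b ∈ U, Ψ a = z ∧ Ψ b = z ∧ (fderiv ℝ Ψ a).det ≠ 0 ∧
      (fderiv ℝ Ψ b).det ≠ 0 ∧ u a = u b ∧ ∃ v w, fderiv ℝ Ψ a v = fderiv ℝ Ψ b w ∧
        fderiv ℝ u a v ≠ fderiv ℝ u b w} = 0 := by
  let P : Set (V × V) := {p | p.1 ∈ U ∧ p.2 ∈ U ∧ Ψ p.2 = Ψ p.1 ∧ (fderiv ℝ Ψ p.1).det ≠ 0 ∧
    (fderiv ℝ Ψ p.2).det ≠ 0 ∧ u p.1 = u p.2 ∧ ∃ v w, fderiv ℝ Ψ p.1 v = fderiv ℝ Ψ p.2 w ∧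
      fderiv ℝ u p.1 v ≠ fderiv ℝ u p.2 w}
  have h1 : ∀ p ∈ P, ∃ t ∈ 𝓝 p,
      volume ((fun q : V × V => Ψ q.1) '' {q ∈ t | Ψ q.2 = Ψ q.1 ∧ u q.1 = u q.2}) = 0 := by
    rintro ⟨a, b⟩ ⟨k1, k2, k3, k4, k5, -, v, w, k7, k8⟩
    obtain ⟨G, g1, g2, g3⟩ := nul_br (c a k1) (cu a k1) k4
    obtain ⟨H, h1, h2, h3⟩ := nul_br (c b k2) (cu b k2) k5
    dsimp only at k3 k7 k8
    rw [k3] at h1 h3
    have c1 : ContDiffAt ℝ 1 (fun y => G y - H y) (Ψ a) := g1.sub h1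
    have c2 : fderiv ℝ (fun y => G y - H y) (Ψ a) ≠ 0 := fun h0 => by
      have d2 := ((g1.differentiableAt one_ne_zero).hasFDerivAt.sub
        (h1.differentiableAt one_ne_zero).hasFDerivAt).fderiv
      change fderiv ℝ (fun y => G y - H y) (Ψ a) = _ at d2
      rw [h0] at d2
      have := congrArg (fun L : V →L[ℝ] ℝ => L (fderiv ℝ Ψ a v)) d2
      simp only [zero_apply, sub_apply, g3] at this
      rw [k7, h3] at this
      exact k8 (sub_eq_zero.1 this.symm)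
    have c3 := (c a k1).continuousAt.eventually ((c1.eventually (by simp)).and
      ((c1.continuousAt_fderiv one_ne_zero).eventually_ne c2))
    refine ⟨_, prod_mem_nhds (c3.and g2) h2, D3AR.dbl_null (H := fun y => G y - H y) ?_ ?_⟩
    · rintro _ ⟨p, ⟨⟨j1, j2⟩, j3, j4⟩, rfl⟩
      have j5 : H (Ψ p.2) = u p.2 := j2
      change G (Ψ p.1) - H (Ψ p.1) = 0
      rw [j1.2, ← j3, j5, j4, sub_self]
    · rintro _ ⟨p, ⟨⟨j1, -⟩, -⟩, rfl⟩
      exact ⟨j1.1.1.differentiableAt one_ne_zero, j1.1.2⟩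
  choose! t ht using h1
  obtain ⟨s, s1, s2, s3⟩ := TopologicalSpace.countable_cover_nhdsWithin (f := t) (s := P)
    fun p hp => mem_nhdsWithin_of_mem_nhds (ht p hp).1
  refine measure_mono_null ?_ ((measure_biUnion_null_iff s2).2 fun p hp => (ht p (s1 hp)).2)
  rintro _ ⟨a, k1, b, k2, rfl, k3, k4, k5, k6, k7⟩
  obtain ⟨p, hp, hq⟩ := mem_iUnion₂.1 (s3 (⟨k1, k2, k3, k4, k5, k6, k7⟩ : (a, b) ∈ P))
  exact mem_iUnion₂.2 ⟨p, hp, (a, b), ⟨hq, k3, k6⟩, rfl⟩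

/-- Critical values are null. -/
theorem nul_crit {Ψ : V → V} {U : Set V} (c : ∀ a ∈ U, DifferentiableAt ℝ Ψ a) :
    volume {z | ∃ a ∈ U, Ψ a = z ∧ (fderiv ℝ Ψ a).det = 0} = 0 := by
  refine measure_mono_null ?_ (addHaar_image_eq_zero_of_det_fderivWithin_eq_zero volume
    (s := {a ∈ U | (fderiv ℝ Ψ a).det = 0}) (f := Ψ) (f' := fderiv ℝ Ψ)
    (fun x hx => (c x hx.1).hasFDerivAt.hasFDerivWithinAt) fun x hx => hx.2)
  rintro _ ⟨a, k1, rfl, k2⟩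
  exact ⟨a, ⟨k1, k2⟩, rfl⟩

/-- The regular part of the preimage of a null set is null. -/
theorem nul_pre {Ψ : V → V} {U Z : Set V} (c : ∀ a ∈ U, ContDiffAt ℝ 1 Ψ a) (hZ : volume Z = 0) :
    volume {a ∈ U | (fderiv ℝ Ψ a).det ≠ 0 ∧ Ψ a ∈ Z} = 0 := by
  have h1 : ∀ a ∈ {a ∈ U | (fderiv ℝ Ψ a).det ≠ 0}, ∃ t ∈ 𝓝 a, volume (t ∩ Ψ ⁻¹' Z) = 0 := by
    intro a ha
    let D := ContinuousLinearMap.toContinuousLinearEquivOfDetNeZero _ ha.2
    have d1 : HasFDerivAt Ψ (D : V →L[ℝ] V) a :=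
      ((c a ha.1).differentiableAt one_ne_zero).hasFDerivAt
    have c2 := (c a ha.1).to_localInverse d1 one_ne_zero
    have l2 := ((c a ha.1).hasStrictFDerivAt' d1 one_ne_zero).eventually_left_inverse
    change ∀ᶠ x in 𝓝 a, (c a ha.1).localInverse d1 one_ne_zero _ = x at l2
    generalize (c a ha.1).localInverse d1 one_ne_zero = g at c2 l2
    have c3 := c2.eventually (by simp)
    refine ⟨_, l2.and ((c a ha.1).continuousAt.eventually c3), measure_mono_null ?_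
      (addHaar_image_eq_zero_of_differentiableOn_of_addHaar_eq_zero volume (f := g)
        (s := Z ∩ {y | ContDiffAt ℝ 1 g y})
        (fun y hy => ((show ContDiffAt ℝ 1 g y from hy.2).differentiableAt
          one_ne_zero).differentiableWithinAt)
        (measure_mono_null inter_subset_left hZ))⟩
    rintro x ⟨x1, x2⟩
    exact ⟨Ψ x, ⟨x2, x1.2⟩, x1.1⟩
  choose! t ht using h1
  obtain ⟨s, s1, s2, s3⟩ := TopologicalSpace.countable_cover_nhdsWithin (f := t)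
    (s := {a ∈ U | (fderiv ℝ Ψ a).det ≠ 0}) fun p hp => mem_nhdsWithin_of_mem_nhds (ht p hp).1
  refine measure_mono_null ?_ ((measure_biUnion_null_iff s2).2 fun p hp => (ht p (s1 hp)).2)
  rintro a ⟨k1, k2, k3⟩
  obtain ⟨p, hp, hq⟩ := mem_iUnion₂.1 (s3 ⟨k1, k2⟩)
  exact mem_iUnion₂.2 ⟨p, hp, hq, k3⟩

end Pool.Agent.MP_3ee8cb_gt.D3NP
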