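import Pool.Agent.MP_3ee8cb_gt.D3AR.RSAF

/-! The signed area formula as an inequality. -/

namespace Pool.Agent.MP_3ee8cb_gt.D3NP

open D3 Set MeasureTheory Metric Filter Topology
open scoped ENNReal

theorem sgn_area {E : V → V} {Z : Set V} {ε : ℝ} (hε : |ε| = 1) (mZ : MeasurableSet Z)
    (c : ∀ a ∈ Z, ContDiffAt ℝ 1 E a) (hi : IntegrableOn (fun a => (fderiv ℝ E a).det) Z)
    (h : ∀ᵐ y : V, {a ∈ Z | E a = y ∧ 0 < ε * (fderiv ℝ E a).det}.encard ≤
      {a ∈ Z | E a = y ∧ ε * (fderiv ℝ E a).det < 0}.encard) :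
    ∫ a in Z, ε * (fderiv ℝ E a).det ≤ 0 := by
  have md : Measurable fun a => (fderiv ℝ E a).det :=
    ContinuousLinearMap.continuous_det.measurable.comp (measurable_fderiv ℝ E)
  have key : ∀ δ : ℝ, |δ| = 1 → ∃ N : V → ℝ≥0∞,
      (∀ y, N y = ({a ∈ Z | E a = y ∧ 0 < δ * (fderiv ℝ E a).det}.encard : ℝ≥0∞)) ∧
      ∫⁻ a in Z, ENNReal.ofReal (δ * (fderiv ℝ E a).det) = ∫⁻ y, N y := by
    intro δ hδ
    have ms : MeasurableSet {a | 0 < δ * (fderiv ℝ E a).det} :=
      measurableSet_lt measurable_const (md.const_mul δ)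
    obtain ⟨N, -, n2, n3⟩ := D3AR.saf V volume E (fderiv ℝ E)
      ({a | 0 < δ * (fderiv ℝ E a).det} ∩ Z) (ms.inter mZ) fun x hx =>
        ⟨(c x hx.2).hasStrictFDerivAt one_ne_zero, fun e => by simpa [e] using hx.1⟩
    refine ⟨N, fun y => ?_, ?_⟩
    · rw [n2]
      congr 2
      ext a
      simp only [mem_inter_iff, mem_ofPred_eq, mem_preimage, mem_singleton_iff]
      tauto
    · have := n3 1 measurable_one
      simp only [Pi.one_apply, mul_one] at this
      rw [← this, ← Measure.restrict_restrict ms, ← lintegral_indicator ms]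
      refine lintegral_congr fun a => ?_
      by_cases e : 0 < δ * (fderiv ℝ E a).det
      · rw [indicator_of_mem (show a ∈ {a | 0 < δ * (fderiv ℝ E a).det} from e),
          ← abs_of_pos e, abs_mul, hδ, one_mul]
      · rw [indicator_of_notMem (show a ∉ {a | 0 < δ * (fderiv ℝ E a).det} from e),
          ENNReal.ofReal_of_nonpos (not_lt.1 e)]
  obtain ⟨N, n1, n2⟩ := key ε hε
  obtain ⟨M, m1, m2⟩ := key (-ε) (by rwa [abs_neg])
  have hf : IntegrableOn (fun a => ε * (fderiv ℝ E a).det) Z := hi.const_mul ε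
  rw [integral_eq_lintegral_pos_part_sub_lintegral_neg_part hf, sub_nonpos]
  simp only [neg_mul] at m1 m2
  refine ENNReal.toReal_mono ?_ ?_
  · exact (lt_of_le_of_lt (lintegral_mono fun a => Real.ofReal_le_enorm _) hf.neg.2).ne
  · rw [n2, m2]
    refine lintegral_mono_ae (h.mono fun y hy => ?_)
    rw [n1, m1]
    simp only [neg_pos]
    exact ENat.toENNReal_le.2 hy

end Pool.Agent.MP_3ee8cb_gt.D3NP
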