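import Pool.Agent.MP_3ee8cb_gt.D3NP.KSpec
import Pool.Agent.MP_3ee8cb_gt.D3NP.Sli30

/-! The area formula with signs. -/

namespace Pool.Agent.MP_3ee8cb_gt.D3NP

open D3 Set MeasureTheory

theorem sAre : SARE := by
  intro E s ε ms c hi h
  rcases eq_or_ne ε 0 with rfl | e
  · simp
  have p : 0 < |ε| := abs_pos.2 e
  have k : ∀ x : ℝ, ε * x = |ε| * (ε / |ε| * x) := fun x => by field_simp
  have k1 : ∀ x : ℝ, 0 < ε / |ε| * x ↔ 0 < ε * x := fun x => by
    rw [k x, mul_pos_iff_of_pos_left p]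
  have k2 : ∀ x : ℝ, ε / |ε| * x < 0 ↔ ε * x < 0 := fun x => by
    rw [← neg_pos, ← mul_neg, k1, mul_neg, neg_pos]
  have := sgn_area (E := E) (Z := s) (ε := ε / |ε|) (by rw [abs_div, abs_abs, div_self p.ne'])
    ms c hi (h.mono fun y hy => by simpa only [k1, k2, jc] using hy)
  calc ∫ a in s, ε * jc E a = ∫ a in s, |ε| * (ε / |ε| * jc E a) := by simp only [← k]
    _ ≤ 0 := by
      rw [integral_const_mul]
      exact mul_nonpos_of_nonneg_of_nonpos p.le this

end Pool.Agent.MP_3ee8cb_gt.D3NP
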