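import Pool.Agent.MP_3ee8cb_gt.D3NP.Spec
import Pool.Agent.MP_3ee8cb_gt.D3SI.Int

/-! Averaging with a lower bound for orbit integrals. -/

namespace Pool.Agent.MP_3ee8cb_gt.D3NP

open Set MeasureTheory Function Metric Filter Topology D3 D3.SI

theorem int2_flow {X : Type} [MeasurableSpace X] (ν : Measure X) [IsFiniteMeasure ν]
    (Z : ℝ → X → X) (hZ : Measurable fun p : ℝ × X => Z p.1 p.2) (H : X → ℝ)
    (mH : Measurable H) (C K : ℝ) (bH : ∀ x, |H x| ≤ C)
    (iH : ∀ t, ∫ x, H (Z t x) ∂ν = ∫ x, H x ∂ν)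
    (le : ∀ x S, 0 ≤ S → -K ≤ ∫ t in (0 : ℝ)..S, H (Z t x)) : 0 ≤ ∫ x, H x ∂ν := by
  have k : ∀ S, 0 ≤ S → -K * ν.real univ ≤ S * ∫ x, H x ∂ν := fun S hS => by
    have : IsFiniteMeasure (volume.restrict (Ioc (0 : ℝ) S)) :=
      isFiniteMeasure_restrict.2 measure_Ioc_lt_top.ne
    have j2 : Integrable (uncurry fun x t => H (Z t x)) (ν.prod (volume.restrict (Ioc 0 S))) :=
      .of_bound (mH.comp (hZ.comp measurable_swap)).aestronglyMeasurable C
        (.of_forall fun _ => bH _)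
    have k := integral_mono (integrable_const (-K)) j2.integral_prod_left fun x => by
      have := le x S hS
      rw [intervalIntegral.integral_of_le hS] at this
      exact this
    have k2 := integral_integral_swap j2
    simp only [iH, integral_const, MeasurableSet.univ, measureReal_restrict_apply, univ_inter,
      Real.volume_real_Ioc_of_le hS, sub_zero, smul_eq_mul] at k2 k
    rw [mul_comm]
    exact k.trans_eq k2
  refine not_lt.1 fun h => ?_
  have := k ((|K * ν.real univ| + 1) / -∫ x, H x ∂ν) (div_nonneg (by positivity) (by linarith))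
  rw [div_neg, neg_mul, neg_mul, div_mul_cancel₀ _ h.ne] at this
  linarith [le_abs_self (K * ν.real univ)]

theorem int2_line {m : MF} (j : m.Jac) {H : V × V → ℝ} {K : ℝ}
    (hd : ∀ z : V × V, ‖z.2‖ = 1 → ∀ S, 0 ≤ S → -K ≤ ∫ t in (0 : ℝ)..S, H (m.Z t z))
    (z : V × V) (S : ℝ) (hS : 0 ≤ S) :
    -max K 0 ≤ ∫ t in (0 : ℝ)..S, ‖(m.Z t z).2‖ * ex H (m.Z t z) := by
  by_cases hz : z ∈ B
  · simp only [ex_fl j _ hz, j.norm, intervalIntegral.integral_const_mul]
    rw [← smul_eq_mul, intervalIntegral.smul_integral_comp_mul_left (fun u => H (m.Z u (nr z))),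
      mul_zero]
    exact (neg_le_neg (le_max_left _ _)).trans (hd _ (nr_unit hz.1) _ (by positivity))
  · have e : ∀ t, ex H (m.Z t z) = 0 := fun t =>
      indicator_of_notMem (mt (B_iff (j.norm t z)).1 hz) _
    simp only [e, mul_zero, intervalIntegral.integral_zero, neg_nonpos, le_max_right]

theorem sINT2' : SINT2 := by
  intro m Γ _ _ O G q K h j A fd cG cq inv hd hG z hz
  obtain ⟨_, fd⟩ := fd
  obtain ⟨D, mD, bD, nD, cov, un⟩ := fd z.1
  have mD' : MeasurableSet (D ×ˢ (univ : Set V)) := mD.prod .univ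
  have el : (mu m).restrict (D ×ˢ univ) = ((nu m).prod volume).restrict (D ×ˢ ball 0 1) := by
    rw [mu, Measure.restrict_restrict mD', prod_inter_prod, inter_univ, univ_inter]
  have fin : IsFiniteMeasure ((nu m).restrict D) := by
    refine isFiniteMeasure_restrict.2 (ne_of_lt ?_)
    have : IsLocallyFiniteMeasure (nu m) := .withDensity_ofReal (cdet h)
    exact bD.measure_lt_top
  have fb : IsFiniteMeasure ((volume : Measure V).restrict (ball 0 1)) :=
    isFiniteMeasure_restrict.2 measure_ball_lt_top.ne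
  have fl' : IsFiniteMeasure ((mu m).restrict (D ×ˢ univ)) := by
    rw [el, ← Measure.prod_restrict]
    infer_instance
  have av : ∀ (u : V × V → ℝ), (∀ γ z, u (ac O γ z) = u z) → ∀ t,
      ∫ x in D ×ˢ univ, u (m.Z t x) ∂mu m = ∫ x in D ×ˢ univ, u x ∂mu m := fun u hu t =>
    avg (mu m) (ac O) (fun x => by simp only [ac, one_smul, A.one])
      (fun γ δ x => by simp only [ac, mul_smul, A.mul]) (mp_ac A) _ mD'
      (fun x => (cov x.1).imp fun γ hγ => ⟨hγ, trivial⟩) (fun γ x h1 h2 => un γ x.1 h1.1 h2.1)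
      (fl h t) (mp_fl h j t) (fun γ x => A.flow γ t x) u hu
  have iG := fun γ z hz => (inv γ z hz).1
  have iq := fun γ z hz => (inv γ z hz).2
  have iH : ∀ (γ : Γ) (z : V × V), ‖z.2‖ = 1 → (G - q) (ac O γ z) = (G - q) z := fun γ z hz =>
    congrArg₂ (· - ·) (iG γ z hz) (iq γ z hz)
  obtain ⟨C2, p2, b2⟩ := b_ex A (cG.sub cq) iH
  obtain ⟨C3, p3, b3⟩ := b_ex A cG iG
  obtain ⟨C4, p4, b4⟩ := b_ex A cq iq
  have mn : Measurable fun z : V × V => ‖z.2‖ := measurable_snd.norm
  have k := int2_flow ((mu m).restrict (D ×ˢ univ)) m.Z h.cZ.continuous.measurable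
    (fun z => ‖z.2‖ * ex (G - q) z) (mn.mul (m_ex (cG.sub cq))) C2 (max K 0) (b_mul p2 b2)
    (av (fun z => ‖z.2‖ * ex (G - q) z) fun γ z => by
      rw [i_ex iH]
      exact congrArg (· * _) ((O γ z.1).norm_map z.2))
    (int2_line j (H := G - q) fun z hz => (hd z hz).2)
  have jG : Integrable (fun z : V × V => ‖z.2‖ * ex G z) ((mu m).restrict (D ×ˢ univ)) :=
    .of_bound (mn.mul (m_ex cG)).aestronglyMeasurable C3 (.of_forall (b_mul p3 b3))
  have jq : Integrable (fun z : V × V => ‖z.2‖ * ex q z) ((mu m).restrict (D ×ˢ univ)) :=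
    .of_bound (mn.mul (m_ex cq)).aestronglyMeasurable C4 (.of_forall (b_mul p4 b4))
  have e1 : (fun z : V × V => ‖z.2‖ * ex (G - q) z) =
      fun z => ‖z.2‖ * ex G z - ‖z.2‖ * ex q z := by
    funext z
    by_cases hz : z ∈ B
    · simp only [ex, indicator_of_mem hz, Pi.sub_apply, mul_sub]
    · simp only [ex, indicator_of_notMem hz, mul_zero, sub_self]
  rw [e1, integral_sub jG jq] at k
  have k1 : ∫ z in D ×ˢ univ, ‖z.2‖ * ex G z ∂mu m ≤ 0 := by
    rw [el, ← Measure.prod_restrict] at jG ⊢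
    rw [integral_prod _ jG]
    refine integral_nonpos fun x => le_of_eq_of_le ?_ (polar volume (fun a => G (x, a)) (hG x))
    refine setIntegral_congr_fun measurableSet_ball fun v hv => ?_
    by_cases h0 : v = 0
    · simp only [h0, norm_zero, zero_mul]
    · have hb : (x, v) ∈ B := And.intro h0 (mem_ball_zero_iff.1 hv)
      simp only [ex, indicator_of_mem hb, nr]
  have nq : 0 ≤ fun z : V × V => ‖z.2‖ * ex q z := fun z => mul_nonneg (norm_nonneg _)
    (indicator_nonneg (fun z hz => (hd _ (nr_unit hz.1)).1) z)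
  have k2 := (integral_eq_zero_iff_of_nonneg nq jq).1
    (le_antisymm (by linarith) (integral_nonneg nq))
  have op : (nu m).IsOpenPosMeasure := (withDensity_absolutelyContinuous'
    (cdet h).measurable.ennreal_ofReal.aemeasurable (.of_forall fun x =>
      (ENNReal.ofReal_pos.2 (abs_pos.2 (det_ne h x))).ne')).isOpenPosMeasure
  rw [el] at k2
  have oW : IsOpen (B ∩ interior D ×ˢ univ) := oB.inter (isOpen_interior.prod isOpen_univ)
  have sub : B ∩ interior D ×ˢ univ ⊆ D ×ˢ ball 0 1 :=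
    fun w hw => ⟨interior_subset hw.2.1, mem_ball_zero_iff.2 hw.1.2⟩
  have k3 := Measure.eqOn_open_of_ae_eq (ae_restrict_of_ae_restrict_of_subset sub k2) oW
    (continuous_snd.norm.continuousOn.mul ((c_ex cq).mono inter_subset_left)) continuousOn_const
  have n2 : ‖(2⁻¹ : ℝ) • z.2‖ = 2⁻¹ := by rw [norm_smul, hz, mul_one, norm_inv, Real.norm_two]
  have hb : (z.1, (2⁻¹ : ℝ) • z.2) ∈ B :=
    And.intro (norm_ne_zero_iff.1 (by rw [n2]; norm_num)) (by rw [n2]; norm_num)
  have k4 := k3 (x := (z.1, (2⁻¹ : ℝ) • z.2)) ⟨hb, mem_interior_iff_mem_nhds.2 nD, trivial⟩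
  simp only [ex, indicator_of_mem hb, nr, n2, inv_inv, smul_inv_smul₀ (two_ne_zero' ℝ),
    Pi.zero_apply, mul_eq_zero, inv_eq_zero, two_ne_zero, false_or] at k4
  exact k4

end Pool.Agent.MP_3ee8cb_gt.D3NP
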