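import Pool.Agent.MP_3ee8cb_gt.D3NP.OSpec

/-! The focal time is unique and moves with unit speed. -/

namespace Pool.Agent.MP_3ee8cb_gt.D3NP

open Matrix Set D3OD Filter Topology Asymptotics

namespace RTAU

theorem lf_app (x y h u : ℝ) : lf x y (h, u) = x * h + y * u := by
  simp [lf]

theorem curve {τ : ℝ → ℝ} (hτ : Continuous τ) (s : ℝ) :
    Tendsto (fun r => (r, τ r)) (𝓝 s) (𝓝 (s, τ s)) :=
  (continuous_id.prodMk hτ).tendsto s

/-- A continuous implicit function is differentiable. -/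
theorem imp {g : ℝ × ℝ → ℝ} {τ : ℝ → ℝ} {n s : ℝ} (hτ : Continuous τ) (hn : 0 < n)
    (hg : HasFDerivAt g (lf (-1) n) (s, τ s)) (h0 : ∀ r, g (r, τ r) = 0) :
    HasDerivAt τ n⁻¹ s := by
  have e : (fun r => (r - s) - n * (τ r - τ s)) =o[𝓝 s] fun r => (r, τ r) - (s, τ s) := by
    refine (hg.isLittleO.comp_tendsto (curve hτ s)).congr_left fun r => ?_
    simp only [Function.comp, h0, Prod.mk_sub_mk, lf_app]
    ring
  have b : (fun r => (r, τ r) - (s, τ s)) =O[𝓝 s] fun r => r - s := by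
    refine IsBigO.of_bound (2 / n + 2) ?_
    filter_upwards [e.def (half_pos hn)] with r hr
    simp only [Prod.mk_sub_mk, Prod.norm_def, Real.norm_eq_abs] at hr ⊢
    have p1 := abs_nonneg (r - s)
    have p2 := abs_nonneg (τ r - τ s)
    have p3 : max |r - s| |τ r - τ s| ≤ |r - s| + |τ r - τ s| := max_le (by linarith) (by linarith)
    have p4 : n * |τ r - τ s| ≤ |r - s| + |r - s - n * (τ r - τ s)| := by
      have := abs_sub (r - s) (r - s - n * (τ r - τ s))
      rwa [sub_sub_cancel, abs_mul, abs_of_pos hn] at this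
    have p5 := mul_le_mul_of_nonneg_left p3 (half_pos hn).le
    have p6 : |τ r - τ s| ≤ (2 / n + 1) * |r - s| := by
      refine le_of_mul_le_mul_left ?_ hn
      have : n * ((2 / n + 1) * |r - s|) = 2 * |r - s| + n * |r - s| := by field_simp
      rw [this]
      linarith
    linarith
  rw [hasDerivAt_iff_isLittleO]
  refine ((e.trans_isBigO b).const_mul_left (-n⁻¹)).congr_left fun r => ?_
  rw [smul_eq_mul]
  field_simp
  ring

theorem chain {g : ℝ × ℝ → ℝ} {τ : ℝ → ℝ} {x y d s : ℝ} (hτ : HasDerivAt τ d s)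
    (hg : HasFDerivAt g (lf x y) (s, τ s)) (h0 : ∀ r, g (r, τ r) = 0) : x + y * d = 0 := by
  have h1 := hg.comp_hasDerivAt s ((hasDerivAt_id s).prodMk hτ)
  have h2 : (g ∘ fun r => (id r, τ r)) = fun _ => 0 := funext h0
  rw [h2, lf_app, mul_one] at h1
  exact h1.unique (hasDerivAt_const s 0)

theorem comb {f g : ℝ × ℝ → ℝ} {p : ℝ × ℝ} {x y x' y' X Y : ℝ} (c c' : ℝ)
    (hf : HasFDerivAt f (lf x y) p) (hg : HasFDerivAt g (lf x' y') p)
    (hX : c * x + c' * x' = X) (hY : c * y + c' * y' = Y) :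
    HasFDerivAt (fun q => c * f q + c' * g q) (lf X Y) p := by
  refine ((hf.const_mul c).add (hg.const_mul c')).congr_fderiv ?_
  refine ContinuousLinearMap.ext fun q => ?_
  obtain ⟨h, u⟩ := q
  simp only [_root_.add_apply, _root_.smul_apply, lf_app, smul_eq_mul,
    ← hX, ← hY]
  ring

theorem lt {a : ℝ} {k : ℝ → M} (c : Cur (a ^ 2) k) (h : S_OM) {j j' : ℝ → V} (sj : Sol k j j')
    {t t' : ℝ} (l : t < t') (h0 : j t = 0) (h1 : j t' = 0) : j' ((t + t') / 2) = 0 := by
  have d := (h k c.symm j j' j j' sj sj).2.2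
  have nn : ∀ r, 0 ≤ j r ⬝ᵥ k r *ᵥ j r := fun r =>
    (mul_nonneg (sq_nonneg a) (Gen.dnn _)).trans (c.low r _)
  have mono : Monotone fun r => j r ⬝ᵥ j' r :=
    monotone_of_deriv_nonneg (fun r => (d r).differentiableAt) fun r => by
      rw [(d r).deriv]
      exact add_nonneg (Gen.dnn _) (nn r)
  have z : (fun r => j r ⬝ᵥ j' r) =ᶠ[𝓝 ((t + t') / 2)] fun _ => 0 := by
    filter_upwards [Icc_mem_nhds (show t < (t + t') / 2 by linarith)
      (show (t + t') / 2 < t' by linarith)] with r hr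
    have p1 := mono hr.1
    have p2 := mono hr.2
    simp only [h0, h1, zero_dotProduct] at p1 p2
    exact le_antisymm p2 p1
  have e := (d _).unique ((hasDerivAt_const _ (0 : ℝ)).congr_of_eventuallyEq z)
  have p := Gen.dnn (j' ((t + t') / 2))
  exact dotProduct_self_eq_zero.1 (by linarith [nn ((t + t') / 2)])

end RTAU

theorem rUNI : R_UNI := by
  intro om dia a C kM kN hh hv vh vv A A' ha o tw s
  have key : ∀ t t', t < t' → A s t = 0 → A s t' = 0 → False := fun t t' l h0 h1 => by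
    have z : ∀ e, A' s ((t + t') / 2) *ᵥ e = 0 := fun e =>
      RTAU.lt o.cN om (tw.sol s e) l (by rw [h0, zero_mulVec]) (by rw [h1, zero_mulVec])
    refine (dia a C kM kN hh hv vh vv A A' ha o tw s ((t + t') / 2)).det ?_
    exact Matrix.exists_mulVec_eq_zero_iff.1 ⟨fun _ => 1, fun h => one_ne_zero (congrFun h 0), z _⟩
  intro t t' h0 h1
  rcases lt_trichotomy t t' with l | l | l
  · exact (key t t' l h0 h1).elim
  · exact l
  · exact (key t' t l h1 h0).elim

theorem rTAU : R_TAU := by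
  intro two _ a C kM kN hh hv vh vv A A' ha o tw τ hτ h
  obtain ⟨D, E, P⟩ := two a C kM kN hh hv vh vv A A' ha o tw
  have der : ∀ s, HasDerivAt τ 1 s := fun s => by
    obtain ⟨h0, h1⟩ := h s
    set Z := A' s (τ s) with hZ
    set W := D s (τ s) with hW
    have sy : ∀ x e : V, (W *ᵥ x) ⬝ᵥ (Z *ᵥ e) = x ⬝ᵥ e := fun x e => by
      have := P.symp s (τ s) x 0 0 e
      simpa only [h0, om, zero_mulVec, mulVec_zero, add_zero, zero_add, dotProduct_zero,
        zero_dotProduct, sub_zero] using this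
    have s00 := sy ![1, 0] ![1, 0]
    have s01 := sy ![1, 0] ![0, 1]
    have s10 := sy ![0, 1] ![1, 0]
    have s11 := sy ![0, 1] ![0, 1]
    simp [mulVec, dotProduct, Fin.sum_univ_two] at s00 s01 s10 s11
    have g : ∀ (i l : Fin 2) (X : ℝ), Z 0 i * -W 0 l + Z 1 i * -W 1 l = X →
        HasFDerivAt (fun q : ℝ × ℝ => Z 0 i * A q.1 q.2 0 l + Z 1 i * A q.1 q.2 1 l)
          (lf X (Z 0 i * Z 0 l + Z 1 i * Z 1 l)) (s, τ s) := fun i l X hX =>
      RTAU.comb _ _ (P.dA s (τ s) 0 l) (P.dA s (τ s) 1 l) hX rfl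
    have z : ∀ (i l : Fin 2) (r : ℝ), Z 0 i * A r (τ r) 0 l + Z 1 i * A r (τ r) 1 l = 0 :=
      fun i l r => by simp [(h r).1]
    have dd : (Z 0 0 * Z 1 1 - Z 0 1 * Z 1 0) ^ 2 = 1 := by
      rw [← det_fin_two, ← sq_abs, h1, one_pow]
    have n0 : 0 < Z 0 0 * Z 0 0 + Z 1 0 * Z 1 0 := by
      refine lt_of_le_of_ne (add_nonneg (mul_self_nonneg _) (mul_self_nonneg _)) fun q => ?_
      obtain ⟨q1, q2⟩ := mul_self_add_mul_self_eq_zero.1 q.symm
      rw [q1, q2] at dd
      simp at dd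
    have t := RTAU.imp hτ n0 (g 0 0 (-1) (by linarith)) (z 0 0)
    have c0 := RTAU.chain t (g 0 0 (-1) (by linarith)) (z 0 0)
    have c1 := RTAU.chain t (g 1 1 (-1) (by linarith)) (z 1 1)
    have c2 := RTAU.chain t (g 0 1 0 (by linarith)) (z 0 1)
    have p := inv_pos.2 n0
    generalize (Z 0 0 * Z 0 0 + Z 1 0 * Z 1 0)⁻¹ = d at t c0 c1 c2 p
    have q : (d - 1) * (d + 1) = 0 := by
      linear_combination (-d ^ 2) * dd + ((Z 0 1 * Z 0 1 + Z 1 1 * Z 1 1) * d) * c0 + c1 -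
        ((Z 0 0 * Z 0 1 + Z 1 0 * Z 1 1) * d) * c2
    have : d = 1 := by
      rcases mul_eq_zero.1 q with q | q <;> linarith
    rwa [this] at t
  intro s
  have d0 : ∀ r, HasDerivAt (fun r => τ r - r) 0 r := fun r => by
    have := (der r).sub (hasDerivAt_id r)
    rwa [sub_self] at this
  have := is_const_of_deriv_eq_zero (fun r => (d0 r).differentiableAt) (fun r => (d0 r).deriv) s 0
  simpa using this

end Pool.Agent.MP_3ee8cb_gt.D3NP
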