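import Pool.Agent.MP_3ee8cb_gt.D3MO.Fin

/-! Minima and merging saddles: the two counts and the comparison step. -/

namespace Pool.Agent.MP_3ee8cb_gt.D3NP

open Set Filter Topology Metric D3MO

variable {P : Type} [MetricSpace P]

/-- The sublevel set through `p` has exactly one side at `p`. -/
def Lw (f : P → ℝ) (p : P) : Prop := p ∈ closure {q | f q < f p} ∧ Low {q | f q < f p} p

/-- The sublevel set through `p` has at most two sides at `p`. -/
def L2 (f : P → ℝ) (p : P) : Prop := p ∈ closure {q | f q < f p} ∧ Low2 {q | f q < f p} p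

/-- Strict local minimum. -/
def Mi (f : P → ℝ) (p : P) : Prop := ∀ᶠ q in 𝓝[≠] p, f p < f q

/-- Strict local maximum. -/
def Ma (f : P → ℝ) (p : P) : Prop := ∀ᶠ q in 𝓝[≠] p, f q < f p

open Classical in
/-- `1` at a minimum, `-1` at a merging saddle, `0` where the sublevel set has one side. -/
noncomputable def st (f : P → ℝ) (p : P) : ℤ := if Mi f p then 1 else if Lw f p then 0 else -1

/-- Off the finite set `Cr` the sublevel sets have one side. -/
structure Tm (f : P → ℝ) (Cr : Finset P) : Prop where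
  cont : Continuous f
  loc : ∀ p, Lw f p ∨ (p ∈ Cr ∧ (Mi f p ∨ L2 f p))
  inj : InjOn f Cr

variable {f g : P → ℝ} {p : P} {Cr : Finset P}

theorem Mi.not_cl (h : Mi f p) : p ∉ closure {q | f q < f p} := by
  intro hc
  obtain ⟨q, h1, h2⟩ := mem_closure_iff_nhds.1 hc _ (eventually_nhdsWithin_iff.1 h)
  have h3 : f q < f p := h2
  exact lt_asymm h3 (h1 fun e => lt_irrefl _ ((show q = p from e) ▸ h3))

theorem sub_of (h1 : ∀ q, g q ≤ f q) (h2 : g =ᶠ[𝓝 p] f) : {q | f q < f p} ⊆ {q | g q < g p} :=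
  fun q (hq : f q < f p) => (h1 q).trans_lt (h2.self_of_nhds ▸ hq)

theorem Lw.dom (h : Lw f p) (h1 : ∀ q, g q ≤ f q) (h2 : g =ᶠ[𝓝 p] f) : Lw g p := by
  obtain ⟨c, U, hU, h⟩ := h
  have m : ∀ q, g q = f q → g q < g p → f q < f p := fun q e l => by
    rwa [e, h2.self_of_nhds] at l
  exact ⟨closure_mono (sub_of h1 h2) c, _, inter_mem hU h2, fun q hq q' hq' =>
    (h q ⟨hq.1.1, m q hq.1.2 hq.2⟩ q' ⟨hq'.1.1, m q' hq'.1.2 hq'.2⟩).mono (sub_of h1 h2)⟩

theorem L2.dom (h : L2 f p) (h1 : ∀ q, g q ≤ f q) (h2 : g =ᶠ[𝓝 p] f) : L2 g p := by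
  obtain ⟨c, U, hU, a, b, h⟩ := h
  have m : ∀ q, g q = f q → g q < g p → f q < f p := fun q e l => by
    rwa [e, h2.self_of_nhds] at l
  exact ⟨closure_mono (sub_of h1 h2) c, _, inter_mem hU h2, a, b, fun q hq =>
    (h q ⟨hq.1.1, m q hq.1.2 hq.2⟩).imp (·.mono (sub_of h1 h2)) (·.mono (sub_of h1 h2))⟩

theorem Mi.germ (h : Mi f p) (h2 : g =ᶠ[𝓝 p] f) : Mi g p := by
  filter_upwards [h, nhdsWithin_le_nhds h2] with q a b
  rwa [b, h2.self_of_nhds]

theorem st_dom (h1 : ∀ q, g q ≤ f q) (h2 : g =ᶠ[𝓝 p] f) : st f p ≤ st g p := by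
  unfold st
  by_cases a : Mi f p
  · rw [if_pos a, if_pos (a.germ h2)]
  · rw [if_neg a, if_neg fun b => a (Mi.germ b h2.symm)]
    by_cases b : Lw f p
    · rw [if_pos b, if_pos (b.dom h1 h2)]
    · rw [if_neg b]
      split_ifs <;> norm_num

theorem sub_add (η : ℝ) : {q | f q + η < f p + η} = {q | f q < f p} := by
  ext q
  simp

theorem lw_add (η : ℝ) : Lw (fun q => f q + η) p ↔ Lw f p := by
  unfold Lw
  rw [sub_add]

theorem l2_add (η : ℝ) : L2 (fun q => f q + η) p ↔ L2 f p := by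
  unfold L2
  rw [sub_add]

theorem mi_add (η : ℝ) : Mi (fun q => f q + η) p ↔ Mi f p := by
  simp [Mi]

theorem st_add (η : ℝ) : st (fun q => f q + η) p = st f p := by
  unfold st
  rw [lw_add, mi_add]

open Classical in
theorem sum_st (f : P → ℝ) (Cr : Finset P) : ∑ q ∈ Cr, st f q =
    ((Cr.filter (Mi f)).card : ℤ) - (Cr.filter fun q => ¬Mi f q ∧ ¬Lw f q).card := by
  rw [Finset.card_filter, Finset.card_filter]
  push_cast
  rw [← Finset.sum_sub_distrib]
  refine Finset.sum_congr rfl fun q _ => ?_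
  unfold st
  by_cases a : Mi f q <;> by_cases b : Lw f q <;> simp [a, b]

variable [CompactSpace P] [LocallyPathConnectedSpace P]

theorem all_jn [PathConnectedSpace P] (hf : Continuous f) :
    ∃ c, ∀ a b, JoinedIn {q | f q < c} a b := by
  obtain ⟨c, hc⟩ := (isCompact_range hf).bddAbove
  refine ⟨c + 1, fun a b => (joinedIn_univ.2 (PathConnectedSpace.joined a b)).mono fun q _ => ?_⟩
  exact (hc ⟨q, rfl⟩).trans_lt (lt_add_one c)

theorem Tm.m1 [PathConnectedSpace P] (h : Tm f Cr) : ∑ q ∈ Cr, st f q ≤ 1 := by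
  classical
  rw [sum_st]
  rcases (Cr.filter (Mi f)).eq_empty_or_nonempty with e | ⟨z0, h0⟩
  · rw [e]
    simp only [Finset.card_empty]
    omega
  have e : ∀ t, {q | f q - t < 0} = {q | f q < t} := fun t => by simp only [sub_neg]
  have := half (g := fun t q => f q - t) (fun t => h.cont.sub continuous_const)
    (fun q => by fun_prop) (fun q s t hst => by dsimp only; linarith)
    ((Cr.filter (Mi f)).image fun q => (f q, q))
    ((Cr.filter fun q => ¬Mi f q ∧ ¬Lw f q).image fun q => (f q, q))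
    (by
      intro a ha
      obtain ⟨q, hq, rfl⟩ := Finset.mem_image.1 ha
      rw [e]
      exact (Finset.mem_filter.1 hq).2.not_cl)
    (by
      intro a ha b hb hab
      obtain ⟨q, hq, rfl⟩ := Finset.mem_image.1 ha
      obtain ⟨q', hq', rfl⟩ := Finset.mem_image.1 hb
      rw [h.inj (Finset.mem_filter.1 hq).1 (Finset.mem_filter.1 hq').1 hab])
    (by
      intro t q hq
      obtain rfl : f q = t := sub_eq_zero.1 hq
      rw [e]
      by_cases a : Lw f q
      · exact Or.inr ⟨a.1, Or.inl a.2⟩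
      obtain ⟨b, c⟩ := (h.loc q).resolve_left a
      by_cases d : Mi f q
      · exact Or.inl (Finset.mem_image.2 ⟨q, Finset.mem_filter.2 ⟨b, d⟩, rfl⟩)
      · exact Or.inr ⟨(c.resolve_left d).1, Or.inr ⟨Finset.mem_image.2
          ⟨q, Finset.mem_filter.2 ⟨b, d, a⟩, rfl⟩, (c.resolve_left d).2⟩⟩)
    (Cr.filter (Mi f)) z0 h0 (fun z _ _ => ⟨f z, by simp⟩)
    (fun z hz τ hτ _ => Finset.mem_image.2 ⟨z, hz, by rw [sub_eq_zero.1 hτ]⟩)
    (fun z _ => by
      obtain ⟨c, hc⟩ := all_jn h.cont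
      exact ⟨c, by rw [e]; exact hc _ _⟩)
  have h2 := this.trans (Nat.add_le_add_left ((Finset.card_filter_le _ _).trans
    Finset.card_image_le) 1)
  omega

theorem Tm.exm (h : Tm f Cr) {c : ℝ} {q : P} (hq : f q < c) :
    ∃ m, (m ∈ Cr ∧ Mi f m) ∧ JoinedIn {y | f y < c} q m := by
  have op : IsOpen {y | f y < c} := isOpen_lt h.cont continuous_const
  obtain ⟨m, hm, hmin⟩ := (isClosed_closure (s := pathComponentIn {y | f y < c} q)).isCompact
    |>.exists_isMinOn ⟨q, subset_closure (mem_pathComponentIn_self hq)⟩ h.cont.continuousOn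
  have h1 : f m < c := lt_of_le_of_lt (hmin (subset_closure (mem_pathComponentIn_self hq))) hq
  have h2 := pathComponentIn_mem_nhds (op.mem_nhds h1)
  obtain ⟨y, y1, y2⟩ := mem_closure_iff_nhds.1 hm _ h2
  have j : JoinedIn {y | f y < c} q m := JoinedIn.trans y2 (JoinedIn.symm y1)
  have nc : m ∉ closure {y | f y < f m} := by
    intro hc
    obtain ⟨w, w1, w2⟩ := mem_closure_iff_nhds.1 hc _ h2
    exact absurd (show f m ≤ f w from hmin (subset_closure (j.trans w1)))
      (not_le.2 (show f w < f m from w2))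
  rcases h.loc m with a | ⟨a, b | b⟩
  · exact absurd a.1 nc
  · exact ⟨m, ⟨a, b⟩, j⟩
  · exact absurd b.1 nc

theorem Tm.m0 [Nonempty P] (h : Tm f Cr) : 1 ≤ ∑ q ∈ Cr, st f q := by
  classical
  rw [sum_st]
  set Z := Cr.filter (Mi f) with hZ
  set S := Cr.filter fun q => ¬Mi f q ∧ ¬Lw f q with hS
  let R : ℝ → Setoid Z := fun c => ⟨fun a b => a = b ∨ JoinedIn {y | f y < c} a.1 b.1,
    fun _ => Or.inl rfl, fun e => e.imp Eq.symm JoinedIn.symm, by
      rintro a b d (rfl | e) (rfl | e')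
      exacts [Or.inl rfl, Or.inr e', Or.inr e, Or.inr (e.trans e')]⟩
  let N : ℝ → ℕ := fun c => Nat.card (Quotient (R c))
  have le : ∀ c, N c ≤ Z.card := fun c => by
    exact (Nat.card_le_card_of_surjective _ (Quotient.mk_surjective (s := R c))).trans
      (by simp)
  have pos : ∀ c, 0 < N c := fun c => by
    obtain ⟨q⟩ := ‹Nonempty P›
    obtain ⟨m, hm, -⟩ := h.exm (lt_add_one (f q))
    haveI : Nonempty (Quotient (R c)) := ⟨Quotient.mk _ ⟨m, Finset.mem_filter.2 hm⟩⟩
    exact Nat.card_pos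
  have lt : ∀ s ∈ S, ∀ c, f s < c → N c < N (f s) := by
    intro s hs c hc
    obtain ⟨s1, s2, s3⟩ := Finset.mem_filter.1 hs
    have s4 := (((h.loc s).resolve_left s3).2.resolve_left s2).1
    have sub : {y | f y < f s} ⊆ {y | f y < c} := fun y (hy : f y < f s) => hy.trans hc
    obtain ⟨q, hq, q', hq', nj⟩ : ∃ q ∈ pathComponentIn {y | f y < c} s ∩ {y | f y < f s},
        ∃ q' ∈ pathComponentIn {y | f y < c} s ∩ {y | f y < f s},
          ¬JoinedIn {y | f y < f s} q q' := by
      by_contra hn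
      exact s3 ⟨s4, _, pathComponentIn_mem_nhds
        ((isOpen_lt h.cont continuous_const).mem_nhds hc), fun q hq q' hq' =>
          not_not.1 fun nj => hn ⟨q, hq, q', hq', nj⟩⟩
    obtain ⟨m, hm, j⟩ := h.exm (c := f s) hq.2
    obtain ⟨m', hm', j'⟩ := h.exm (c := f s) hq'.2
    let π : Quotient (R (f s)) → Quotient (R c) :=
      Quotient.map id fun a b e => Or.imp id (·.mono sub) e
    have su : Function.Surjective π := fun y => by
      obtain ⟨a, rfl⟩ := Quotient.mk_surjective y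
      exact ⟨Quotient.mk _ a, rfl⟩
    refine (Nat.card_le_card_of_surjective π su).lt_of_ne fun e => nj ?_
    have ij := (su.bijective_of_nat_card_le e.ge).1
    have e1 : π (Quotient.mk _ ⟨m, Finset.mem_filter.2 hm⟩) =
        π (Quotient.mk _ ⟨m', Finset.mem_filter.2 hm'⟩) := Quotient.sound (Or.inr
      (((j.mono sub).symm.trans (JoinedIn.symm hq.1)).trans (JoinedIn.trans hq'.1 (j'.mono sub))))
    rcases Quotient.exact (ij e1) with e2 | e2
    · have e3 : m = m' := congrArg Subtype.val e2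
      exact j.trans (e3 ▸ j'.symm)
    · exact (j.trans e2).trans j'.symm
  have := Finset.card_le_card_of_injOn (s := S) (t := Finset.Icc 2 Z.card) (fun s => N (f s))
    (fun s hs => by
      have a := lt s hs _ (lt_add_one _)
      have b := pos (f s + 1)
      simpa using ⟨by omega, le _⟩)
    (fun s hs s' hs' e => by
      refine h.inj (Finset.mem_filter.1 hs).1 (Finset.mem_filter.1 hs').1 ?_
      rcases lt_trichotomy (f s) (f s') with a | a | a
      · exact absurd e (lt s hs _ a).ne'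
      · exact a
      · exact absurd e (lt s' hs' _ a).ne)
  have a := le 0
  have b := pos 0
  rw [Nat.card_Icc] at this
  omega

theorem Tm.tot [PathConnectedSpace P] (h : Tm f Cr) : ∑ q ∈ Cr, st f q = 1 :=
  le_antisymm h.m1 h.m0

open Classical in
theorem step [PathConnectedSpace P] {Cf Cg : Finset P} (hf : Tm f Cf) (hg : Tm g Cg) {η : ℝ}
    (eq : ∀ q, f q + η = g q → q ∉ Cg ∧ Lw (fun y => min (f y + η) (g y)) q)
    (ne : ∀ q ∈ Cf, ∀ q' ∈ Cg, f q + η ≠ g q') :
    ∑ q ∈ Cf with f q + η < g q, st f q ≤ ∑ q ∈ Cg with f q + η < g q, st g q := by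
  set G : P → ℝ := fun y => min (f y + η) (g y) with hG
  have cf : Continuous fun y => f y + η := hf.cont.add continuous_const
  have g1 : ∀ q, f q + η < g q → G =ᶠ[𝓝 q] fun y => f y + η := fun q hq =>
    (cf.continuousAt.eventually_lt hg.cont.continuousAt hq).mono fun y hy => min_eq_left hy.le
  have g2 : ∀ q, g q < f q + η → G =ᶠ[𝓝 q] g := fun q hq =>
    (hg.cont.continuousAt.eventually_lt cf.continuousAt hq).mono fun y hy => min_eq_right hy.le
  have l1 : ∀ y, G y ≤ f y + η := fun y => min_le_left _ _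
  have l2 : ∀ y, G y ≤ g y := fun y => min_le_right _ _
  have tG : Tm G ((Cf.filter fun q => f q + η < g q) ∪ Cg.filter fun q => g q < f q + η) := by
    refine ⟨cf.min hg.cont, fun q => ?_, ?_⟩
    · rcases lt_trichotomy (f q + η) (g q) with a | a | a
      · rcases hf.loc q with b | ⟨b, c⟩
        · exact Or.inl (((lw_add η).2 b).dom l1 (g1 q a))
        · exact Or.inr ⟨Finset.mem_union_left _ (Finset.mem_filter.2 ⟨b, a⟩), c.imp
            (fun d => ((mi_add η).2 d).germ (g1 q a)) fun d => ((l2_add η).2 d).dom l1 (g1 q a)⟩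
      · exact Or.inl (eq q a).2
      · rcases hg.loc q with b | ⟨b, c⟩
        · exact Or.inl (b.dom l2 (g2 q a))
        · exact Or.inr ⟨Finset.mem_union_right _ (Finset.mem_filter.2 ⟨b, a⟩), c.imp
            (fun d => d.germ (g2 q a)) fun d => d.dom l2 (g2 q a)⟩
    · intro q hq q' hq' e
      simp only [Finset.coe_union, Finset.coe_filter, mem_union, mem_setOf_eq] at hq hq'
      rcases hq with ⟨a, b⟩ | ⟨a, b⟩ <;> rcases hq' with ⟨c, d⟩ | ⟨c, d⟩
      · rw [(g1 q b).self_of_nhds, (g1 q' d).self_of_nhds] at e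
        exact hf.inj a c (add_right_cancel e)
      · rw [(g1 q b).self_of_nhds, (g2 q' d).self_of_nhds] at e
        exact absurd e (ne q a q' c)
      · rw [(g2 q b).self_of_nhds, (g1 q' d).self_of_nhds] at e
        exact absurd e.symm (ne q' c q a)
      · rw [(g2 q b).self_of_nhds, (g2 q' d).self_of_nhds] at e
        exact hg.inj a c e
  have m1 := tG.m1
  have m0 := hg.m0
  rw [Finset.sum_union (Finset.disjoint_left.2 fun q a b =>
    lt_asymm (Finset.mem_filter.1 a).2 (Finset.mem_filter.1 b).2)] at m1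
  rw [← Finset.sum_filter_add_sum_filter_not Cg fun q => f q + η < g q] at m0
  have e : (Cg.filter fun q => ¬f q + η < g q) = Cg.filter fun q => g q < f q + η :=
    Finset.filter_congr fun q hq => ⟨fun a => (not_lt.1 a).lt_of_ne fun b => (eq q b.symm).1 hq,
      fun a => not_lt.2 a.le⟩
  rw [e] at m0
  have s1 : ∑ q ∈ Cf with f q + η < g q, st f q ≤ ∑ q ∈ Cf with f q + η < g q, st G q :=
    Finset.sum_le_sum fun q hq => (st_add η).symm.le.trans
      (st_dom l1 (g1 q (Finset.mem_filter.1 hq).2))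
  have s2 : ∑ q ∈ Cg with g q < f q + η, st g q ≤ ∑ q ∈ Cg with g q < f q + η, st G q :=
    Finset.sum_le_sum fun q hq => st_dom l2 (g2 q (Finset.mem_filter.1 hq).2)
  omega

end Pool.Agent.MP_3ee8cb_gt.D3NP
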