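import Pool.Agent.MP_3ee8cb_gt.D3NP.T1

/-! The counting inequality along a line of functions. -/

namespace Pool.Agent.MP_3ee8cb_gt.D3NP

open Set Filter Topology Metric D3MO

theorem glob {Φ : ℝ → ℤ} {G : Set ℝ} {r₁ r₂ : ℝ}
    (dense : ∀ s t, r₁ ≤ s → s < t → t ≤ r₂ → ∃ l ∈ G, s < l ∧ l < t)
    (loc : ∀ r0 ∈ Icc r₁ r₂, ∃ δ > 0, ∀ r ∈ ball r0 δ, ∀ r' ∈ ball r0 δ, r ∈ G → r' ∈ G →
      r ∈ Icc r₁ r₂ → r' ∈ Icc r₁ r₂ → r ≤ r' → Φ r ≤ Φ r') :
    ∀ s ∈ G, ∀ t ∈ G, r₁ ≤ s → s ≤ t → t ≤ r₂ → Φ s ≤ Φ t := by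
  choose! d d0 hd using loc
  obtain ⟨δ, δ0, hδ⟩ := lebesgue_number_lemma_of_metric (s := Icc r₁ r₂) (ι := Icc r₁ r₂)
    (c := fun i => ball i.1 (d i.1)) isCompact_Icc (fun _ => isOpen_ball)
    fun x hx => mem_iUnion.2 ⟨⟨x, hx⟩, mem_ball_self (d0 x hx)⟩
  have sh : ∀ s ∈ G, ∀ t ∈ G, r₁ ≤ s → s ≤ t → t ≤ r₂ → t - s < δ → Φ s ≤ Φ t := by
    intro s hs t ht a b c e
    obtain ⟨i, hi⟩ := hδ s ⟨a, b.trans c⟩
    refine hd i i.2 s (hi (mem_ball_self δ0)) t (hi ?_) hs ht ⟨a, b.trans c⟩ ⟨a.trans b, c⟩ b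
    rwa [mem_ball, Real.dist_eq, abs_of_nonneg (sub_nonneg.2 b)]
  have ind : ∀ n : ℕ, ∀ s ∈ G, ∀ t ∈ G, r₁ ≤ s → s ≤ t → t ≤ r₂ → t - s < n * (δ / 2) →
      Φ s ≤ Φ t := by
    intro n
    induction n with
    | zero => intro s _ t _ _ b _ e; simp at e; linarith
    | succ n ih =>
      intro s hs t ht a b c e
      by_cases h : t - s < δ
      · exact sh s hs t ht a b c h
      · obtain ⟨l, hl, l1, l2⟩ := dense (t - δ) (t - δ / 2) (by linarith) (by linarith)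
          (by linarith)
        push_cast at e
        exact (ih s hs l hl a (by linarith) (by linarith) (by linarith)).trans
          (sh l hl t ht (by linarith) (by linarith) c (by linarith))
  intro s hs t ht a b c
  obtain ⟨n, hn⟩ := exists_nat_gt ((t - s) / (δ / 2))
  exact ind n s hs t ht a b c ((div_lt_iff₀ (half_pos δ0)).1 hn)

theorem avoid {s t : ℝ} (h : s < t) {F : Set ℝ} (hF : F.Finite) :
    ∃ t', s < t' ∧ t' ≤ t ∧ ∀ l, s < l → l < t' → l ∉ F := by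
  have h1 : ∀ᶠ l in 𝓝[>] s, l ∉ F := by
    have : ∀ᶠ l in 𝓝 s, l ∈ (F \ {s})ᶜ :=
      (hF.subset diff_subset).isClosed.isOpen_compl.mem_nhds fun h => h.2 rfl
    filter_upwards [nhdsWithin_le_nhds this, self_mem_nhdsWithin] with l a b c
    exact a ⟨c, ne_of_gt b⟩
  obtain ⟨u, hu, h2⟩ := (mem_nhdsGT_iff_exists_Ioo_subset).1 h1
  exact ⟨min u t, lt_min hu h, min_le_right _ _, fun l a b =>
    h2 ⟨a, b.trans_le (min_le_left _ _)⟩⟩

variable {P : Type} [MetricSpace P]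

/-- A line of functions `f r` with speed `th`, critical set `Z`, weight `a`, level `lam`, good
times `D`, events `Ev` and crossing signs `sg`. -/
structure Ln (f th : ℝ → P → ℝ) (Z : Set (ℝ × P)) (a : ℝ → ℝ) (lam : ℝ) (D : Set ℝ)
    (Cr : ℝ → Finset P) (Ev : Finset (ℝ × P)) (sg : ℝ × P → ℤ) (r₁ r₂ : ℝ) : Prop where
  le : r₁ ≤ r₂
  der : ∀ r ∈ Icc r₁ r₂, ∀ q, HasDerivAt (fun r => f r q) (th r q) r
  cth : ∀ r ∈ Icc r₁ r₂, ∀ q, ContinuousAt (fun x : ℝ × P => th x.1 x.2) (r, q)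
  ca : ∀ r ∈ Icc r₁ r₂, ContinuousAt a r
  a0 : ∀ r ∈ Icc r₁ r₂, 0 ≤ a r
  a1 : a r₁ = 0
  a2 : a r₂ = 0
  lam0 : lam ≠ 0
  opn : ∀ r ∈ Icc r₁ r₂, ∀ q, (r, q) ∉ Z → ∀ᶠ x in 𝓝 (r, q), x ∉ Z
  reg : ∀ r ∈ Icc r₁ r₂, ∀ q, (r, q) ∉ Z → ∀ᶠ x in 𝓝 ((r, r), q), ∀ η : ℝ,
    Lw (fun y => min (f x.1.1 y + η) (f x.1.2 y)) x.2
  d1 : r₁ ∈ D
  d2 : r₂ ∈ D
  dense : ∀ s t, r₁ ≤ s → s < t → t ≤ r₂ → ∃ l ∈ D, s < l ∧ l < t
  tame : ∀ r ∈ D, r ∈ Icc r₁ r₂ → Tm (f r) (Cr r)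
  cr : ∀ r ∈ D, r ∈ Icc r₁ r₂ → ∀ q, q ∈ Cr r ↔ (r, q) ∈ Z
  ev : ∀ e, e ∈ Ev ↔ e.1 ∈ Icc r₁ r₂ ∧ e ∈ Z ∧ a e.1 * th e.1 e.2 = lam
  evD : ∀ e ∈ Ev, e.1 ∈ D
  sg1 : ∀ e ∈ Ev, sg e = 1 ∨ sg e = -1
  same : ∀ e ∈ Ev, ∀ e' ∈ Ev, e.1 = e'.1 → sg e = sg e'
  cross : ∀ e ∈ Ev, ∀ᶠ x in 𝓝 e, x ∈ Z → x.1 ≠ e.1 →
    0 < (sg e : ℝ) * ((a x.1 * th x.1 x.2 - lam) * (x.1 - e.1))

variable [CompactSpace P] [LocallyPathConnectedSpace P] [PathConnectedSpace P]
  {f th : ℝ → P → ℝ} {Z : Set (ℝ × P)} {a : ℝ → ℝ} {lam : ℝ} {D : Set ℝ} {Cr : ℝ → Finset P}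
  {Ev : Finset (ℝ × P)} {sg : ℝ × P → ℤ} {r₁ r₂ : ℝ}

theorem unif {X : Type} [TopologicalSpace X] {x0 : X} {A : X → P → Prop}
    (h : ∀ q, ∀ᶠ z : X × P in 𝓝 (x0, q), A z.1 z.2) : ∀ᶠ x in 𝓝 x0, ∀ q, A x q :=
  (isCompact_univ.eventually_forall_of_forall_eventually fun q _ => h q).mono
    fun _ hx q => hx q (mem_univ q)

open Classical in
theorem Ln.loc (h : Ln f th Z a lam D Cr Ev sg r₁ r₂) {r0 κ : ℝ} (h0 : r0 ∈ Icc r₁ r₂)
    (hκ : ∀ q, (r0, q) ∈ Z → th r0 q ≠ κ) : ∃ δ > 0, ∀ r ∈ ball r0 δ, ∀ r' ∈ ball r0 δ, r ∈ D →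
      r' ∈ D → r ∈ Icc r₁ r₂ → r' ∈ Icc r₁ r₂ → r ≤ r' →
      ∑ q ∈ Cr r with κ < th r q, st (f r) q ≤ ∑ q ∈ Cr r' with κ < th r' q, st (f r') q := by
  have key : ∀ᶠ y : (ℝ × ℝ) × ℝ × ℝ in 𝓝 ((r0, r0), r0, κ), ∀ q,
      (y.2.2 < th y.2.1 q ∧ κ < th y.1.1 q ∧ κ < th y.1.2 q) ∨
      (th y.2.1 q < y.2.2 ∧ th y.1.1 q < κ ∧ th y.1.2 q < κ) ∨
      ((y.1.1, q) ∉ Z ∧ (y.1.2, q) ∉ Z ∧
        ∀ η : ℝ, Lw (fun w => min (f y.1.1 w + η) (f y.1.2 w)) q) := by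
    refine unif fun q => ?_
    have c := h.cth r0 h0 q
    have c1 : ContinuousAt (fun z : ((ℝ × ℝ) × ℝ × ℝ) × P => (z.1.1.1, z.2))
      (((r0, r0), r0, κ), q) := by fun_prop
    have c2 : ContinuousAt (fun z : ((ℝ × ℝ) × ℝ × ℝ) × P => (z.1.1.2, z.2))
      (((r0, r0), r0, κ), q) := by fun_prop
    have c3 : ContinuousAt (fun z : ((ℝ × ℝ) × ℝ × ℝ) × P => (z.1.2.1, z.2))
      (((r0, r0), r0, κ), q) := by fun_prop
    have c4 : ContinuousAt (fun z : ((ℝ × ℝ) × ℝ × ℝ) × P => z.1.2.2)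
      (((r0, r0), r0, κ), q) := by fun_prop
    have c5 : ContinuousAt (fun z : ((ℝ × ℝ) × ℝ × ℝ) × P => (z.1.1, z.2))
      (((r0, r0), r0, κ), q) := by fun_prop
    have e1 := ContinuousAt.comp (f := fun z : ((ℝ × ℝ) × ℝ × ℝ) × P => (z.1.1.1, z.2)) c c1
    have e2 := ContinuousAt.comp (f := fun z : ((ℝ × ℝ) × ℝ × ℝ) × P => (z.1.1.2, z.2)) c c2
    have e3 := ContinuousAt.comp (f := fun z : ((ℝ × ℝ) × ℝ × ℝ) × P => (z.1.2.1, z.2)) c c3
    rcases lt_trichotomy κ (th r0 q) with b | b | b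
    · filter_upwards [c4.eventually_lt e3 b, continuousAt_const.eventually_lt e1 b,
        continuousAt_const.eventually_lt e2 b] with z x1 x2 x3 using Or.inl ⟨x1, x2, x3⟩
    · have n : (r0, q) ∉ Z := fun hz => hκ q hz b.symm
      filter_upwards [c1.eventually (h.opn r0 h0 q n), c2.eventually (h.opn r0 h0 q n),
        c5.eventually (h.reg r0 h0 q n)] with z x1 x2 x3 using Or.inr (Or.inr ⟨x1, x2, x3⟩)
    · filter_upwards [e3.eventually_lt c4 b, e1.eventually_lt continuousAt_const b,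
        e2.eventually_lt continuousAt_const b] with z x1 x2 x3 using Or.inr (Or.inl ⟨x1, x2, x3⟩)
  obtain ⟨δ, δ0, hδ⟩ := Metric.eventually_nhds_iff_ball.1 key
  refine ⟨δ, δ0, fun r hr r' hr' hD hD' hI hI' hle => ?_⟩
  rcases hle.eq_or_lt with rfl | hlt
  · exact le_rfl
  have w0 : 0 < r' - r := sub_pos.2 hlt
  obtain ⟨t, t1, t2, t3⟩ := avoid (lt_add_of_pos_right κ δ0)
    ((((Cr r).finite_toSet.prod (Cr r').finite_toSet)).image
      fun x => (f r' x.2 - f r x.1) / (r' - r))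
  obtain ⟨k, k1, k2⟩ := exists_between t1
  have mv : ∀ q, ∃ c, f r' q - f r q = th c q * (r' - r) ∧
      (((r, r'), c, k) : (ℝ × ℝ) × ℝ × ℝ) ∈ ball ((r0, r0), r0, κ) δ := by
    intro q
    have sub : Icc r r' ⊆ Icc r₁ r₂ := Icc_subset_Icc hI.1 hI'.2
    obtain ⟨c, hc, e⟩ := exists_hasDerivAt_eq_slope (fun r => f r q) (fun r => th r q) hlt
      (fun s hs => (h.der s (sub hs) q).continuousAt.continuousWithinAt)
      fun s hs => h.der s (sub (Ioo_subset_Icc_self hs)) q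
    refine ⟨c, by rw [e, div_mul_cancel₀ _ w0.ne'], ?_⟩
    rw [← ball_prod_same, ← ball_prod_same, ← ball_prod_same]
    refine ⟨⟨hr, hr'⟩, (convex_ball r0 δ).ordConnected.out hr hr' (Ioo_subset_Icc_self hc), ?_⟩
    rw [mem_ball, Real.dist_eq, abs_of_pos (sub_pos.2 k1)]
    linarith
  have fl : ∀ q, ((r, q) ∈ Z ∨ (r', q) ∈ Z) → ((f r q + k * (r' - r) < f r' q ↔ κ < th r q) ∧
      (f r q + k * (r' - r) < f r' q ↔ κ < th r' q)) := by
    intro q hq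
    obtain ⟨c, e, hc⟩ := mv q
    rcases hδ _ hc q with ⟨x1, x2, x3⟩ | ⟨x1, x2, x3⟩ | ⟨x1, x2, -⟩
    · have : f r q + k * (r' - r) < f r' q := by nlinarith [mul_lt_mul_of_pos_right x1 w0]
      exact ⟨iff_of_true this x2, iff_of_true this x3⟩
    · have : ¬f r q + k * (r' - r) < f r' q := by nlinarith [mul_lt_mul_of_pos_right x1 w0]
      exact ⟨iff_of_false this (not_lt.2 x2.le), iff_of_false this (not_lt.2 x3.le)⟩
    · exact absurd hq (not_or.2 ⟨x1, x2⟩)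
  have := step (h.tame r hD hI) (h.tame r' hD' hI') (η := k * (r' - r))
    (by
      intro q hq
      obtain ⟨c, e, hc⟩ := mv q
      have e2 : th c q = k := mul_right_cancel₀ w0.ne' (by linarith)
      rcases hδ _ hc q with ⟨x1, -⟩ | ⟨x1, -⟩ | ⟨-, x2, x3⟩
      · exact absurd e2 (ne_of_gt x1)
      · exact absurd e2 (ne_of_lt x1)
      · exact ⟨fun hq => x2 ((h.cr r' hD' hI' q).1 hq), x3 _⟩)
    (fun q hq q' hq' e => t3 k k1 k2 ⟨(q, q'), ⟨hq, hq'⟩, by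
      rw [div_eq_iff w0.ne']
      linarith⟩)
  rwa [Finset.filter_congr fun q hq => (fl q (Or.inl ((h.cr r hD hI q).1 hq))).1,
    Finset.filter_congr fun q hq => (fl q (Or.inr ((h.cr r' hD' hI' q).1 hq))).2] at this

theorem Ln.cu (h : Ln f th Z a lam D Cr Ev sg r₁ r₂) {r0 : ℝ} (h0 : r0 ∈ Icc r₁ r₂) (q : P) :
    ContinuousAt (fun x : ℝ × P => a x.1 * th x.1 x.2) (r0, q) :=
  (ContinuousAt.comp (f := fun x : ℝ × P => x.1) (h.ca r0 h0) continuousAt_fst).mul (h.cth r0 h0 q)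

open Classical in
theorem Ln.mono (h : Ln f th Z a lam D Cr Ev sg r₁ r₂) {r0 : ℝ} (h0 : r0 ∈ Icc r₁ r₂) :
    ∃ δ > 0, ∀ r ∈ ball r0 δ, ∀ r' ∈ ball r0 δ, (r ∈ D ∧ ∀ e ∈ Ev, e.1 ≠ r) →
      (r' ∈ D ∧ ∀ e ∈ Ev, e.1 ≠ r') → r ∈ Icc r₁ r₂ → r' ∈ Icc r₁ r₂ → r ≤ r' →
      ∑ q ∈ Cr r with lam < a r * th r q, st (f r) q -
          ∑ e ∈ Ev with e.1 < r, sg e * st (f e.1) e.2 ≤
        ∑ q ∈ Cr r' with lam < a r' * th r' q, st (f r') q -
          ∑ e ∈ Ev with e.1 < r', sg e * st (f e.1) e.2 := by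
  have iso : ∀ᶠ r in 𝓝 r0, ∀ e ∈ Ev, e.1 ≠ r0 → (e.1 < r ↔ e.1 < r0) := by
    refine (Finset.eventually_all Ev).2 fun e _ => ?_
    rcases lt_trichotomy e.1 r0 with b | b | b
    · exact (eventually_gt_nhds b).mono fun r hr _ => iff_of_true hr b
    · exact Eventually.of_forall fun _ c => absurd b c
    · exact (eventually_lt_nhds b).mono fun r hr _ => iff_of_false (not_lt.2 hr.le) (not_lt.2 b.le)
  by_cases hE : ∃ e ∈ Ev, e.1 = r0
  swap
  · have S : ∀ᶠ r in 𝓝 r0, (Ev.filter fun e => e.1 < r) = Ev.filter fun e => e.1 < r0 :=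
      iso.mono fun r hr => Finset.filter_congr fun e he => hr e he fun b => hE ⟨e, he, b⟩
    rcases (h.a0 r0 h0).eq_or_lt with b | b
    · have k : ∀ᶠ r in 𝓝 r0, ∀ q, lam < a r * th r q ↔ lam < 0 := by
        refine unif fun q => ?_
        have c := h.cu h0 q
        rcases h.lam0.lt_or_gt with d | d
        · exact (continuousAt_const.eventually_lt c (by simpa [← b] using d)).mono
            fun z hz => iff_of_true hz d
        · exact (c.eventually_lt continuousAt_const (by simpa [← b] using d)).mono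
            fun z hz => iff_of_false (not_lt.2 hz.le) (not_lt.2 d.le)
      obtain ⟨δ, δ0, hδ⟩ := Metric.eventually_nhds_iff_ball.1 (S.and k)
      refine ⟨δ, δ0, fun r hr r' hr' hD hD' hI hI' _ => ?_⟩
      rw [(hδ r hr).1, (hδ r' hr').1, Finset.filter_congr fun q _ => (hδ r hr).2 q,
        Finset.filter_congr fun q _ => (hδ r' hr').2 q]
      by_cases d : lam < 0
      · simp only [d, Finset.filter_true, (h.tame r hD.1 hI).tot, (h.tame r' hD'.1 hI').tot, le_refl]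
      · simp [d]
    · have n : ∀ q, (r0, q) ∈ Z → th r0 q ≠ lam / a r0 := fun q hq e =>
        hE ⟨(r0, q), (h.ev _).2 ⟨h0, hq, by rw [e, mul_div_cancel₀ _ b.ne']⟩, rfl⟩
      have k : ∀ᶠ r in 𝓝 r0, ∀ q, (r, q) ∈ Z → (lam < a r * th r q ↔ lam / a r0 < th r q) := by
        refine unif fun q => ?_
        by_cases hq : (r0, q) ∈ Z
        · rcases (n q hq).lt_or_gt with d | d
          · filter_upwards [(h.cth r0 h0 q).eventually_lt continuousAt_const d,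
              (h.cu h0 q).eventually_lt (continuousAt_const (y := lam))
                ((lt_div_iff₀' b).1 d)] with z x1 x2 _
            exact iff_of_false (not_lt.2 x2.le) (not_lt.2 x1.le)
          · filter_upwards [continuousAt_const.eventually_lt (h.cth r0 h0 q) d,
              (continuousAt_const (y := lam)).eventually_lt (h.cu h0 q)
                ((div_lt_iff₀' b).1 d)] with z x1 x2 _
            exact iff_of_true x2 x1
        · exact (h.opn r0 h0 q hq).mono fun z x1 x2 => absurd x2 x1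
      obtain ⟨δ, δ0, hδ⟩ := Metric.eventually_nhds_iff_ball.1 (S.and k)
      obtain ⟨δ', δ0', hδ'⟩ := h.loc h0 n
      refine ⟨min δ δ', lt_min δ0 δ0', fun r hr r' hr' hD hD' hI hI' hle => ?_⟩
      have b1 := hδ r (ball_subset_ball (min_le_left _ _) hr)
      have b2 := hδ r' (ball_subset_ball (min_le_left _ _) hr')
      rw [b1.1, b2.1, Finset.filter_congr fun q hq => b1.2 q ((h.cr r hD.1 hI q).1 hq),
        Finset.filter_congr fun q hq => b2.2 q ((h.cr r' hD'.1 hI' q).1 hq)]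
      exact sub_le_sub_right (hδ' r (ball_subset_ball (min_le_right _ _) hr) r'
        (ball_subset_ball (min_le_right _ _) hr') hD.1 hD'.1 hI hI' hle) _
  obtain ⟨e0, he0, rfl⟩ := hE
  have hD0 := h.evD e0 he0
  have b : 0 < a e0.1 := (h.a0 _ h0).lt_of_ne fun b => h.lam0 (by
    rw [← ((h.ev e0).1 he0).2.2, ← b, zero_mul])
  set κ := lam / a e0.1 with hκ
  have evq : ∀ q, (e0.1, q) ∈ Ev ↔ (e0.1, q) ∈ Z ∧ th e0.1 q = κ := fun q => by
    rw [h.ev, hκ, eq_div_iff b.ne', mul_comm]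
    exact ⟨fun x => x.2, fun x => ⟨h0, x⟩⟩
  obtain ⟨ε, ε0, hε⟩ : ∃ ε > 0, ∀ q ∈ Cr e0.1,
      th e0.1 q = κ ∨ κ + ε < th e0.1 q ∨ th e0.1 q < κ - ε := by
    have : ∀ᶠ ε in 𝓝 (0 : ℝ), ∀ q ∈ Cr e0.1,
        th e0.1 q = κ ∨ κ + ε < th e0.1 q ∨ th e0.1 q < κ - ε := by
      refine (Finset.eventually_all _).2 fun q _ => ?_
      rcases lt_trichotomy (th e0.1 q) κ with d | d | d
      · exact (eventually_lt_nhds (sub_pos.2 d)).mono fun x hx => Or.inr (Or.inr (by linarith))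
      · exact Eventually.of_forall fun _ => Or.inl d
      · exact (eventually_lt_nhds (sub_pos.2 d)).mono fun x hx => Or.inr (Or.inl (by linarith))
    obtain ⟨ε, h1, h2⟩ := ((this.filter_mono (nhdsWithin_le_nhds (s := Ioi 0))).and
      self_mem_nhdsWithin).exists
    exact ⟨ε, h2, h1⟩
  have s1 : (sg e0 : ℝ) = 1 ∨ (sg e0 : ℝ) = -1 := by exact_mod_cast h.sg1 e0 he0
  have k : ∀ᶠ r in 𝓝 e0.1, ∀ q, (r, q) ∈ Z →
      (r < e0.1 → (lam < a r * th r q ↔ κ + sg e0 * ε < th r q)) ∧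
      (e0.1 < r → (lam < a r * th r q ↔ κ - sg e0 * ε < th r q)) := by
    refine unif fun q => ?_
    by_cases hq : (e0.1, q) ∈ Z
    swap
    · exact (h.opn _ h0 q hq).mono fun z x1 x2 => absurd x2 x1
    have c := h.cth _ h0 q
    rcases hε q ((h.cr _ hD0 h0 q).2 hq) with d | d | d
    · have ev := (evq q).2 ⟨hq, d⟩
      have cr := h.cross _ ev
      rw [h.same _ ev e0 he0 rfl] at cr
      filter_upwards [cr, c.eventually_lt (continuousAt_const (y := κ + ε)) (by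
        dsimp only; linarith), (continuousAt_const (y := κ - ε)).eventually_lt c (by
        dsimp only; linarith)] with z x1 x2 x3 hz
      refine ⟨fun l => ?_, fun l => ?_⟩
      · have := x1 hz l.ne
        rcases s1 with s | s <;> rw [s] at this ⊢
        · exact iff_of_false (by nlinarith) (by linarith)
        · exact iff_of_true (by nlinarith) (by linarith)
      · have := x1 hz l.ne'
        rcases s1 with s | s <;> rw [s] at this ⊢
        · exact iff_of_true (by nlinarith) (by linarith)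
        · exact iff_of_false (by nlinarith) (by linarith)
    · filter_upwards [continuousAt_const.eventually_lt c d,
        (continuousAt_const (y := lam)).eventually_lt (h.cu h0 q)
          ((div_lt_iff₀' b).1 (by dsimp only; linarith))] with z x1 x2 _
      rcases s1 with s | s <;> rw [s] <;>
        exact ⟨fun _ => iff_of_true x2 (by linarith), fun _ => iff_of_true x2 (by linarith)⟩
    · filter_upwards [c.eventually_lt continuousAt_const d,
        (h.cu h0 q).eventually_lt (continuousAt_const (y := lam))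
          ((lt_div_iff₀' b).1 (by dsimp only; linarith))] with z x1 x2 _
      rcases s1 with s | s <;> rw [s] <;> exact ⟨fun _ => iff_of_false (not_lt.2 x2.le)
        (by linarith), fun _ => iff_of_false (not_lt.2 x2.le) (by linarith)⟩
  have n : ∀ σ : ℝ, σ = 1 ∨ σ = -1 → ∀ q, (e0.1, q) ∈ Z → th e0.1 q ≠ κ + σ * ε := by
    intro σ hσ q hq e
    rcases hε q ((h.cr _ hD0 h0 q).2 hq) with d | d | d <;> rcases hσ with s | s <;>
      rw [s] at e <;> linarith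
  obtain ⟨δ1, p1, l1⟩ := h.loc h0 (n _ s1)
  obtain ⟨δ2, p2, l2⟩ := h.loc (κ := κ - sg e0 * ε) h0 (by
    simpa [sub_eq_add_neg] using n (-sg e0) (s1.symm.imp (fun s => by rw [s, neg_neg])
      fun s => by rw [s]))
  obtain ⟨δ, δ0, hδ⟩ := Metric.eventually_nhds_iff_ball.1 (iso.and k)
  have jump : ∑ q ∈ Cr e0.1 with κ - sg e0 * ε < th e0.1 q, st (f e0.1) q =
      ∑ q ∈ Cr e0.1 with κ + sg e0 * ε < th e0.1 q, st (f e0.1) q +
        ∑ e ∈ Ev with e.1 = e0.1, sg e * st (f e.1) e.2 := by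
    have e1 : ∑ e ∈ Ev with e.1 = e0.1, sg e * st (f e.1) e.2 =
        ∑ q ∈ Cr e0.1 with th e0.1 q = κ, sg e0 * st (f e0.1) q := by
      refine Finset.sum_nbij' (fun e => e.2) (fun q => (e0.1, q)) ?_ ?_ ?_ (fun _ _ => rfl) ?_
      · rintro ⟨r, q⟩ he
        obtain ⟨x1, rfl⟩ := Finset.mem_filter.1 he
        exact Finset.mem_filter.2 ⟨(h.cr _ hD0 h0 q).2 ((evq q).1 x1).1, ((evq q).1 x1).2⟩
      · intro q hq
        obtain ⟨x1, x2⟩ := Finset.mem_filter.1 hq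
        exact Finset.mem_filter.2 ⟨(evq q).2 ⟨(h.cr _ hD0 h0 q).1 x1, x2⟩, rfl⟩
      · rintro ⟨r, q⟩ he
        obtain ⟨-, rfl⟩ := Finset.mem_filter.1 he
        rfl
      · intro e he
        obtain ⟨x1, x2⟩ := Finset.mem_filter.1 he
        rw [h.same e x1 e0 he0 x2, x2]
    rw [e1, Finset.sum_filter, Finset.sum_filter, Finset.sum_filter, ← Finset.sum_add_distrib]
    refine Finset.sum_congr rfl fun q hq => ?_
    rcases h.sg1 e0 he0 with s | s <;> rw [s] <;> push_cast <;> rcases hε q hq with d | d | d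
    · rw [if_pos (by linarith), if_neg (by linarith), if_pos d]; ring
    · rw [if_pos (by linarith), if_pos (by linarith), if_neg (by linarith)]; ring
    · rw [if_neg (by linarith), if_neg (by linarith), if_neg (by linarith)]; ring
    · rw [if_neg (by linarith), if_pos (by linarith), if_pos d]; ring
    · rw [if_pos (by linarith), if_pos (by linarith), if_neg (by linarith)]; ring
    · rw [if_neg (by linarith), if_neg (by linarith), if_neg (by linarith)]; ring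
  have sL : ∀ r ∈ ball e0.1 δ, r < e0.1 →
      (Ev.filter fun e => e.1 < r) = Ev.filter fun e => e.1 < e0.1 := fun r hr l =>
    Finset.filter_congr fun e he => by
      by_cases x : e.1 = e0.1
      · rw [x]
        exact iff_of_false (not_lt.2 l.le) (lt_irrefl _)
      · exact (hδ r hr).1 e he x
  have sR : ∀ r ∈ ball e0.1 δ, e0.1 < r → ∑ e ∈ Ev with e.1 < r, sg e * st (f e.1) e.2 =
      ∑ e ∈ Ev with e.1 < e0.1, sg e * st (f e.1) e.2 +
        ∑ e ∈ Ev with e.1 = e0.1, sg e * st (f e.1) e.2 := fun r hr l => by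
    rw [Finset.sum_filter, Finset.sum_filter, Finset.sum_filter, ← Finset.sum_add_distrib]
    refine Finset.sum_congr rfl fun e he => ?_
    by_cases x : e.1 = e0.1
    · rw [if_pos (x ▸ l), if_neg (x ▸ lt_irrefl _), if_pos x, zero_add]
    · rw [if_neg x, add_zero, if_congr ((hδ r hr).1 e he x) rfl rfl]
  have mL : ∀ r ∈ ball e0.1 δ, r ∈ D → r ∈ Icc r₁ r₂ → r < e0.1 →
      ((Cr r).filter fun q => lam < a r * th r q) =
        (Cr r).filter fun q => κ + sg e0 * ε < th r q := fun r hr x1 x2 l =>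
    Finset.filter_congr fun q hq => ((hδ r hr).2 q ((h.cr r x1 x2 q).1 hq)).1 l
  have mR : ∀ r ∈ ball e0.1 δ, r ∈ D → r ∈ Icc r₁ r₂ → e0.1 < r →
      ((Cr r).filter fun q => lam < a r * th r q) =
        (Cr r).filter fun q => κ - sg e0 * ε < th r q := fun r hr x1 x2 l =>
    Finset.filter_congr fun q hq => ((hδ r hr).2 q ((h.cr r x1 x2 q).1 hq)).2 l
  refine ⟨min δ (min δ1 δ2), lt_min δ0 (lt_min p1 p2), fun r hr r' hr' hD hD' hI hI' hle => ?_⟩
  have i0 := ball_subset_ball (x := e0.1) (min_le_left δ (min δ1 δ2))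
  have i1 := ball_subset_ball (x := e0.1) ((min_le_right δ _).trans (min_le_left δ1 δ2))
  have i2 := ball_subset_ball (x := e0.1) ((min_le_right δ _).trans (min_le_right δ1 δ2))
  rcases (hD.2 e0 he0).lt_or_gt with x | x
  · have x' := x.trans_le hle
    rw [sR r (i0 hr) x, sR r' (i0 hr') x', mR r (i0 hr) hD.1 hI x, mR r' (i0 hr') hD'.1 hI' x']
    exact sub_le_sub_right (l2 r (i2 hr) r' (i2 hr') hD.1 hD'.1 hI hI' hle) _
  · rcases (hD'.2 e0 he0).lt_or_gt with x' | x'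
    · rw [sL r (i0 hr) x, sR r' (i0 hr') x', mL r (i0 hr) hD.1 hI x, mR r' (i0 hr') hD'.1 hI' x']
      have y1 := l1 r (i1 hr) _ (mem_ball_self p1) hD.1 hD0 hI h0 (le_of_lt x)
      have y2 := l2 _ (mem_ball_self p2) r' (i2 hr') hD0 hD'.1 h0 hI' x'.le
      omega
    · rw [sL r (i0 hr) x, sL r' (i0 hr') x', mL r (i0 hr) hD.1 hI x, mL r' (i0 hr') hD'.1 hI' x']
      exact sub_le_sub_right (l1 r (i1 hr) r' (i1 hr') hD.1 hD'.1 hI hI' hle) _

theorem Ln.line (h : Ln f th Z a lam D Cr Ev sg r₁ r₂) :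
    ∑ e ∈ Ev, sg e * st (f e.1) e.2 ≤ 0 := by
  classical
  have ne : ∀ r, a r = 0 → ∀ e ∈ Ev, e.1 ≠ r := fun r hr e he x => h.lam0 (by
    rw [← ((h.ev e).1 he).2.2, x, hr, zero_mul])
  have := glob (G := {r | r ∈ D ∧ ∀ e ∈ Ev, e.1 ≠ r}) (Φ := fun r =>
    ∑ q ∈ Cr r with lam < a r * th r q, st (f r) q - ∑ e ∈ Ev with e.1 < r, sg e * st (f e.1) e.2)
    (fun s t x1 x2 x3 => by
      obtain ⟨t', y1, y2, y3⟩ := avoid x2 (Ev.finite_toSet.image Prod.fst)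
      obtain ⟨l, z1, z2, z3⟩ := h.dense s t' x1 y1 (y2.trans x3)
      exact ⟨l, ⟨z1, fun e he x => y3 l z2 z3 ⟨e, he, x⟩⟩, z2, z3.trans_le y2⟩)
    (fun r0 h0 => h.mono h0) r₁ ⟨h.d1, ne _ h.a1⟩ r₂ ⟨h.d2, ne _ h.a2⟩ le_rfl h.le le_rfl
  have e1 : (Ev.filter fun e => e.1 < r₁) = ∅ :=
    Finset.filter_eq_empty_iff.2 fun e he => not_lt.2 ((h.ev e).1 he).1.1
  have e2 : (Ev.filter fun e => e.1 < r₂) = Ev :=
    Finset.filter_true_of_mem fun e he => ((h.ev e).1 he).1.2.lt_of_ne (ne _ h.a2 e he)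
  simp only [e1, e2, h.a1, h.a2, zero_mul, Finset.sum_empty] at this
  by_cases d : lam < 0
  · simp only [d, Finset.filter_true, (h.tame _ h.d1 ⟨le_rfl, h.le⟩).tot,
      (h.tame _ h.d2 ⟨h.le, le_rfl⟩).tot] at this
    omega
  · simp only [d, Finset.filter_false, Finset.sum_empty] at this
    omega

end Pool.Agent.MP_3ee8cb_gt.D3NP
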