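import Pool.Agent.MP_3ee8cb_gt.D3NP.Spec
import Pool.Agent.MP_3ee8cb_gt.D3.Top

/-! Rigidity in dimension three without pinching, from the blocks. -/

namespace Pool.Agent.MP_3ee8cb_gt.D3NP

open Set MeasureTheory D3
open CR (Met UT)
open scoped RealInnerProductSpace

namespace Top2

/-- The least value on an interval. -/
noncomputable def mn (T : ℝ) (f : (V × V) × ℝ → ℝ) (z : V × V) : ℝ :=
  sInf ((fun t => f (z, t)) '' Icc (-T) T)

variable {T : ℝ} {f : (V × V) × ℝ → ℝ}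

theorem mn_cont (h : ContinuousOn f {p | ‖p.1.2‖ = 1}) :
    ContinuousOn (mn T f) {z | ‖z.2‖ = 1} := by
  rw [continuousOn_iff_continuous_domRestrict]
  exact isCompact_Icc.continuous_sInf
    (f := fun (z : {z : V × V | ‖z.2‖ = 1}) (t : ℝ) => f (z.1, t))
    (h.comp_continuous ((continuous_subtype_val.comp continuous_fst).prodMk continuous_snd)
      fun p => p.1.2)

theorem mn_spec (hT : 0 ≤ T) (h : ContinuousOn f {p | ‖p.1.2‖ = 1}) {z : V × V} (hz : ‖z.2‖ = 1) :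
    (∃ t ∈ Icc (-T) T, mn T f z = f (z, t)) ∧ ∀ t ∈ Icc (-T) T, mn T f z ≤ f (z, t) := by
  obtain ⟨t, ht, e, le⟩ := (isCompact_Icc (a := -T) (b := T)).exists_sInf_image_eq_and_le
    (nonempty_Icc.2 (by linarith)) (f := fun t => f (z, t))
    (h.comp_continuous (continuous_const.prodMk continuous_id) fun _ => hz).continuousOn
  exact ⟨⟨t, ht, e⟩, fun u hu => e.trans_le (le u hu)⟩

theorem fib {g : V → ℝ} (c : ContinuousOn g {a | ‖a‖ = 1}) (h : sph g ≤ sph fun _ => 1) :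
    sph (fun a => 2 * (g a - 1)) ≤ 0 := by
  unfold sph at h ⊢
  rw [integral_const_mul, integral_sub (sph_int c) (sph_int continuousOn_const)]
  linarith

/-- Every front has a focal point with unit Jacobian on each of its geodesics. -/
theorem focal (int : SINT2) (orb : S_ORB) (al3 : S_AL3) (dia : S_DIAA) {m m' : MF}
    {φ : V × V → V × V} {Γ : Type} [Group Γ] [MulAction Γ V] {O : Γ → V → V ≃ₗᵢ[ℝ] V} {a : ℝ}
    (o : m.OK) (j : m.Jac) (aO : Act m Γ O) (fd : CR.FdP 3 Γ) (ha : 0 < a) (lk : Lk2 m m' φ a)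
    (sc : Sc2 m' φ Γ O) (hT : 0 ≤ T) (fb : ∀ x (g : V → ℝ), ContinuousOn g {b | ‖b‖ = 1} →
      (∀ b t, ‖b‖ = 1 → |t| ≤ T → g b ≤ |(At2 m' (fr φ x) t b).det|) → sph g ≤ sph fun _ => 1)
    (z : V × V) (hz : ‖z.2‖ = 1) : ∃ t ∈ Icc (-T) T, At m' (fr φ z.1) t z.2 = 0 ∧
      Dt m' (fr φ z.1) 0 t z.2 = 1 := by
  obtain ⟨D, hD⟩ : ∃ D : ℝ → (V × V) × ℝ → ℝ, ∀ c p, D c p = Dt m' (fr φ p.1.1) c p.2 p.1.2 :=
    ⟨_, fun _ _ => rfl⟩
  obtain ⟨P, hP⟩ : ∃ P : (V × V) × ℝ → ℝ, ∀ p, P p = pn (D (a / 2) p) (D (-(a / 2)) p) (D 0 p) :=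
    ⟨_, fun _ => rfl⟩
  have cD : ∀ c, ContinuousOn (D c) {p | ‖p.1.2‖ = 1} := fun c =>
    ((sc.cD c).mono fun p hp e => by simp [e] at hp).congr fun p _ => hD c p
  have pt : ∀ p : (V × V) × ℝ, ‖p.1.2‖ = 1 → 0 < D (a / 2) p ∧ 0 < D (-(a / 2)) p ∧ 0 ≤ P p ∧
      (P p = 0 → At m' (fr φ p.1.1) p.2 p.1.2 = 0 ∧ D 0 p = 1) := fun p hp => by
    obtain ⟨C, kM, kN, hh, hv, vh, vv, A, A', o1, o2, h⟩ := lk p.1 hp
    obtain ⟨h1, h2⟩ := h 0 p.2
    rw [o.zero, sub_zero] at h1 h2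
    obtain ⟨a1, a2, a3, a4⟩ := al3 a _ _ ha (dia a C kM kN hh hv vh vv A A' ha o1 o2 0 p.2)
    rw [hP, hD, hD, hD, h1, h1, h1, h2, zero_smul, add_zero]
    exact ⟨abs_pos.2 a1, abs_pos.2 a2, a3, a4⟩
  have cP : ContinuousOn P {p | ‖p.1.2‖ = 1} :=
    (((continuousOn_const.div ((cD _).mul (cD _)).sqrt fun p hp =>
      (Real.sqrt_pos.2 (mul_pos (pt p hp).1 (pt p hp).2.1)).ne').sub continuousOn_const).add
      (continuousOn_const.mul (cD 0))).congr fun p _ => hP p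
  have z0 : ∀ X Y : V →L[ℝ] V, X + (0 : ℝ) • Y = X := fun X Y =>
    ContinuousLinearMap.ext fun v => by simp
  have cμ := mn_cont (T := T) (cD 0)
  have cq := mn_cont (T := T) cP
  have key := int m Γ O (fun z => 2 * (mn T (D 0) z - 1)) (mn T P) (8 / a + 4 * T) o j aO fd
    (continuousOn_const.mul (cμ.sub continuousOn_const)) cq
    (fun γ w hw => by simp only [mn, hP, hD, sc.iD γ w _ _ hw, and_self])
    (fun w hw => ⟨by
      obtain ⟨t, -, e⟩ := (mn_spec hT cP hw).1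
      exact e ▸ (pt (w, t) hw).2.2.1, fun S hS => by
      obtain ⟨C, kM, kN, hh, hv, vh, vv, A, A', o1, o2, h⟩ := lk w hw
      have un : ∀ s, ‖(m.Z s w).2‖ = 1 := fun s => (j.norm s w).trans hw
      have cz : Continuous fun s => m.Z s w :=
        continuous_iff_continuousAt.2 fun s => (o.ode w s).continuousAt
      refine orb a C kM kN hh hv vh vv A A' ha o1 o2 T (fun s => mn T (D 0) (m.Z s w))
        (fun s => mn T P (m.Z s w)) hT (cμ.comp_continuous cz un) (cq.comp_continuous cz un)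
        (fun s => ?_) (fun s t ht => ?_) S hS
      · obtain ⟨u, hu, e⟩ := (mn_spec hT (cD 0) (un s)).1
        refine ⟨u + s, ⟨by linarith [hu.1], by linarith [hu.2]⟩, ?_⟩
        have := (h s (u + s)).1 0
        rw [add_sub_cancel_right, zero_smul, add_zero] at this
        rw [e, hD, this]
      · have := (mn_spec hT cP (un s)).2 (t - s) ⟨by linarith [ht.1], by linarith [ht.2]⟩
        rwa [hP, hD, hD, hD, (h s t).1, (h s t).1, (h s t).1, zero_smul, add_zero] at this⟩)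
    (fun x => by
      have i : ContinuousOn (fun b : V => (x, b)) {b | ‖b‖ = 1} := by fun_prop
      refine fib (cμ.comp i fun _ h => h) (fb x _ (cμ.comp i fun _ h => h) fun b t hb ht => ?_)
      have := (mn_spec hT (cD 0) (z := (x, b)) hb).2 t (abs_le.1 ht)
      rwa [hD, Dt, z0] at this) z hz
  obtain ⟨t, ht, e⟩ := (mn_spec hT cP hz).1
  obtain ⟨h1, h2⟩ := (pt (z, t) hz).2.2.2 (e ▸ key)
  exact ⟨t, ht, h1, hD 0 (z, t) ▸ h2⟩

end Top2

theorem mainA2 (Reg : MF → Prop) (Q : Met 3 → Prop) (jac : SJAC) (frm : SFRM)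
    (frm' : On1 fun h C _ _ _ Ψ => Q h → ∃ m : MF, m.OK ∧ Lk h C Ψ m ∧ Reg m) (had : SHAD)
    (act : SACT) (flp : SFLP) (sc1 : SC1) (scf : SCF) (ssy : SSY) (sod : SOD) (wid : SWID)
    (fin : SEND) (fib : SFIB Reg) (sc2 : SSC2) (fl2 : SFL2) (lk2 : SLK2) (int : SINT2)
    (con : SCON) (ta2 : STA2) (zer : SZER) (orb : S_ORB) (al3 : S_AL3) (dia : S_DIAA) :
    MainA2 Q := by
  intro g h _ C' Γ Λ _ _ _ _ Φ Ψ ρ F qg qh _ ch dΓ dΛ cj a hi ha hQ ⟨C, cg, kg⟩ kh f1 f2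
  have kh' : TB.CurvLe h a := ⟨C', ch, fun x u v => (kh x u v).2⟩
  obtain ⟨m, o, l⟩ := frm g C Γ Φ qg cg
  obtain ⟨m', o', l', rg⟩ := frm' h C' Λ Ψ qh ch hQ
  have j := jac m o
  have j' := jac m' o'
  obtain ⟨O, aO⟩ := act g C Γ Φ qg cg m o l dΓ
  obtain ⟨O', aO'⟩ := act h C' Λ Ψ qh ch m' o' l' dΛ
  obtain ⟨lg, hl, -⟩ := had h C' Λ Ψ qh ch m' a o' j' l' ha kh'
  obtain ⟨mn, s, F', e, cj', fl⟩ := flp g h C C' Γ Λ Φ Ψ ρ F qg qh cg ch dΓ dΛ cj a ha kh'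
  obtain ⟨g1, g2⟩ := sc1 g h C C' Γ Λ Φ Ψ ρ F qg qh cg ch dΓ dΛ cj s F' e f1 f2
  obtain ⟨φ, cf, eq⟩ := scf g h C C' Γ Λ Φ Ψ ρ F' qg qh cg ch dΓ dΛ cj' m m' O O' o j o' j' l l'
    aO aO' mn fl g1 g2
  have u0 : m.Up 0 := fun y u v => by
    have := kg y (m.R y u) (m.R y v)
    rw [(l.sec o y u v).1]
    linarith
  have u1 : m'.Up (a ^ 2) := fun y u v => by
    have := (kh y (m'.R y u) (m'.R y v)).2
    rw [(l'.sec o' y u v).1, ← (l'.sec o' y u v).2]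
    linarith
  have d1 : m'.Dn hi := fun y u v => by
    have := (kh y (m'.R y u) (m'.R y v)).1
    rw [(l'.sec o' y u v).1, ← (l'.sec o' y u v).2]
    linarith
  have u2 : m'.Up 0 := fun y u v => le_trans (by
    have := real_inner_mul_inner_self_le u v
    rw [real_inner_self_eq_norm_sq, real_inner_self_eq_norm_sq] at this
    nlinarith [mul_nonneg (sq_nonneg a) (sub_nonneg.2 this)]) (u1 y u v)
  obtain ⟨sy, ft⟩ := ssy m m' φ a hi o j o' j' cf ha u0 u1 d1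
  obtain ⟨⟨T₀, gd⟩, -⟩ := sod m m' φ a hi o j o' j' cf ha u0 u1 d1 sy
  have lk := lk2 m m' φ a hi o j o' j' cf ha u0 u1 d1 sy
  have sc := sc2 m m' φ Γ Λ ρ O O' o o' cf aO aO' eq
  have T : (0 : ℝ) < max T₀ 1 := lt_max_of_lt_right one_pos
  have foc := Top2.focal int orb al3 dia o j aO (CR.fd 3 g Γ qg.rp.deck) ha lk sc T.le fun x => by
    have G : m'.Good (fr φ x) (max T₀ 1) := ⟨(gd x).inj, (gd x).sym, fun a e t h1 h2 h3 h4 =>
      (gd x).pos a e t h1 h2 h3 ((le_max_left _ _).trans h4)⟩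
    exact fib m' lg _ _ o' j' u2 hl (ft x) G T rg (wid m' lg _ _ o' j' u2 hl (ft x) G T) (a ^ 2)
      (by positivity) u1
  obtain ⟨τ, cτ, hτ⟩ := ta2 m m' φ Γ O a _ o j ha lk sc
    (fun x b t hb => (fl2 m' _ o' j' (ft x) b hb).1 t) foc
  have z0 := zer g C Γ Φ m O τ o l aO (con g h C C' Γ Λ Φ Ψ ρ F qg qh cg ch dΓ dΛ cj a ha kh') cτ
    fun z hz => (hτ z hz).2
  exact fin g h C C' Γ Λ Φ Ψ ρ F' qg qh cg ch dΓ dΛ cj' m m' O O' φ lg o j o' j' l l' aO aO' hl cf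
    eq fun x b hb => (fl2 m' _ o' j' (ft x) b hb).2 (z0 (x, b) hb ▸ (hτ (x, b) hb).1)

end Pool.Agent.MP_3ee8cb_gt.D3NP
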