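import Pool.Agent.MP_3ee8cb_gt.D3NP.KSpec
import Pool.Agent.MP_3ee8cb_gt.D3AR.RSAF

/-! The area formula with signs. -/

namespace Pool.Agent.MP_3ee8cb_gt.D3NP

open Set Filter Topology MeasureTheory D3
open scoped ENNReal

namespace XARE

theorem half (E : V → V) (s : Set V) (d : ℝ) (hs : MeasurableSet s)
    (c : ∀ a ∈ s, ContDiffAt ℝ 1 E a) : ∫⁻ a in s, ENNReal.ofReal (d * jc E a) =
      ∫⁻ v, (({a ∈ s | E a = v ∧ 0 < d * jc E a}.encard : ℕ∞) : ℝ≥0∞) * ENNReal.ofReal |d| := by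
  have mj : Measurable fun a => d * jc E a :=
    (ContinuousLinearMap.continuous_det.measurable.comp (measurable_fderiv ℝ E)).const_mul d
  have mp : MeasurableSet {a | 0 < d * jc E a} := measurableSet_lt measurable_const mj
  obtain ⟨N, -, hN, h⟩ := D3AR.saf V volume E (fderiv ℝ E) (s ∩ {a | 0 < d * jc E a})
    (hs.inter mp) fun x hx => ⟨(c x hx.1).hasStrictFDerivAt one_ne_zero, fun h0 => by
      have h1 : 0 < d * jc E x := hx.2
      rw [jc, h0, mul_zero] at h1
      exact lt_irrefl _ h1⟩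
  have h1 := h (fun _ => ENNReal.ofReal |d|) measurable_const
  have h2 : ∀ v, N v = (({a ∈ s | E a = v ∧ 0 < d * jc E a}.encard : ℕ∞) : ℝ≥0∞) := fun v => by
    have e : s ∩ {a | 0 < d * jc E a} ∩ E ⁻¹' {v} = {a ∈ s | E a = v ∧ 0 < d * jc E a} := by
      ext a
      exact ⟨fun k => ⟨k.1.1, k.2, k.1.2⟩, fun k => ⟨⟨k.1, k.2.2⟩, k.2.1⟩⟩
    rw [hN, e]
  simp only [h2] at h1
  rw [← h1, inter_comm, ← Measure.restrict_restrict mp, ← lintegral_indicator mp]
  refine lintegral_congr fun a => ?_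
  by_cases ha : 0 < d * jc E a
  · rw [indicator_of_mem (show a ∈ {a | 0 < d * jc E a} from ha),
      ← ENNReal.ofReal_mul (abs_nonneg _), ← abs_mul, mul_comm _ d]
    exact congrArg _ (abs_of_pos ha).symm
  · rw [indicator_of_notMem (show a ∉ {a | 0 < d * jc E a} from ha)]
    exact ENNReal.ofReal_of_nonpos (not_lt.1 ha)

end XARE

theorem xARE : SARE := by
  intro E s ε hs c hi h
  have hi' : Integrable (fun a => ε * jc E a) (volume.restrict s) := hi.const_mul ε
  rw [integral_eq_lintegral_pos_part_sub_lintegral_neg_part hi', sub_nonpos]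
  refine ENNReal.toReal_mono ?_ ?_
  · exact ((lintegral_ofReal_le_lintegral_enorm _).trans_lt hi'.neg.2).ne
  · simp only [← neg_mul]
    rw [XARE.half E s ε hs c, XARE.half E s (-ε) hs c, abs_neg]
    refine lintegral_mono_ae ?_
    filter_upwards [h] with v hv
    refine mul_le_mul_left ?_ _
    simp only [neg_mul, Left.neg_pos_iff]
    exact_mod_cast hv

end Pool.Agent.MP_3ee8cb_gt.D3NP
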