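import Pool.Agent.MP_3ee8cb_gt.D3NP.XG4

/-! The geometric family: critical points and values. -/

namespace Pool.Agent.MP_3ee8cb_gt.D3NP

open Set Metric D3 D3WI
open D3AR (un)
open D3NB (Ph Ph_exp polar dnorm' dlt w_unit)
open scoped RealInnerProductSpace

namespace XG2b

variable {m : MF} {lg : V × V → V} {σ : V → V × V}

theorem un_eq {q : V} (hq : ‖q‖ = 1) : un q = q := by simp [un, hq]

theorem dun {q : V} (hq : ‖q‖ = 1) :
    HasFDerivAt un (.id ℝ V - (innerSL ℝ q).smulRight q) q := by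
  have h1 := dnorm' (ne_of_norm hq)
  have h2 := ((hasDerivAt_inv (x := ‖q‖) (by simp [hq])).comp_hasFDerivAt q h1).smul
    (hasFDerivAt_id (𝕜 := ℝ) q)
  refine h2.congr_fderiv (ContinuousLinearMap.ext fun e => ?_)
  simp [hq, sub_eq_add_neg]

theorem dbe (ho : m.OK) (hl : m.Had lg) (hf : m.Front σ) (L : ℝ) (z : V) {q : V} (hq : ‖q‖ = 1)
    (hN : ‖lg (z, (m.Z (-L) (σ q)).1)‖ ≠ 0) (x e : V) :
    fderiv ℝ (be m lg σ L) (z, q) (x, e) = ‖lg (z, (m.Z (-L) (σ q)).1)‖⁻¹ *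
      (-⟪lg (z, (m.Z (-L) (σ q)).1), m.S z x⟫ -
        ⟪lg ((m.Z (-L) (σ q)).1, z), At m σ (-L) q e⟫) := by
  have h1 := front_fderiv ho hf (ne_of_norm hq) (-L)
  have h1' := h1
  rw [← un_eq hq] at h1'
  have h2 := (h1'.comp q (dun hq)).comp (z, q) (hasFDerivAt_snd (𝕜 := ℝ) (p := (z, q)))
  have h3 := (hasFDerivAt_fst (𝕜 := ℝ) (p := (z, q))).prodMk h2
  have h4 : DifferentiableAt ℝ (fun q => ‖lg q‖ ^ 2 / 2) (z, (m.Z (-L) (σ (un q))).1) :=
    ((hl.c1.norm_sq ℝ).div_const 2).differentiable one_ne_zero _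
  have h5 := ((h4.hasFDerivAt.comp (z, q) h3).const_mul 2).sqrt (by
    simp only [Function.comp_apply, un_eq hq]
    positivity)
  have e1 : ∀ r : ℝ, 0 ≤ r → √(2 * (r ^ 2 / 2)) = r := fun r hr => by
    rw [mul_div_cancel₀ _ two_ne_zero, Real.sqrt_sq hr]
  simp only [Function.comp_apply, e1 _ (norm_nonneg _)] at h5
  have h6 : HasFDerivAt (be m lg σ L) _ (z, q) := h5.sub_const L
  rw [h6.fderiv]
  simp only [un_eq hq, smul_apply, ContinuousLinearMap.comp_apply, hl.grad,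
    ContinuousLinearMap.prod_apply, ContinuousLinearMap.coe_fst', ContinuousLinearMap.coe_snd',
    ho.SR, Prod.swap_prod_mk, smul_eq_mul]
  have e2 : At m σ (-L) q e = JL m σ q (-L) ((ContinuousLinearMap.id ℝ V -
    (innerSL ℝ q).smulRight q) e) := rfl
  rw [e2]
  field_simp

theorem nrm (ho : m.OK) (hj : m.Jac) (hf : m.Front σ) {q : V} (hq : ‖q‖ = 1) (t : ℝ) (e : V) :
    ⟪(m.Z t (σ q)).2, At m σ t q e⟫ = 0 := by
  rw [At_apply, real_inner_comm, J_front ho hj hf (ne_of_norm hq), inner_sub_right,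
    inner_smul_right, real_inner_self_eq_norm_sq, hq]
  ring

theorem col (ho : m.OK) (hj : m.Jac) (hf : m.Front σ) {q l : V} (hq : ‖q‖ = 1) {t : ℝ}
    (hd : dlt m σ t q ≠ 0) (hl : ∀ e, ⟪l, At m σ t q e⟫ = 0) :
    l = ⟪l, (m.Z t (σ q)).2⟫ • (m.Z t (σ q)).2 := by
  refine ext_inner_right ℝ fun v => ?_
  obtain ⟨e, rfl⟩ := (ContinuousLinearMap.toContinuousLinearEquivOfDetNeZero _ hd).surjective v
  simp only [ContinuousLinearMap.toContinuousLinearEquivOfDetNeZero_apply, add_apply,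
    ContinuousLinearMap.smulRight_apply, inner_add_right, hl, real_inner_smul_left,
    nrm ho hj hf hq, inner_smul_right, real_inner_self_eq_norm_sq, w_unit hj hf hq]
  ring

end XG2b

open XG2b XG4 in
theorem xG2b : SG2 := by
  intro m lg σ T ho hj _ hl hf _ hT ρ L e s hb hs
  have hL := hb.le
  refine ⟨fun z hz q hq h => ?_, fun a ha hO => ?_⟩
  · have h0 := hb.big z hz q hq
    have h1 := geo ho hj hl hf hq 0 (-L)
    rw [ho.zero, sub_zero, abs_neg, abs_of_pos (by linarith)] at h1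
    have h2 := hl.tri (σ q).1 z (m.Z (-L) (σ q)).1
    rw [lg_symm hj hl z, h1] at h2
    have hN : 0 < ‖lg (z, (m.Z (-L) (σ q)).1)‖ := by linarith
    have hd : dlt m σ (-L) q ≠ 0 := fun h0 => by
      have := hs.far q (-L) hq (by linarith)
      rw [h0, mul_zero] at this
      exact lt_irrefl _ this
    have h3 := col ho hj hf hq hd (l := lg ((m.Z (-L) (σ q)).1, z)) fun e => by
      have := h e
      rw [dbe ho hl hf L z hq hN.ne', map_zero, inner_zero_right, neg_zero, zero_sub] at this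
      exact neg_eq_zero.1 ((mul_eq_zero.1 this).resolve_left (inv_ne_zero hN.ne'))
    generalize ⟪lg ((m.Z (-L) (σ q)).1, z), (m.Z (-L) (σ q)).2⟫ = r at h3
    have h4 := hl.ex (m.Z (-L) (σ q)).1 z
    rw [h3, one_smul' hj, ← ho.add] at h4
    have h4' : (m.Z (r + -L) (σ q)).1 = z := h4
    have h5 := dist_geo ho hj hl (σ q) (r + -L) 0
    rw [ho.zero, h4', hf.norm q (ne_of_norm hq), hq, mul_one] at h5
    have h6 := geo ho hj hl hf hq (r + -L) (-L)
    rw [h4'] at h6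
    rw [h5] at h0
    have h7 := (abs_lt.1 h0).2
    rw [be_eq L z hq, h6, abs_of_nonpos (by linarith), Cc, Ph_exp hq, ← h4']
    ring_nf
  · have hp : ‖un a‖ = 1 := (polar ha).1
    have hC : Cc m σ a = (m.Z (Real.log ‖a‖) (σ (un a))).1 := rfl
    have hw : ww m σ a = (m.Z (Real.log ‖a‖) (σ (un a))).2 := rfl
    have h0 := hb.big _ hO _ hp
    have h3 := geo ho hj hl hf hp (Real.log ‖a‖) 0
    rw [ho.zero, zero_sub, abs_neg, ← hC] at h3
    rw [h3] at h0
    have h4 := (abs_lt.1 h0).1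
    have h5 := geo ho hj hl hf hp (Real.log ‖a‖) (-L)
    rw [abs_of_nonpos (by linarith)] at h5
    refine ⟨?_, fun x e => ?_⟩
    · change ‖lg (Cc m σ a, (m.Z (-L) (σ (un a))).1)‖ - L = _
      rw [hC, h5]
      ring
    · have h6 : -(-L - Real.log ‖a‖) ≠ 0 := by linarith
      rw [dbe ho hl hf L _ hp (by rw [hC, h5]; exact h6), th,
        ContinuousLinearMap.adjoint_inner_left, hw, hC, h5, lg_geo ho hj hl, lg_geo ho hj hl,
        real_inner_smul_left, real_inner_smul_left, nrm ho hj hf hp, mul_zero, sub_zero,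
        ← neg_mul, ← mul_assoc, inv_mul_cancel₀ h6, one_mul]

end Pool.Agent.MP_3ee8cb_gt.D3NP
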