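import Pool.Agent.MP_3ee8cb_gt.D3NP.GSpec
import Pool.Agent.MP_3ee8cb_gt.D3WI.Base

/-! At most two focal times on every ray. -/

namespace Pool.Agent.MP_3ee8cb_gt.D3NP

open Set D3 D3NB D3GB D3GB.RP2
open scoped RealInnerProductSpace

namespace XG5b

variable {m : MF} {σ : D3.V → D3.V × D3.V} {T : ℝ} {p : D3.V}

theorem mono (hm : m.OK) (hj : m.Jac) (up : m.Up 0) (gd : m.Good σ T) (hp : ‖p‖ = 1) {e : D3.V}
    (he : ⟪p, e⟫ = 0) (h0 : e ≠ 0) : StrictMono fun t =>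
      ⟪m.J (σ p) (fderiv ℝ σ p e) t, m.J' (σ p) (fderiv ℝ σ p e) t⟫ := by
  refine strictMono_of_hasDerivAt_pos (fun t => (hj.d1 _ _ t).inner ℝ (hj.d2 _ _ t)) fun t => ?_
  have h1 := up (m.Z t (σ p)).1 (m.J (σ p) (fderiv ℝ σ p e) t) (m.Z t (σ p)).2
  have h2 : 0 < ⟪m.J' (σ p) (fderiv ℝ σ p e) t, m.J' (σ p) (fderiv ℝ σ p e) t⟫ :=
    real_inner_self_pos.2 fun h => h0 (gd.inj p e t hp he h)
  have h3 := hm.skew (m.Z t (σ p)).1 (m.R (m.Z t (σ p)).1 (m.Z t (σ p)).2)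
    (m.J (σ p) (fderiv ℝ σ p e) t) (m.J' (σ p) (fderiv ℝ σ p e) t)
  rw [zero_mul, real_inner_comm] at h1
  simp only [inner_sub_left, inner_sub_right, inner_neg_right, MF.w]
  linarith

theorem ker (hm : m.OK) (hj : m.Jac) (hσ : m.Front σ) (hp : ‖p‖ = 1) {t : ℝ}
    (h : jc (Cc m σ) (Real.exp t • p) = 0) :
    ∃ e, e ≠ 0 ∧ ⟪p, e⟫ = 0 ∧ m.J (σ p) (fderiv ℝ σ p e) t = 0 := by
  have h1 := det_Psi hm hσ hp t
  have h2 : (fderiv ℝ (fun x => (Ph m σ x).1) (Real.exp t • p)).det = 0 := h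
  rw [h2, mul_zero] at h1
  have h3 : dlt m σ t p = 0 :=
    (mul_eq_zero.1 h1.symm).resolve_left (pow_ne_zero _ (inv_ne_zero (Real.exp_pos t).ne'))
  obtain ⟨e, he, h6⟩ := Submodule.exists_mem_ne_zero_of_ne_bot
    (LinearMap.det_eq_zero_iff_ker_ne_bot.1 h3)
  have h4 : At m σ t p e + ⟪p, e⟫ • (m.Z t (σ p)).2 = 0 := he
  have n : ⟪p, p⟫ = 1 := by rw [real_inner_self_eq_norm_sq, hp, one_pow]
  have h5 := congrArg (fun x => ⟪(m.Z t (σ p)).2, x⟫) h4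
  have h7 := D3WI.J_front hm hj hσ (ne_of_unit hp) (e - ⟪p, e⟫ • p) t
  simp only [inner_add_right, inner_smul_right, inner_zero_right, At_apply,
    real_inner_self_eq_norm_sq, w_unit hj hσ hp] at h5
  rw [inner_sub_right, inner_smul_right, n, mul_one, sub_self, mul_zero, real_inner_comm] at h7
  have h8 : ⟪p, e⟫ = 0 := by linarith
  rw [At_apply, h8, zero_smul, zero_smul, sub_zero, add_zero] at h4
  exact ⟨e, h6, h8, h4⟩

theorem dec (hp : ‖p‖ = 1) {e u : D3.V} (he : ⟪p, e⟫ = 0) (hu : ⟪p, u⟫ = 0) :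
    ⟪u, u⟫ • e = ⟪e, u⟫ • u + ⟪e, cr p u⟫ • cr p u := by
  have n : ⟪p, p⟫ = 1 := by rw [real_inner_self_eq_norm_sq, hp, one_pow]
  simp only [inner3] at n he hu
  refine ext3 ?_ ?_ ?_ <;>
    simp only [inner3, PiLp.add_apply, PiLp.smul_apply, smul_eq_mul, cr0, cr1, cr2]
  · linear_combination (e 0 * u 0 * u 0 + e 1 * u 1 * u 0 + e 2 * u 2 * u 0 -
      (u 0 * u 0 + u 1 * u 1 + u 2 * u 2) * e 0) * n +
      (u 0 * u 0 + u 1 * u 1 + u 2 * u 2) * p 0 * he + ((p 0 * u 0 + p 1 * u 1 + p 2 * u 2) * e 0 -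
      (p 0 * e 0 + p 1 * e 1 + p 2 * e 2) * u 0 - (e 0 * u 0 + e 1 * u 1 + e 2 * u 2) * p 0) * hu
  · linear_combination (e 0 * u 0 * u 1 + e 1 * u 1 * u 1 + e 2 * u 2 * u 1 -
      (u 0 * u 0 + u 1 * u 1 + u 2 * u 2) * e 1) * n +
      (u 0 * u 0 + u 1 * u 1 + u 2 * u 2) * p 1 * he + ((p 0 * u 0 + p 1 * u 1 + p 2 * u 2) * e 1 -
      (p 0 * e 0 + p 1 * e 1 + p 2 * e 2) * u 1 - (e 0 * u 0 + e 1 * u 1 + e 2 * u 2) * p 1) * hu
  · linear_combination (e 0 * u 0 * u 2 + e 1 * u 1 * u 2 + e 2 * u 2 * u 2 -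
      (u 0 * u 0 + u 1 * u 1 + u 2 * u 2) * e 2) * n +
      (u 0 * u 0 + u 1 * u 1 + u 2 * u 2) * p 2 * he + ((p 0 * u 0 + p 1 * u 1 + p 2 * u 2) * e 2 -
      (p 0 * e 0 + p 1 * e 1 + p 2 * e 2) * u 2 - (e 0 * u 0 + e 1 * u 1 + e 2 * u 2) * p 2) * hu

theorem rank (gd : m.Good σ T) (hp : ‖p‖ = 1) {t : ℝ} {e u : D3.V} (he : ⟪p, e⟫ = 0)
    (hu : ⟪p, u⟫ = 0) (h : m.J (σ p) (fderiv ℝ σ p u) t = 0) :
    ⟪u, u⟫ ^ 2 * ⟪m.J (σ p) (fderiv ℝ σ p e) t, m.J' (σ p) (fderiv ℝ σ p e) t⟫ =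
      ⟪e, cr p u⟫ ^ 2 * ⟪m.J (σ p) (fderiv ℝ σ p (cr p u)) t,
        m.J' (σ p) (fderiv ℝ σ p (cr p u)) t⟫ := by
  have hf : ⟪p, cr p u⟫ = 0 := by
    simp only [inner3, cr0, cr1, cr2]
    ring
  have s := gd.sym p (cr p u) u t hp hf hu
  rw [h, inner_zero_right] at s
  have d := dec hp he hu
  have a := congrArg (fun x => m.J (σ p) (fderiv ℝ σ p x) t) d
  have b := congrArg (fun x => m.J' (σ p) (fderiv ℝ σ p x) t) d
  simp only [MF.J, MF.J', map_add, map_smul] at a b h s ⊢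
  have c := congrArg₂ (fun x y : D3.V => ⟪x, y⟫) a b
  simp only [h, smul_zero, zero_add, inner_add_right, real_inner_smul_left, real_inner_smul_right,
    s] at c
  linear_combination c

end XG5b

open XG5b in
theorem xG5b : SG5 := by
  intro m lg σ T hm hj up _ hσ gd _ ρ L e s _ _ p hp
  by_contra hinf
  obtain ⟨S, hS, hc⟩ := Set.Infinite.exists_subset_card_eq hinf 3
  obtain ⟨e0, n0, p0, z0⟩ := ker hm hj hσ hp (hS (S.orderEmbOfFin_mem hc 0))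
  obtain ⟨e1, n1, p1, z1⟩ := ker hm hj hσ hp (hS (S.orderEmbOfFin_mem hc 1))
  obtain ⟨e2, n2, p2, z2⟩ := ker hm hj hσ hp (hS (S.orderEmbOfFin_mem hc 2))
  have o := (S.orderEmbOfFin hc).strictMono
  have a := mono hm hj up gd hp p0 n0 (o (show (0 : Fin 3) < 1 by decide))
  have b := mono hm hj up gd hp p2 n2 (o (show (1 : Fin 3) < 2 by decide))
  simp only [z0, z2, inner_zero_left] at a b
  have r0 := rank gd hp p0 p1 z1
  have r2 := rank gd hp p2 p1 z1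
  have u := pow_pos (real_inner_self_pos.2 n1) 2
  have a' := mul_pos u a
  have b' := mul_neg_of_pos_of_neg u b
  rw [r0] at a'
  rw [r2] at b'
  exact b'.not_ge (mul_nonneg (sq_nonneg _) (pos_of_mul_pos_right a' (sq_nonneg _)).le)

end Pool.Agent.MP_3ee8cb_gt.D3NP
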