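import Pool.Agent.MP_3ee8cb_gt.D3NP.KSpec
import Pool.Agent.MP_3ee8cb_gt.D3NP.Nul30

/-! Almost every point is generic. -/

namespace Pool.Agent.MP_3ee8cb_gt.D3NP

open Set Filter Topology MeasureTheory D3
open D3AR (un)
open scoped RealInnerProductSpace

namespace XGOOD

theorem dlog {O : Set V} {C θ : V → V} {β : V × V → ℝ} {ε T : ℝ} (F : Fam O C θ β ε T) {a : V}
    (ha : a ≠ 0) (hO : C a ∈ O) (v : V) :
    fderiv ℝ (fun b : V => Real.log ‖b‖) a v = ⟪θ a, fderiv ℝ C a v⟫ := by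
  have n0 : {b : V | b ≠ 0} ∈ 𝓝 a := isOpen_ne.mem_nhds ha
  have r0 : 0 < ‖a‖⁻¹ := inv_pos.2 (norm_pos_iff.2 ha)
  have dC : HasFDerivAt C (fderiv ℝ C a) a :=
    ((F.cC.contDiffAt n0).differentiableAt one_ne_zero).hasFDerivAt
  have dβ : HasFDerivAt β (fderiv ℝ β (C a, un a)) (C a, ‖a‖⁻¹ • a) :=
    ((F.cβ.contDiffAt (x := (C a, ‖a‖⁻¹ • a)) ((F.op.prod isOpen_ne).mem_nhds
      ⟨hO, smul_ne_zero r0.ne' ha⟩)).differentiableAt one_ne_zero).hasFDerivAt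
  have d := HasFDerivAt.comp (f := fun b : V => (C b, ‖a‖⁻¹ • b)) a dβ
    (dC.prodMk ((hasFDerivAt_id a).const_smul ‖a‖⁻¹))
  have e : (fun b : V => Real.log ‖b‖) =ᶠ[𝓝 a] β ∘ fun b : V => (C b, ‖a‖⁻¹ • b) := by
    filter_upwards [n0, dC.continuousAt.preimage_mem_nhds (F.op.mem_nhds hO)] with b h1 h2
    exact ((F.hom _ _ _ r0).trans (F.val b h1 h2).1).symm
  rw [(d.congr_of_eventuallyEq e).fderiv]
  exact (F.val a ha hO).2 _ _

theorem fin {C : V → V} {z : V} (c : ContDiffOn ℝ 1 C {a | a ≠ 0})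
    (k : IsCompact {a | a ≠ 0 ∧ C a = z}) (h : ∀ a, a ≠ 0 → C a = z → jc C a ≠ 0) :
    {a | a ≠ 0 ∧ C a = z}.Finite := by
  obtain ⟨t, h0, ht⟩ := k.elim_nhds_subcover (fun a => {b | C b = C a → b = a}) fun a ha => by
    have c1 := c.contDiffAt (isOpen_ne.mem_nhds ha.1)
    let D := ContinuousLinearMap.toContinuousLinearEquivOfDetNeZero _ (h a ha.1 ha.2)
    have d1 : HasFDerivAt C (D : V →L[ℝ] V) a := (c1.differentiableAt one_ne_zero).hasFDerivAt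
    have l := (c1.hasStrictFDerivAt' d1 one_ne_zero).eventually_left_inverse
    filter_upwards [l] with b hb e
    rw [← hb, e]
    exact l.self_of_nhds
  refine t.finite_toSet.subset fun b hb => ?_
  obtain ⟨a, ha, e⟩ := mem_iUnion₂.1 (ht hb)
  rw [e (hb.2.trans (h0 a ha).2.symm)]
  exact ha

end XGOOD

theorem xGOOD : SGOOD := by
  intro O C θ β ε T F
  have c : ∀ a ∈ {a : V | a ≠ 0 ∧ C a ∈ O}, ContDiffAt ℝ 1 C a := fun a ha =>
    F.cC.contDiffAt (isOpen_ne.mem_nhds ha.1)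
  have cu : ∀ a ∈ {a : V | a ≠ 0 ∧ C a ∈ O}, ContDiffAt ℝ 1 (fun b : V => Real.log ‖b‖) a :=
    fun a ha => (contDiffAt_norm ℝ ha.1).log (norm_ne_zero_iff.2 ha.1)
  filter_upwards [measure_eq_zero_iff_ae_notMem.1 (nul c cu), measure_eq_zero_iff_ae_notMem.1
    (nul_crit fun a ha => (c a ha).differentiableAt one_ne_zero)] with z h1 h2 hz
  have j : ∀ a, a ≠ 0 → C a = z → jc C a ≠ 0 := fun a ha e h0 =>
    h2 ⟨a, ⟨ha, e ▸ hz⟩, e, h0⟩
  refine ⟨XGOOD.fin F.cC (F.cpt {z} isCompact_singleton (singleton_subset_iff.2 hz)) j, j,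
    fun a a' ha ha' e e' hn => ?_⟩
  by_contra hne
  have s : ∀ b, b ≠ 0 → C b = z → ∀ x, ∃ v, fderiv ℝ C b v = x := fun b hb eb =>
    (ContinuousLinearMap.toContinuousLinearEquivOfDetNeZero _ (j b hb eb)).surjective
  obtain ⟨v, hv⟩ := s a ha e (θ a - θ a')
  obtain ⟨w, hw⟩ := s a' ha' e' (θ a - θ a')
  refine h1 ⟨a, ⟨ha, e ▸ hz⟩, a', ⟨ha', e' ▸ hz⟩, e, e', j a ha e, j a' ha' e', by rw [hn], v, w,
    hv.trans hw.symm, fun k => hne (F.sep a a' ha ha' (e.trans e'.symm) ?_)⟩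
  rw [XGOOD.dlog F ha (e ▸ hz), XGOOD.dlog F ha' (e' ▸ hz), hv, hw, ← sub_eq_zero,
    ← inner_sub_left, inner_self_eq_zero] at k
  exact sub_eq_zero.1 k

end Pool.Agent.MP_3ee8cb_gt.D3NP
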