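import Pool.Agent.MP_3ee8cb_gt.D3NP.KSpec
import Pool.Agent.MP_3ee8cb_gt.D3NP.T3
import Pool.Agent.MP_3ee8cb_gt.D3CT.RGn
import Pool.Agent.MP_3ee8cb_gt.D3MO.Sph

/-! The counting inequality on a generic line. -/

namespace Pool.Agent.MP_3ee8cb_gt.D3NP

open Set Filter Topology MeasureTheory Metric D3
open D3MO (S2 Cr Low dec sGno sSph)
open D3CT (Gn rowGn W)
open D3AR (un)
open scoped RealInnerProductSpace

namespace XLINE

variable {O : Set V} {C θ : V → V} {β : V × V → ℝ} {ε T : ℝ}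

theorem nq (q : S2) : ‖q.1‖ = 1 := by simp

theorem q0 (q : S2) : q.1 ≠ 0 := fun e => by simpa [e] using nq q

theorem un_norm {a : V} (h : a ≠ 0) : ‖un a‖ = 1 := by
  rw [un, norm_smul, norm_inv, norm_norm, inv_mul_cancel₀ (norm_ne_zero_iff.2 h)]

theorem nexp (t : ℝ) (q : S2) : ‖Real.exp t • q.1‖ = Real.exp t := by
  rw [norm_smul, nq, mul_one, Real.norm_eq_abs, abs_of_pos (Real.exp_pos t)]

theorem ne0 (t : ℝ) (q : S2) : Real.exp t • q.1 ≠ 0 := smul_ne_zero (Real.exp_pos t).ne' (q0 q)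

theorem un_exp (t : ℝ) (q : S2) : un (Real.exp t • q.1) = q.1 := by
  rw [un, nexp, smul_smul, inv_mul_cancel₀ (Real.exp_pos t).ne', one_smul]

theorem c1 (F : Fam O C θ β ε T) {z w : V} (hz : z ∈ O) (hw : w ≠ 0) : ContDiffAt ℝ 1 β (z, w) :=
  F.cβ.contDiffAt ((F.op.prod isOpen_ne).mem_nhds ⟨hz, hw⟩)

theorem cd (F : Fam O C θ β ε T) {z w : V} (hz : z ∈ O) (hw : w ≠ 0) (y : V × V) :
    ContinuousAt (fun p => fderiv ℝ β p y) (z, w) :=
  ((c1 F hz hw).continuousAt_fderiv one_ne_zero).clm_apply continuousAt_const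

theorem cb (F : Fam O C θ β ε T) (z : V) {w : V} (hw : w ≠ 0) : ContinuousAt β (z, w) :=
  F.c0.continuousAt ((isOpen_ne.preimage continuous_snd).mem_nhds hw)

theorem hun (F : Fam O C θ β ε T) (z : V) {w : V} (hw : w ≠ 0) : β (z, un w) = β (z, w) :=
  F.hom z w _ (inv_pos.2 (norm_pos_iff.2 hw))

theorem reg (F : Fam O C θ β ε T) {z : V} (hz : z ∈ O) (q : S2)
    (h : ¬∀ e, fderiv ℝ β (z, q.1) (0, e) = 0) : ∀ᶠ y : (V × V) × S2 in 𝓝 ((z, z), q), ∀ η : ℝ,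
      Lw (fun p : S2 => min (β (y.1.1, p.1) + η) (β (y.1.2, p.1))) y.2 := by
  classical
  obtain ⟨e, he⟩ : ∃ e, fderiv ℝ β (z, q.1) (0, e) < 0 := by
    obtain ⟨e, he⟩ := not_forall.1 h
    rcases (show _ ≠ _ from he).lt_or_gt with d | d
    · exact ⟨e, d⟩
    · refine ⟨-e, ?_⟩
      rw [show ((0 : V), -e) = -((0 : V), e) by simp, map_neg]
      exact neg_neg_of_pos d
  obtain ⟨ρ, ρ0, hρ⟩ := Metric.eventually_nhds_iff_ball.1
    (((cd F hz (q0 q) (0, e)).eventually_lt continuousAt_const he).and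
      ((F.op.prod isOpen_ne).mem_nhds (⟨hz, q0 q⟩ : (z, q.1) ∈ O ×ˢ {w : V | w ≠ 0})))
  rw [← ball_prod_same] at hρ
  have de : ∀ z' ∈ ball z ρ, ∀ w ∈ ball q.1 ρ, ∀ l : ℝ, 0 < l → w + l • e ∈ ball q.1 ρ →
      β (z', w + l • e) < β (z', w) := by
    intro z' hz' w hw l hl hl'
    have := dec (h := fun l => β (z', w + l • e)) hl fun m hm => by
      have h1 : w + m • e ∈ ball q.1 ρ := (convex_ball q.1 ρ).segment_subset hw hl'
        ⟨1 - m / l, m / l, sub_nonneg.2 ((div_le_one hl).2 hm.2), div_nonneg hm.1 hl.le, by ring, by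
          rw [smul_add, ← add_assoc, ← add_smul, smul_smul, div_mul_cancel₀ _ hl.ne']
          simp⟩
      have h2 := hρ (z', w + m • e) ⟨hz', h1⟩
      have d1 : HasDerivAt (fun m : ℝ => (z', w + m • e)) (0, e) m :=
        (hasDerivAt_const m z').prodMk (by
          simpa using ((hasDerivAt_id m).smul_const e).const_add w)
      exact ⟨_, ((c1 F h2.2.1 h2.2.2).differentiableAt one_ne_zero).hasFDerivAt.comp_hasDerivAt
        m d1, fun _ => h2.1⟩
    simpa using this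
  have t1 : ∀ᶠ y : (V × V) × S2 in 𝓝 ((z, z), q), y.1.1 ∈ ball z ρ :=
    (by fun_prop : ContinuousAt (fun y : (V × V) × S2 => y.1.1) _).eventually (ball_mem_nhds z ρ0)
  have t2 : ∀ᶠ y : (V × V) × S2 in 𝓝 ((z, z), q), y.1.2 ∈ ball z ρ :=
    (by fun_prop : ContinuousAt (fun y : (V × V) × S2 => y.1.2) _).eventually (ball_mem_nhds z ρ0)
  have t3 : ∀ᶠ y : (V × V) × S2 in 𝓝 ((z, z), q), y.2.1 ∈ ball q.1 (ρ / 2) :=
    (by fun_prop : ContinuousAt (fun y : (V × V) × S2 => y.2.1) _).eventually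
      (ball_mem_nhds q.1 (half_pos ρ0))
  filter_upwards [t1, t2, t3] with ⟨⟨z1, z2⟩, p⟩ h1 h2 h3 η
  have sub : ball p.1 (ρ / 2) ⊆ ball q.1 ρ := ball_subset_ball' (by
    have : dist p.1 q.1 < ρ / 2 := h3
    linarith)
  have nz : ∀ w ∈ ball p.1 (ρ / 2), w ≠ 0 := fun w hw => (hρ (z1, w) ⟨h1, sub hw⟩).2.2
  let ψ : V → S2 := fun w =>
    if h : w = 0 then p else ⟨un w, mem_sphere_zero_iff_norm.2 (un_norm h)⟩
  have pv : ∀ w, w ≠ 0 → (ψ w).1 = un w := fun w hw => by simp only [ψ, dif_neg hw]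
  have pp : ∀ y : S2, ψ y.1 = y := fun y => Subtype.ext (by rw [pv _ (q0 y), un, nq]; simp)
  have gv : ∀ w, w ≠ 0 → min (β (z1, (ψ w).1) + η) (β (z2, (ψ w).1)) =
      min (β (z1, w) + η) (β (z2, w)) := fun w hw => by rw [pv w hw, hun F _ hw, hun F _ hw]
  have hc : ∀ w, w ≠ 0 → ContinuousAt ψ w := fun w hw => by
    rw [IsInducing.subtypeVal.continuousAt_iff]
    refine ContinuousAt.congr (f := un) ?_ ((eventually_ne_nhds hw).mono fun y hy => (pv y hy).symm)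
    exact (continuousAt_id.norm.inv₀ (norm_ne_zero_iff.2 hw)).smul continuousAt_id
  have cz : ∀ z, Continuous fun p : S2 => β (z, p.1) := fun z => continuous_iff_continuousAt.2
    fun p => ContinuousAt.comp (f := fun p : S2 => (z, p.1)) (cb F z (q0 p)) (by fun_prop)
  have := low_dec (g := fun p : S2 => min (β (z1, p.1) + η) (β (z2, p.1))) (ψ := ψ) (w := p.1)
    (v := e) (half_pos ρ0) (fun w hw => hc w (nz w hw))
    (fun U hU => by
      rw [pp]
      exact mem_of_superset (continuous_subtype_val.continuousAt.preimage_mem_nhds hU)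
        fun y hy => ⟨y.1, hy, pp y⟩)
    (fun w hw => ((((cz z1).add continuous_const).min (cz z2)).continuousAt).comp (hc w (nz w hw)))
    (fun w hw l hl hl' => by
      rw [gv _ (nz _ hw), gv _ (nz _ hl')]
      exact min_lt_min (by linarith [de z1 h1 w (sub hw) l hl (sub hl')])
        (de z2 h2 w (sub hw) l hl (sub hl')))
  rwa [pp] at this

theorem ty (F : Fam O C θ β ε T) {a : V} (ha : a ≠ 0) (hO : C a ∈ O) (hj : jc C a ≠ 0) {q : S2}
    (hq : q.1 = un a) : (0 < ε * jc C a ∧ (Mi (fun p : S2 => β (C a, p.1)) q ∨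
      Lw (fun p : S2 => β (C a, p.1)) q)) ∨ (ε * jc C a < 0 ∧ L2 (fun p : S2 => β (C a, p.1)) q) := by
  obtain ⟨ι, φ, g⟩ := rowGn sGno q
  obtain ⟨H, h1, h2, h3⟩ := F.hess a ha hO q ι φ hq g
  have t := typ (f := fun p : S2 => β (C a, p.1)) (W := W) (by simp) g.ch h1
  have : ε * jc C a ≠ 0 := mul_ne_zero (by rcases F.eps with e | e <;> rw [e] <;> norm_num) hj
  exact this.lt_or_gt.symm.imp (fun d => ⟨d, t.1 (h2 d)⟩) fun d => ⟨d, t.2 (h3 d)⟩

theorem rr (F : Fam O C θ β ε T) {a : V} (ha : a ≠ 0) (hO : C a ∈ O) {q : S2}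
    (hq : q.1 = un a) : Rr C β a ↔ ¬Lw (fun p : S2 => β (C a, p.1)) q := by
  have e : Ls C β a = {p : S2 | β (C a, p.1) < β (C a, q.1)} := by
    rw [hq, hun F _ ha, (F.val a ha hO).1]
    rfl
  unfold Rr Lw
  rw [e]
  exact ⟨fun h => h q hq, fun h p hp => (Subtype.ext (hp.trans hq.symm) : p = q) ▸ h⟩

theorem ends {α : V → ℝ} {ξ x : V} (F : Fam O C θ β ε T) (w : Wg O α) (hξ : ξ ≠ 0)
    (ae : ∀ᵐ r : ℝ, x + r • ξ ∈ O → Gd C (x + r • ξ)) (ne : ∃ r : ℝ, α (x + r • ξ) ≠ 0) :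
    ∃ r₁ r₂ : ℝ, (∀ r ∈ Icc r₁ r₂, x + r • ξ ∈ O) ∧ (∀ r, α (x + r • ξ) ≠ 0 → r₁ < r ∧ r < r₂) ∧
      Gd C (x + r₁ • ξ) ∧ Gd C (x + r₂ • ξ) ∧
      ∀ s t, r₁ ≤ s → s < t → t ≤ r₂ → ∃ l, Gd C (x + l • ξ) ∧ s < l ∧ l < t := by
  have cl : Continuous fun r : ℝ => x + r • ξ := by fun_prop
  have em : IsClosedEmbedding fun r : ℝ => x + r • ξ :=
    (Homeomorph.addLeft x).isClosedEmbedding.comp (isClosedEmbedding_smul_left hξ)
  have cK := em.isCompact_preimage w.cs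
  obtain ⟨r0, h0⟩ := ne
  have nK : ((fun r : ℝ => x + r • ξ) ⁻¹' tsupport α).Nonempty := ⟨r0, subset_tsupport _ h0⟩
  obtain ⟨m, hm⟩ := cK.exists_isLeast nK
  obtain ⟨M, hM⟩ := cK.exists_isGreatest nK
  have op := F.op.preimage cl
  have dn : ∀ s t : ℝ, s < t → Ioo s t ⊆ (fun r : ℝ => x + r • ξ) ⁻¹' O →
      ∃ l, Gd C (x + l • ξ) ∧ s < l ∧ l < t := by
    intro s t hst hs
    by_contra hn
    have : volume (Ioo s t) = 0 :=
      measure_mono_null (fun l hl (h : _ → _) => hn ⟨l, h (hs hl), hl⟩) (ae_iff.1 ae)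
    simp at this
    linarith
  obtain ⟨s, t, h1, h2⟩ := mem_nhds_iff_exists_Ioo_subset.1 (op.mem_nhds (w.sub hm.1))
  obtain ⟨s', t', h1', h2'⟩ := mem_nhds_iff_exists_Ioo_subset.1 (op.mem_nhds (w.sub hM.1))
  obtain ⟨r₁, g1, a1, b1⟩ := dn s m h1.1 fun l hl => h2 ⟨hl.1, hl.2.trans h1.2⟩
  obtain ⟨r₂, g2, a2, b2⟩ := dn M t' h1'.2 fun l hl => h2' ⟨h1'.1.trans hl.1, hl.2⟩
  have cv : Convex ℝ ((fun r : ℝ => x + r • ξ) ⁻¹' O) := by
    intro a ha b hb c d hc hd hcd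
    have := F.cvx ha hb hc hd hcd
    rwa [show c • (x + a • ξ) + d • (x + b • ξ) = x + (c • a + d • b) • ξ by
      rw [smul_add, smul_add, add_add_add_comm, ← add_smul, hcd, one_smul, add_smul, smul_assoc,
        smul_assoc]] at this
  have hI : Icc r₁ r₂ ⊆ (fun r : ℝ => x + r • ξ) ⁻¹' O :=
    cv.ordConnected.out (h2 ⟨a1, b1.trans h1.2⟩) (h2' ⟨h1'.1.trans a2, b2⟩)
  exact ⟨r₁, r₂, hI, fun r hr => ⟨b1.trans_le (hm.2 (subset_tsupport _ hr)),
    (hM.2 (subset_tsupport _ hr)).trans_lt a2⟩, g1, g2, fun s t a b c =>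
      dn s t b fun l hl => hI ⟨a.trans hl.1.le, hl.2.le.trans c⟩⟩

end XLINE

open XLINE in
theorem xLINE : SLINE := by
  classical
  intro O C θ β ε T F α ξ x l γ w G
  rcases (Evt C θ α ξ x l).eq_empty_or_nonempty with hE | ⟨a0, h0⟩
  · simp [hE]
  have hξ : ξ ≠ 0 := by
    rintro rfl
    exact G.ne (by simpa [us] using h0.2.2.symm)
  have αe : ∀ a ∈ Evt C θ α ξ x l, α (C a) ≠ 0 := fun a ha e =>
    G.ne (by rw [← ha.2.2, us, e, zero_mul])
  obtain ⟨r₁, r₂, hO, hα, g1, g2, dn⟩ := ends F w hξ G.ae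
    (h0.2.1.imp fun r (hr : C a0 = x + r • ξ) => hr ▸ αe a0 h0)
  haveI := sSph.2.1
  haveI := sSph.2.2
  let A : ℝ × S2 → V := fun e => Real.exp (β (x + e.1 • ξ, e.2.1)) • e.2.1
  let Z : Set (ℝ × S2) := {e | ∀ v, fderiv ℝ β (x + e.1 • ξ, e.2.1) (0, v) = 0}
  have A0 : ∀ e, A e ≠ 0 := fun e => ne0 _ _
  have Au : ∀ e, e.2.1 = un (A e) := fun e => (un_exp _ _).symm
  have AC : ∀ e ∈ Z, x + e.1 • ξ ∈ O → C (A e) = x + e.1 • ξ := fun e he h =>
    F.crit _ h _ (nq _) he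
  have At : ∀ e ∈ Z, x + e.1 • ξ ∈ O → α (x + e.1 • ξ) * fderiv ℝ β (x + e.1 • ξ, e.2.1) (ξ, 0) =
      us C θ α ξ (A e) := fun e he h => by
    have := (F.val _ (A0 e) ((AC e he h).symm ▸ h)).2 ξ 0
    rw [← Au, AC e he h] at this
    rw [us, AC e he h, this]
  have cl : ∀ e : ℝ × S2, ContinuousAt (fun e : ℝ × S2 => (x + e.1 • ξ, e.2.1)) e := fun e => by
    fun_prop
  let Ev0 : Set (ℝ × S2) := {e | e.1 ∈ Icc r₁ r₂ ∧ e ∈ Z ∧
    α (x + e.1 • ξ) * fderiv ℝ β (x + e.1 • ξ, e.2.1) (ξ, 0) = l}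
  have mE : ∀ e ∈ Ev0, A e ∈ Evt C θ α ξ x l := fun e he =>
    ⟨A0 e, ⟨e.1, AC e he.2.1 (hO _ he.1)⟩, (At e he.2.1 (hO _ he.1)).symm.trans he.2.2⟩
  have iE : InjOn A Ev0 := fun e he e' he' h => Prod.ext (smul_left_injective ℝ hξ
    (add_left_cancel (a := x) (by
      rw [← AC e he.2.1 (hO _ he.1), ← AC e' he'.2.1 (hO _ he'.1), h])))
    (Subtype.ext (by rw [Au, Au, h]))
  have sE : ∀ a ∈ Evt C θ α ξ x l, ∃ e ∈ Ev0, A e = a := by
    rintro a ha
    obtain ⟨r, hr⟩ := ha.2.1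
    have h1 := hα r (hr ▸ αe a ha)
    have h2 : r ∈ Icc r₁ r₂ := ⟨h1.1.le, h1.2.le⟩
    have h3 := F.val a ha.1 (hr ▸ hO r h2)
    have h4 : ((r, ⟨un a, mem_sphere_zero_iff_norm.2 (un_norm ha.1)⟩) : ℝ × S2) ∈ Z := fun v => by
      simpa [← hr] using h3.2 0 v
    have h5 : A (r, ⟨un a, mem_sphere_zero_iff_norm.2 (un_norm ha.1)⟩) = a := by
      simp only [A, ← hr]
      rw [hun F _ ha.1, h3.1, Real.exp_log (norm_pos_iff.2 ha.1), un, smul_smul,
        mul_inv_cancel₀ (norm_ne_zero_iff.2 ha.1), one_smul]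
    exact ⟨_, ⟨h2, h4, by rw [At _ h4 (hO r h2), h5, ha.2.2]⟩, h5⟩
  have fE : Ev0.Finite := Finite.of_finite_image (G.fin.subset (by
    rintro _ ⟨e, he, rfl⟩
    exact mE e he)) iE
  have fC : ∀ r, Gd C (x + r • ξ) → r ∈ Icc r₁ r₂ → {q | (r, q) ∈ Z}.Finite := fun r g hr =>
    Finite.of_finite_image (f := fun q => A (r, q)) (g.1.subset (by
      rintro _ ⟨q, hq, rfl⟩
      exact ⟨A0 _, AC _ hq (hO r hr)⟩)) fun q _ q' _ h =>
        Subtype.ext ((Au (r, q)).trans (by rw [show A (r, q) = A (r, q') from h, ← Au]))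
  let Cr : ℝ → Finset S2 := fun r => if h : {q | (r, q) ∈ Z}.Finite then h.toFinset else ∅
  have hCr : ∀ r, Gd C (x + r • ξ) → r ∈ Icc r₁ r₂ → ∀ q, q ∈ Cr r ↔ (r, q) ∈ Z :=
    fun r g hr q => by simp only [Cr, dif_pos (fC r g hr), Finite.mem_toFinset, mem_setOf_eq]
  have rg : ∀ r ∈ Icc r₁ r₂, ∀ q, (r, q) ∉ Z → ∀ᶠ y : (ℝ × ℝ) × S2 in 𝓝 ((r, r), q), ∀ η : ℝ,
      Lw (fun p : S2 => min (β (x + y.1.1 • ξ, p.1) + η) (β (x + y.1.2 • ξ, p.1))) y.2 :=
    fun r hr q hq => (by fun_prop : ContinuousAt (fun y : (ℝ × ℝ) × S2 =>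
      ((x + y.1.1 • ξ, x + y.1.2 • ξ), y.2)) ((r, r), q)).eventually (reg F (hO r hr) q hq)
  have tE : ∀ e ∈ Z, e.1 ∈ Icc r₁ r₂ → Gd C (x + e.1 • ξ) →
      (0 < ε * jc C (A e) ∧ (Mi (fun p : S2 => β (x + e.1 • ξ, p.1)) e.2 ∨
        Lw (fun p : S2 => β (x + e.1 • ξ, p.1)) e.2)) ∨
      (ε * jc C (A e) < 0 ∧ L2 (fun p : S2 => β (x + e.1 • ξ, p.1)) e.2) := fun e he h g => by
    have h1 := AC e he (hO _ h)
    have := ty F (A0 e) (h1.symm ▸ hO _ h) (g.2.1 _ (A0 e) h1) (Au e)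
    rwa [h1] at this
  have gE : ∀ e ∈ Ev0, Gd C (x + e.1 • ξ) := fun e he =>
    AC e he.2.1 (hO _ he.1) ▸ G.gd _ (mE e he)
  have n1 : α (x + r₁ • ξ) = 0 := not_not.1 fun h => lt_irrefl _ (hα _ h).1
  have n2 : α (x + r₂ • ξ) = 0 := not_not.1 fun h => lt_irrefl _ (hα _ h).2
  have L : Ln (fun r (p : S2) => β (x + r • ξ, p.1))
      (fun r p => fderiv ℝ β (x + r • ξ, p.1) (ξ, 0)) Z (fun r => α (x + r • ξ)) l
      {r | Gd C (x + r • ξ)} Cr fE.toFinset (fun e => if 0 < γ (A e) then 1 else -1) r₁ r₂ := by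
    refine ⟨?_, fun r hr q => ?_, fun r hr q => ?_, fun r _ => ?_, fun r _ => w.nn _, n1, n2,
      G.ne, fun r hr q hq => ?_, rg, g1, g2, dn, fun r g hr => ⟨?_, fun q => ?_, ?_⟩, hCr,
      fun e => fE.mem_toFinset, fun e he => gE e (fE.mem_toFinset.1 he), fun e _ => ?_,
      fun e he e' he' h => ?_, fun e he => ?_⟩
    · obtain ⟨r, hr⟩ := h0.2.1
      have := hα r (hr ▸ αe a0 h0)
      exact (this.1.trans this.2).le
    · have d1 : HasDerivAt (fun r : ℝ => (x + r • ξ, q.1)) (ξ, 0) r :=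
        HasDerivAt.prodMk (by simpa using ((hasDerivAt_id r).smul_const ξ).const_add x)
          (hasDerivAt_const r q.1)
      exact ((c1 F (hO r hr) (q0 q)).differentiableAt one_ne_zero).hasFDerivAt.comp_hasDerivAt r d1
    · exact ContinuousAt.comp (f := fun e : ℝ × S2 => (x + e.1 • ξ, e.2.1)) (x := (r, q))
        (cd F (hO r hr) (q0 q) (ξ, 0)) (cl _)
    · exact (w.c1.continuous.comp (by fun_prop)).continuousAt
    · obtain ⟨v, hv⟩ := not_forall.1 hq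
      exact ((ContinuousAt.comp (f := fun e : ℝ × S2 => (x + e.1 • ξ, e.2.1)) (x := (r, q))
        (g := fun p => fderiv ℝ β p (0, v))
        (cd F (hO r hr) (q0 q) (0, v)) (cl (r, q))).eventually_ne hv).mono fun y hy h => hy (h v)
    · exact continuous_iff_continuousAt.2 fun p => ContinuousAt.comp
        (f := fun p : S2 => (x + r • ξ, p.1)) (cb F _ (q0 p)) (by fun_prop)
    · by_cases hq : (r, q) ∈ Z
      · rcases tE _ hq hr g with ⟨-, d | d⟩ | ⟨-, d⟩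
        · exact Or.inr ⟨(hCr r g hr q).2 hq, Or.inl d⟩
        · exact Or.inl d
        · exact Or.inr ⟨(hCr r g hr q).2 hq, Or.inr d⟩
      · exact Or.inl (by simpa using (rg r hr q hq).self_of_nhds 0)
    · intro q hq q' hq' h
      have := g.2.2 _ _ (A0 (r, q)) (A0 (r, q')) (AC _ ((hCr r g hr q).1 hq) (hO r hr))
        (AC _ ((hCr r g hr q').1 hq') (hO r hr)) (by
          simp only [A, nexp]
          exact congrArg Real.exp h)
      exact Subtype.ext ((Au (r, q)).trans (by rw [this, ← Au]))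
    · split_ifs <;> simp
    · have h1 := fE.mem_toFinset.1 he
      have h2 := fE.mem_toFinset.1 he'
      rw [G.same _ (mE e h1) _ (mE e' h2) (by
        rw [AC e h1.2.1 (hO _ h1.1), AC e' h2.2.1 (hO _ h2.1), h])]
    · have h1 := fE.mem_toFinset.1 he
      have h2 := AC e h1.2.1 (hO _ h1.1)
      obtain ⟨γ0, η, e1, e2⟩ := G.der _ (mE e h1)
      have nb : {a : V | a ≠ 0} ∈ 𝓝 (A e) := isOpen_ne.mem_nhds (A0 e)
      have dC := (F.cC.contDiffAt nb).differentiableAt one_ne_zero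
      have du : DifferentiableAt ℝ (us C θ α ξ) (A e) :=
        ((w.c1.differentiable one_ne_zero _).comp _ dC).mul
          (((F.cθ.contDiffAt nb).differentiableAt one_ne_zero).inner ℝ (differentiableAt_const ξ))
      have k := crs dC ((gE e h1).2.1 _ (A0 e) h2) du e1 (e2 ▸ γ0)
      have cA : ContinuousAt A e := (Real.continuous_exp.continuousAt.comp (ContinuousAt.comp
        (f := fun e : ℝ × S2 => (x + e.1 • ξ, e.2.1)) (cb F _ (q0 e.2)) (cl e))).smul (by fun_prop)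
      have o1 : ∀ᶠ y : ℝ × S2 in 𝓝 e, x + y.1 • ξ ∈ O :=
        (by fun_prop : ContinuousAt (fun y : ℝ × S2 => x + y.1 • ξ) e).eventually
          (F.op.mem_nhds (hO _ h1.1))
      filter_upwards [cA.eventually k, o1] with y k1 k2 hy hn
      have k3 := k1 (y.1 - e.1) (sub_ne_zero.2 hn) (by
        rw [AC y hy k2, h2, sub_smul, add_sub_add_left_eq_sub])
      rw [e2, (mE e h1).2.2, ← At y hy k2] at k3
      split_ifs with d
      · simpa using (mul_pos_iff_of_pos_left d).1 k3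
      · have := neg_of_mul_pos_right k3 (not_lt.1 d)
        simpa using this
  have key := L.line
  have e1 : ∀ Q : V → Prop, {a ∈ Evt C θ α ξ x l | Q a}.ncard =
      (fE.toFinset.filter fun e => Q (A e)).card := fun Q => by
    rw [← ncard_coe_finset, ← (iE.mono fun e he => by
      simpa using (Finset.mem_filter.1 he).1).ncard_image]
    congr 1
    ext a
    constructor
    · rintro ⟨h1, h2⟩
      obtain ⟨e, he, rfl⟩ := sE a h1
      exact ⟨e, Finset.mem_filter.2 ⟨fE.mem_toFinset.2 he, h2⟩, rfl⟩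
    · rintro ⟨e, he, rfl⟩
      exact ⟨mE e (fE.mem_toFinset.1 (Finset.mem_filter.1 he).1), (Finset.mem_filter.1 he).2⟩
  rw [e1, e1, ← Nat.cast_le (α := ℤ), ← sub_nonpos, Finset.card_filter, Finset.card_filter]
  push_cast
  rw [← Finset.sum_sub_distrib]
  refine le_of_eq_of_le (Finset.sum_congr rfl fun e he => ?_) key
  have h1 := fE.mem_toFinset.1 he
  have h2 := AC e h1.2.1 (hO _ h1.1)
  have h3 := rr F (A0 e) (h2.symm ▸ hO _ h1.1) (Au e)
  rw [h2] at h3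
  have γ0 := (G.der _ (mE e h1)).1
  rw [h3, st]
  by_cases b : Lw (fun p : S2 => β (x + e.1 • ξ, p.1)) e.2
  · simp [b, fun m : Mi (fun p : S2 => β (x + e.1 • ξ, p.1)) e.2 => m.not_cl b.1,
      show ¬Mi (fun p : S2 => β (x + e.1 • ξ, p.1)) e.2 from fun m => m.not_cl b.1]
  · rcases tE e h1.2.1 h1.1 (gE e h1) with ⟨c, d⟩ | ⟨c, d⟩
    · rw [if_pos (d.resolve_right b)]
      rcases γ0.lt_or_gt with g | g
      · have := mul_neg_of_pos_of_neg c g
        simp [b, this, this.not_gt, g.not_gt]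
      · have := mul_pos c g
        simp [b, this, this.not_gt, g]
    · rw [if_neg fun m : Mi _ _ => m.not_cl d.1, if_neg b]
      rcases γ0.lt_or_gt with g | g
      · have := mul_pos_of_neg_of_neg c g
        simp [b, this, this.not_gt, g.not_gt]
      · have := mul_neg_of_neg_of_pos c g
        simp [b, this, this.not_gt, g]

end Pool.Agent.MP_3ee8cb_gt.D3NP
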